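import Mathlib

/-! Heights of point ideals; choice of `n` equations. -/

open MvPolynomial

namespace Bez

variable {k : Type*} [Field k]

/-- The maximal ideal of a point. -/
noncomputable def mid {σ : Type*} (P : σ → k) : Ideal (MvPolynomial σ k) := RingHom.ker (eval P)

theorem mem_mid {σ : Type*} {P : σ → k} {p : MvPolynomial σ k} : p ∈ mid P ↔ eval P p = 0 :=
  RingHom.mem_ker

instance {σ : Type*} (P : σ → k) : (mid P).IsMaximal := by
  apply RingHom.ker_isMaximal_of_surjective
  intro c
  exact ⟨C c, by simp⟩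

instance {σ : Type*} (P : σ → k) : (mid P).IsPrime := Ideal.IsMaximal.isPrime inferInstance

/-- Every maximal ideal is a point ideal. -/
theorem exists_mid [IsAlgClosed k] {σ : Type*} [Finite σ] (I : Ideal (MvPolynomial σ k))
    (hI : I.IsMaximal) : ∃ P, I = mid P := by
  obtain ⟨x, hx⟩ := (isMaximal_iff_eq_vanishingIdeal_singleton (σ := σ) (K := k)).mp hI
  refine ⟨x, ?_⟩
  rw [hx]
  ext p
  rw [mem_vanishingIdeal_singleton_iff, mem_mid]
  rfl

/-- Translation. -/
noncomputable def trans {σ : Type*} (c : σ → k) : MvPolynomial σ k ≃ₐ[k] MvPolynomial σ k :=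
  AlgEquiv.ofAlgHom (aeval (fun i => X i + C (c i))) (aeval (fun i => X i - C (c i)))
    (by ext i; simp) (by ext i; simp)

theorem eval_trans {σ : Type*} (c P : σ → k) (p : MvPolynomial σ k) :
    eval P (trans c p) = eval (P + c) p := by
  have h : (aeval P : MvPolynomial σ k →ₐ[k] k).comp (trans c : MvPolynomial σ k →ₐ[k] _)
      = aeval (P + c) := by
    ext i
    simp [trans]
  have := congrArg (fun φ : MvPolynomial σ k →ₐ[k] k => φ p) h
  simpa [aeval_eq_eval] using this

theorem comap_trans {σ : Type*} (c P : σ → k) :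
    (mid P).comap ((trans c : MvPolynomial σ k ≃+* MvPolynomial σ k)) = mid (P + c) := by
  ext p
  rw [Ideal.mem_comap, mem_mid, mem_mid, ← eval_trans]
  rfl

theorem dim_eq {σ : Type*} [Finite σ] :
    ringKrullDim (MvPolynomial σ k) = (Nat.card σ : ℕ) := by
  rw [MvPolynomial.ringKrullDim_of_isNoetherianRing, ringKrullDim_eq_zero_of_field, zero_add]

instance {σ : Type*} [Finite σ] : FiniteRingKrullDim (MvPolynomial σ k) := by
  rw [finiteRingKrullDim_iff_ne_bot_and_top, dim_eq]
  constructor
  · exact WithBot.coe_ne_bot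
  · have h1 : (((Nat.card σ : ℕ) : ℕ∞) : WithBot ℕ∞) ≠ ((⊤ : ℕ∞) : WithBot ℕ∞) :=
      WithBot.coe_injective.ne (ENat.natCast_ne_top _)
    exact h1

theorem height_mid [IsAlgClosed k] {σ : Type*} [Finite σ] (P : σ → k) :
    (mid P).height = (Nat.card σ : ℕ∞) := by
  obtain ⟨M, hM, hh⟩ := Ideal.exists_isMaximal_height (R := MvPolynomial σ k)
  obtain ⟨Q, rfl⟩ := exists_mid M hM
  rw [dim_eq] at hh
  have h1 : (mid P).height = (mid Q).height := by
    have h2 : mid P = (mid Q).comap ((trans (P - Q) : MvPolynomial σ k ≃+* MvPolynomial σ k)) := by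
      rw [comap_trans]
      congr 1
      abel
    rw [h2]
    exact RingEquiv.height_comap _ _
  rw [h1]
  exact_mod_cast hh

/-- Choice of `i` equations cutting down the dimension. -/
theorem exists_equations [IsAlgClosed k] {σ : Type*} [Finite σ] (F : Set (MvPolynomial σ k))
    (S : Set (σ → k)) (hiso : ∀ P ∈ S, ∀ q : Ideal (MvPolynomial σ k), q.IsPrime → F ⊆ q →
      q ≤ mid P → q = mid P) (i : ℕ) (hi : i ≤ Nat.card σ) :
    ∃ g : Fin i → MvPolynomial σ k, (∀ j, g j ∈ Submodule.span k F) ∧
      ∀ P ∈ S, ∀ q ∈ (Ideal.span (Set.range g)).minimalPrimes, q ≤ mid P → (i : ℕ∞) ≤ q.height := by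
  classical
  induction i with
  | zero =>
    exact ⟨Fin.elim0, fun j => j.elim0, fun _ _ _ _ _ => by simp⟩
  | succ i ih =>
    obtain ⟨g, hg, hgh⟩ := ih (by omega)
    -- the bad primes
    have hfin : (Ideal.span (Set.range g)).minimalPrimes.Finite :=
      Ideal.finite_minimalPrimes_of_isNoetherianRing _ _
    set bad := hfin.toFinset.filter (fun p : Ideal (MvPolynomial σ k) =>
      ¬ F ⊆ (p : Set (MvPolynomial σ k))) with hbad
    set V := Submodule.span k F with hV
    have hex : ∃ g' ∈ V, ∀ p ∈ bad, g' ∉ p := by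
      by_contra hcon
      push Not at hcon
      have : Infinite k := IsAlgClosed.instInfinite
      have hcov : ⋃ p ∈ bad.image (fun p : Ideal (MvPolynomial σ k) =>
          ((p.restrictScalars k).comap V.subtype)), (p : Set V) = Set.univ := by
        rw [Set.eq_univ_iff_forall]
        intro x
        obtain ⟨p, hp, hxp⟩ := hcon x x.2
        rw [Set.mem_iUnion₂]
        exact ⟨_, Finset.mem_image_of_mem _ hp, hxp⟩
      have htop := Subspace.top_mem_of_biUnion_eq_univ hcov
      rw [Finset.mem_image] at htop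
      obtain ⟨p, hp, hptop⟩ := htop
      rw [hbad, Finset.mem_filter] at hp
      apply hp.2
      intro x hx
      have h1 : (⟨x, Submodule.subset_span hx⟩ : V) ∈ (⊤ : Submodule k V) := trivial
      rw [← hptop] at h1
      exact h1
    obtain ⟨g', hg'V, hg'⟩ := hex
    refine ⟨Fin.snoc g g', ?_, ?_⟩
    · intro j
      refine Fin.lastCases ?_ (fun j => ?_) j
      · rw [Fin.snoc_last]; exact hg'V
      · rw [Fin.snoc_castSucc]; exact hg j
    · intro P hP q hq hqP
      have hqprime : q.IsPrime := hq.isPrime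
      have hle : Ideal.span (Set.range g) ≤ q := by
        refine le_trans (Ideal.span_mono ?_) hq.le
        rintro _ ⟨j, rfl⟩
        exact ⟨j.castSucc, by rw [Fin.snoc_castSucc]⟩
      have hg'q : g' ∈ q := hq.le (Ideal.subset_span ⟨Fin.last i, by rw [Fin.snoc_last]⟩)
      obtain ⟨p, hp, hpq⟩ := Ideal.exists_minimalPrimes_le hle
      have hpprime : p.IsPrime := hp.isPrime
      by_cases hF : F ⊆ p
      · have h1 := hiso P hP p hpprime hF (hpq.trans hqP)
        have h2 : q = mid P := le_antisymm hqP (h1 ▸ hpq)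
        rw [h2, height_mid]
        exact_mod_cast hi
      · have h1 : g' ∉ p := hg' p (by
          rw [hbad, Finset.mem_filter]
          exact ⟨by simpa using hp, hF⟩)
        have h2 : p < q := lt_of_le_of_ne hpq (by rintro rfl; exact h1 hg'q)
        have h3 := Ideal.height_add_one_le_of_lt_of_isPrime h2
        have h4 := hgh P hP p hp (hpq.trans hqP)
        calc ((i + 1 : ℕ) : ℕ∞) = (i : ℕ∞) + 1 := by push_cast; rfl
          _ ≤ p.height + 1 := by gcongr
          _ ≤ q.height := h3

/-- `n` equations with the same isolated points. -/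
theorem exists_n_equations [IsAlgClosed k] {σ : Type*} [Finite σ] (F : Set (MvPolynomial σ k))
    (S : Set (σ → k)) (hiso : ∀ P ∈ S, ∀ q : Ideal (MvPolynomial σ k), q.IsPrime → F ⊆ q →
      q ≤ mid P → q = mid P) :
    ∃ g : Fin (Nat.card σ) → MvPolynomial σ k, (∀ j, g j ∈ Submodule.span k F) ∧
      ∀ P ∈ S, ∀ q : Ideal (MvPolynomial σ k), q.IsPrime → (∀ j, g j ∈ q) → q ≤ mid P →
        q = mid P := by
  obtain ⟨g, hg, hgh⟩ := exists_equations F S hiso (Nat.card σ) le_rfl
  refine ⟨g, hg, ?_⟩
  intro P hP q hq hgq hqP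
  have hle : Ideal.span (Set.range g) ≤ q := by
    rw [Ideal.span_le]
    rintro _ ⟨j, rfl⟩
    exact hgq j
  obtain ⟨p, hp, hpq⟩ := Ideal.exists_minimalPrimes_le hle
  have hpprime : p.IsPrime := hp.isPrime
  have h1 := hgh P hP p hp (hpq.trans hqP)
  have h2 : p = mid P := by
    by_contra hne
    have hlt : p < mid P := lt_of_le_of_ne (hpq.trans hqP) hne
    have h3 := Ideal.height_add_one_le_of_lt_of_isPrime hlt
    rw [height_mid] at h3
    have h4 : ((Nat.card σ : ℕ) : ℕ∞) + 1 ≤ (Nat.card σ : ℕ) := le_trans (by gcongr) h3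
    have h5 : Nat.card σ + 1 ≤ Nat.card σ := by exact_mod_cast h4
    omega
  exact le_antisymm hqP (h2 ▸ hpq)

end Bez
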