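import Mathlib
import Pool.Agent.Lib.MP_60829e_nt.BezHeight

/-! Counting isolated zeros: the deformation argument. -/

open MvPolynomial

namespace Bez

variable {k : Type*} [Field k] {σ : Type*}

/-- The point `(0, P)`. -/
def lift (P : σ → k) : Option σ → k := fun o => o.elim 0 P

/-- The deformed equations. -/
noncomputable def G (g : σ → MvPolynomial σ k) (d : ℕ) (i : σ) : MvPolynomial (Option σ) k :=
  rename some (g i) + X none * X (some i) ^ d

/-- Setting the parameter to zero. -/
noncomputable def pr : MvPolynomial (Option σ) k →ₐ[k] MvPolynomial σ k :=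
  aeval (fun o => o.elim 0 X)

theorem eval_pr (P : σ → k) (x : MvPolynomial (Option σ) k) :
    eval P (pr x) = eval (lift P) x := by
  have h : (aeval P : MvPolynomial σ k →ₐ[k] k).comp pr = aeval (lift P) := by
    ext o
    cases o <;> simp [pr, lift]
  have := congrArg (fun φ : MvPolynomial (Option σ) k →ₐ[k] k => φ x) h
  simpa [aeval_eq_eval] using this

theorem eval_lift_rename (P : σ → k) (x : MvPolynomial σ k) :
    eval (lift P) (rename some x) = eval P x := by
  rw [eval_rename]
  rfl

theorem sub_pr_mem (x : MvPolynomial (Option σ) k) :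
    x - rename some (pr x) ∈ Ideal.span {(X none : MvPolynomial (Option σ) k)} := by
  induction x using MvPolynomial.induction_on with
  | C a =>
    have : (C a : MvPolynomial (Option σ) k) - rename some (pr (C a)) = 0 := by
      rw [pr, algHom_C, algebraMap_eq, rename_C, sub_self]
    rw [this]
    exact Ideal.zero_mem _
  | add p q hp hq =>
    have : p + q - rename some (pr (p + q)) = (p - rename some (pr p)) + (q - rename some (pr q)) := by
      rw [map_add, map_add]; ring
    rw [this]
    exact Ideal.add_mem _ hp hq
  | mul_X p o hp =>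
    cases o with
    | none =>
      have : p * X none - rename some (pr (p * X none)) = p * X none := by
        rw [map_mul, pr, aeval_X]
        simp
      rw [this]
      exact Ideal.mul_mem_left _ _ (Ideal.mem_span_singleton_self _)
    | some i =>
      have : p * X (some i) - rename some (pr (p * X (some i))) =
          (p - rename some (pr p)) * X (some i) := by
        rw [map_mul, map_mul]
        have : rename some (pr (X (some i) : MvPolynomial (Option σ) k)) = X (some i) := by
          rw [pr, aeval_X]
          simp
        rw [this]; ring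
      rw [this]
      exact Ideal.mul_mem_right _ _ hp

/-- An isolated point deforms. -/
theorem deform [IsAlgClosed k] [Finite σ] (g : σ → MvPolynomial σ k) {d : ℕ}
    (P : σ → k) (hgP : ∀ i, eval P (g i) = 0)
    (hiso : ∀ q : Ideal (MvPolynomial σ k), q.IsPrime → (∀ j, g j ∈ q) → q ≤ mid P → q = mid P) :
    ∃ p : Ideal (MvPolynomial (Option σ) k), p.IsPrime ∧ (∀ i, G g d i ∈ p) ∧
      p ≤ mid (lift P) ∧ X none ∉ p := by
  have hJ : Ideal.span (Set.range (G g d)) ≤ mid (lift P) := by
    rw [Ideal.span_le]
    rintro _ ⟨i, rfl⟩
    rw [SetLike.mem_coe, mem_mid, G, map_add, eval_lift_rename, hgP, map_mul, eval_X]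
    simp [lift]
  obtain ⟨p, hp, hpP⟩ := Ideal.exists_minimalPrimes_le hJ
  have hpprime : p.IsPrime := hp.isPrime
  have hGp : ∀ i, G g d i ∈ p := fun i => hp.le (Ideal.subset_span ⟨i, rfl⟩)
  refine ⟨p, hpprime, hGp, hpP, ?_⟩
  have hht : p.height ≤ (Nat.card σ : ℕ∞) := by
    refine (Ideal.height_le_card_of_mem_minimalPrimes_span (Set.finite_range _) hp).trans ?_
    have : (Set.range (G g d)).ncard ≤ Nat.card σ := by
      rw [← Set.image_univ, ← Set.ncard_univ σ]
      exact Set.ncard_image_le (Set.toFinite _)
    exact_mod_cast this
  have hne : p ≠ mid (lift P) := by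
    rintro rfl
    rw [height_mid] at hht
    have h1 : Nat.card (Option σ) ≤ Nat.card σ := by exact_mod_cast hht
    have := Fintype.ofFinite σ
    rw [Nat.card_eq_fintype_card, Nat.card_eq_fintype_card, Fintype.card_option] at h1
    omega
  intro hs
  apply hne
  set q := p.comap (rename (some : σ → Option σ) : MvPolynomial σ k →ₐ[k] _) with hq
  have hqprime : q.IsPrime := Ideal.IsPrime.comap _
  have hgq : ∀ j, g j ∈ q := by
    intro j
    rw [hq, Ideal.mem_comap]
    have : rename some (g j) = G g d j - X none * X (some j) ^ d := by rw [G]; ring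
    rw [this]
    exact Ideal.sub_mem _ (hGp j) (Ideal.mul_mem_right _ _ hs)
  have hqP : q ≤ mid P := by
    intro x hx
    rw [hq, Ideal.mem_comap] at hx
    have := hpP hx
    rw [mem_mid, eval_lift_rename] at this
    rw [mem_mid]
    exact this
  have hqe := hiso q hqprime hgq hqP
  refine le_antisymm hpP ?_
  intro x hx
  have h1 : pr x ∈ mid P := by
    rw [mem_mid, eval_pr]
    exact hx
  rw [← hqe, hq, Ideal.mem_comap] at h1
  have h2 : x - rename some (pr x) ∈ p := by
    have h3 : Ideal.span {(X none : MvPolynomial (Option σ) k)} ≤ p := by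
      rw [Ideal.span_le, Set.singleton_subset_iff]
      exact hs
    exact h3 (sub_pr_mem x)
  have : x = (x - rename some (pr x)) + rename some (pr x) := by ring
  rw [this]
  exact Ideal.add_mem _ h2 h1

/-- Scalars: polynomials in the parameter. -/
noncomputable def sc : Polynomial k →ₐ[k] MvPolynomial (Option σ) k := Polynomial.aeval (X none)

/-- The reduction operator. -/
noncomputable def red [DecidableEq σ] (g : σ → MvPolynomial σ k) (d : ℕ) :
    MvPolynomial σ k →ₗ[k] MvPolynomial σ k :=
  (basisMonomials σ k).constr k (fun a => open scoped Classical in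
    if h : ∃ i, d ≤ a i then -(g h.choose * monomial (a - Finsupp.single h.choose d) 1) else 0)

theorem red_of_exists [DecidableEq σ] (g : σ → MvPolynomial σ k) (d : ℕ) (a : σ →₀ ℕ)
    (h : ∃ i, d ≤ a i) : ∃ i, d ≤ a i ∧
      red g d (monomial a 1) = -(g i * monomial (a - Finsupp.single i d) 1) := by
  classical
  refine ⟨h.choose, h.choose_spec, ?_⟩
  have h1 : (monomial a (1 : k)) = basisMonomials σ k a := by
    rw [coe_basisMonomials]
  rw [red, h1, Module.Basis.constr_basis, dif_pos h]

theorem red_of_not [DecidableEq σ] (g : σ → MvPolynomial σ k) (d : ℕ) (a : σ →₀ ℕ)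
    (h : ¬ ∃ i, d ≤ a i) : red g d (monomial a 1) = 0 := by
  classical
  have h1 : (monomial a (1 : k)) = basisMonomials σ k a := by
    rw [coe_basisMonomials]
  rw [red, h1, Module.Basis.constr_basis, dif_neg h]

theorem red_mem [DecidableEq σ] (g : σ → MvPolynomial σ k) (d : ℕ)
    (hg : ∀ i, (g i).totalDegree ≤ d) (m : ℕ) (w : MvPolynomial σ k)
    (hw : w ∈ restrictTotalDegree σ k m) : red g d w ∈ restrictTotalDegree σ k m := by
  classical
  rw [mem_restrictTotalDegree] at hw
  rw [w.as_sum, map_sum]
  refine Submodule.sum_mem _ fun a ha => ?_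
  have h1 : monomial a (w.coeff a) = w.coeff a • monomial a 1 := by
    rw [smul_monomial, smul_eq_mul, mul_one]
  rw [h1, map_smul]
  apply Submodule.smul_mem
  have hdeg : a.degree ≤ m := by
    refine le_trans ?_ hw
    exact le_totalDegree ha
  by_cases h : ∃ i, d ≤ a i
  · obtain ⟨i, hi, hr⟩ := red_of_exists g d a h
    rw [hr]
    apply Submodule.neg_mem
    rw [mem_restrictTotalDegree]
    refine (totalDegree_mul _ _).trans ?_
    have h2 : (monomial (a - Finsupp.single i d) (1 : k)).totalDegree ≤
        (a - Finsupp.single i d).degree := by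
      exact totalDegree_monomial_le _ _
    have h3 : (a - Finsupp.single i d).degree + d = a.degree := by
      have h4 : a - Finsupp.single i d + Finsupp.single i d = a := by
        apply tsub_add_cancel_of_le
        rw [Finsupp.single_le_iff]
        exact hi
      conv_rhs => rw [← h4]
      rw [map_add, Finsupp.degree_single]
    have := hg i
    omega
  · rw [red_of_not g d a h]
    exact Submodule.zero_mem _

/-- Reduced monomials. -/
noncomputable def mon [Fintype σ] {d : ℕ} (b : σ → Fin d) : MvPolynomial (Option σ) k :=
  ∏ i, X (some i) ^ (b i : ℕ)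

/-- The module of elements that reduce. -/
def InU [Fintype σ] [DecidableEq σ] (g : σ → MvPolynomial σ k) (d : ℕ) (x : MvPolynomial (Option σ) k) : Prop :=
  ∃ y ∈ Ideal.span (Set.range (G g d)), ∃ r : (σ → Fin d) → Polynomial k,
    x = y + ∑ b, sc (r b) * mon b

variable [Fintype σ] [DecidableEq σ] {g : σ → MvPolynomial σ k} {d : ℕ}

theorem InU.add {x y : MvPolynomial (Option σ) k} (hx : InU g d x) (hy : InU g d y) :
    InU g d (x + y) := by
  obtain ⟨a, ha, r, rfl⟩ := hx
  obtain ⟨b, hb, t, rfl⟩ := hy
  refine ⟨a + b, Ideal.add_mem _ ha hb, r + t, ?_⟩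
  simp only [Pi.add_apply, map_add, add_mul, Finset.sum_add_distrib]
  ring

theorem InU.sc_mul {x : MvPolynomial (Option σ) k} (hx : InU g d x) (c : Polynomial k) :
    InU g d (sc c * x) := by
  obtain ⟨a, ha, r, rfl⟩ := hx
  refine ⟨sc c * a, Ideal.mul_mem_left _ _ ha, fun b => c * r b, ?_⟩
  rw [mul_add, Finset.mul_sum]
  congr 1
  apply Finset.sum_congr rfl
  intro b _
  rw [map_mul, mul_assoc]

theorem InU.smul {x : MvPolynomial (Option σ) k} (hx : InU g d x) (c : k) : InU g d (c • x) := by
  have : c • x = sc (Polynomial.C c) * x := by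
    rw [sc, Polynomial.aeval_C, Algebra.smul_def]
  rw [this]
  exact hx.sc_mul _

theorem InU.of_mem {x : MvPolynomial (Option σ) k} (hx : x ∈ Ideal.span (Set.range (G g d))) :
    InU g d x := ⟨x, hx, 0, by simp⟩

theorem InU.mon (b : σ → Fin d) : InU g d (mon b : MvPolynomial (Option σ) k) := by
  refine ⟨0, Ideal.zero_mem _, Pi.single b 1, ?_⟩
  rw [zero_add, Finset.sum_eq_single b]
  · simp
  · intro c _ hc
    rw [Pi.single_eq_of_ne hc, map_zero, zero_mul]
  · intro h
    exact absurd (Finset.mem_univ _) h

theorem InU.zero : InU g d (0 : MvPolynomial (Option σ) k) := InU.of_mem (Ideal.zero_mem _)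

omit [DecidableEq σ] in
theorem rename_monomial_eq (a : σ →₀ ℕ) :
    rename some (monomial a (1 : k)) = ∏ i, X (some i) ^ a i := by
  rw [monomial_eq, C_1, one_mul, Finsupp.prod, map_prod]
  simp only [map_pow, rename_X]
  apply Finset.prod_subset (Finset.subset_univ _)
  intro i _ hi
  rw [Finsupp.notMem_support_iff.mp hi, pow_zero]

/-- One reduction step. -/
theorem step (w : MvPolynomial σ k) :
    InU g d (X none * rename some w - rename some (red g d w)) := by
  induction w using MvPolynomial.induction_on' with
  | monomial a c =>
    have h1 : monomial a c = c • monomial a 1 := by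
      rw [smul_monomial, smul_eq_mul, mul_one]
    have h2 : X none * rename some (monomial a c) - rename some (red g d (monomial a c)) =
        c • (X none * rename some (monomial a 1) - rename some (red g d (monomial a (1 : k)))) := by
      rw [h1, map_smul, map_smul, map_smul, smul_sub, mul_smul_comm]
    rw [h2]
    apply InU.smul
    by_cases h : ∃ i, d ≤ a i
    · obtain ⟨i, hi, hr⟩ := red_of_exists g d a h
      apply InU.of_mem
      rw [hr]
      have h3 : rename some (monomial a (1 : k)) = rename some (monomial (a - Finsupp.single i d) 1)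
          * X (some i) ^ d := by
        have h4 : a = (a - Finsupp.single i d) + Finsupp.single i d := by
          rw [tsub_add_cancel_of_le]
          rw [Finsupp.single_le_iff]
          exact hi
        have h5 : monomial a (1 : k) = monomial (a - Finsupp.single i d) 1 *
            monomial (Finsupp.single i d) 1 := by
          rw [monomial_mul, mul_one, ← h4]
        rw [h5, map_mul]
        congr 1
        rw [← X_pow_eq_monomial, map_pow, rename_X]
      have h6 : X none * rename some (monomial a 1) - rename some
          (-(g i * monomial (a - Finsupp.single i d) 1)) =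
          G g d i * rename some (monomial (a - Finsupp.single i d) 1) := by
        rw [h3, map_neg, map_mul, G]; ring
      rw [h6]
      exact Ideal.mul_mem_right _ _ (Ideal.subset_span ⟨i, rfl⟩)
    · rw [red_of_not g d a h, map_zero, sub_zero, rename_monomial_eq]
      push Not at h
      have h3 : ∏ i, X (some i) ^ a i = (mon (fun i => (⟨a i, h i⟩ : Fin d)) :
          MvPolynomial (Option σ) k) := rfl
      rw [h3]
      have h4 : (X none : MvPolynomial (Option σ) k) = sc Polynomial.X := by
        rw [sc, Polynomial.aeval_X]
      rw [h4]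
      exact (InU.mon _).sc_mul _
  | add p q hp hq =>
    have : X none * rename some (p + q) - rename some (red g d (p + q)) =
        (X none * rename some p - rename some (red g d p)) +
          (X none * rename some q - rename some (red g d q)) := by
      simp only [map_add]; ring
    rw [this]
    exact hp.add hq

theorem step_pow (j : ℕ) (w : MvPolynomial σ k) :
    InU g d (X none ^ j * rename some w - rename some ((red g d ^ j) w)) := by
  induction j with
  | zero =>
    have : X none ^ 0 * rename some w - rename some ((red g d ^ 0) w) = 0 := by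
      simp
    rw [this]
    exact InU.zero
  | succ j ih =>
    have h4 : (X none : MvPolynomial (Option σ) k) = sc Polynomial.X := by
      rw [sc, Polynomial.aeval_X]
    have : X none ^ (j + 1) * rename some w - rename some ((red g d ^ (j + 1)) w) =
        sc Polynomial.X * (X none ^ j * rename some w - rename some ((red g d ^ j) w)) +
          (X none * rename some ((red g d ^ j) w) - rename some (red g d ((red g d ^ j) w))) := by
      rw [← h4, pow_succ' (red g d), Module.End.mul_apply]
      ring
    rw [this]
    exact (ih.sc_mul _).add (step _)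

theorem step_poly (c : Polynomial k) (w : MvPolynomial σ k) :
    InU g d (sc c * rename some w - rename some ((Polynomial.aeval (red g d) c) w)) := by
  induction c using Polynomial.induction_on' with
  | add p q hp hq =>
    have : sc (p + q) * rename some w - rename some ((Polynomial.aeval (red g d) (p + q)) w) =
        (sc p * rename some w - rename some ((Polynomial.aeval (red g d) p) w)) +
          (sc q * rename some w - rename some ((Polynomial.aeval (red g d) q) w)) := by
      simp only [map_add, LinearMap.add_apply]; ring
    rw [this]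
    exact hp.add hq
  | monomial j a =>
    have : sc (Polynomial.monomial j a) * rename some w -
        rename some ((Polynomial.aeval (red g d) (Polynomial.monomial j a)) w) =
        a • (X none ^ j * rename some w - rename some ((red g d ^ j) w)) := by
      rw [sc, Polynomial.aeval_monomial, Polynomial.aeval_monomial, Module.End.mul_apply,
        Module.algebraMap_end_apply, map_smul, smul_sub, Algebra.smul_def, Algebra.smul_def]
      ring
    rw [this]
    exact (step_pow j w).smul a

/-- A polynomial in the parameter brings all of a degree-bounded space to reduced form. -/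
theorem exists_reducer (hg : ∀ i, (g i).totalDegree ≤ d) (m : ℕ) :
    ∃ c : Polynomial k, c ≠ 0 ∧ ∀ w : MvPolynomial σ k, w.totalDegree ≤ m →
      InU g d (sc c * rename some w) := by
  set V := restrictTotalDegree σ k m with hV
  set N : V →ₗ[k] V := (red g d).restrict (fun w hw => red_mem g d hg m w hw) with hN
  refine ⟨LinearMap.charpoly N, (LinearMap.charpoly_monic N).ne_zero, ?_⟩
  intro w hw
  have h1 : ∀ (c : Polynomial k) (x : V), (((Polynomial.aeval N c) x : V) : MvPolynomial σ k) =
      (Polynomial.aeval (red g d) c) x := by
    intro c x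
    induction c using Polynomial.induction_on' with
    | add p q hp hq => simp only [map_add, LinearMap.add_apply, Submodule.coe_add, hp, hq]
    | monomial j a =>
      rw [Polynomial.aeval_monomial, Polynomial.aeval_monomial, Module.End.mul_apply,
        Module.End.mul_apply, Module.algebraMap_end_apply, Module.algebraMap_end_apply,
        Submodule.coe_smul]
      congr 1
      induction j with
      | zero => simp
      | succ j ih =>
        rw [pow_succ', pow_succ', Module.End.mul_apply, Module.End.mul_apply, ← ih]
        rfl
  have h2 := step_poly (g := g) (d := d) (LinearMap.charpoly N) w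
  have h3 : (Polynomial.aeval (red g d) (LinearMap.charpoly N)) w = 0 := by
    have h4 := h1 (LinearMap.charpoly N) ⟨w, (mem_restrictTotalDegree _ _ _).mpr hw⟩
    rw [LinearMap.aeval_self_charpoly] at h4
    simpa using h4.symm
  rw [h3, map_zero, sub_zero] at h2
  exact h2

/-- Linear dependence of `D + 1` elements. -/
theorem exists_relation (hg : ∀ i, (g i).totalDegree ≤ d) (h : MvPolynomial σ k) :
    ∃ C : Fin (d ^ Fintype.card σ + 1) → Polynomial k, C ≠ 0 ∧
      ∑ j, sc (C j) * rename some h ^ (j : ℕ) ∈ Ideal.span (Set.range (G g d)) := by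
  classical
  set D := d ^ Fintype.card σ with hD
  obtain ⟨c, hc0, hc⟩ := exists_reducer hg (D * h.totalDegree)
  have hex : ∀ j : Fin (D + 1), InU g d (sc c * rename some h ^ (j : ℕ)) := by
    intro j
    rw [← map_pow]
    apply hc
    refine (totalDegree_pow _ _).trans ?_
    exact Nat.mul_le_mul_right _ (by omega)
  choose y hy r hr using hex
  -- the linear map
  set Φ : (Fin (D + 1) → Polynomial k) →ₗ[Polynomial k] ((σ → Fin d) → Polynomial k) :=
    { toFun := fun C b => ∑ j, C j * r j b
      map_add' := by
        intro C C'
        funext b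
        simp only [Pi.add_apply, add_mul, Finset.sum_add_distrib]
      map_smul' := by
        intro a C
        funext b
        simp only [Pi.smul_apply, smul_eq_mul, RingHom.id_apply, Finset.mul_sum, mul_assoc] } with hΦ
  have hninj : ¬ Function.Injective Φ := by
    intro hinj
    have := card_le_of_injective (Polynomial k) Φ hinj
    rw [Fintype.card_fin, Fintype.card_fun, Fintype.card_fin, ← hD] at this
    omega
  rw [← LinearMap.ker_eq_bot, Submodule.eq_bot_iff] at hninj
  push Not at hninj
  obtain ⟨C, hCker, hC0⟩ := hninj
  refine ⟨fun j => C j * c, ?_, ?_⟩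
  · intro h0
    apply hC0
    funext j
    have := congrFun h0 j
    simp only [Pi.zero_apply, mul_eq_zero, hc0, or_false] at this
    exact this
  · have h1 : ∑ j, sc (C j * c) * rename some h ^ (j : ℕ) = ∑ j, sc (C j) * y j := by
      calc ∑ j, sc (C j * c) * rename some h ^ (j : ℕ)
          = ∑ j, sc (C j) * (y j + ∑ b, sc (r j b) * mon b) := by
            apply Finset.sum_congr rfl
            intro j _
            rw [← hr j, map_mul]; ring
        _ = ∑ j, sc (C j) * y j + ∑ b, sc (∑ j, C j * r j b) * mon b := by
            simp only [mul_add, Finset.sum_add_distrib]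
            congr 1
            simp only [Finset.mul_sum, map_sum, Finset.sum_mul]
            rw [Finset.sum_comm]
            apply Finset.sum_congr rfl
            intro b _
            apply Finset.sum_congr rfl
            intro j _
            rw [map_mul]; ring
        _ = ∑ j, sc (C j) * y j := by
            have h2 : ∀ b, ∑ j, C j * r j b = 0 := by
              intro b
              have := congrFun (LinearMap.mem_ker.mp hCker) b
              exact this
            simp only [h2, map_zero, zero_mul, Finset.sum_const_zero, add_zero]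
    rw [h1]
    exact Ideal.sum_mem _ fun j _ => Ideal.mul_mem_left _ _ (hy j)

omit [Fintype σ] [DecidableEq σ] in
theorem eval_lift_sc (P : σ → k) (c : Polynomial k) : eval (lift P) (sc c) = c.coeff 0 := by
  rw [sc, ← aeval_eq_eval]
  have h1 : (aeval (lift P) : MvPolynomial (Option σ) k →ₐ[k] k) (Polynomial.aeval (X none) c) =
      Polynomial.aeval ((aeval (lift P) : MvPolynomial (Option σ) k →ₐ[k] k) (X none)) c := by
    rw [Polynomial.aeval_algHom_apply]
  have h2 : (aeval (lift P) : MvPolynomial (Option σ) k →ₐ[k] k) (X none) = 0 := by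
    rw [aeval_X]; rfl
  have h3 := h1
  rw [h2, Polynomial.coeff_zero_eq_aeval_zero] at *
  exact h3

omit [DecidableEq σ] in
/-- A polynomial separating finitely many points. -/
theorem exists_separating [Infinite k] (S : Finset (σ → k)) :
    ∃ h : MvPolynomial σ k, Set.InjOn (fun P => eval P h) (S : Set (σ → k)) := by
  classical
  -- linear forms with coefficients powers of a generic element
  set e := Fintype.equivFin σ with he
  set L : k → MvPolynomial σ k := fun t => ∑ i, C (t ^ (e i : ℕ)) * X i with hL
  have hbad : ∀ P ∈ S, ∀ Q ∈ S, P ≠ Q → {t : k | eval P (L t) = eval Q (L t)}.Finite := by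
    intro P _ Q _ hPQ
    set q : Polynomial k := ∑ i, Polynomial.monomial (e i : ℕ) (P i - Q i) with hq
    have hq0 : q ≠ 0 := by
      obtain ⟨i, hi⟩ := Function.ne_iff.mp hPQ
      intro h0
      have h1 : q.coeff (e i : ℕ) = P i - Q i := by
        rw [hq, Polynomial.finsetSum_coeff, Finset.sum_eq_single i]
        · simp
        · intro j _ hj
          rw [Polynomial.coeff_monomial, if_neg]
          intro h
          exact hj (e.injective (Fin.ext h))
        · intro h
          exact absurd (Finset.mem_univ _) h
      rw [h0, Polynomial.coeff_zero] at h1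
      exact hi (sub_eq_zero.mp h1.symm)
    refine Set.Finite.subset (q.roots.toFinset.finite_toSet) ?_
    intro t ht
    rw [Finset.mem_coe, Multiset.mem_toFinset, Polynomial.mem_roots hq0, Polynomial.IsRoot.def, hq,
      Polynomial.eval_finsetSum]
    have h2 : ∀ P : σ → k, eval P (L t) = ∑ i, t ^ (e i : ℕ) * P i := by
      intro P
      rw [hL, map_sum]
      simp
    rw [Set.mem_ofPred_eq, h2, h2] at ht
    simp only [Polynomial.eval_monomial, sub_mul, Finset.sum_sub_distrib]
    rw [sub_eq_zero]
    simp only [mul_comm (t ^ _)] at ht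
    exact ht
  have hfin : (⋃ P ∈ S, ⋃ Q ∈ S, ⋃ (_ : P ≠ Q), {t : k | eval P (L t) = eval Q (L t)}).Finite := by
    refine Set.Finite.biUnion S.finite_toSet fun P hP => Set.Finite.biUnion S.finite_toSet
      fun Q hQ => ?_
    refine Set.finite_iUnion fun hPQ => hbad P hP Q hQ hPQ
  obtain ⟨t, ht⟩ := hfin.exists_notMem
  refine ⟨L t, ?_⟩
  intro P hP Q hQ hPQ
  by_contra hne
  apply ht
  simp only [Set.mem_iUnion]
  exact ⟨P, hP, Q, hQ, hne, hPQ⟩

/-- The counting theorem for `n` equations. -/
theorem count [Infinite k] (hg : ∀ i, (g i).totalDegree ≤ d) (S : Finset (σ → k))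
    (hS : ∀ P ∈ S, ∃ p : Ideal (MvPolynomial (Option σ) k), p.IsPrime ∧ (∀ i, G g d i ∈ p) ∧
      p ≤ mid (lift P) ∧ X none ∉ p) : S.card ≤ d ^ Fintype.card σ := by
  classical
  obtain ⟨h, hh⟩ := exists_separating S
  obtain ⟨c, hc0, hc⟩ := exists_relation hg h
  -- divide by a power of the parameter
  obtain ⟨j₁, hj₁⟩ := Function.ne_iff.mp hc0
  set T := Finset.univ.filter (fun j => c j ≠ 0) with hT
  have hTne : T.Nonempty := ⟨j₁, by rw [hT, Finset.mem_filter]; exact ⟨Finset.mem_univ _, hj₁⟩⟩
  obtain ⟨j₀, hj₀, hmin⟩ := T.exists_min_image (fun j => (c j).natTrailingDegree) hTne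
  set m := (c j₀).natTrailingDegree with hm
  have hj₀' : c j₀ ≠ 0 := (Finset.mem_filter.mp hj₀).2
  have hdvd : ∀ j, Polynomial.X ^ m ∣ c j := by
    intro j
    rw [Polynomial.X_pow_dvd_iff]
    intro i hi
    by_cases hj : c j = 0
    · rw [hj, Polynomial.coeff_zero]
    · apply Polynomial.coeff_eq_zero_of_lt_natTrailingDegree
      exact lt_of_lt_of_le hi (hmin j (by rw [hT, Finset.mem_filter]; exact ⟨Finset.mem_univ _, hj⟩))
  choose c' hc' using hdvd
  have hcoef : (c' j₀).coeff 0 ≠ 0 := by
    have h1 : (c j₀).coeff m = (c' j₀).coeff 0 := by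
      rw [hc' j₀, mul_comm]
      have := Polynomial.coeff_mul_X_pow (c' j₀) m 0
      rwa [zero_add] at this
    rw [← h1]
    exact Polynomial.trailingCoeff_nonzero_iff_nonzero.mpr hj₀'
  set χ : Polynomial k := ∑ j : Fin (d ^ Fintype.card σ + 1), Polynomial.monomial (j : ℕ) ((c' j).coeff 0) with hχ
  have hχ0 : χ ≠ 0 := by
    intro h0
    have h1 : χ.coeff (j₀ : ℕ) = (c' j₀).coeff 0 := by
      rw [hχ, Polynomial.finsetSum_coeff, Finset.sum_eq_single j₀]
      · simp
      · intro j _ hj
        rw [Polynomial.coeff_monomial, if_neg]
        intro h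
        exact hj (Fin.ext h)
      · intro h
        exact absurd (Finset.mem_univ _) h
    rw [h0, Polynomial.coeff_zero] at h1
    exact hcoef h1.symm
  have hdeg : χ.natDegree ≤ d ^ Fintype.card σ := by
    rw [hχ]
    apply Polynomial.natDegree_sum_le_of_forall_le
    intro j _
    refine (Polynomial.natDegree_monomial_le _).trans ?_
    omega
  have hroot : ∀ P ∈ S, χ.IsRoot (eval P h) := by
    intro P hP
    obtain ⟨p, hp, hGp, hpP, hXp⟩ := hS P hP
    have hle : Ideal.span (Set.range (G g d)) ≤ p := by
      rw [Ideal.span_le]
      rintro _ ⟨i, rfl⟩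
      exact hGp i
    have h1 : X none ^ m * ∑ j, sc (c' j) * rename some h ^ (j : ℕ) ∈ p := by
      have h2 : X none ^ m * ∑ j, sc (c' j) * rename some h ^ (j : ℕ) =
          ∑ j, sc (c j) * rename some h ^ (j : ℕ) := by
        rw [Finset.mul_sum]
        apply Finset.sum_congr rfl
        intro j _
        rw [hc' j, map_mul, map_pow]
        have h4 : sc Polynomial.X = (X none : MvPolynomial (Option σ) k) := by
          rw [sc, Polynomial.aeval_X]
        rw [h4]; ring
      rw [h2]
      exact hle hc
    have h2 : ∑ j, sc (c' j) * rename some h ^ (j : ℕ) ∈ p := by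
      rcases hp.mem_or_mem h1 with h3 | h3
      · exact absurd (hp.mem_of_pow_mem _ h3) hXp
      · exact h3
    have h3 := hpP h2
    rw [mem_mid, map_sum] at h3
    rw [Polynomial.IsRoot.def, hχ, Polynomial.eval_finsetSum, ← h3]
    apply Finset.sum_congr rfl
    intro j _
    rw [map_mul, map_pow, eval_lift_sc, eval_lift_rename, Polynomial.eval_monomial]
  calc S.card = (S.image (fun P => eval P h)).card := (Finset.card_image_of_injOn hh).symm
    _ ≤ χ.roots.toFinset.card := by
        apply Finset.card_le_card
        intro x hx
        rw [Finset.mem_image] at hx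
        obtain ⟨P, hP, rfl⟩ := hx
        rw [Multiset.mem_toFinset, Polynomial.mem_roots hχ0]
        exact hroot P hP
    _ ≤ Multiset.card χ.roots := Multiset.toFinset_card_le _
    _ ≤ χ.natDegree := Polynomial.card_roots' χ
    _ ≤ d ^ Fintype.card σ := hdeg

end Bez
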