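import Mathlib
import Pool.Agent.Lib.MP_60829e_nt.BezHeight
import Pool.Agent.Lib.MP_60829e_nt.BezCount

/-! The Bezout bound for isolated zeros. -/

open MvPolynomial

namespace Bez

variable {k : Type*} [Field k] [IsAlgClosed k] {σ : Type*} [Finite σ]

/-- Bezout's inequality for isolated zeros. -/
theorem isolated_bound (F : Set (MvPolynomial σ k)) (d : ℕ) (hd : ∀ p ∈ F, p.totalDegree ≤ d)
    (S : Finset (σ → k)) (hS : ∀ P ∈ S, ∀ p ∈ F, eval P p = 0)
    (hiso : ∀ P ∈ S, ∀ q : Ideal (MvPolynomial σ k), q.IsPrime → F ⊆ q → q ≤ mid P → q = mid P) :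
    S.card ≤ d ^ Nat.card σ := by
  classical
  have := Fintype.ofFinite σ
  have : Infinite k := IsAlgClosed.instInfinite
  obtain ⟨g, hg, hgi⟩ := exists_n_equations F (S : Set (σ → k)) (fun P hP => hiso P hP)
  set e := Finite.equivFin σ with he
  have hspan : ∀ p ∈ Submodule.span k F, p.totalDegree ≤ d ∧ ∀ P ∈ S, eval P p = 0 := by
    intro p hp
    have h1 : Submodule.span k F ≤ restrictTotalDegree σ k d := by
      rw [Submodule.span_le]
      intro x hx
      exact (mem_restrictTotalDegree _ _ _).mpr (hd x hx)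
    refine ⟨(mem_restrictTotalDegree _ _ _).mp (h1 hp), ?_⟩
    intro P hP
    have h2 : Submodule.span k F ≤ (mid P).restrictScalars k := by
      rw [Submodule.span_le]
      intro x hx
      exact mem_mid.mpr (hS P hP x hx)
    exact mem_mid.mp (h2 hp)
  rw [Nat.card_eq_fintype_card]
  refine count (g := fun i => g (e i)) (fun i => (hspan _ (hg _)).1) S ?_
  intro P hP
  refine deform (fun i => g (e i)) P (fun i => (hspan _ (hg _)).2 P hP) ?_
  intro q hq hgq hqP
  refine hgi P hP q hq ?_ hqP
  intro j
  have := hgq (e.symm j)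
  simpa using this

/-- Points of a finite open subset of an algebraic set are isolated. -/
theorem isolated_of_finite (F B : Set (MvPolynomial σ k))
    (hfin : {P : σ → k | (∀ p ∈ F, eval P p = 0) ∧ ∃ l ∈ B, eval P l ≠ 0}.Finite)
    (P : σ → k) (hP : ∃ l ∈ B, eval P l ≠ 0) (q : Ideal (MvPolynomial σ k)) (hq : q.IsPrime)
    (hFq : F ⊆ q) (hqP : q ≤ mid P) : q = mid P := by
  classical
  by_contra hne
  obtain ⟨l, hl, hlP⟩ := hP
  have hlq : l ∉ q := fun h => hlP (mem_mid.mp (hqP h))
  have hex : ∀ a : σ → k, ∃ p, p ∈ mid a ∧ p ∉ q := by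
    intro a
    by_contra hcon
    push Not at hcon
    have h1 : mid a ≤ q := fun p hp => hcon p hp
    have h2 : mid a = q := Ideal.IsMaximal.eq_of_le inferInstance hq.ne_top h1
    have h3 : mid a = mid P := Ideal.IsMaximal.eq_of_le inferInstance
      (Ideal.IsPrime.ne_top inferInstance) (h1.trans hqP)
    exact hne (h2.symm.trans h3)
  choose p hp hpq using hex
  set r := l * ∏ a ∈ hfin.toFinset, p a with hr
  have hrq : r ∉ q := by
    intro h
    rcases hq.mem_or_mem h with h1 | h1
    · exact hlq h1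
    · rw [Ideal.IsPrime.prod_mem_iff] at h1
      obtain ⟨a, _, ha⟩ := h1
      exact hpq a ha
  apply hrq
  have h1 : r ∈ vanishingIdeal k (zeroLocus k q) := by
    rw [mem_vanishingIdeal_iff]
    intro x hx
    rw [mem_zeroLocus_iff] at hx
    have hx' : ∀ p ∈ q, eval x p = 0 := fun p hp => by
      have := hx p hp
      simpa [aeval_eq_eval] using this
    have h2 : eval x r = 0 := by
      rw [hr, map_mul, map_prod]
      by_cases hlx : eval x l = 0
      · rw [hlx, zero_mul]
      · have hxS : x ∈ hfin.toFinset := by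
          rw [Set.Finite.mem_toFinset]
          exact ⟨fun p hp => hx' p (hFq hp), l, hl, hlx⟩
        rw [Finset.prod_eq_zero hxS (mem_mid.mp (hp x)), mul_zero]
    simpa [aeval_eq_eval] using h2
  rw [vanishingIdeal_zeroLocus_eq_radical, hq.radical] at h1
  exact h1

/-- A finite open subset of an algebraic set defined by equations of degree at most `d` has at
most `d ^ n` points. -/
theorem finite_open_bound (F B : Set (MvPolynomial σ k)) (d : ℕ)
    (hd : ∀ p ∈ F, p.totalDegree ≤ d)
    (hfin : {P : σ → k | (∀ p ∈ F, eval P p = 0) ∧ ∃ l ∈ B, eval P l ≠ 0}.Finite) :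
    hfin.toFinset.card ≤ d ^ Nat.card σ := by
  apply isolated_bound F d hd
  · intro P hP
    rw [Set.Finite.mem_toFinset] at hP
    exact hP.1
  · intro P hP q hq hFq hqP
    rw [Set.Finite.mem_toFinset] at hP
    exact isolated_of_finite F B hfin P hP.2 q hq hFq hqP

end Bez
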