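import Mathlib

namespace Pool.Agent.Lib.MP_60829e_nt.Bk

open Finset NumberField

section Alg

variable (K : Type) [Field K] [NumberField K]

/-- Siegel's lemma over a number field with the bound in each embedding. -/
lemma siegel : ∃ c : ℝ, 1 ≤ c ∧ ∀ (m n : Type) [Fintype m] [Fintype n] (a : m → n → K) (A : ℝ),
    1 ≤ A → 0 < Fintype.card m → 2 * Fintype.card m ≤ Fintype.card n →
    (∀ k l, IsIntegral ℤ (a k l)) → (∀ k l, ∀ φ : K →+* ℂ, ‖φ (a k l)‖ ≤ A) →
    (∃ k l, a k l ≠ 0) →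
    ∃ ξ : n → 𝓞 K, ξ ≠ 0 ∧ (∀ k, ∑ l, a k l * (ξ l : K) = 0) ∧
      ∀ l, ∀ φ : K →+* ℂ, ‖φ (ξ l : K)‖ ≤ c * (c * Fintype.card n * A) := by
  classical
  have key : ∃ c : ℝ, ∀ (m n : Type) [Fintype m] [Fintype n] (a : Matrix m n (𝓞 K)) (A : ℝ),
    0 < Fintype.card m → Fintype.card m < Fintype.card n →
    (∀ k l, house ((algebraMap (𝓞 K) K) (a k l)) ≤ A) → a ≠ 0 →
    ∃ ξ : n → 𝓞 K, ξ ≠ 0 ∧ (Matrix.mulVec a ξ = 0) ∧
      ∀ l, house (ξ l).1 ≤ c * ((c * Fintype.card n * A) ^ ((Fintype.card m : ℝ) / (Fintype.card n - Fintype.card m))) :=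
    ⟨_, fun m n _ _ a A h0 h1 h2 h3 => house.exists_ne_zero_int_vec_house_le K a h3 h0 h1 rfl h2 rfl⟩
  obtain ⟨c, hc⟩ := key
  refine ⟨max 1 |c|, le_max_left _ _, ?_⟩
  intro m n _ _ a A hA h0 h1 hint hb hne
  have hmn : Fintype.card m < Fintype.card n := by omega
  let b : Matrix m n (𝓞 K) := fun k l => ⟨a k l, hint k l⟩
  have hbK : ∀ k l, ((b k l : 𝓞 K) : K) = a k l := fun k l => rfl
  have hb' : ∀ k l, house ((algebraMap (𝓞 K) K) (b k l)) ≤ A := by
    intro k l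
    rw [house_eq_sup', ← NNReal.coe_mk A (by linarith), NNReal.coe_le_coe]
    apply Finset.sup'_le
    intro φ _
    rw [← NNReal.coe_le_coe]
    exact hb k l φ
  have hbne : b ≠ 0 := by
    obtain ⟨k, l, hkl⟩ := hne
    intro h
    apply hkl
    rw [← hbK, h]
    simp
  obtain ⟨ξ, h3, h4, h5⟩ := hc m n b A h0 hmn hb' hbne
  refine ⟨ξ, h3, ?_, ?_⟩
  · intro k
    have h6 := congrFun h4 k
    have h7 := congrArg (fun x : 𝓞 K => (x : K)) h6
    simp only [Matrix.mulVec, dotProduct, map_sum, map_mul, Pi.zero_apply, map_zero] at h7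
    exact h7
  · intro l φ
    refine (norm_embedding_le_house _ φ).trans ((h5 l).trans ?_)
    have hcn : (0:ℝ) ≤ Fintype.card n := Nat.cast_nonneg _
    have hcn1 : (1:ℝ) ≤ Fintype.card n := by
      have : 1 ≤ Fintype.card n := by omega
      exact_mod_cast this
    set C : ℝ := max 1 |c| with hC
    have hm1 : (1:ℝ) ≤ C := le_max_left _ _
    have hexp0 : 0 ≤ (Fintype.card m : ℝ) / (Fintype.card n - Fintype.card m) := by
      apply div_nonneg (Nat.cast_nonneg _)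
      have : (Fintype.card m : ℝ) ≤ Fintype.card n := by exact_mod_cast hmn.le
      linarith
    have hexp1 : (Fintype.card m : ℝ) / (Fintype.card n - Fintype.card m) ≤ 1 := by
      have h8 : (2:ℝ) * Fintype.card m ≤ Fintype.card n := by exact_mod_cast h1
      have h9 : (0:ℝ) < Fintype.card m := by exact_mod_cast h0
      rw [div_le_one (by linarith)]
      linarith
    have hbase : 1 ≤ C * Fintype.card n * A := by
      calc (1:ℝ) = 1 * 1 * 1 := by ring
        _ ≤ C * Fintype.card n * A := by gcongr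
    refine (le_abs_self _).trans ?_
    rw [abs_mul]
    apply mul_le_mul (le_max_right _ _) _ (abs_nonneg _) (by positivity)
    refine (Real.abs_rpow_le_abs_rpow _ _).trans ?_
    calc |c * Fintype.card n * A| ^ ((Fintype.card m : ℝ) / (Fintype.card n - Fintype.card m))
        ≤ (C * Fintype.card n * A) ^ ((Fintype.card m : ℝ) / (Fintype.card n - Fintype.card m)) := by
          apply Real.rpow_le_rpow (abs_nonneg _) _ hexp0
          rw [abs_mul, abs_mul, abs_of_nonneg hcn, abs_of_nonneg (by linarith : (0:ℝ) ≤ A)]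
          gcongr
          exact le_max_right _ _
      _ ≤ (C * Fintype.card n * A) ^ (1:ℝ) := Real.rpow_le_rpow_of_exponent_le hbase hexp1
      _ = C * Fintype.card n * A := Real.rpow_one _

variable {K}

/-- Liouville's inequality. -/
lemma liouville (σ : K →+* ℂ) (ξ : K) (hξ : ξ ≠ 0) (D : ℕ) (hD : 1 ≤ D) (hint : IsIntegral ℤ ((D : K) * ξ))
    {H : ℝ} (hH : ∀ φ : K →+* ℂ, ‖φ ξ‖ ≤ H) :
    1 ≤ (D : ℝ) ^ (Module.finrank ℚ K) * ‖σ ξ‖ * H ^ (Module.finrank ℚ K - 1) := by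
  have hD0 : (D : K) ≠ 0 := by
    have : D ≠ 0 := by omega
    exact_mod_cast this
  have hne : (D : K) * ξ ≠ 0 := mul_ne_zero hD0 hξ
  have h1 : (1:ℝ) ≤ ‖Algebra.norm ℚ ((D : K) * ξ)‖ := by
    have h2 : IsIntegral ℤ (Algebra.norm ℚ ((D : K) * ξ)) := Algebra.isIntegral_norm ℚ hint
    obtain ⟨z, hz⟩ := IsIntegrallyClosed.isIntegral_iff.mp h2
    have hz0 : z ≠ 0 := by
      intro h
      rw [h, map_zero] at hz
      exact hne (Algebra.norm_eq_zero_iff.mp hz.symm)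
    rw [← hz]
    have h3 : (1:ℤ) ≤ |z| := Int.one_le_abs hz0
    have h4 : ‖(algebraMap ℤ ℚ) z‖ = ((|z| : ℤ) : ℝ) := by
      simp [Int.norm_eq_abs]
    rw [h4]
    exact_mod_cast h3
  have h5 := norm_norm_le_norm_mul_house_pow ((D : K) * ξ) σ
  have hH0 : 0 ≤ H := (norm_nonneg _).trans (hH σ)
  have h6 : house ((D : K) * ξ) ≤ D * H := by
    rw [house_nat_mul]
    apply mul_le_mul_of_nonneg_left _ (Nat.cast_nonneg _)
    rw [house_eq_sup', ← NNReal.coe_mk H hH0, NNReal.coe_le_coe]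
    apply Finset.sup'_le
    intro φ _
    rw [← NNReal.coe_le_coe]
    exact hH φ
  have h7 : 0 < Module.finrank ℚ K := Module.finrank_pos
  calc (1:ℝ) ≤ ‖σ ((D : K) * ξ)‖ * house ((D : K) * ξ) ^ (Module.finrank ℚ K - 1) := h1.trans h5
    _ ≤ ‖σ ((D : K) * ξ)‖ * (D * H) ^ (Module.finrank ℚ K - 1) := by
        apply mul_le_mul_of_nonneg_left _ (norm_nonneg _)
        exact pow_le_pow_left₀ (house_nonneg _) h6 _
    _ = (D : ℝ) ^ (Module.finrank ℚ K) * ‖σ ξ‖ * H ^ (Module.finrank ℚ K - 1) := by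
        rw [map_mul, norm_mul, map_natCast, Complex.norm_natCast, mul_pow]
        obtain ⟨e, he⟩ : ∃ e, Module.finrank ℚ K = e + 1 := ⟨Module.finrank ℚ K - 1, by omega⟩
        rw [he, Nat.add_sub_cancel, pow_succ]
        ring

/-- integrality of products of powers -/
lemma eps_int {I : Type} [Fintype I] (α : I → K) (Q : ℕ)
    (hQ : ∀ i, IsIntegral ℤ ((Q : K) * α i)) (hQ' : ∀ i, IsIntegral ℤ ((Q : K) * (α i)⁻¹))
    (m : I → ℤ) (E : ℕ) (hm : ∀ i, (m i).natAbs ≤ E) :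
    IsIntegral ℤ (((Q ^ (Fintype.card I * E) : ℕ) : K) * ∏ i, (α i) ^ (m i)) := by
  have h1 : ((Q ^ (Fintype.card I * E) : ℕ) : K) * ∏ i, (α i) ^ (m i)
      = ∏ i, ((Q : K) ^ E * (α i) ^ (m i)) := by
    rw [prod_mul_distrib, prod_const, card_univ, ← pow_mul, mul_comm E]
    push_cast
    rfl
  rw [h1]
  have hQi : IsIntegral ℤ (Q : K) := by
    have : IsIntegral ℤ (algebraMap ℤ K (Q : ℤ)) := isIntegral_algebraMap
    simpa using this
  apply IsIntegral.prod
  intro i _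
  obtain ⟨w, hw⟩ : ∃ w, E = w + (m i).natAbs := ⟨E - (m i).natAbs, by have := hm i; omega⟩
  rcases Int.natAbs_eq (m i) with h | h
  · have h2 : (Q : K) ^ E * (α i) ^ (m i) = (Q : K) ^ w * ((Q : K) * α i) ^ (m i).natAbs := by
      conv_lhs => rw [h, hw]
      rw [zpow_natCast, pow_add, mul_pow]
      ring
    rw [h2]
    exact (hQi.pow _).mul ((hQ i).pow _)
  · have h2 : (Q : K) ^ E * (α i) ^ (m i) = (Q : K) ^ w * ((Q : K) * (α i)⁻¹) ^ (m i).natAbs := by
      conv_lhs => rw [h, hw]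
      rw [zpow_neg, zpow_natCast, pow_add, mul_pow, inv_pow]
      ring
    rw [h2]
    exact (hQi.pow _).mul ((hQ' i).pow _)

lemma eps_norm {I : Type} [Fintype I] (α : I → K) {C : ℝ} (hC1 : 1 ≤ C)
    (hC : ∀ i, ∀ φ : K →+* ℂ, ‖φ (α i)‖ ≤ C) (hC' : ∀ i, ∀ φ : K →+* ℂ, ‖φ (α i)⁻¹‖ ≤ C)
    (m : I → ℤ) (E : ℕ) (hm : ∀ i, (m i).natAbs ≤ E) (φ : K →+* ℂ) :
    ‖φ (∏ i, (α i) ^ (m i))‖ ≤ C ^ (Fintype.card I * E) := by
  rw [map_prod, norm_prod, mul_comm (Fintype.card I), pow_mul, ← card_univ, ← prod_const]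
  apply prod_le_prod
  · intro i _; exact norm_nonneg _
  · intro i _
    rcases Int.natAbs_eq (m i) with h | h
    · rw [h, zpow_natCast, map_pow, norm_pow]
      exact (pow_le_pow_left₀ (norm_nonneg _) (hC i φ) _).trans (pow_le_pow_right₀ hC1 (hm i))
    · rw [h, zpow_neg, zpow_natCast, ← inv_pow, map_pow, norm_pow]
      exact (pow_le_pow_left₀ (norm_nonneg _) (hC' i φ) _).trans (pow_le_pow_right₀ hC1 (hm i))

/-- common denominator -/
lemma exists_den {I : Type} [Fintype I] (α : I → K) : ∃ Q : ℕ, 1 ≤ Q ∧ ∀ i, IsIntegral ℤ ((Q : K) * α i) := by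
  have h1 : ∀ i, ∃ q : ℕ, 1 ≤ q ∧ IsIntegral ℤ ((q : K) * α i) := by
    intro i
    have halg : IsAlgebraic ℤ (α i) := by
      have : IsAlgebraic ℚ (α i) := Algebra.IsAlgebraic.isAlgebraic _
      exact (IsFractionRing.isAlgebraic_iff ℤ ℚ K).mpr this
    obtain ⟨y, hy0, hy⟩ := halg.exists_integral_multiple
    refine ⟨y.natAbs, by omega, ?_⟩
    rcases Int.natAbs_eq y with h | h
    · have : ((y.natAbs : ℕ) : K) * α i = y • α i := by
        conv_rhs => rw [h]
        simp [zsmul_eq_mul]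
      rw [this]; exact hy
    · have : ((y.natAbs : ℕ) : K) * α i = -(y • α i) := by
        conv_rhs => rw [h]
        simp [zsmul_eq_mul]
      rw [this]; exact hy.neg
  choose q hq1 hq2 using h1
  classical
  refine ⟨∏ i, q i, ?_, ?_⟩
  · exact Nat.succ_le_of_lt (Finset.prod_pos fun i _ => hq1 i)
  · intro i
    have h2 : ((∏ i, q i : ℕ) : K) * α i = ((∏ j ∈ univ.erase i, q j : ℕ) : K) * ((q i : K) * α i) := by
      rw [← mul_prod_erase univ q (mem_univ i)]
      push_cast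
      ring
    rw [h2]
    apply IsIntegral.mul _ (hq2 i)
    have : IsIntegral ℤ (algebraMap ℤ K ((∏ j ∈ univ.erase i, q j : ℕ) : ℤ)) := isIntegral_algebraMap
    simpa using this

/-- uniform bound for finitely many elements in all embeddings -/
lemma exists_bd {I : Type} [Finite I] (α : I → K) : ∃ C : ℕ, ∀ i, ∀ φ : K →+* ℂ, ‖φ (α i)‖ ≤ C := by
  have := Fintype.ofFinite I
  refine ⟨⌈∑ i, house (α i)⌉₊, ?_⟩
  intro i φ
  refine (norm_embedding_le_house (α i) φ).trans (le_trans ?_ (Nat.le_ceil _))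
  exact Finset.single_le_sum (f := fun i => house (α i)) (fun j _ => house_nonneg _) (mem_univ i)

end Alg

end Pool.Agent.Lib.MP_60829e_nt.Bk
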