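import Mathlib

namespace Pool.Agent.Lib.MP_60829e_nt.Bk

open Finset Polynomial

/-- coefficients of the Newton expansion of `X ^ m` with nodes `i % S`. -/
def hc (S : ℕ) : ℕ → ℕ → ℕ
  | 0, 0 => 1
  | 0, (_ + 1) => 0
  | (m + 1), 0 => (0 % S) * hc S m 0
  | (m + 1), (j + 1) => hc S m j + ((j + 1) % S) * hc S m (j + 1)

/-- Newton polynomials. -/
noncomputable def NN (S : ℕ) (j : ℕ) : ℂ[X] := ∏ i ∈ range j, (X - C ((i % S : ℕ) : ℂ))

lemma NN_succ (S j : ℕ) : NN S (j + 1) = NN S j * (X - C ((j % S : ℕ) : ℂ)) := by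
  unfold NN
  rw [prod_range_succ]

lemma hc_zero_of_lt (S : ℕ) : ∀ m j : ℕ, m < j → hc S m j = 0
  | 0, 0, h => by omega
  | 0, (j + 1), _ => rfl
  | (m + 1), 0, h => by omega
  | (m + 1), (j + 1), h => by
    rw [hc, hc_zero_of_lt S m j (by omega), hc_zero_of_lt S m (j + 1) (by omega)]
    simp

lemma hc_le (S : ℕ) (hS : 1 ≤ S) : ∀ m j : ℕ, hc S m j ≤ m.choose j * S ^ (m - j)
  | 0, 0 => by simp [hc]
  | 0, (j + 1) => by simp [hc]
  | (m + 1), 0 => by
    have h := hc_le S hS m 0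
    simp only [hc, Nat.choose_zero_right, one_mul, Nat.sub_zero, Nat.zero_mod, zero_mul] at h ⊢
    positivity
  | (m + 1), (j + 1) => by
    have h1 := hc_le S hS m j
    have h2 := hc_le S hS m (j + 1)
    rw [hc, Nat.choose_succ_succ]
    have e : m + 1 - (j + 1) = m - j := by omega
    rw [e, add_mul]
    apply add_le_add h1
    rcases Nat.lt_or_ge m (j + 1) with h | h
    · rw [hc_zero_of_lt S m (j + 1) h]
      simp
    · have e2 : m - j = (m - (j + 1)) + 1 := by omega
      rw [e2, pow_succ]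
      have h3 : (j + 1) % S ≤ S := (Nat.mod_lt _ (by omega)).le
      calc (j + 1) % S * hc S m (j + 1) ≤ S * (m.choose (j + 1) * S ^ (m - (j + 1))) :=
            Nat.mul_le_mul h3 h2
        _ = m.choose (j + 1) * (S ^ (m - (j + 1)) * S) := by ring

/-- Newton expansion of `X ^ m`. -/
lemma X_pow_eq (S : ℕ) (m : ℕ) : ∀ J : ℕ, m < J → (X : ℂ[X]) ^ m = ∑ j ∈ range J, C ((hc S m j : ℕ) : ℂ) * NN S j := by
  induction m with
  | zero =>
    intro J hJ
    obtain ⟨J, rfl⟩ : ∃ k, J = k + 1 := ⟨J - 1, by omega⟩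
    rw [sum_range_succ']
    have : ∑ k ∈ range J, C ((hc S 0 (k + 1) : ℕ) : ℂ) * NN S (k + 1) = 0 := by
      apply sum_eq_zero
      intro k _
      simp [hc]
    rw [this]
    simp [hc, NN]
  | succ m ih =>
    intro J hJ
    obtain ⟨J, rfl⟩ : ∃ k, J = k + 1 := ⟨J - 1, by omega⟩
    have h1 := ih J (by omega)
    have h2 := ih (J + 1) (by omega)
    rw [sum_range_succ']
    have e1 : ∀ k : ℕ, C ((hc S (m + 1) (k + 1) : ℕ) : ℂ) * NN S (k + 1)
        = C ((hc S m k : ℕ) : ℂ) * NN S (k + 1)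
          + C ((((k + 1) % S : ℕ) : ℂ)) * (C ((hc S m (k + 1) : ℕ) : ℂ) * NN S (k + 1)) := by
      intro k
      rw [hc]
      push_cast
      rw [C_add, C_mul]
      ring
    simp_rw [e1]
    rw [sum_add_distrib, add_assoc]
    have e2 : ∑ x ∈ range J, C ((((x + 1) % S : ℕ) : ℂ)) * (C ((hc S m (x + 1) : ℕ) : ℂ) * NN S (x + 1))
          + C ((hc S (m + 1) 0 : ℕ) : ℂ) * NN S 0
        = ∑ x ∈ range (J + 1), C (((x % S : ℕ) : ℂ)) * (C ((hc S m x : ℕ) : ℂ) * NN S x) := by
      rw [sum_range_succ']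
      congr 1
      rw [hc]
      push_cast
      rw [C_mul]
      ring
    rw [e2]
    have e3 : ∑ x ∈ range (J + 1), C (((x % S : ℕ) : ℂ)) * (C ((hc S m x : ℕ) : ℂ) * NN S x)
        = ∑ x ∈ range J, C (((x % S : ℕ) : ℂ)) * (C ((hc S m x : ℕ) : ℂ) * NN S x) := by
      rw [sum_range_succ, hc_zero_of_lt S m J (by omega)]
      simp
    rw [e3, ← sum_add_distrib]
    have e4 : ∀ x : ℕ, C ((hc S m x : ℕ) : ℂ) * NN S (x + 1)
          + C (((x % S : ℕ) : ℂ)) * (C ((hc S m x : ℕ) : ℂ) * NN S x)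
        = X * (C ((hc S m x : ℕ) : ℂ) * NN S x) := by
      intro x
      rw [NN_succ]
      ring
    simp_rw [e4]
    rw [← mul_sum, ← h1, pow_succ']

/-- factorisation of `NN`. -/
lemma NN_mul_add (S t r : ℕ) : NN S (S * t + r) = NN S S ^ t * NN S r := by
  induction t with
  | zero => simp
  | succ t ih =>
    have e : S * (t + 1) + r = S + (S * t + r) := by ring
    rw [pow_succ', mul_assoc, ← ih, e]
    unfold NN
    rw [prod_range_add]
    congr 1
    apply prod_congr rfl
    intro i _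
    rw [Nat.add_mod_left]

/-- root multiplicity info: high multiplicity. -/
lemma pow_dvd_NN (S t s j : ℕ) (hs : s < S) (hj : S * t + s < j) :
    (X - C (s : ℂ)) ^ (t + 1) ∣ NN S j := by
  have h1 : NN S (S * t + s + 1) ∣ NN S j := by
    unfold NN
    exact prod_dvd_prod_of_subset _ _ _ (by
      intro i hi; simp only [mem_range] at hi ⊢; omega)
  refine dvd_trans ?_ h1
  rw [NN_succ, NN_mul_add S t s]
  have h2 : (X - C (s : ℂ)) ∣ NN S S := by
    unfold NN
    have := dvd_prod_of_mem (fun i : ℕ => (X - C ((i % S : ℕ) : ℂ))) (mem_range.mpr hs)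
    rwa [Nat.mod_eq_of_lt hs] at this
  have h3 : (S * t + s) % S = s := by
    rw [Nat.mul_add_mod, Nat.mod_eq_of_lt hs]
  rw [h3, pow_succ]
  apply mul_dvd_mul _ dvd_rfl
  exact dvd_mul_of_dvd_left (pow_dvd_pow_of_dvd h2 t) _

lemma iterate_deriv_eval_zero (S t s j : ℕ) (hs : s < S) (hj : S * t + s < j) :
    (derivative^[t] (NN S j)).eval (s : ℂ) = 0 := by
  have h0 : NN S j ≠ 0 := by
    unfold NN
    apply prod_ne_zero_iff.mpr
    intro i _
    exact X_sub_C_ne_zero _
  have h1 := pow_dvd_NN S t s j hs hj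
  have h2 : t < rootMultiplicity (s : ℂ) (NN S j) := by
    have := (le_rootMultiplicity_iff h0).mpr h1
    omega
  exact (lt_rootMultiplicity_iff_isRoot_iterate_derivative h0).mp h2 t le_rfl

lemma iterate_deriv_eval_ne (S t s : ℕ) (hs : s < S) :
    (derivative^[t] (NN S (S * t + s))).eval (s : ℂ) ≠ 0 := by
  have h0 : ∀ j, NN S j ≠ 0 := by
    intro j
    unfold NN
    apply prod_ne_zero_iff.mpr
    intro i _
    exact X_sub_C_ne_zero _
  -- multiplicity of s in NN S S is one
  have hone : rootMultiplicity (s : ℂ) (NN S S) = 1 := by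
    unfold NN
    have e : ∏ i ∈ range S, (X - C ((i % S : ℕ) : ℂ)) = ∏ i ∈ range S, (X - C ((i : ℕ) : ℂ)) := by
      apply prod_congr rfl
      intro i hi
      rw [Nat.mod_eq_of_lt (mem_range.mp hi)]
    have e2 : ∏ i ∈ range S, (X - C ((i : ℕ) : ℂ))
        = (((range S).val.map (fun i : ℕ => (i : ℂ))).map (fun a => X - C a)).prod := by
      rw [Multiset.map_map]; rfl
    rw [e, e2, ← count_roots, roots_multiset_prod_X_sub_C]
    rw [Multiset.count_map_eq_count' (fun i : ℕ => (i : ℂ)) _ Nat.cast_injective]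
    exact Multiset.count_eq_one_of_mem (range S).nodup (mem_range.mpr hs)
  have hzero : rootMultiplicity (s : ℂ) (NN S s) = 0 := by
    apply rootMultiplicity_eq_zero
    unfold NN
    rw [IsRoot, eval_prod, prod_eq_zero_iff]
    rintro ⟨i, hi, h⟩
    rw [mem_range] at hi
    rw [Nat.mod_eq_of_lt (by omega)] at h
    simp only [eval_sub, eval_X, eval_C, sub_eq_zero, Nat.cast_inj] at h
    omega
  have hmult : rootMultiplicity (s : ℂ) (NN S (S * t + s)) = t := by
    have hp : ∀ k : ℕ, rootMultiplicity (s : ℂ) (NN S S ^ k) = k := by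
      intro k
      rw [← count_roots, roots_pow, Multiset.count_nsmul, count_roots, hone, mul_one]
    rw [NN_mul_add S t s, rootMultiplicity_mul (by rw [← NN_mul_add S t s]; exact h0 _),
      hp, hzero, add_zero]
  intro hcon
  have hlt : t < rootMultiplicity (s : ℂ) (NN S (S * t + s)) := by
    rw [lt_rootMultiplicity_iff_isRoot_iterate_derivative (h0 _)]
    intro m hm
    rcases Nat.lt_or_ge m t with h | h
    · have h6 : m < rootMultiplicity (s : ℂ) (NN S (S * t + s)) := by rw [hmult]; exact h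
      exact (lt_rootMultiplicity_iff_isRoot_iterate_derivative (h0 _)).mp h6 m le_rfl
    · have : m = t := by omega
      rw [this]
      exact hcon
  rw [hmult] at hlt
  exact lt_irrefl _ hlt

end Pool.Agent.Lib.MP_60829e_nt.Bk
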