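import Mathlib
import Pool.Agent.Lib.MP_60829e_nt.BNewton

namespace Pool.Agent.Lib.MP_60829e_nt.Bk

open Finset Polynomial

/-- divided differences of `u ↦ exp (a u)` -/
noncomputable def cj (S j : ℕ) (a : ℂ) : ℂ := ∑' m : ℕ, (hc S m j : ℂ) * (a ^ m / (m.factorial : ℂ))

noncomputable def DD (S t j s : ℕ) : ℂ := (derivative^[t] (NN S j)).eval (s : ℂ)

lemma term_bound {S : ℕ} (hS : 1 ≤ S) (j k : ℕ) (a : ℂ) :
    ‖(hc S (k + j) j : ℂ) * (a ^ (k + j) / ((k + j).factorial : ℂ))‖
      ≤ (‖a‖ ^ j / j.factorial) * ((S * ‖a‖) ^ k / k.factorial) := by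
  rw [norm_mul, norm_div, norm_pow, Complex.norm_natCast, Complex.norm_natCast]
  have h1 : (hc S (k + j) j : ℝ) ≤ ((k + j).choose j : ℝ) * (S : ℝ) ^ k := by
    have := hc_le S hS (k + j) j
    have e : k + j - j = k := by omega
    rw [e] at this
    exact_mod_cast this
  have h2 : ((k + j).choose j : ℝ) * (j.factorial : ℝ) * (k.factorial : ℝ) = ((k + j).factorial : ℝ) := by
    have := Nat.choose_mul_factorial_mul_factorial (Nat.le_add_left j k)
    have e : k + j - j = k := by omega
    rw [e] at this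
    exact_mod_cast this
  have hj : (0:ℝ) < j.factorial := by exact_mod_cast Nat.factorial_pos j
  have hk : (0:ℝ) < k.factorial := by exact_mod_cast Nat.factorial_pos k
  have hkj : (0:ℝ) < (k + j).factorial := by exact_mod_cast Nat.factorial_pos (k + j)
  calc (hc S (k + j) j : ℝ) * (‖a‖ ^ (k + j) / ((k + j).factorial : ℝ))
      ≤ (((k + j).choose j : ℝ) * (S : ℝ) ^ k) * (‖a‖ ^ (k + j) / ((k + j).factorial : ℝ)) :=
        mul_le_mul_of_nonneg_right h1 (by positivity)
    _ = (‖a‖ ^ j / j.factorial) * ((S * ‖a‖) ^ k / k.factorial) := by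
        rw [← h2]
        have hch : ((k + j).choose j : ℝ) ≠ 0 := by
          have := Nat.choose_pos (Nat.le_add_left j k)
          positivity
        field_simp
        ring

lemma exp_real_hasSum (x : ℝ) : HasSum (fun k : ℕ => x ^ k / k.factorial) (Real.exp x) := by
  have := NormedSpace.expSeries_div_hasSum_exp x
  rwa [← Real.exp_eq_exp_ℝ] at this

lemma exp_complex_hasSum (x : ℂ) : HasSum (fun k : ℕ => x ^ k / (k.factorial : ℂ)) (Complex.exp x) := by
  have := NormedSpace.expSeries_div_hasSum_exp x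
  rwa [← Complex.exp_eq_exp_ℂ] at this

lemma sum_hc_shift {S : ℕ} (j : ℕ) (a : ℂ) :
    ∑ m ∈ range j, (hc S m j : ℂ) * (a ^ m / (m.factorial : ℂ)) = 0 := by
  apply sum_eq_zero
  intro m hm
  rw [hc_zero_of_lt S m j (mem_range.mp hm)]
  simp

lemma cj_summable {S : ℕ} (hS : 1 ≤ S) (j : ℕ) (a : ℂ) :
    Summable (fun m : ℕ => (hc S m j : ℂ) * (a ^ m / (m.factorial : ℂ))) := by
  rw [← summable_nat_add_iff j]
  apply Summable.of_norm_bounded (g := fun k => (‖a‖ ^ j / j.factorial) * ((S * ‖a‖) ^ k / k.factorial))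
  · exact (exp_real_hasSum (S * ‖a‖)).summable.mul_left _
  · intro k
    exact term_bound hS j k a

lemma norm_cj_le {S : ℕ} (hS : 1 ≤ S) (j : ℕ) (a : ℂ) :
    ‖cj S j a‖ ≤ (‖a‖ ^ j / j.factorial) * Real.exp (S * ‖a‖) := by
  have h1 := (cj_summable hS j a).sum_add_tsum_nat_add j
  unfold cj
  rw [← h1, sum_hc_shift, zero_add]
  apply tsum_of_norm_bounded ((exp_real_hasSum (S * ‖a‖)).mul_left _)
  intro k
  exact term_bound hS j k a

lemma deriv_X_pow_eval (t s m : ℕ) :
    (derivative^[t] ((X : ℂ[X]) ^ m)).eval (s : ℂ) = (m.descFactorial t : ℂ) * (s : ℂ) ^ (m - t) := by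
  rw [iterate_derivative_X_pow_eq_natCast_mul]
  simp

lemma main_series (t s : ℕ) (a : ℂ) :
    HasSum (fun m : ℕ => (derivative^[t] ((X : ℂ[X]) ^ m)).eval (s : ℂ) * (a ^ m / (m.factorial : ℂ)))
      (a ^ t * Complex.exp (a * s)) := by
  rw [← hasSum_nat_add_iff' t]
  have h0 : ∑ i ∈ range t, (derivative^[t] ((X : ℂ[X]) ^ i)).eval (s : ℂ) * (a ^ i / (i.factorial : ℂ)) = 0 := by
    apply sum_eq_zero
    intro i hi
    rw [deriv_X_pow_eval, Nat.descFactorial_of_lt (mem_range.mp hi)]
    simp
  rw [h0, sub_zero]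
  have h1 := (exp_complex_hasSum (a * s)).mul_left (a ^ t)
  refine h1.congr_fun ?_
  intro k
  rw [deriv_X_pow_eval]
  have e : k + t - t = k := by omega
  rw [e]
  have h2 : ((k + t).descFactorial t : ℂ) * (k.factorial : ℂ) = ((k + t).factorial : ℂ) := by
    have := Nat.factorial_mul_descFactorial (Nat.le_add_left t k)
    rw [e, mul_comm] at this
    exact_mod_cast this
  have hk : (k.factorial : ℂ) ≠ 0 := by exact_mod_cast Nat.factorial_ne_zero k
  have hd : ((k + t).descFactorial t : ℂ) ≠ 0 := by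
    intro h
    rw [h, zero_mul] at h2
    exact (Nat.cast_ne_zero.mpr (Nat.factorial_ne_zero (k + t))) h2.symm
  rw [← h2]
  field_simp
  ring

/-- the interpolation identity -/
lemma interp {S : ℕ} (hS : 1 ≤ S) (t s : ℕ) (hs : s < S) (a : ℂ) :
    a ^ t * Complex.exp (a * s) = ∑ j ∈ range (S * t + s + 1), DD S t j s * cj S j a := by
  have h1 : ∀ m : ℕ, (derivative^[t] ((X : ℂ[X]) ^ m)).eval (s : ℂ)
      = ∑ j ∈ range (S * t + s + 1), (hc S m j : ℂ) * DD S t j s := by
    intro m
    have h2 := X_pow_eq S m (S * t + s + 1 + m) (by omega)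
    rw [h2, iterate_derivative_sum, eval_finsetSum]
    rw [← sum_range_add_sum_Ico _ (show S * t + s + 1 ≤ S * t + s + 1 + m by omega)]
    have h3 : ∑ j ∈ Ico (S * t + s + 1) (S * t + s + 1 + m),
        (derivative^[t] (C ((hc S m j : ℕ) : ℂ) * NN S j)).eval (s : ℂ) = 0 := by
      apply sum_eq_zero
      intro j hj
      rw [mem_Ico] at hj
      rw [iterate_derivative_C_mul, eval_mul, iterate_deriv_eval_zero S t s j hs (by omega), mul_zero]
    rw [h3, add_zero]
    apply sum_congr rfl
    intro j _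
    rw [iterate_derivative_C_mul, eval_mul, eval_C]
    rfl
  have h4 := (main_series t s a).tsum_eq
  rw [← h4]
  simp_rw [h1, sum_mul]
  rw [Summable.tsum_finsetSum]
  · apply sum_congr rfl
    intro j _
    unfold cj
    rw [← tsum_mul_left]
    apply tsum_congr
    intro m
    ring
  · intro j _
    have h6 := (cj_summable hS j a).mul_left (DD S t j s)
    have e6 : (fun m : ℕ => (hc S m j : ℂ) * DD S t j s * (a ^ m / (m.factorial : ℂ)))
        = fun m : ℕ => DD S t j s * ((hc S m j : ℂ) * (a ^ m / (m.factorial : ℂ))) := by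
      funext m; ring
    rw [e6]
    exact h6

/-- functions `a ^ τ * exp (a s)` -/
noncomputable def gf (τ s : ℕ) : ℂ → ℂ := fun a => a ^ τ * Complex.exp (a * s)

/-- the generators of order below `t` -/
def gens (S t : ℕ) : Set (ℂ → ℂ) := {f | ∃ τ s : ℕ, τ < t ∧ s < S ∧ f = gf τ s}

lemma gens_mono {S t t' : ℕ} (h : t ≤ t') : gens S t ⊆ gens S t' := by
  rintro f ⟨τ, s, h1, h2, rfl⟩
  exact ⟨τ, s, by omega, h2, rfl⟩

lemma cj_mem {S : ℕ} (hS : 1 ≤ S) (j : ℕ) :
    (cj S j) ∈ Submodule.span ℂ (gens S (j / S + 1)) := by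
  induction j using Nat.strong_induction_on with
  | _ j ih =>
    set t := j / S with ht
    set s := j % S with hs
    have hsS : s < S := Nat.mod_lt _ (by omega)
    have hj : S * t + s = j := Nat.div_add_mod j S
    have hD : DD S t j s ≠ 0 := by
      have := iterate_deriv_eval_ne S t s hsS
      rw [hj] at this
      exact this
    have hfun : cj S j = (DD S t j s)⁻¹ • (gf t s - ∑ i ∈ range j, DD S t i s • cj S i) := by
      funext a
      have h1 := interp hS t s hsS a
      rw [hj, sum_range_succ] at h1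
      simp only [Pi.smul_apply, Pi.sub_apply, Finset.sum_apply, smul_eq_mul, gf]
      rw [h1]
      field_simp
      ring
    rw [hfun]
    apply Submodule.smul_mem
    apply Submodule.sub_mem
    · apply Submodule.subset_span
      exact ⟨t, s, by omega, hsS, rfl⟩
    · apply Submodule.sum_mem
      intro i hi
      rw [mem_range] at hi
      apply Submodule.smul_mem
      apply Submodule.span_mono (gens_mono _) (ih i hi)
      have : i / S ≤ j / S := Nat.div_le_div_right hi.le
      omega

/-- the remainder function -/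
noncomputable def rf (S t s : ℕ) : ℂ → ℂ := fun a => ∑ j ∈ Ico (S * t) (S * t + s + 1), DD S t j s * cj S j a

lemma rf_eq {S : ℕ} (hS : 1 ≤ S) (t s : ℕ) (hs : s < S) :
    ∃ v ∈ Submodule.span ℂ (gens S t), rf S t s = gf t s + v := by
  refine ⟨-∑ j ∈ range (S * t), DD S t j s • cj S j, ?_, ?_⟩
  · apply Submodule.neg_mem
    apply Submodule.sum_mem
    intro j hj
    rw [mem_range] at hj
    apply Submodule.smul_mem
    apply Submodule.span_mono (gens_mono _) (cj_mem hS j)
    have : j / S < t := by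
      rw [Nat.div_lt_iff_lt_mul (by omega)]
      rw [mul_comm] at hj
      exact hj
    omega
  · funext a
    have h1 := interp hS t s hs a
    simp only [Pi.add_apply, Pi.neg_apply, Finset.sum_apply, Pi.smul_apply, smul_eq_mul, gf, rf]
    rw [h1, ← sum_range_add_sum_Ico _ (show S * t ≤ S * t + s + 1 by omega)]
    ring

end Pool.Agent.Lib.MP_60829e_nt.Bk
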