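import Mathlib
import Pool.Agent.Lib.MP_60829e_nt.BOne

namespace Pool.Agent.Lib.MP_60829e_nt.Bk

open Finset Polynomial

lemma iter_deriv_mul_X_sub_C (P : ℂ[X]) (c : ℂ) (t : ℕ) :
    derivative^[t + 1] (P * (X - C c)) = derivative^[t + 1] P * (X - C c) + (t + 1 : ℕ) • derivative^[t] P := by
  induction t with
  | zero => simp [derivative_mul]
  | succ t ih =>
    rw [Function.iterate_succ_apply', ih]
    simp only [derivative_add, derivative_mul, derivative_sub, derivative_X, derivative_C, sub_zero,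
      mul_one, derivative_smul]
    rw [← Function.iterate_succ_apply' derivative (t + 1) P, ← Function.iterate_succ_apply' derivative t P]
    rw [add_assoc, ← succ_nsmul']

lemma norm_DD_le {S : ℕ} (hS : 1 ≤ S) (s : ℕ) (hs : s < S) :
    ∀ j t : ℕ, ‖DD S t j s‖ ≤ (j.descFactorial t : ℝ) * (S : ℝ) ^ j := by
  have hS1 : (1:ℝ) ≤ S := by exact_mod_cast hS
  intro j
  induction j with
  | zero =>
    intro t
    rcases t with _ | t
    · simp [DD, NN]
    · simp [DD, NN, Polynomial.iterate_derivative_eq_zero]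
  | succ j ih =>
    intro t
    have hc : ‖(s : ℂ) - ((j % S : ℕ) : ℂ)‖ ≤ S := by
      have hj : j % S < S := Nat.mod_lt _ (by omega)
      have e : (s : ℂ) - ((j % S : ℕ) : ℂ) = (((s : ℝ) - ((j % S : ℕ) : ℝ) : ℝ) : ℂ) := by push_cast; rfl
      rw [e, Complex.norm_real, Real.norm_eq_abs, abs_le]
      have h1 : (s : ℝ) < S := by exact_mod_cast hs
      have h2 : ((j % S : ℕ) : ℝ) < S := by exact_mod_cast hj
      have h3 : (0:ℝ) ≤ s := Nat.cast_nonneg _
      have h4 : (0:ℝ) ≤ ((j % S : ℕ) : ℝ) := Nat.cast_nonneg _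
      constructor <;> linarith
    rcases t with _ | t
    · have h0 := ih 0
      have e : DD S 0 (j + 1) s = DD S 0 j s * ((s : ℂ) - ((j % S : ℕ) : ℂ)) := by
        unfold DD
        rw [NN_succ]
        simp
      rw [e, norm_mul]
      simp only [Nat.descFactorial_zero, Nat.cast_one, one_mul] at h0 ⊢
      rw [pow_succ]
      exact mul_le_mul h0 hc (norm_nonneg _) (by positivity)
    · have h1 := ih (t + 1)
      have h2 := ih t
      have e : DD S (t + 1) (j + 1) s = DD S (t + 1) j s * ((s : ℂ) - ((j % S : ℕ) : ℂ))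
          + ((t + 1 : ℕ) : ℂ) * DD S t j s := by
        unfold DD
        rw [NN_succ, iter_deriv_mul_X_sub_C]
        simp
      rw [e]
      have hd : (((j + 1).descFactorial (t + 1) : ℕ) : ℝ)
          = ((j.descFactorial (t + 1) : ℕ) : ℝ) + ((t + 1 : ℕ) : ℝ) * ((j.descFactorial t : ℕ) : ℝ) := by
        rw [Nat.succ_descFactorial_succ, Nat.descFactorial_succ]
        rcases Nat.lt_or_ge j t with h | h
        · rw [Nat.descFactorial_of_lt h]
          simp
        · push_cast [Nat.cast_sub h]
          ring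
      have hSj : (0:ℝ) < (S : ℝ) ^ j := by positivity
      calc ‖DD S (t + 1) j s * ((s : ℂ) - ((j % S : ℕ) : ℂ)) + ((t + 1 : ℕ) : ℂ) * DD S t j s‖
          ≤ ‖DD S (t + 1) j s‖ * ‖(s : ℂ) - ((j % S : ℕ) : ℂ)‖ + ‖((t + 1 : ℕ) : ℂ)‖ * ‖DD S t j s‖ := by
            refine (norm_add_le _ _).trans ?_
            rw [norm_mul, norm_mul]
        _ ≤ ((j.descFactorial (t + 1) : ℕ) * (S : ℝ) ^ j) * S
            + ((t + 1 : ℕ) : ℝ) * (((j.descFactorial t : ℕ) : ℝ) * (S : ℝ) ^ j) := by
            rw [Complex.norm_natCast]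
            apply add_le_add
            · exact mul_le_mul h1 hc (norm_nonneg _) (by positivity)
            · exact mul_le_mul_of_nonneg_left h2 (by positivity)
        _ ≤ (((j + 1).descFactorial (t + 1) : ℕ) : ℝ) * (S : ℝ) ^ (j + 1) := by
            rw [hd, pow_succ]
            have h3 : (0:ℝ) ≤ ((t + 1 : ℕ) : ℝ) * ((j.descFactorial t : ℕ) : ℝ) * (S : ℝ) ^ j := by positivity
            nlinarith

lemma norm_DD_le' {S : ℕ} (hS : 1 ≤ S) (s : ℕ) (hs : s < S) (j t : ℕ) :
    ‖DD S t j s‖ ≤ (t.factorial : ℝ) * (2 * S : ℝ) ^ j := by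
  refine (norm_DD_le hS s hs j t).trans ?_
  rw [Nat.descFactorial_eq_factorial_mul_choose, mul_pow]
  have h1 : ((j.choose t : ℕ) : ℝ) ≤ 2 ^ j := by exact_mod_cast Nat.choose_le_two_pow j t
  have h2 : (0:ℝ) ≤ (t.factorial : ℝ) * (S : ℝ) ^ j := by positivity
  push_cast
  nlinarith

/-- bound for the remainder function -/
noncomputable def rb (S t : ℕ) (A : ℝ) : ℝ :=
  S * (t.factorial : ℝ) * (2 * S * A) ^ (S * t + S) * Real.exp (S * A) / ((S * t).factorial : ℝ)

lemma rb_nonneg (S t : ℕ) {A : ℝ} (hA : 1 ≤ A) : 0 ≤ rb S t A := by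
  unfold rb; positivity

lemma norm_rf_le {S : ℕ} (hS : 1 ≤ S) (t s : ℕ) (hs : s < S) {A : ℝ} (hA : 1 ≤ A) {a : ℂ}
    (ha : ‖a‖ ≤ A) : ‖rf S t s a‖ ≤ rb S t A := by
  have hS1 : (1:ℝ) ≤ S := by exact_mod_cast hS
  have hterm : ∀ j ∈ Ico (S * t) (S * t + s + 1), ‖DD S t j s * cj S j a‖
      ≤ (t.factorial : ℝ) * (2 * S * A) ^ (S * t + S) * Real.exp (S * A) / ((S * t).factorial : ℝ) := by
    intro j hj
    rw [mem_Ico] at hj
    rw [norm_mul]
    have h1 := norm_DD_le' hS s hs j t
    have h2 := norm_cj_le hS j a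
    have h3 : ‖a‖ ^ j ≤ A ^ j := pow_le_pow_left₀ (norm_nonneg _) ha j
    have h4 : Real.exp (S * ‖a‖) ≤ Real.exp (S * A) := by
      apply Real.exp_le_exp.mpr
      exact mul_le_mul_of_nonneg_left ha (by positivity)
    have h5 : ((S * t).factorial : ℝ) ≤ (j.factorial : ℝ) := by
      exact_mod_cast Nat.factorial_le hj.1
    have h6 : (0:ℝ) < ((S * t).factorial : ℝ) := by exact_mod_cast Nat.factorial_pos _
    have h7 : (0:ℝ) < (j.factorial : ℝ) := by exact_mod_cast Nat.factorial_pos _
    have h8 : ‖cj S j a‖ ≤ A ^ j / ((S * t).factorial : ℝ) * Real.exp (S * A) := by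
      refine h2.trans ?_
      apply mul_le_mul _ h4 (Real.exp_pos _).le (by positivity)
      exact div_le_div₀ (by positivity) h3 h6 h5
    have h9 : (2 * S * A : ℝ) ^ j ≤ (2 * S * A) ^ (S * t + S) := by
      apply pow_le_pow_right₀
      · nlinarith
      · omega
    calc ‖DD S t j s‖ * ‖cj S j a‖
        ≤ ((t.factorial : ℝ) * (2 * S : ℝ) ^ j) * (A ^ j / ((S * t).factorial : ℝ) * Real.exp (S * A)) :=
          mul_le_mul h1 h8 (norm_nonneg _) (by positivity)
      _ = (t.factorial : ℝ) * (2 * S * A) ^ j * Real.exp (S * A) / ((S * t).factorial : ℝ) := by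
          rw [mul_pow (2 * S : ℝ) A]; ring
      _ ≤ _ := by
          apply div_le_div_of_nonneg_right _ h6.le
          apply mul_le_mul_of_nonneg_right _ (Real.exp_pos _).le
          exact mul_le_mul_of_nonneg_left h9 (by positivity)
  unfold rf
  refine (norm_sum_le _ _).trans ((Finset.sum_le_sum hterm).trans ?_)
  rw [sum_const, Nat.card_Ico, nsmul_eq_mul]
  have h1 : ((S * t + s + 1 - S * t : ℕ) : ℝ) ≤ S := by
    have : S * t + s + 1 - S * t ≤ S := by omega
    exact_mod_cast this
  have h2 : (0:ℝ) ≤ (t.factorial : ℝ) * (2 * S * A) ^ (S * t + S) * Real.exp (S * A) / ((S * t).factorial : ℝ) := by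
    positivity
  calc ((S * t + s + 1 - S * t : ℕ) : ℝ) * ((t.factorial : ℝ) * (2 * S * A) ^ (S * t + S) * Real.exp (S * A) / ((S * t).factorial : ℝ))
      ≤ S * ((t.factorial : ℝ) * (2 * S * A) ^ (S * t + S) * Real.exp (S * A) / ((S * t).factorial : ℝ)) :=
        mul_le_mul_of_nonneg_right h1 h2
    _ = rb S t A := by unfold rb; ring

section Multi

variable {ι κ : Type} [Fintype ι] [DecidableEq ι] [Fintype κ]

/-- multilinear extension of vanishing from generators to spans -/
lemma van_span (p : κ → ℂ) (a : κ → ι → ℂ) (V : ι → Set (ℂ → ℂ))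
    (hV : ∀ h : ι → ℂ → ℂ, (∀ j, h j ∈ V j) → ∑ k, p k * ∏ j, h j (a k j) = 0) :
    ∀ h : ι → ℂ → ℂ, (∀ j, h j ∈ Submodule.span ℂ (V j)) → ∑ k, p k * ∏ j, h j (a k j) = 0 := by
  have key : ∀ U : Finset ι, ∀ h : ι → ℂ → ℂ, (∀ j ∈ U, h j ∈ Submodule.span ℂ (V j)) →
      (∀ j, j ∉ U → h j ∈ V j) → ∑ k, p k * ∏ j, h j (a k j) = 0 := by
    intro U
    induction U using Finset.induction_on with
    | empty =>
      intro h _ h2
      exact hV h (fun j => h2 j (by simp))
    | insert j0 U hj0 ih =>
      intro h h1 h2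
      have hform : ∀ (x : ℂ → ℂ) (k : κ), ∏ j, (Function.update h j0 x) j (a k j)
          = x (a k j0) * ∏ j ∈ univ.erase j0, h j (a k j) := by
        intro x k
        rw [← mul_prod_erase univ _ (mem_univ j0)]
        congr 1
        · simp
        · apply prod_congr rfl
          intro j hj
          rw [Function.update_of_ne (ne_of_mem_erase hj)]
      have hx : ∀ x ∈ Submodule.span ℂ (V j0),
          ∑ k, p k * ∏ j, (Function.update h j0 x) j (a k j) = 0 := by
        intro x hx
        induction hx using Submodule.span_induction with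
        | mem x hx =>
          apply ih
          · intro j hj
            have hne : j ≠ j0 := fun h => hj0 (h ▸ hj)
            rw [Function.update_of_ne hne]
            exact h1 j (mem_insert_of_mem hj)
          · intro j hj
            by_cases hne : j = j0
            · subst hne; simpa using hx
            · rw [Function.update_of_ne hne]
              exact h2 j (by simp [hne, hj])
        | zero =>
          simp_rw [hform]
          simp
        | add x y _ _ hx hy =>
          simp_rw [hform] at hx hy ⊢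
          simp only [Pi.add_apply, add_mul, mul_add, sum_add_distrib, hx, hy, add_zero]
        | smul c x _ hx =>
          simp_rw [hform] at hx ⊢
          simp only [Pi.smul_apply, smul_eq_mul]
          have : ∀ k, p k * (c * x (a k j0) * ∏ j ∈ univ.erase j0, h j (a k j))
              = c * (p k * (x (a k j0) * ∏ j ∈ univ.erase j0, h j (a k j))) := by
            intro k; ring
          simp_rw [this]
          rw [← mul_sum, hx, mul_zero]
      have := hx (h j0) (h1 j0 (mem_insert_self _ _))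
      rwa [Function.update_eq_self] at this
  intro h hh
  exact key univ h (fun j _ => hh j) (fun j hj => absurd (mem_univ j) hj)

theorem multi {S T : ℕ} (hS : 1 ≤ S) (p : κ → ℂ) (a : κ → ι → ℂ) {A : ℝ} (hA : 1 ≤ A)
    (ha : ∀ k j, ‖a k j‖ ≤ A)
    (hvan : ∀ t s : ι → ℕ, ∑ j, t j < T → (∀ j, s j < S) → ∑ k, p k * ∏ j, gf (t j) (s j) (a k j) = 0)
    (t s : ι → ℕ) (ht : ∑ j, t j = T) (hs : ∀ j, s j < S) :
    ‖∑ k, p k * ∏ j, gf (t j) (s j) (a k j)‖ ≤ (∑ k, ‖p k‖) * ∏ j, rb S (t j) A := by
  choose v hv1 hv2 using fun j => rf_eq hS (t j) (s j) (hs j)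
  have hexp : ∀ k, ∏ j, rf S (t j) (s j) (a k j)
      = ∑ U ∈ (univ : Finset ι).powerset, ∏ j, (if j ∈ U then gf (t j) (s j) else v j) (a k j) := by
    intro k
    have h1 : ∀ j, rf S (t j) (s j) (a k j) = gf (t j) (s j) (a k j) + v j (a k j) := by
      intro j
      rw [hv2 j]; rfl
    simp_rw [h1]
    rw [prod_add]
    apply sum_congr rfl
    intro U _
    rw [← prod_sdiff (subset_univ U), mul_comm]
    congr 1
    · apply prod_congr rfl
      intro j hj
      rw [mem_sdiff] at hj
      rw [if_neg hj.2]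
    · apply prod_congr rfl
      intro j hj
      rw [if_pos hj]
  have hzero : ∀ U ∈ (univ : Finset ι).powerset, U ≠ univ →
      ∑ k, p k * ∏ j, (if j ∈ U then gf (t j) (s j) else v j) (a k j) = 0 := by
    intro U _ hU
    apply van_span p a (fun j => gens S (if j ∈ U then t j + 1 else t j))
    · intro h hh
      choose τ σ h1 h2 h3 using hh
      have e : ∀ k, ∏ j, h j (a k j) = ∏ j, gf (τ j) (σ j) (a k j) := by
        intro k
        apply prod_congr rfl
        intro j _
        rw [h3 j]
      simp_rw [e]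
      apply hvan _ _ _ h2
      rw [← ht]
      obtain ⟨j0, hj0⟩ : ∃ j0, j0 ∉ U := by
        by_contra hcon
        push Not at hcon
        exact hU (eq_univ_iff_forall.mpr hcon)
      apply sum_lt_sum
      · intro j _
        have := h1 j
        by_cases hj : j ∈ U
        · rw [if_pos hj] at this; omega
        · rw [if_neg hj] at this; omega
      · refine ⟨j0, mem_univ _, ?_⟩
        have := h1 j0
        rwa [if_neg hj0] at this
    · intro j
      by_cases hj : j ∈ U
      · rw [if_pos hj, if_pos hj]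
        apply Submodule.subset_span
        exact ⟨t j, s j, by omega, hs j, rfl⟩
      · rw [if_neg hj, if_neg hj]
        exact hv1 j
  have hmain : ∑ k, p k * ∏ j, gf (t j) (s j) (a k j) = ∑ k, p k * ∏ j, rf S (t j) (s j) (a k j) := by
    simp_rw [hexp, mul_sum]
    rw [sum_comm]
    rw [sum_eq_single_of_mem (univ : Finset ι) (mem_powerset_self _) hzero]
    apply sum_congr rfl
    intro k _
    congr 1
    apply prod_congr rfl
    intro j _
    rw [if_pos (mem_univ j)]
  rw [hmain]
  refine (norm_sum_le _ _).trans ?_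
  rw [sum_mul]
  apply sum_le_sum
  intro k _
  rw [norm_mul, norm_prod]
  apply mul_le_mul_of_nonneg_left _ (norm_nonneg _)
  apply prod_le_prod
  · intro j _; exact norm_nonneg _
  · intro j _; exact norm_rf_le hS _ _ (hs j) hA (ha k j)

end Multi

end Pool.Agent.Lib.MP_60829e_nt.Bk
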