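import Mathlib
import Pool.Agent.Lib.MP_60829e_nt.BMulti

namespace Pool.Agent.Lib.MP_60829e_nt.Bk

open Finset

section Core

variable {J κ Γ : Type} [Fintype J] [DecidableEq J] [Fintype κ] [Fintype Γ]

/-- values of the auxiliary function -/
noncomputable def gam (p : κ → ℂ) (a : κ → J → ℂ) (u : κ → Γ → ℂ) {r : ℕ} (f : Fin r → Γ)
    (s : J → ℕ) : ℂ :=
  ∑ k, p k * (∏ l, u k (f l)) * ∏ j, Complex.exp (a k j * s j)

/-- the underlying functional -/
noncomputable def Ev (p : κ → ℂ) (a : κ → J → ℂ) (s : J → ℕ) : (κ → ℂ) →ₗ[ℂ] ℂ where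
  toFun w := ∑ k, p k * w k * ∏ j, Complex.exp (a k j * s j)
  map_add' x y := by
    rw [← sum_add_distrib]
    apply sum_congr rfl
    intro k _
    simp only [Pi.add_apply]
    ring
  map_smul' c x := by
    simp only [Pi.smul_apply, smul_eq_mul, RingHom.id_apply]
    rw [mul_sum]
    apply sum_congr rfl
    intro k _
    ring

lemma Ev_pow (p : κ → ℂ) (a : κ → J → ℂ) (u : κ → Γ → ℂ) (s : J → ℕ) (r : ℕ)
    (hr : ∀ f : Fin r → Γ, gam p a u f s = 0) :
    ∀ w ∈ (Submodule.span ℂ (Set.range (fun g k => u k g : Γ → κ → ℂ))) ^ r, Ev p a s w = 0 := by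
  intro w hw
  rw [Submodule.span_pow] at hw
  induction hw using Submodule.span_induction with
  | mem x hx =>
    rw [Set.mem_pow] at hx
    obtain ⟨f, rfl⟩ := hx
    choose g hg using fun i => (f i).2
    have h1 := hr g
    rw [List.prod_ofFn]
    unfold gam at h1
    simp only [Ev, LinearMap.coe_mk, AddHom.coe_mk]
    rw [← h1]
    apply sum_congr rfl
    intro k _
    congr 2
    rw [Finset.prod_apply]
    apply prod_congr rfl
    intro l _
    rw [← hg l]
  | zero => simp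
  | add x y _ _ hx hy => rw [map_add, hx, hy, add_zero]
  | smul c x _ hx => rw [map_smul, hx, smul_zero]

lemma prod_pow_mem_pow {R A : Type} [CommSemiring R] [CommSemiring A] [Algebra R A]
    (M : Submodule R A) (v : J → A) (hv : ∀ j, v j ∈ M) (t : J → ℕ) (U : Finset J) :
    ∏ j ∈ U, v j ^ t j ∈ M ^ (∑ j ∈ U, t j) := by
  induction U using Finset.induction_on with
  | empty =>
    simp only [prod_empty, sum_empty, pow_zero]
    exact Submodule.one_le.mp le_rfl
  | insert j U hj ih =>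
    rw [prod_insert hj, sum_insert hj, pow_add]
    exact Submodule.mul_mem_mul (Submodule.pow_mem_pow M (hv j) (t j)) ih

lemma gam_to_gf (p : κ → ℂ) (a : κ → J → ℂ) (u : κ → Γ → ℂ) (s : J → ℕ) (r : ℕ)
    (hr : ∀ f : Fin r → Γ, gam p a u f s = 0)
    (P : J → Γ → ℂ) (hP : ∀ k j, a k j = ∑ g, P j g * u k g)
    (t : J → ℕ) (ht : ∑ j, t j = r) :
    ∑ k, p k * ∏ j, gf (t j) (s j) (a k j) = 0 := by
  have h1 : ∏ j, (fun k => a k j : κ → ℂ) ^ t j ∈
      (Submodule.span ℂ (Set.range (fun g k => u k g : Γ → κ → ℂ))) ^ r := by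
    rw [← ht]
    apply prod_pow_mem_pow
    intro j
    have : (fun k => a k j : κ → ℂ) = ∑ g, P j g • (fun k => u k g : κ → ℂ) := by
      funext k
      rw [hP k j, Finset.sum_apply]
      rfl
    rw [this]
    apply Submodule.sum_mem
    intro g _
    apply Submodule.smul_mem
    apply Submodule.subset_span
    exact ⟨g, rfl⟩
  have h2 := Ev_pow p a u s r hr _ h1
  simp only [Ev, LinearMap.coe_mk, AddHom.coe_mk] at h2
  rw [← h2]
  apply sum_congr rfl
  intro k _
  rw [mul_assoc]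
  congr 1
  rw [Finset.prod_apply]
  rw [← prod_mul_distrib]
  apply prod_congr rfl
  intro j _
  simp [gf]

lemma prod_comp_fiber {r : ℕ} (φ : Fin r → J) (v : J → ℂ) :
    ∏ l, v (φ l) = ∏ j, v j ^ (#{l | φ l = j}) := by
  rw [← Finset.prod_fiberwise univ φ (fun l => v (φ l))]
  apply prod_congr rfl
  intro j _
  rw [← prod_const]
  apply prod_congr rfl
  intro l hl
  rw [mem_filter] at hl
  rw [hl.2]

lemma sum_fiber_card {r : ℕ} (φ : Fin r → J) : ∑ j, #{l | φ l = j} = r := by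
  have := Finset.card_eq_sum_card_fiberwise (f := φ) (s := univ) (t := univ) (by intro x _; simp)
  rw [← this]
  simp

lemma gam_bound (p : κ → ℂ) (a : κ → J → ℂ) (u : κ → Γ → ℂ) (s : J → ℕ) (r : ℕ)
    (R : Γ → J → ℂ) (hR : ∀ k g, u k g = ∑ j, R g j * a k j) {C B : ℝ} (hC0 : 0 ≤ C)
    (hC : ∀ g j, ‖R g j‖ ≤ C)
    (hB : ∀ t : J → ℕ, ∑ j, t j = r → ‖∑ k, p k * ∏ j, gf (t j) (s j) (a k j)‖ ≤ B)
    (f : Fin r → Γ) : ‖gam p a u f s‖ ≤ (Fintype.card J * C) ^ r * B := by
  have h1 : gam p a u f s = ∑ φ : Fin r → J, (∏ l, R (f l) (φ l)) *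
      ∑ k, p k * ∏ j, gf (#{l | φ l = j}) (s j) (a k j) := by
    unfold gam
    simp_rw [mul_sum]
    rw [sum_comm]
    apply sum_congr rfl
    intro k _
    have h2 : ∏ l, u k (f l) = ∑ φ : Fin r → J, ∏ l, (R (f l) (φ l) * a k (φ l)) := by
      simp_rw [hR]
      rw [Finset.prod_univ_sum]
      simp
    rw [h2, mul_sum, sum_mul]
    apply sum_congr rfl
    intro φ _
    rw [prod_mul_distrib, prod_comp_fiber φ (a k)]
    have h3 : ∏ j, gf (#{l | φ l = j}) (s j) (a k j)
        = (∏ j, a k j ^ (#{l | φ l = j})) * ∏ j, Complex.exp (a k j * s j) := by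
      rw [← prod_mul_distrib]
      rfl
    rw [h3]
    ring
  rw [h1]
  refine (norm_sum_le _ _).trans ?_
  have h4 : ∀ φ ∈ (univ : Finset (Fin r → J)), ‖(∏ l, R (f l) (φ l)) *
      ∑ k, p k * ∏ j, gf (#{l | φ l = j}) (s j) (a k j)‖ ≤ C ^ r * B := by
    intro φ _
    rw [norm_mul, norm_prod]
    apply mul_le_mul _ (hB _ (sum_fiber_card φ)) (norm_nonneg _) (by positivity)
    calc ∏ l, ‖R (f l) (φ l)‖ ≤ ∏ _l : Fin r, C := by
          apply prod_le_prod
          · intro l _; exact norm_nonneg _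
          · intro l _; exact hC _ _
      _ = C ^ r := by simp
  refine (Finset.sum_le_sum h4).trans ?_
  rw [sum_const, card_univ, Fintype.card_fun, Fintype.card_fin, nsmul_eq_mul, mul_pow]
  push_cast
  rw [mul_assoc]

end Core

end Pool.Agent.Lib.MP_60829e_nt.Bk
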