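import Mathlib
import Pool.Agent.Lib.MP_60829e_nt.BAlg
import Pool.Agent.Lib.MP_60829e_nt.BCore

namespace Pool.Agent.Lib.MP_60829e_nt.Bk

open Finset NumberField

section Field

variable {K : Type} [Field K] [NumberField K]

/-- index set of an integral basis -/
abbrev JJ (K : Type) [Field K] [NumberField K] : Type := Module.Free.ChooseBasisIndex ℤ (𝓞 K)

/-- elements with given natural coordinates -/
noncomputable def xx (v : JJ K → ℕ) : 𝓞 K := ∑ j, (v j : 𝓞 K) * RingOfIntegers.basis K j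

lemma card_JJ : Fintype.card (JJ K) = Module.finrank ℚ K := by
  rw [← Module.finrank_eq_card_chooseBasisIndex, RingOfIntegers.rank]

lemma xx_inj (v w : JJ K → ℕ) (h : xx v = xx w) : v = w := by
  funext j
  have h1 : ∀ v : JJ K → ℕ, (RingOfIntegers.basis K).repr (xx v) j = (v j : ℤ) := by
    intro v
    have : xx v = ∑ j, (v j : ℤ) • RingOfIntegers.basis K j := by
      unfold xx
      apply sum_congr rfl
      intro j _
      simp
    rw [this, Module.Basis.repr_sum_self]
  have h2 := h1 v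
  rw [h, h1 w] at h2
  exact_mod_cast h2.symm

lemma xx_bound : ∃ C : ℕ, ∀ (v : JJ K → ℕ) (M : ℕ), (∀ j, v j ≤ M) → ∀ φ : K →+* ℂ, ‖φ (xx v : K)‖ ≤ C * M := by
  obtain ⟨C, hC⟩ := exists_bd (fun j : JJ K => ((RingOfIntegers.basis K j : 𝓞 K) : K))
  refine ⟨Fintype.card (JJ K) * C, ?_⟩
  intro v M hv φ
  unfold xx
  rw [show (((∑ j, (v j : 𝓞 K) * RingOfIntegers.basis K j : 𝓞 K)) : K)
    = algebraMap (𝓞 K) K (∑ j, (v j : 𝓞 K) * RingOfIntegers.basis K j) from rfl]
  rw [map_sum, map_sum]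
  refine (norm_sum_le _ _).trans ?_
  have h1 : ∀ j ∈ (univ : Finset (JJ K)), ‖φ (algebraMap (𝓞 K) K ((v j : 𝓞 K) * RingOfIntegers.basis K j))‖
      ≤ (C : ℝ) * M := by
    intro j _
    rw [map_mul, map_mul, map_natCast, map_natCast, norm_mul, Complex.norm_natCast, mul_comm]
    apply mul_le_mul (hC j φ) _ (Nat.cast_nonneg _) (Nat.cast_nonneg _)
    exact_mod_cast hv j
  refine (Finset.sum_le_sum h1).trans ?_
  rw [sum_const, card_univ, nsmul_eq_mul]
  push_cast
  linarith

variable {I : Type} [Fintype I]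

/-- traces -/
noncomputable def tt (β : I → 𝓞 K) (i : I) (z : 𝓞 K) : ℤ := Algebra.trace ℤ (𝓞 K) (z * β i)

lemma tt_add (β : I → 𝓞 K) (i : I) (z w : 𝓞 K) : tt β i (z + w) = tt β i z + tt β i w := by
  unfold tt; rw [add_mul, map_add]

lemma tt_sum {U : Type} (A : Finset U) (β : I → 𝓞 K) (i : I) (z : U → 𝓞 K) :
    tt β i (∑ a ∈ A, z a) = ∑ a ∈ A, tt β i (z a) := by
  unfold tt; rw [sum_mul, map_sum]

lemma tt_natmul (β : I → 𝓞 K) (i : I) (n : ℕ) (z : 𝓞 K) : tt β i ((n : 𝓞 K) * z) = n * tt β i z := by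
  unfold tt
  have : (n : 𝓞 K) * z * β i = (n : ℤ) • (z * β i) := by
    rw [zsmul_eq_mul]; push_cast; ring
  rw [this, map_zsmul, smul_eq_mul]

/-- the linear form in logarithms -/
noncomputable def Lam (lam : I → ℂ) (β : I → 𝓞 K) (z : 𝓞 K) : ℂ := ∑ i, lam i * (tt β i z : ℂ)

/-- its exponential in the field -/
noncomputable def eps (α : I → K) (β : I → 𝓞 K) (z : 𝓞 K) : K := ∏ i, α i ^ (tt β i z)

lemma eps_exp (σ : K →+* ℂ) (lam : I → ℂ) (α : I → K) (hα : ∀ i, σ (α i) = Complex.exp (lam i))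
    (β : I → 𝓞 K) (z : 𝓞 K) : σ (eps α β z) = Complex.exp (Lam lam β z) := by
  unfold eps Lam
  rw [map_prod, Complex.exp_sum]
  apply prod_congr rfl
  intro i _
  rw [map_zpow₀, hα i, mul_comm, Complex.exp_int_mul]

lemma Lam_sum {U : Type} (A : Finset U) (lam : I → ℂ) (β : I → 𝓞 K) (z : U → 𝓞 K) :
    Lam lam β (∑ a ∈ A, z a) = ∑ a ∈ A, Lam lam β (z a) := by
  unfold Lam
  simp_rw [tt_sum]
  push_cast
  simp_rw [mul_sum]
  rw [sum_comm]

lemma Lam_natmul (lam : I → ℂ) (β : I → 𝓞 K) (n : ℕ) (z : 𝓞 K) :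
    Lam lam β ((n : 𝓞 K) * z) = n * Lam lam β z := by
  unfold Lam
  simp_rw [tt_natmul]
  push_cast
  rw [mul_sum]
  apply sum_congr rfl
  intro i _
  ring

lemma Lam_mul_xx (lam : I → ℂ) (β : I → 𝓞 K) (x : 𝓞 K) (s : JJ K → ℕ) :
    Lam lam β (x * xx s) = ∑ j, Lam lam β (RingOfIntegers.basis K j * x) * s j := by
  unfold xx
  rw [mul_sum, Lam_sum]
  apply sum_congr rfl
  intro j _
  rw [← mul_assoc, mul_comm x, mul_assoc, Lam_natmul, mul_comm x, mul_comm]

variable [IsGalois ℚ K]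

lemma tt_eq (σ : K →+* ℂ) (β : I → 𝓞 K) (i : I) (z : 𝓞 K) :
    (tt β i z : ℂ) = ∑ g : Gal(K/ℚ), σ (g (z : K)) * σ (g (β i : K)) := by
  have h1 : ((tt β i z : ℤ) : ℚ) = Algebra.trace ℚ K ((z * β i : 𝓞 K) : K) := Algebra.coe_trace_int _
  have h2 := trace_eq_sum_automorphisms (K := ℚ) (((z * β i : 𝓞 K)) : K)
  rw [← h1] at h2
  have h3 := congrArg σ h2
  rw [map_sum] at h3
  rw [show (tt β i z : ℂ) = σ (algebraMap ℚ K ((tt β i z : ℤ) : ℚ)) by simp]
  rw [h3]
  apply sum_congr rfl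
  intro g _
  rw [show ((z * β i : 𝓞 K) : K) = (z : K) * (β i : K) from rfl]
  rw [map_mul, map_mul]

/-- coefficients of the conjugate linear forms -/
noncomputable def cg (σ : K →+* ℂ) (lam : I → ℂ) (β : I → 𝓞 K) (g : Gal(K/ℚ)) : ℂ :=
  ∑ i, lam i * σ (g (β i : K))

lemma Lam_eq (σ : K →+* ℂ) (lam : I → ℂ) (β : I → 𝓞 K) (z : 𝓞 K) :
    Lam lam β z = ∑ g : Gal(K/ℚ), cg σ lam β g * σ (g (z : K)) := by
  unfold Lam cg
  simp_rw [tt_eq σ, mul_sum, sum_mul]
  rw [sum_comm]
  apply sum_congr rfl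
  intro g _
  apply sum_congr rfl
  intro i _
  ring

/-- dual matrix -/
lemma exists_dual (σ : K →+* ℂ) : ∃ N : Gal(K/ℚ) → JJ K → ℂ, ∀ (w : Gal(K/ℚ) → ℂ) (g : Gal(K/ℚ)),
    ∑ j, N g j * (∑ h : Gal(K/ℚ), w h * σ (h (RingOfIntegers.basis K j : K))) = w g := by
  classical
  let f : (Gal(K/ℚ) → ℂ) →ₗ[ℂ] (JJ K → ℂ) :=
    { toFun := fun w j => ∑ h, w h * σ (h (RingOfIntegers.basis K j : K))
      map_add' := by
        intro x y
        funext j
        simp only [Pi.add_apply, add_mul, sum_add_distrib]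
      map_smul' := by
        intro c x
        funext j
        simp only [Pi.smul_apply, smul_eq_mul, RingHom.id_apply, mul_sum, mul_assoc] }
  have hinj : LinearMap.ker f = ⊥ := by
    rw [LinearMap.ker_eq_bot']
    intro w hw
    have h1 : ∀ j, ∑ h, w h * σ (h (RingOfIntegers.basis K j : K)) = 0 := fun j => congrFun hw j
    -- vanishing on all of K
    have h2 : ∀ x : K, ∑ h, w h * σ (h x) = 0 := by
      intro x
      have hx := (integralBasis K).sum_repr x
      rw [← hx]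
      have h3 : ∀ h : Gal(K/ℚ), σ (h (∑ i, (integralBasis K).repr x i • integralBasis K i))
          = ∑ i, ((integralBasis K).repr x i : ℂ) * σ (h (RingOfIntegers.basis K i : K)) := by
        intro h
        rw [map_sum, map_sum]
        apply sum_congr rfl
        intro i _
        rw [integralBasis_apply, Algebra.smul_def, map_mul, AlgEquiv.commutes, map_mul]
        congr 1
        simp
      simp_rw [h3, mul_sum]
      rw [sum_comm]
      apply sum_eq_zero
      intro i _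
      have h4 := h1 i
      calc ∑ h, w h * (((integralBasis K).repr x i : ℂ) * σ (h (RingOfIntegers.basis K i : K)))
          = ((integralBasis K).repr x i : ℂ) * ∑ h, w h * σ (h (RingOfIntegers.basis K i : K)) := by
            rw [mul_sum]; apply sum_congr rfl; intro h _; ring
        _ = 0 := by rw [h4, mul_zero]
    have hlin := linearIndependent_monoidHom K ℂ
    have hinj2 : Function.Injective (fun h : Gal(K/ℚ) => ((σ.comp (h : K →+* K) : K →+* ℂ) : K →* ℂ)) := by
      intro h1 h2 h12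
      ext x
      have := DFunLike.congr_fun h12 x
      simp at this
      exact σ.injective this
    have hlin2 := hlin.comp _ hinj2
    rw [Fintype.linearIndependent_iff] at hlin2
    funext g
    apply hlin2 w _ g
    funext x
    rw [Finset.sum_apply]
    have := h2 x
    simpa using this
  obtain ⟨L, hL⟩ := f.exists_leftInverse_of_injective hinj
  refine ⟨fun g j => L (Pi.single j 1) g, ?_⟩
  intro w g
  have h1 : L (f w) = w := by
    have := congrArg (fun F => F w) hL
    simpa using this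
  have h2 : f w = ∑ j, f w j • (Pi.single j (1:ℂ) : JJ K → ℂ) := by
    funext j
    rw [Finset.sum_apply]
    simp [Pi.single_apply]
  rw [h2, map_sum] at h1
  have h3 := congrFun h1 g
  rw [Finset.sum_apply] at h3
  simp only [map_smul, Pi.smul_apply, smul_eq_mul] at h3
  rw [← h3]
  apply sum_congr rfl
  intro j _
  rw [mul_comm]
  rfl

end Field

end Pool.Agent.Lib.MP_60829e_nt.Bk
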