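import Mathlib
import Pool.Agent.Lib.MP_60829e_nt.BMulti

namespace Pool.Agent.Lib.MP_60829e_nt.Bk

open Finset

lemma rb_le (S t X : ℕ) (hX : 1 ≤ X) (ht : t ≤ X) {A : ℝ} (hA : 1 ≤ A) :
    rb S t A ≤ S * (X : ℝ) ^ t * (2 * S * A) ^ (S * t + S) * Real.exp (S * A) *
      (Real.exp X / (X : ℝ) ^ (S * t)) := by
  unfold rb
  have hX0 : (0:ℝ) < X := by exact_mod_cast hX
  have h1 : (t.factorial : ℝ) ≤ (X : ℝ) ^ t := by
    have h := Nat.factorial_le_pow t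
    have h2 : t ^ t ≤ X ^ t := Nat.pow_le_pow_left ht t
    exact_mod_cast h.trans h2
  have h3 := Real.pow_div_factorial_le_exp (X : ℝ) hX0.le (S * t)
  have h4 : (0:ℝ) < ((S * t).factorial : ℝ) := by exact_mod_cast Nat.factorial_pos _
  have h5 : (1:ℝ) / ((S * t).factorial : ℝ) ≤ Real.exp X / (X : ℝ) ^ (S * t) := by
    rw [div_le_div_iff₀ h4 (by positivity)]
    rw [div_le_iff₀ h4] at h3
    linarith
  rw [div_eq_mul_one_div]
  gcongr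

lemma rb_prod_le {J : Type} [Fintype J] (S X : ℕ) (hX : 1 ≤ X) {A : ℝ} (hA : 1 ≤ A)
    (t : J → ℕ) (ht : ∑ j, t j = X) :
    ∏ j, rb S (t j) A ≤ (S : ℝ) ^ (Fintype.card J) * (X : ℝ) ^ X *
      (2 * S * A) ^ (S * X + S * Fintype.card J) * Real.exp (Fintype.card J * (S * A)) *
      (Real.exp (Fintype.card J * X) / (X : ℝ) ^ (S * X)) := by
  have hle : ∀ j, t j ≤ X := by
    intro j
    rw [← ht]
    exact Finset.single_le_sum (f := t) (fun i _ => Nat.zero_le _) (mem_univ j)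
  have h1 : ∏ j, rb S (t j) A ≤ ∏ j, (S * (X : ℝ) ^ t j * (2 * S * A) ^ (S * t j + S) * Real.exp (S * A) *
      (Real.exp X / (X : ℝ) ^ (S * t j))) := by
    apply prod_le_prod
    · intro j _; exact rb_nonneg S (t j) hA
    · intro j _; exact rb_le S (t j) X hX (hle j) hA
  refine h1.trans (le_of_eq ?_)
  simp_rw [prod_mul_distrib, prod_div_distrib, prod_const, card_univ, prod_pow_eq_pow_sum, sum_add_distrib,
    ← mul_sum, ht, sum_const, card_univ]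
  rw [← Real.exp_nat_mul, ← Real.exp_nat_mul, smul_eq_mul, mul_comm (Fintype.card J) S]

/-- the final numerical contradiction -/
lemma numeric (e C S : ℕ) (hC : 1 ≤ C) (hS : S = e * (e + 1) + e ^ 2 * (e + 2) + e + 2) :
    ∃ B : ℝ, ∀ N X L T E : ℕ, 1 ≤ N → T = N ^ (e + 1) → L = 2 * S * N ^ e → T ≤ X → E = C * L * S →
      ∀ A P H RB : ℝ,
      A = ((C : ℝ) * L) ^ ((e + 1) * T) * ((C : ℝ) ^ (C * E) * (C : ℝ) ^ (C * E)) →
      P = C * (C * (L : ℝ) ^ (e + 1) * A) →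
      H = (L : ℝ) ^ (e + 1) * P * ((C : ℝ) * L) ^ X * (C : ℝ) ^ (C * E) →
      RB = (S : ℝ) ^ (e + 1) * (X : ℝ) ^ X *
        (2 * S * (C * L)) ^ (S * X + S * (e + 1)) * Real.exp (((e + 1 : ℕ) : ℝ) * (S * (C * L))) *
        (Real.exp (((e + 1 : ℕ) : ℝ) * X) / (X : ℝ) ^ (S * X)) →
      1 ≤ ((C : ℝ) ^ (C * E)) ^ (e + 1) * ((((e + 1 : ℕ) : ℝ) * C) ^ X * ((L : ℝ) ^ (e + 1) * P * RB)) * H ^ e →
      (X : ℝ) ≤ B := by
  have hS1 : 1 ≤ S := by rw [hS]; omega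
  have hSr : (1:ℝ) ≤ S := by exact_mod_cast hS1
  have hCr : (1:ℝ) ≤ C := by exact_mod_cast hC
  set d : ℕ := e + 1 with hd
  obtain ⟨M1, hM1⟩ : ∃ M1 : ℝ, M1 = (C : ℝ) ^ (C * (C * (2 * S) * S)) := ⟨_, rfl⟩
  obtain ⟨M2, hM2⟩ : ∃ M2 : ℝ, M2 = ((4 * S : ℝ)) ^ d := ⟨_, rfl⟩
  obtain ⟨M3, hM3⟩ : ∃ M3 : ℝ, M3 = (C : ℝ) * C * M2 * (C : ℝ) ^ d * (M1 * M1) := ⟨_, rfl⟩
  obtain ⟨M4, hM4⟩ : ∃ M4 : ℝ, M4 = M2 * M3 * C * M1 := ⟨_, rfl⟩
  obtain ⟨M5, hM5⟩ : ∃ M5 : ℝ, M5 = (S : ℝ) ^ d * (2 * S * C) ^ S * ((2 * S * C) * (4 * S)) ^ (S * d) *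
    Real.exp ((d : ℝ) * (S * (C * (2 * S)))) * Real.exp d := ⟨_, rfl⟩
  obtain ⟨M, hM⟩ : ∃ M : ℝ, M = M1 ^ d * ((d : ℝ) * C) * M2 * M3 * M5 * M4 ^ e := ⟨_, rfl⟩
  have hM1p : 1 ≤ M1 := by rw [hM1]; exact one_le_pow₀ hCr
  have hM2p : 1 ≤ M2 := by rw [hM2]; exact one_le_pow₀ (by linarith)
  have hM3p : 1 ≤ M3 := by
    rw [hM3]
    have : (1:ℝ) ≤ (C : ℝ) ^ d := one_le_pow₀ hCr
    calc (1:ℝ) = 1 * 1 * 1 * 1 * (1 * 1) := by ring
      _ ≤ _ := by gcongr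
  have hM4p : 1 ≤ M4 := by
    rw [hM4]
    calc (1:ℝ) = 1 * 1 * 1 * 1 := by ring
      _ ≤ _ := by gcongr
  have hM5p : 0 ≤ M5 := by rw [hM5]; positivity
  have hMp : 0 ≤ M := by rw [hM]; positivity
  refine ⟨M ^ d * (((2 * S : ℝ)) ^ d) ^ (d + (d + 1) * e + S), ?_⟩
  intro N X L T E hN hT hL hTX hE A P H RB hA hP hH hRB hone
  have hT1 : 1 ≤ T := by rw [hT]; exact Nat.one_le_pow _ _ hN
  have hX1 : 1 ≤ X := hT1.trans hTX
  have hL1 : 1 ≤ L := by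
    rw [hL]
    have : 1 ≤ N ^ e := Nat.one_le_pow _ _ hN
    nlinarith
  have hNT : N ^ e ≤ T := by rw [hT]; exact Nat.pow_le_pow_right hN (by omega)
  have hLX : L ≤ 2 * S * X := by
    rw [hL]
    exact Nat.mul_le_mul_left _ (hNT.trans hTX)
  have hx : (1:ℝ) ≤ X := by exact_mod_cast hX1
  have hl : (1:ℝ) ≤ L := by exact_mod_cast hL1
  have hlx : (L:ℝ) ≤ 2 * S * X := by exact_mod_cast hLX
  have hx0 : (0:ℝ) < X := by linarith
  have hl0 : (0:ℝ) < L := by linarith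
  -- f0
  have hf0 : (L:ℝ) ≤ (4 * S : ℝ) ^ X := by
    have h1 : (X:ℝ) ≤ 2 ^ X := by
      exact_mod_cast (Nat.lt_two_pow_self (n := X)).le
    have h2 : (2 * S : ℝ) ≤ (2 * S : ℝ) ^ X := by
      calc (2 * S : ℝ) = (2 * S : ℝ) ^ 1 := (pow_one _).symm
        _ ≤ (2 * S : ℝ) ^ X := pow_le_pow_right₀ (by linarith) hX1
    calc (L:ℝ) ≤ 2 * S * X := hlx
      _ ≤ (2 * S : ℝ) ^ X * 2 ^ X := by gcongr
      _ = (4 * S : ℝ) ^ X := by rw [← mul_pow]; congr 1; ring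
  have hf1 : (C : ℝ) ^ (C * E) ≤ M1 ^ X := by
    rw [hM1, ← pow_mul]
    apply pow_le_pow_right₀ hCr
    rw [hE]
    calc C * (C * L * S) ≤ C * (C * (2 * S * X) * S) := by gcongr
      _ = C * (C * (2 * S) * S) * X := by ring
  have hf1' : (1:ℝ) ≤ (C : ℝ) ^ (C * E) := one_le_pow₀ hCr
  have hf2 : (L:ℝ) ^ d ≤ M2 ^ X := by
    rw [hM2, ← pow_mul, mul_comm d X, pow_mul]
    exact pow_le_pow_left₀ hl0.le hf0 d
  have hpowX : ∀ y : ℝ, 1 ≤ y → y ≤ y ^ X := by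
    intro y hy
    calc y = y ^ 1 := (pow_one _).symm
      _ ≤ y ^ X := pow_le_pow_right₀ hy hX1
  have hCL : (1:ℝ) ≤ C * L := by nlinarith
  have hf3 : A ≤ ((C : ℝ) ^ d * (L : ℝ) ^ d * (M1 * M1)) ^ X := by
    rw [hA]
    calc ((C : ℝ) * L) ^ (d * T) * ((C : ℝ) ^ (C * E) * (C : ℝ) ^ (C * E))
        ≤ ((C : ℝ) * L) ^ (d * X) * (M1 ^ X * M1 ^ X) := by
          gcongr
      _ = ((C : ℝ) ^ d * (L : ℝ) ^ d * (M1 * M1)) ^ X := by
          rw [pow_mul, mul_pow (C : ℝ) (L : ℝ) d, ← mul_pow M1 M1 X, ← mul_pow]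
  have hA0 : 0 ≤ A := by rw [hA]; positivity
  have hf4 : P ≤ (M3 * (L : ℝ) ^ d) ^ X := by
    rw [hP]
    have h1 := hpowX C hCr
    calc C * (C * (L : ℝ) ^ d * A) ≤ (C : ℝ) ^ X * ((C : ℝ) ^ X * M2 ^ X * ((C : ℝ) ^ d * (L : ℝ) ^ d * (M1 * M1)) ^ X) := by
          gcongr
      _ = (M3 * (L : ℝ) ^ d) ^ X := by
          rw [hM3, ← mul_pow, ← mul_pow, ← mul_pow]
          congr 1
          ring
  have hP0 : 0 ≤ P := by rw [hP]; positivity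
  have hf5 : H ≤ (M4 * (L : ℝ) ^ (d + 1)) ^ X := by
    rw [hH]
    calc (L : ℝ) ^ d * P * ((C : ℝ) * L) ^ X * (C : ℝ) ^ (C * E)
        ≤ M2 ^ X * (M3 * (L : ℝ) ^ d) ^ X * ((C : ℝ) * L) ^ X * M1 ^ X := by gcongr
      _ = (M4 * (L : ℝ) ^ (d + 1)) ^ X := by
          rw [hM4, ← mul_pow, ← mul_pow, ← mul_pow]
          congr 1
          ring
  have hH0 : 0 ≤ H := by rw [hH]; positivity
  have hf6 : RB ≤ (M5 * X * ((L : ℝ) ^ S / (X : ℝ) ^ S)) ^ X := by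
    rw [hRB]
    have h1 : (2 * S * (C * L) : ℝ) ^ (S * X + S * d) ≤ ((2 * S * C) ^ S * (L : ℝ) ^ S) ^ X *
        ((((2 * S * C) * (4 * S)) ^ (S * d)) ^ X) := by
      rw [pow_add]
      apply mul_le_mul
      · apply le_of_eq
        rw [← mul_pow, ← pow_mul]
        congr 1
        ring
      · have h2 : (1:ℝ) ≤ 2 * S * C := by nlinarith
        have h3 : (2 * S * (C * L) : ℝ) ≤ ((2 * S * C) * (4 * S)) ^ X := by
          calc (2 * S * (C * L) : ℝ) = (2 * S * C) * L := by ring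
            _ ≤ (2 * S * C) ^ X * (4 * S) ^ X := by
              apply mul_le_mul (hpowX _ h2) hf0 hl0.le (by positivity)
            _ = ((2 * S * C) * (4 * S)) ^ X := (mul_pow _ _ _).symm
        calc (2 * S * (C * L) : ℝ) ^ (S * d) ≤ (((2 * S * C) * (4 * S)) ^ X) ^ (S * d) :=
              pow_le_pow_left₀ (by positivity) h3 _
          _ = (((2 * S * C) * (4 * S)) ^ (S * d)) ^ X := by
              rw [← pow_mul, ← pow_mul, mul_comm X (S * d)]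
      · positivity
      · positivity
    have h2 : Real.exp ((d : ℝ) * (S * (C * L))) ≤ (Real.exp ((d : ℝ) * (S * (C * (2 * S))))) ^ X := by
      rw [← Real.exp_nat_mul]
      apply Real.exp_le_exp.mpr
      calc (d : ℝ) * (S * (C * L)) ≤ (d : ℝ) * (S * (C * (2 * S * X))) := by gcongr
        _ = X * ((d : ℝ) * (S * (C * (2 * S)))) := by ring
    have h3 : (S : ℝ) ^ d ≤ ((S : ℝ) ^ d) ^ X := hpowX _ (one_le_pow₀ hSr)
    have h4 : Real.exp ((d : ℝ) * X) = (Real.exp d) ^ X := by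
      rw [← Real.exp_nat_mul]
      congr 1
      ring
    have h5 : (X : ℝ) ^ (S * X) = ((X : ℝ) ^ S) ^ X := by rw [pow_mul]
    rw [h4, h5]
    calc (S : ℝ) ^ d * (X : ℝ) ^ X * (2 * S * (C * L)) ^ (S * X + S * d) * Real.exp ((d : ℝ) * (S * (C * L))) *
        ((Real.exp d) ^ X / ((X : ℝ) ^ S) ^ X)
        ≤ ((S : ℝ) ^ d) ^ X * (X : ℝ) ^ X * (((2 * S * C) ^ S * (L : ℝ) ^ S) ^ X *
        ((((2 * S * C) * (4 * S)) ^ (S * d)) ^ X)) * (Real.exp ((d : ℝ) * (S * (C * (2 * S))))) ^ X *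
        ((Real.exp d) ^ X / ((X : ℝ) ^ S) ^ X) := by gcongr
      _ = (M5 * X * ((L : ℝ) ^ S / (X : ℝ) ^ S)) ^ X := by
          rw [← div_pow, ← mul_pow, ← mul_pow, ← mul_pow, ← mul_pow, ← mul_pow, hM5]
          congr 1
          ring
  have hRB0 : 0 ≤ RB := by rw [hRB]; positivity
  obtain ⟨z, hz⟩ : ∃ z : ℝ, z = M * (L : ℝ) ^ (d + (d + 1) * e + S) * X / (X : ℝ) ^ S := ⟨_, rfl⟩
  have hz0 : 0 ≤ z := by rw [hz]; positivity
  have hf7 : 1 ≤ z ^ X := by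
    refine hone.trans ?_
    calc ((C : ℝ) ^ (C * E)) ^ d * (((d : ℝ) * C) ^ X * ((L : ℝ) ^ d * P * RB)) * H ^ e
        ≤ (M1 ^ X) ^ d * (((d : ℝ) * C) ^ X * (M2 ^ X * (M3 * (L : ℝ) ^ d) ^ X *
          (M5 * X * ((L : ℝ) ^ S / (X : ℝ) ^ S)) ^ X)) * ((M4 * (L : ℝ) ^ (d + 1)) ^ X) ^ e := by gcongr
      _ = z ^ X := by
          have q1 : (M1 ^ X) ^ d = (M1 ^ d) ^ X := by rw [← pow_mul, ← pow_mul, mul_comm X d]
          have q2 : ((M4 * (L : ℝ) ^ (d + 1)) ^ X) ^ e = ((M4 * (L : ℝ) ^ (d + 1)) ^ e) ^ X := by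
            rw [← pow_mul, ← pow_mul, mul_comm X e]
          rw [q1, q2, ← mul_pow, ← mul_pow, ← mul_pow, ← mul_pow, ← mul_pow, hz, hM]
          congr 1
          rw [mul_pow M4, ← pow_mul (L : ℝ), pow_add (L : ℝ) (d + (d + 1) * e) S, pow_add (L : ℝ) d]
          ring
  have hf8 : 1 ≤ z := by
    by_contra hcon
    push Not at hcon
    have := pow_lt_one₀ hz0 hcon (by omega : X ≠ 0)
    linarith
  have hLd : (L : ℝ) ^ d ≤ (2 * S : ℝ) ^ d * (X : ℝ) ^ e := by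
    have h1 : L ^ d ≤ (2 * S) ^ d * X ^ e := by
      rw [hL, mul_pow]
      have : (N ^ e) ^ d = T ^ e := by rw [hT, ← pow_mul, ← pow_mul, mul_comm]
      rw [this]
      gcongr
    exact_mod_cast h1
  have hf9 : (X : ℝ) ^ (d * S) ≤ M ^ d * (((2 * S : ℝ)) ^ d) ^ (d + (d + 1) * e + S) *
      (X : ℝ) ^ (e * (d + (d + 1) * e + S) + d) := by
    have h1 : 1 ≤ z ^ d := one_le_pow₀ hf8
    rw [hz, div_pow, one_le_div (by positivity), ← pow_mul, mul_comm S d] at h1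
    refine h1.trans ?_
    rw [mul_pow, mul_pow, ← pow_mul, mul_comm _ d, pow_mul]
    calc M ^ d * ((L : ℝ) ^ d) ^ (d + (d + 1) * e + S) * (X : ℝ) ^ d
        ≤ M ^ d * ((2 * S : ℝ) ^ d * (X : ℝ) ^ e) ^ (d + (d + 1) * e + S) * (X : ℝ) ^ d := by gcongr
      _ = _ := by rw [mul_pow ((2 * S : ℝ) ^ d), ← pow_mul (X : ℝ), pow_add (X : ℝ)]; ring
  have hexp : d * S = (e * (d + (d + 1) * e + S) + d) + 1 := by
    have : S = e * d + e * e * (d + 1) + d + 1 := by rw [hS, hd]; ring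
    calc d * S = e * S + S := by rw [hd]; ring
      _ = e * S + (e * d + e * e * (d + 1) + d + 1) := by rw [← this]
      _ = _ := by ring
  rw [hexp, pow_succ, mul_comm] at hf9
  exact le_of_mul_le_mul_right hf9 (by positivity)

end Pool.Agent.Lib.MP_60829e_nt.Bk
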