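import Mathlib
import Pool.Agent.Lib.MP_60829e_nt.BField
import Pool.Agent.Lib.MP_60829e_nt.BNum

namespace Pool.Agent.Lib.MP_60829e_nt.Bk

open Finset NumberField

section Field

variable {K : Type} [Field K] [NumberField K] [IsGalois ℚ K] {I : Type} [Fintype I]

lemma tt_bound (σ : K →+* ℂ) (β : I → 𝓞 K) : ∃ C : ℕ, ∀ (v w : JJ K → ℕ) (M M' : ℕ), (∀ j, v j ≤ M) →
    (∀ j, w j ≤ M') → ∀ i, (tt β i (xx v * xx w)).natAbs ≤ C * M * M' := by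
  obtain ⟨C1, hC1⟩ := xx_bound (K := K)
  obtain ⟨C2, hC2⟩ := exists_bd (fun i => (β i : K))
  refine ⟨Fintype.card (Gal(K/ℚ)) * C1 * C1 * C2, ?_⟩
  intro v w M M' hv hw i
  have h1 := tt_eq σ β i (xx v * xx w)
  have h2 : ((tt β i (xx v * xx w)).natAbs : ℝ) = ‖(tt β i (xx v * xx w) : ℂ)‖ := by
    rw [Complex.norm_intCast, Nat.cast_natAbs]
    push_cast
    rfl
  have h3 : ‖(tt β i (xx v * xx w) : ℂ)‖ ≤ Fintype.card (Gal(K/ℚ)) * (((C1 * M) * (C1 * M')) * C2) := by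
    rw [h1]
    refine (norm_sum_le _ _).trans ?_
    have h4 : ∀ g ∈ (univ : Finset Gal(K/ℚ)), ‖σ (g ((xx v * xx w : 𝓞 K) : K)) * σ (g (β i : K))‖
        ≤ ((C1 * M : ℝ) * (C1 * M')) * C2 := by
      intro g _
      rw [show ((xx v * xx w : 𝓞 K) : K) = (xx v : K) * (xx w : K) from rfl, map_mul, map_mul, norm_mul, norm_mul]
      have h5 := hC1 v M hv (σ.comp (g : K →+* K))
      have h6 := hC1 w M' hw (σ.comp (g : K →+* K))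
      have h7 := hC2 i (σ.comp (g : K →+* K))
      have h8 : ∀ z : K, (σ.comp (g : K →+* K)) z = σ (g z) := fun z => rfl
      rw [h8] at h5 h6 h7
      gcongr
    refine (Finset.sum_le_sum h4).trans ?_
    rw [sum_const, card_univ, nsmul_eq_mul]
  rw [← h2] at h3
  have h9 : ((tt β i (xx v * xx w)).natAbs : ℝ) ≤ ((Fintype.card (Gal(K/ℚ)) * C1 * C1 * C2 * M * M' : ℕ) : ℝ) := by
    push_cast
    linarith
  exact_mod_cast h9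

omit [IsGalois ℚ K] in
lemma basis_eq_xx [DecidableEq (JJ K)] (j : JJ K) : RingOfIntegers.basis K j = xx (Pi.single j 1) := by
  unfold xx
  simp [Pi.single_apply]

lemma Lam_bound (σ : K →+* ℂ) (lam : I → ℂ) (β : I → 𝓞 K) : ∃ C : ℕ, ∀ (v : JJ K → ℕ) (M : ℕ), (∀ j, v j ≤ M) →
    ∀ j, ‖Lam lam β (RingOfIntegers.basis K j * xx v)‖ ≤ C * M := by
  classical
  obtain ⟨C1, hC1⟩ := tt_bound σ β
  refine ⟨⌈∑ i, ‖lam i‖⌉₊ * C1, ?_⟩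
  intro v M hv j
  unfold Lam
  refine (norm_sum_le _ _).trans ?_
  have h1 : ∀ i ∈ (univ : Finset I), ‖lam i * (tt β i (RingOfIntegers.basis K j * xx v) : ℂ)‖ ≤ ‖lam i‖ * (C1 * M) := by
    intro i _
    rw [norm_mul, basis_eq_xx]
    apply mul_le_mul_of_nonneg_left _ (norm_nonneg _)
    have h2 : ((tt β i (xx (Pi.single j 1) * xx v)).natAbs : ℝ) = ‖(tt β i (xx (Pi.single j 1) * xx v) : ℂ)‖ := by
      rw [Complex.norm_intCast, Nat.cast_natAbs]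
      push_cast
      rfl
    rw [← h2]
    have h3 := hC1 (Pi.single j 1) v 1 M (by
      intro j'
      by_cases h : j' = j
      · subst h; simp
      · simp [h]) hv i
    rw [mul_one] at h3
    exact_mod_cast h3
  refine (Finset.sum_le_sum h1).trans ?_
  rw [← sum_mul]
  push_cast
  have h4 : ∑ i, ‖lam i‖ ≤ (⌈∑ i, ‖lam i‖⌉₊ : ℝ) := Nat.le_ceil _
  have h5 : (0:ℝ) ≤ C1 * M := by positivity
  calc (∑ i, ‖lam i‖) * (C1 * M) ≤ (⌈∑ i, ‖lam i‖⌉₊ : ℝ) * (C1 * M) := mul_le_mul_of_nonneg_right h4 h5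
    _ = _ := by ring

/-- all constants at once -/
lemma constants (σ : K →+* ℂ) (lam : I → ℂ) (α : I → K) (β : I → 𝓞 K) {Γ : Type} [Fintype Γ]
    (R : Γ → JJ K → ℂ) : ∃ C Q : ℕ, 1 ≤ C ∧ 1 ≤ Q ∧ Q ≤ C ∧ Fintype.card I ≤ C ∧
    (∀ (v : JJ K → ℕ) (M : ℕ), (∀ j, v j ≤ M) → ∀ φ : K →+* ℂ, ‖φ (xx v : K)‖ ≤ C * M) ∧
    (∀ (v w : JJ K → ℕ) (M M' : ℕ), (∀ j, v j ≤ M) →
      (∀ j, w j ≤ M') → ∀ i, (tt β i (xx v * xx w)).natAbs ≤ C * M * M') ∧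
    (∀ (v : JJ K → ℕ) (M : ℕ), (∀ j, v j ≤ M) →
      ∀ j, ‖Lam lam β (RingOfIntegers.basis K j * xx v)‖ ≤ C * M) ∧
    (∀ g j, ‖R g j‖ ≤ C) ∧
    (∀ i, IsIntegral ℤ ((Q : K) * α i)) ∧ (∀ i, IsIntegral ℤ ((Q : K) * (α i)⁻¹)) ∧
    (∀ i, ∀ φ : K →+* ℂ, ‖φ (α i)‖ ≤ C) ∧ (∀ i, ∀ φ : K →+* ℂ, ‖φ (α i)⁻¹‖ ≤ C) ∧
    (∀ (m n : Type) [Fintype m] [Fintype n] (a : m → n → K) (A : ℝ),
    1 ≤ A → 0 < Fintype.card m → 2 * Fintype.card m ≤ Fintype.card n →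
    (∀ k l, IsIntegral ℤ (a k l)) → (∀ k l, ∀ φ : K →+* ℂ, ‖φ (a k l)‖ ≤ A) →
    (∃ k l, a k l ≠ 0) →
    ∃ ξ : n → 𝓞 K, ξ ≠ 0 ∧ (∀ k, ∑ l, a k l * (ξ l : K) = 0) ∧
      ∀ l, ∀ φ : K →+* ℂ, ‖φ (ξ l : K)‖ ≤ C * (C * Fintype.card n * A)) := by
  obtain ⟨C1, hC1⟩ := xx_bound (K := K)
  obtain ⟨C2, hC2⟩ := tt_bound σ β
  obtain ⟨C3, hC3⟩ := Lam_bound σ lam β
  obtain ⟨C5, hC5⟩ := exists_bd α
  obtain ⟨C6, hC6⟩ := exists_bd (fun i => (α i)⁻¹)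
  obtain ⟨c, hc1, hc⟩ := siegel K
  obtain ⟨Q1, hQ1, hQ1'⟩ := exists_den α
  obtain ⟨Q2, hQ2, hQ2'⟩ := exists_den (fun i => (α i)⁻¹)
  obtain ⟨C4, hC4⟩ : ∃ C4 : ℕ, ∀ g j, ‖R g j‖ ≤ C4 := by
    refine ⟨⌈∑ g, ∑ j, ‖R g j‖⌉₊, ?_⟩
    intro g j
    refine le_trans ?_ (Nat.le_ceil _)
    calc ‖R g j‖ ≤ ∑ j, ‖R g j‖ :=
          Finset.single_le_sum (f := fun j => ‖R g j‖) (fun j _ => norm_nonneg _) (mem_univ j)
      _ ≤ ∑ g, ∑ j, ‖R g j‖ :=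
          Finset.single_le_sum (f := fun g => ∑ j, ‖R g j‖) (fun g _ => sum_nonneg fun j _ => norm_nonneg _) (mem_univ g)
  have hint : ∀ n : ℕ, IsIntegral ℤ (n : K) := by
    intro n
    have : IsIntegral ℤ (algebraMap ℤ K (n : ℤ)) := isIntegral_algebraMap
    simpa using this
  obtain ⟨C, hC⟩ : ∃ C : ℕ, C = 1 + C1 + C2 + C3 + C4 + C5 + C6 + ⌈c⌉₊ + Q1 * Q2 + Fintype.card I := ⟨_, rfl⟩
  have hcC : c ≤ C := by
    have h1 := Nat.le_ceil c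
    have h2 : ⌈c⌉₊ ≤ C := by omega
    have h3 : ((⌈c⌉₊ : ℕ) : ℝ) ≤ C := by exact_mod_cast h2
    linarith
  have hCr : ∀ n : ℕ, n ≤ C → (n : ℝ) ≤ C := fun n h => by exact_mod_cast h
  have hQp : 1 ≤ Q1 * Q2 := Nat.mul_pos hQ1 hQ2
  refine ⟨C, Q1 * Q2, by omega, hQp, by omega, by omega, ?_, ?_, ?_, ?_, ?_, ?_, ?_, ?_, ?_⟩
  · intro v M hv φ
    refine (hC1 v M hv φ).trans ?_
    have := hCr C1 (by omega)
    gcongr
  · intro v w M M' hv hw i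
    refine (hC2 v w M M' hv hw i).trans ?_
    have : C2 ≤ C := by omega
    gcongr
  · intro v M hv j
    refine (hC3 v M hv j).trans ?_
    have := hCr C3 (by omega)
    gcongr
  · intro g j
    exact (hC4 g j).trans (hCr C4 (by omega))
  · intro i
    have : ((Q1 * Q2 : ℕ) : K) * α i = (Q2 : K) * ((Q1 : K) * α i) := by push_cast; ring
    rw [this]
    exact (hint Q2).mul (hQ1' i)
  · intro i
    have : ((Q1 * Q2 : ℕ) : K) * (α i)⁻¹ = (Q1 : K) * ((Q2 : K) * (α i)⁻¹) := by push_cast; ring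
    rw [this]
    exact (hint Q1).mul (hQ2' i)
  · intro i φ
    exact (hC5 i φ).trans (hCr C5 (by omega))
  · intro i φ
    exact (hC6 i φ).trans (hCr C6 (by omega))
  · intro m n _ _ a A hA h0 h1 h2 h3 h4
    obtain ⟨ξ, h5, h6, h7⟩ := hc m n a A hA h0 h1 h2 h3 h4
    refine ⟨ξ, h5, h6, ?_⟩
    intro l φ
    refine (h7 l φ).trans ?_
    have hc0 : 0 ≤ c := by linarith
    have hA0 : 0 ≤ A := by linarith
    gcongr

end Field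

end Pool.Agent.Lib.MP_60829e_nt.Bk
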