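import Mathlib
import Pool.Agent.Lib.MP_60829e_nt.BFieldB

namespace Pool.Agent.Lib.MP_60829e_nt.Bk

open Finset NumberField

section Field

variable {K : Type} [Field K] [NumberField K] [IsGalois ℚ K] {I : Type} [Fintype I]

/-- values of the auxiliary function, inside the field -/
noncomputable def gK {Γ : Type} (α : I → K) (β : I → 𝓞 K) (v : Γ → Gal(K/ℚ)) {L : ℕ}
    (p : (JJ K → Fin L) → 𝓞 K) {r : ℕ} (f : Fin r → Γ) (s : JJ K → ℕ) : K :=
  ∑ k, (p k : K) * (∏ l, v (f l) (xx (fun j => (k j : ℕ)) : K)) *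
    eps α β (xx (fun j => (k j : ℕ)) * xx s)

lemma gK_gam {Γ : Type} (σ : K →+* ℂ) (lam : I → ℂ) (α : I → K) (hα : ∀ i, σ (α i) = Complex.exp (lam i))
    (β : I → 𝓞 K) (v : Γ → Gal(K/ℚ)) {L : ℕ}
    (p : (JJ K → Fin L) → 𝓞 K) {r : ℕ} (f : Fin r → Γ) (s : JJ K → ℕ) :
    σ (gK α β v p f s) = gam (fun k => σ (p k : K))
      (fun k j => Lam lam β (RingOfIntegers.basis K j * xx (fun j => (k j : ℕ))))
      (fun k g => σ (v g (xx (fun j => (k j : ℕ)) : K))) f s := by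
  unfold gK gam
  rw [map_sum]
  apply sum_congr rfl
  intro k _
  rw [map_mul, map_mul, map_prod, eps_exp σ lam α hα, Lam_mul_xx, Complex.exp_sum]

/-- non-vanishing of some value -/
lemma gK_ne {Γ : Type} (α : I → K) (β : I → 𝓞 K) (v : Γ → Gal(K/ℚ)) (g0 : Γ) {L : ℕ}
    (p : (JJ K → Fin L) → 𝓞 K) (hp : p ≠ 0) : ∃ r : ℕ, gK α β v p (fun _ : Fin r => g0) 0 ≠ 0 := by
  by_contra hcon
  push Not at hcon
  apply hp
  classical
  let e := (Fintype.equivFin (JJ K → Fin L)).symm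
  have hinj : Function.Injective (fun i => v g0 (xx (fun j => (e i j : ℕ)) : K)) := by
    intro i1 i2 h
    have h1 := (v g0).injective h
    have h2 : xx (fun j => (e i1 j : ℕ)) = xx (fun j => (e i2 j : ℕ)) := RingOfIntegers.ext h1
    have h3 := xx_inj _ _ h2
    apply e.injective
    funext j
    exact Fin.ext (congrFun h3 j)
  have hzero : (fun i => (p (e i) : K)) = 0 := by
    apply Matrix.eq_zero_of_forall_pow_sum_mul_pow_eq_zero hinj
    intro i
    have h1 := hcon (i : ℕ)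
    unfold gK at h1
    rw [← h1]
    rw [← Equiv.sum_comp e]
    apply sum_congr rfl
    intro j _
    have h2 : eps α β (xx (fun j_1 => ((e j) j_1 : ℕ)) * xx 0) = 1 := by
      have : xx (0 : JJ K → ℕ) = 0 := by unfold xx; simp
      rw [this, mul_zero]
      unfold eps tt
      simp
    rw [h2]
    simp
  funext k
  have := congrFun hzero (e.symm k)
  simp only [Equiv.apply_symm_apply, Pi.zero_apply] at this
  apply RingOfIntegers.ext
  simpa using this

lemma gK_int {Γ : Type} (α : I → K) (β : I → 𝓞 K) (v : Γ → Gal(K/ℚ)) {L : ℕ}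
    (p : (JJ K → Fin L) → 𝓞 K) {r : ℕ} (f : Fin r → Γ) (s : JJ K → ℕ) (D : ℕ)
    (hD : ∀ k : JJ K → Fin L, IsIntegral ℤ ((D : K) * eps α β (xx (fun j => (k j : ℕ)) * xx s))) :
    IsIntegral ℤ ((D : K) * gK α β v p f s) := by
  unfold gK
  rw [mul_sum]
  apply IsIntegral.sum
  intro k _
  have h1 : (D : K) * ((p k : K) * (∏ l, v (f l) (xx (fun j => (k j : ℕ)) : K)) *
    eps α β (xx (fun j => (k j : ℕ)) * xx s)) = (p k : K) * (∏ l, v (f l) (xx (fun j => (k j : ℕ)) : K)) *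
    ((D : K) * eps α β (xx (fun j => (k j : ℕ)) * xx s)) := by ring
  rw [h1]
  apply IsIntegral.mul _ (hD k)
  apply IsIntegral.mul (RingOfIntegers.isIntegral_coe _)
  apply IsIntegral.prod
  intro l _
  exact (RingOfIntegers.isIntegral_coe (xx (fun j => (k j : ℕ)))).map ((v (f l)).toAlgHom.restrictScalars ℤ)

lemma gK_norm {Γ : Type} (α : I → K) (β : I → 𝓞 K) (v : Γ → Gal(K/ℚ)) {L : ℕ}
    (p : (JJ K → Fin L) → 𝓞 K) {r : ℕ} (f : Fin r → Γ) (s : JJ K → ℕ) (φ : K →+* ℂ) {P X E : ℝ}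
    (hP0 : 0 ≤ P) (hX0 : 0 ≤ X)
    (hP : ∀ k, ‖φ (p k : K)‖ ≤ P)
    (hX : ∀ (k : JJ K → Fin L) (g : Γ), ‖φ (v g (xx (fun j => (k j : ℕ)) : K))‖ ≤ X)
    (hE : ∀ k : JJ K → Fin L, ‖φ (eps α β (xx (fun j => (k j : ℕ)) * xx s))‖ ≤ E) :
    ‖φ (gK α β v p f s)‖ ≤ (L : ℝ) ^ (Fintype.card (JJ K)) * P * X ^ r * E := by
  classical
  unfold gK
  rw [map_sum]
  refine (norm_sum_le _ _).trans ?_
  have h1 : ∀ k ∈ (univ : Finset (JJ K → Fin L)), ‖φ ((p k : K) * (∏ l, v (f l) (xx (fun j => (k j : ℕ)) : K)) *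
    eps α β (xx (fun j => (k j : ℕ)) * xx s))‖ ≤ P * X ^ r * E := by
    intro k _
    rw [map_mul, map_mul, map_prod, norm_mul, norm_mul, norm_prod]
    have h2 : ∏ l, ‖φ (v (f l) (xx (fun j => (k j : ℕ)) : K))‖ ≤ X ^ r := by
      calc ∏ l, ‖φ (v (f l) (xx (fun j => (k j : ℕ)) : K))‖ ≤ ∏ _l : Fin r, X := by
            apply prod_le_prod
            · intro l _; exact norm_nonneg _
            · intro l _; exact hX k (f l)
        _ = X ^ r := by simp
    have h3 := hP k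
    have h4 := hE k
    gcongr
  refine (Finset.sum_le_sum h1).trans ?_
  rw [sum_const, card_univ, Fintype.card_fun, Fintype.card_fin, nsmul_eq_mul]
  push_cast
  apply le_of_eq
  ring

end Field

end Pool.Agent.Lib.MP_60829e_nt.Bk
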