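import Mathlib
import Pool.Agent.Lib.MP_60829e_nt.BFieldC

namespace Pool.Agent.Lib.MP_60829e_nt.Bk

open Finset NumberField

section Field

variable {K : Type} [Field K] [NumberField K] [IsGalois ℚ K] {I : Type} [Fintype I]

lemma card_G : Fintype.card (Gal(K/ℚ)) = Fintype.card (JJ K) := by
  rw [card_JJ, ← Nat.card_eq_fintype_card, IsGalois.card_aut_eq_finrank]

lemma gal_map_gal (g h : Gal(K/ℚ)) (x : K) : (g * h) x = g (h x) := rfl

/-- Vanishing of one conjugate linear form implies vanishing of all traces. -/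
theorem field_baker (σ : K →+* ℂ) (lam : I → ℂ) (α : I → K) (hα : ∀ i, σ (α i) = Complex.exp (lam i))
    (β : I → 𝓞 K) (hzero : ∑ i, lam i * σ (β i : K) = 0) (z0 : 𝓞 K) (hz0 : Lam lam β z0 ≠ 0) : False := by
  classical
  -- a nonzero coefficient
  obtain ⟨g0, hg0⟩ : ∃ g0 : Gal(K/ℚ), cg σ lam β g0 ≠ 0 := by
    by_contra hcon
    push Not at hcon
    apply hz0
    rw [Lam_eq σ]
    apply sum_eq_zero
    intro g _
    rw [hcon g, zero_mul]
  have hc1 : cg σ lam β 1 = 0 := by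
    unfold cg
    rw [← hzero]
    apply sum_congr rfl
    intro i _
    rfl
  obtain ⟨N, hN⟩ := exists_dual (K := K) σ
  let Γ := {g : Gal(K/ℚ) // cg σ lam β g ≠ 0}
  obtain ⟨e, he⟩ : ∃ e, Fintype.card (JJ K) = e + 1 := by
    refine ⟨Fintype.card (JJ K) - 1, ?_⟩
    have : 0 < Fintype.card (JJ K) := by rw [card_JJ]; exact Module.finrank_pos
    omega
  have hΓe : Fintype.card Γ ≤ e := by
    have h1 : Fintype.card Γ < Fintype.card (Gal(K/ℚ)) :=
      Fintype.card_subtype_lt (x := (1 : Gal(K/ℚ))) (by simpa using hc1)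
    rw [card_G, he] at h1
    omega
  let v : Γ → Gal(K/ℚ) := fun g => g.1
  let R : Γ → JJ K → ℂ := fun g j => (cg σ lam β g.1)⁻¹ * N g.1 j
  obtain ⟨C, Q, hC1, hQ1, hQC, hIC, hxx, htt, hLam, hR, hint1, hint2, hal1, hal2, hsieg⟩ :=
    constants σ lam α β R
  have hCr : (1:ℝ) ≤ C := by exact_mod_cast hC1
  obtain ⟨S, hS⟩ : ∃ S, S = e * (e + 1) + e ^ 2 * (e + 2) + e + 2 := ⟨_, rfl⟩
  have hS1 : 1 ≤ S := by omega
  obtain ⟨B, hB⟩ := numeric e C S hC1 hS
  obtain ⟨n0, hn0⟩ := exists_nat_gt B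
  -- parameters
  obtain ⟨n, hn⟩ : ∃ n, n = max n0 1 := ⟨_, rfl⟩
  have hn1 : 1 ≤ n := by rw [hn]; exact le_max_right _ _
  have hnn0 : n0 ≤ n := by rw [hn]; exact le_max_left _ _
  obtain ⟨T, hT⟩ : ∃ T, T = n ^ (e + 1) := ⟨_, rfl⟩
  obtain ⟨L, hL⟩ : ∃ L, L = 2 * S * n ^ e := ⟨_, rfl⟩
  obtain ⟨E, hE⟩ : ∃ E, E = C * L * S := ⟨_, rfl⟩
  have hT1 : 1 ≤ T := by rw [hT]; exact Nat.one_le_pow _ _ hn1
  have hL1 : 1 ≤ L := by
    rw [hL]
    have : 1 ≤ n ^ e := Nat.one_le_pow _ _ hn1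
    nlinarith
  have hLr : (1:ℝ) ≤ L := by exact_mod_cast hL1
  obtain ⟨D, hD⟩ : ∃ D : ℕ, D = Q ^ (Fintype.card I * E) := ⟨_, rfl⟩
  have hD1 : 1 ≤ D := by rw [hD]; exact Nat.one_le_pow _ _ hQ1
  have hDC : (D : ℝ) ≤ (C : ℝ) ^ (C * E) := by
    rw [hD]
    push_cast
    calc (Q : ℝ) ^ (Fintype.card I * E) ≤ (C : ℝ) ^ (Fintype.card I * E) := by
          apply pow_le_pow_left₀ (Nat.cast_nonneg _)
          exact_mod_cast hQC
      _ ≤ (C : ℝ) ^ (C * E) := by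
          apply pow_le_pow_right₀ hCr
          exact Nat.mul_le_mul_right _ hIC
  -- bounds
  have hxk : ∀ (k : JJ K → Fin L) (φ : K →+* ℂ), ‖φ (xx (fun j => (k j : ℕ)) : K)‖ ≤ C * L :=
    fun k φ => hxx _ L (fun j => (k j).isLt.le) φ
  have hxkg : ∀ (k : JJ K → Fin L) (φ : K →+* ℂ) (g : Gal(K/ℚ)), ‖φ (g (xx (fun j => (k j : ℕ)) : K))‖ ≤ C * L :=
    fun k φ g => hxk k (φ.comp (g : K →+* K))
  have httE : ∀ (k : JJ K → Fin L) (s : JJ K → ℕ), (∀ j, s j < S) → ∀ i,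
      (tt β i (xx (fun j => (k j : ℕ)) * xx s)).natAbs ≤ E := by
    intro k s hs i
    rw [hE]
    exact htt _ _ L S (fun j => (k j).isLt.le) (fun j => (hs j).le) i
  have hepsint : ∀ (k : JJ K → Fin L) (s : JJ K → ℕ), (∀ j, s j < S) →
      IsIntegral ℤ ((D : K) * eps α β (xx (fun j => (k j : ℕ)) * xx s)) := by
    intro k s hs
    rw [hD]
    exact eps_int α Q hint1 hint2 _ E (httE k s hs)
  have hepsn : ∀ (k : JJ K → Fin L) (s : JJ K → ℕ), (∀ j, s j < S) → ∀ φ : K →+* ℂ,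
      ‖φ (eps α β (xx (fun j => (k j : ℕ)) * xx s))‖ ≤ (C : ℝ) ^ (C * E) := by
    intro k s hs φ
    refine (eps_norm α hCr hal1 hal2 _ E (httE k s hs) φ).trans ?_
    apply pow_le_pow_right₀ hCr
    exact Nat.mul_le_mul_right _ hIC
  obtain ⟨A, hA⟩ : ∃ A : ℝ, A = ((C : ℝ) * L) ^ ((e + 1) * T) * ((C : ℝ) ^ (C * E) * (C : ℝ) ^ (C * E)) := ⟨_, rfl⟩
  have hCL : (1:ℝ) ≤ C * L := by nlinarith
  have hCE : (1:ℝ) ≤ (C : ℝ) ^ (C * E) := one_le_pow₀ hCr
  have hA1 : 1 ≤ A := by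
    rw [hA]
    have h1 : (1:ℝ) ≤ ((C : ℝ) * L) ^ ((e + 1) * T) := one_le_pow₀ hCL
    nlinarith [mul_le_mul hCE hCE zero_le_one (by positivity)]
  -- Siegel
  let ent : ((Γ → Fin T) × (JJ K → Fin S)) → (JJ K → Fin L) → K := fun m k =>
    (∏ g : Γ, (v g (xx (fun j => (k j : ℕ)) : K)) ^ (m.1 g : ℕ)) *
      ((D : K) * eps α β (xx (fun j => (k j : ℕ)) * xx (fun j => (m.2 j : ℕ))))
  have hTne : NeZero T := ⟨by omega⟩
  have hSne : NeZero S := ⟨by omega⟩
  have hLne : NeZero L := ⟨by omega⟩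
  have hcard : Fintype.card ((Γ → Fin T) × (JJ K → Fin S)) = T ^ (Fintype.card Γ) * S ^ (e + 1) := by
    rw [Fintype.card_prod, Fintype.card_fun, Fintype.card_fun, Fintype.card_fin, Fintype.card_fin, he]
  have hcard2 : Fintype.card (JJ K → Fin L) = L ^ (e + 1) := by
    rw [Fintype.card_fun, Fintype.card_fin, he]
  obtain ⟨p, hp0, hpeq, hpb⟩ := hsieg _ _ ent A hA1 (by
      rw [hcard]; positivity) (by
      rw [hcard, hcard2]
      have h1 : T ^ (Fintype.card Γ) ≤ T ^ e := Nat.pow_le_pow_right hT1 hΓe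
      have h2 : L ^ (e + 1) = (2 * S) ^ (e + 1) * T ^ e := by
        rw [hL, hT, mul_pow, ← pow_mul, ← pow_mul, mul_comm e]
      rw [h2, mul_pow]
      have h3 : 2 ≤ 2 ^ (e + 1) := by
        calc 2 = 2 ^ 1 := rfl
          _ ≤ 2 ^ (e + 1) := Nat.pow_le_pow_right (by norm_num) (by omega)
      calc 2 * (T ^ (Fintype.card Γ) * S ^ (e + 1)) ≤ 2 ^ (e + 1) * (T ^ e * S ^ (e + 1)) := by gcongr
        _ = 2 ^ (e + 1) * S ^ (e + 1) * T ^ e := by ring) (by
      intro m k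
      apply IsIntegral.mul _ (hepsint k _ (fun j => (m.2 j).isLt))
      apply IsIntegral.prod
      intro g _
      apply IsIntegral.pow
      exact (RingOfIntegers.isIntegral_coe (xx (fun j => (k j : ℕ)))).map ((v g).toAlgHom.restrictScalars ℤ)) (by
      intro m k φ
      simp only [ent]
      rw [map_mul, map_mul, map_prod, norm_mul, norm_mul, norm_prod, map_natCast, Complex.norm_natCast, hA]
      have h1 : ∏ g : Γ, ‖φ ((v g (xx (fun j => (k j : ℕ)) : K)) ^ (m.1 g : ℕ))‖ ≤ ((C : ℝ) * L) ^ ((e + 1) * T) := by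
        calc ∏ g : Γ, ‖φ ((v g (xx (fun j => (k j : ℕ)) : K)) ^ (m.1 g : ℕ))‖ ≤ ∏ _g : Γ, ((C : ℝ) * L) ^ T := by
              apply prod_le_prod
              · intro g _; exact norm_nonneg _
              · intro g _
                rw [map_pow, norm_pow]
                exact (pow_le_pow_left₀ (norm_nonneg _) (hxkg k φ (v g)) _).trans
                  (pow_le_pow_right₀ hCL (m.1 g).isLt.le)
          _ = ((C : ℝ) * L) ^ (Fintype.card Γ * T) := by
              rw [prod_const, card_univ, ← pow_mul, mul_comm T]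
          _ ≤ _ := pow_le_pow_right₀ hCL (Nat.mul_le_mul_right _ (by omega))
      have h2 := hepsn k (fun j => (m.2 j : ℕ)) (fun j => (m.2 j).isLt) φ
      gcongr) (by
      refine ⟨(fun _ => 0, fun _ => 0), fun _ => 0, ?_⟩
      simp only [ent]
      apply mul_ne_zero
      · simp
      · apply mul_ne_zero
        · have : D ≠ 0 := by omega
          exact_mod_cast this
        · intro h
          have h2 := eps_exp σ lam α hα β (xx (fun j => (((fun _ => 0 : JJ K → Fin L) j : Fin L) : ℕ)) *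
            xx (fun j => (((fun _ => 0 : JJ K → Fin S) j : Fin S) : ℕ)))
          rw [h, map_zero] at h2
          exact (Complex.exp_ne_zero _) h2.symm)
  rw [hcard2] at hpb
  push_cast at hpb
  obtain ⟨P, hP⟩ : ∃ P : ℝ, P = C * (C * (L : ℝ) ^ (e + 1) * A) := ⟨_, rfl⟩
  rw [← hP] at hpb
  have hA0 : 0 ≤ A := by linarith
  have hP0 : 0 ≤ P := by rw [hP]; positivity
  -- vanishing up to order T
  have hvanT : ∀ r : ℕ, r < T → ∀ f : Fin r → Γ, ∀ s : JJ K → ℕ, (∀ j, s j < S) →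
      gK α β v p f s = 0 := by
    intro r hr f s hs
    have h1 := hpeq (fun g => ⟨#{l | f l = g}, by
      refine lt_of_le_of_lt (card_filter_le _ _) ?_
      simpa using hr⟩, fun j => ⟨s j, hs j⟩)
    simp only [ent] at h1
    have hDne : (D : K) ≠ 0 := by
      have : D ≠ 0 := by omega
      exact_mod_cast this
    apply mul_left_cancel₀ hDne
    rw [mul_zero, ← h1]
    unfold gK
    rw [mul_sum]
    apply sum_congr rfl
    intro k _
    have h2 : ∏ l, v (f l) (xx (fun j => (k j : ℕ)) : K)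
        = ∏ g : Γ, (v g (xx (fun j => (k j : ℕ)) : K)) ^ (#{l | f l = g}) := by
      rw [← Finset.prod_fiberwise univ f (fun l => v (f l) (xx (fun j => (k j : ℕ)) : K))]
      apply prod_congr rfl
      intro j _
      rw [← prod_const]
      apply prod_congr rfl
      intro l hl
      rw [mem_filter] at hl
      rw [hl.2]
    rw [h2]
    ring
  -- first nonvanishing order
  have hex : ∃ r : ℕ, ∃ f : Fin r → Γ, ∃ s : JJ K → ℕ, (∀ j, s j < S) ∧ gK α β v p f s ≠ 0 := by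
    obtain ⟨r, hr⟩ := gK_ne α β v ⟨g0, hg0⟩ p hp0
    exact ⟨r, _, 0, fun j => by simp only [Pi.zero_apply]; omega, hr⟩
  obtain ⟨X, ⟨f, s, hs, hne⟩, hmin⟩ : ∃ X : ℕ, (∃ f : Fin X → Γ, ∃ s : JJ K → ℕ, (∀ j, s j < S) ∧
      gK α β v p f s ≠ 0) ∧ ∀ r < X, ¬ (∃ f : Fin r → Γ, ∃ s : JJ K → ℕ, (∀ j, s j < S) ∧
      gK α β v p f s ≠ 0) := ⟨Nat.find hex, Nat.find_spec hex, fun r hr => Nat.find_min hex hr⟩
  have hTX : T ≤ X := by
    by_contra hcon
    push Not at hcon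
    exact hne (hvanT X hcon f s hs)
  have hX1 : 1 ≤ X := hT1.trans hTX
  have hvan : ∀ r < X, ∀ f : Fin r → Γ, ∀ s : JJ K → ℕ, (∀ j, s j < S) → gK α β v p f s = 0 := by
    intro r hr f s hs
    by_contra hcon
    exact hmin r hr ⟨f, s, hs, hcon⟩
  -- complex side
  obtain ⟨a, ha⟩ : ∃ a : (JJ K → Fin L) → JJ K → ℂ,
      a = fun k j => Lam lam β (RingOfIntegers.basis K j * xx (fun j => (k j : ℕ))) := ⟨_, rfl⟩
  obtain ⟨u, hu⟩ : ∃ u : (JJ K → Fin L) → Γ → ℂ,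
      u = fun k g => σ (v g (xx (fun j => (k j : ℕ)) : K)) := ⟨_, rfl⟩
  have hgam : ∀ (r : ℕ) (f : Fin r → Γ) (s : JJ K → ℕ), σ (gK α β v p f s) = gam (fun k => σ (p k : K)) a u f s := by
    intro r f s
    rw [ha, hu]
    exact gK_gam σ lam α hα β v p f s
  -- linear relations
  have hP' : ∀ k j, a k j = ∑ g : Γ, (cg σ lam β g.1 * σ (g.1 (RingOfIntegers.basis K j : K))) * u k g := by
    intro k j
    rw [ha, hu]
    simp only
    rw [Lam_eq σ]
    have h1 : ∑ g : Gal(K/ℚ), cg σ lam β g * σ (g ((RingOfIntegers.basis K j * xx (fun j => (k j : ℕ)) : 𝓞 K) : K))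
        = ∑ g ∈ univ.filter (fun g : Gal(K/ℚ) => cg σ lam β g ≠ 0), cg σ lam β g * σ (g ((RingOfIntegers.basis K j * xx (fun j => (k j : ℕ)) : 𝓞 K) : K)) := by
      rw [sum_filter]
      apply sum_congr rfl
      intro g _
      by_cases h : cg σ lam β g = 0
      · simp [h]
      · simp [h]
    rw [h1]
    rw [← Finset.sum_subtype_eq_sum_filter]
    rw [Finset.subtype_univ]
    apply sum_congr rfl
    intro g _
    rw [show ((RingOfIntegers.basis K j * xx (fun j => (k j : ℕ)) : 𝓞 K) : K)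
      = (RingOfIntegers.basis K j : K) * (xx (fun j => (k j : ℕ)) : K) from rfl]
    rw [map_mul, map_mul]
    ring
  have hR' : ∀ k g, u k g = ∑ j, R g j * a k j := by
    intro k g
    have h1 := hN (fun h => cg σ lam β h * σ (h (xx (fun j => (k j : ℕ)) : K))) g.1
    have h2 : ∀ j, ∑ h : Gal(K/ℚ), cg σ lam β h * σ (h (xx (fun j => (k j : ℕ)) : K)) * σ (h (RingOfIntegers.basis K j : K))
        = a k j := by
      intro j
      rw [ha]
      simp only
      rw [Lam_eq σ]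
      apply sum_congr rfl
      intro h _
      rw [show ((RingOfIntegers.basis K j * xx (fun j => (k j : ℕ)) : 𝓞 K) : K)
        = (RingOfIntegers.basis K j : K) * (xx (fun j => (k j : ℕ)) : K) from rfl]
      rw [map_mul, map_mul]
      ring
    simp_rw [h2] at h1
    simp only [R]
    simp_rw [mul_assoc]
    rw [← mul_sum, h1, hu]
    simp only [v]
    rw [← mul_assoc, inv_mul_cancel₀ g.2, one_mul]
  have hab : ∀ k j, ‖a k j‖ ≤ C * L := by
    intro k j
    rw [ha]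
    exact hLam _ L (fun j => (k j).isLt.le) j
  have hvangf : ∀ t s : JJ K → ℕ, ∑ j, t j < X → (∀ j, s j < S) →
      ∑ k, σ (p k : K) * ∏ j, gf (t j) (s j) (a k j) = 0 := by
    intro t s ht hs
    apply gam_to_gf (fun k => σ (p k : K)) a u s (∑ j, t j) _ _ hP' t rfl
    intro f
    rw [← hgam, hvan _ ht f s hs, map_zero]
  obtain ⟨RB, hRB⟩ : ∃ RB : ℝ, RB = (S : ℝ) ^ (e + 1) * (X : ℝ) ^ X *
        (2 * S * (C * L)) ^ (S * X + S * (e + 1)) * Real.exp (((e + 1 : ℕ) : ℝ) * (S * (C * L))) *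
        (Real.exp (((e + 1 : ℕ) : ℝ) * X) / (X : ℝ) ^ (S * X)) := ⟨_, rfl⟩
  have hRB0 : 0 ≤ RB := by rw [hRB]; positivity
  have hsump : ∑ k, ‖σ (p k : K)‖ ≤ (L : ℝ) ^ (e + 1) * P := by
    refine (Finset.sum_le_sum (fun k _ => hpb k σ)).trans ?_
    rw [sum_const, card_univ, hcard2, nsmul_eq_mul]
    push_cast
    exact le_rfl
  have hmul : ∀ t : JJ K → ℕ, ∑ j, t j = X →
      ‖∑ k, σ (p k : K) * ∏ j, gf (t j) (s j) (a k j)‖ ≤ (L : ℝ) ^ (e + 1) * P * RB := by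
    intro t ht
    refine (multi hS1 (fun k => σ (p k : K)) a hCL hab hvangf t s ht hs).trans ?_
    have h1 := rb_prod_le S X hX1 hCL t ht
    rw [he, ← hRB] at h1
    have h2 : 0 ≤ ∏ j, rb S (t j) ((C : ℝ) * L) := prod_nonneg fun j _ => rb_nonneg S (t j) hCL
    exact mul_le_mul hsump h1 h2 (by positivity)
  have hsmall : ‖σ (gK α β v p f s)‖ ≤ (((e + 1 : ℕ) : ℝ) * C) ^ X * ((L : ℝ) ^ (e + 1) * P * RB) := by
    rw [hgam]
    have h1 := gam_bound (fun k => σ (p k : K)) a u s X R hR' (C := (C : ℝ)) (Nat.cast_nonneg _) hR hmul f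
    rwa [he] at h1
  obtain ⟨H, hH⟩ : ∃ H : ℝ, H = (L : ℝ) ^ (e + 1) * P * ((C : ℝ) * L) ^ X * (C : ℝ) ^ (C * E) := ⟨_, rfl⟩
  have hHn : ∀ φ : K →+* ℂ, ‖φ (gK α β v p f s)‖ ≤ H := by
    intro φ
    have h1 := gK_norm α β v p f s φ hP0 (by positivity) (fun k => hpb k φ) (fun k g => hxkg k φ (v g))
      (fun k => hepsn k s hs φ)
    rw [he] at h1
    rw [hH]
    exact h1
  have hlio := liouville σ (gK α β v p f s) hne D hD1 (gK_int α β v p f s D (fun k => hepsint k s hs)) hHn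
  rw [← card_JJ, he, Nat.add_sub_cancel] at hlio
  have hfinal : 1 ≤ ((C : ℝ) ^ (C * E)) ^ (e + 1) *
      ((((e + 1 : ℕ) : ℝ) * C) ^ X * ((L : ℝ) ^ (e + 1) * P * RB)) * H ^ e := by
    refine hlio.trans ?_
    have hH0 : 0 ≤ H := (norm_nonneg _).trans (hHn σ)
    gcongr
  have hBX := hB n X L T E hn1 hT hL hTX hE A P H RB hA hP hH hRB hfinal
  have h1 : (n : ℝ) ≤ X := by
    have h2 : n ≤ T := by
      rw [hT]
      calc n = n ^ 1 := (pow_one _).symm
        _ ≤ n ^ (e + 1) := Nat.pow_le_pow_right hn1 (by omega)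
    exact_mod_cast h2.trans hTX
  have h2 : (n0 : ℝ) ≤ n := by exact_mod_cast hnn0
  linarith

end Field

end Pool.Agent.Lib.MP_60829e_nt.Bk
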