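import Mathlib
import Pool.Agent.Lib.MP_60829e_nt.BFieldD

namespace Pool.Agent.Lib.MP_60829e_nt.Bk

open Finset NumberField

lemma exists_galois_field (A : Finset ℂ) (hA : ∀ x ∈ A, IsAlgebraic ℚ x) :
    ∃ K : IntermediateField ℚ ℂ, FiniteDimensional ℚ K ∧ IsGalois ℚ K ∧ ∀ x ∈ A, x ∈ K := by
  classical
  let P : Polynomial ℚ := ∏ x ∈ A, minpoly ℚ x
  have hP0 : P ≠ 0 := by
    apply Finset.prod_ne_zero_iff.mpr
    intro x hx
    exact minpoly.ne_zero (hA x hx).isIntegral
  let K : IntermediateField ℚ ℂ := IntermediateField.adjoin ℚ (P.rootSet ℂ)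
  have hsf : P.IsSplittingField ℚ K :=
    IntermediateField.adjoin_rootSet_isSplittingField (IsAlgClosed.splits _)
  have h1 : FiniteDimensional ℚ K := Polynomial.IsSplittingField.finiteDimensional K P
  have h2 : Normal ℚ K := Normal.of_isSplittingField P
  have h3 : Algebra.IsSeparable ℚ K := inferInstance
  have h4 : IsGalois ℚ K := ⟨⟩
  refine ⟨K, h1, h4, ?_⟩
  intro x hx
  apply IntermediateField.subset_adjoin
  rw [Polynomial.mem_rootSet]
  refine ⟨hP0, ?_⟩
  simp only [P]
  rw [map_prod]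
  apply Finset.prod_eq_zero hx
  exact minpoly.aeval ℚ x

/-- Baker's theorem, homogeneous form: logarithms of algebraic numbers that are linearly
independent over the rationals are linearly independent over the algebraic numbers. -/
theorem baker_hom {I : Type} [Fintype I] (lam : I → ℂ)
    (halg : ∀ i, IsAlgebraic ℚ (Complex.exp (lam i))) (hli : LinearIndependent ℚ lam)
    (β : I → ℂ) (hβ : ∀ i, IsAlgebraic ℚ (β i)) (h : ∑ i, lam i * β i = 0) : ∀ i, β i = 0 := by
  classical
  obtain ⟨K, hfin, hgal, hK⟩ := exists_galois_field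
    (univ.image β ∪ univ.image (fun i => Complex.exp (lam i))) (by
      intro x hx
      rw [mem_union, mem_image, mem_image] at hx
      rcases hx with ⟨i, _, rfl⟩ | ⟨i, _, rfl⟩
      · exact hβ i
      · exact halg i)
  have hnf : NumberField K := ⟨⟩
  have hβK : ∀ i, β i ∈ K := fun i => hK _ (mem_union_left _ (mem_image_of_mem _ (mem_univ i)))
  have hαK : ∀ i, Complex.exp (lam i) ∈ K := fun i =>
    hK _ (mem_union_right _ (mem_image_of_mem (fun i => Complex.exp (lam i)) (mem_univ i)))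
  let σ : K →+* ℂ := algebraMap K ℂ
  let α : I → K := fun i => ⟨Complex.exp (lam i), hαK i⟩
  have hα : ∀ i, σ (α i) = Complex.exp (lam i) := fun i => rfl
  let b : I → K := fun i => ⟨β i, hβK i⟩
  have hb : ∀ i, σ (b i) = β i := fun i => rfl
  obtain ⟨Q, hQ1, hQ⟩ := exists_den b
  let B : I → 𝓞 K := fun i => ⟨(Q : K) * b i, hQ i⟩
  have hB : ∀ i, (B i : K) = (Q : K) * b i := fun i => rfl
  have hQ0 : (Q : K) ≠ 0 := by
    have : Q ≠ 0 := by omega
    exact_mod_cast this
  have hzero : ∑ i, lam i * σ (B i : K) = 0 := by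
    have : ∑ i, lam i * σ (B i : K) = (Q : ℂ) * ∑ i, lam i * β i := by
      rw [mul_sum]
      apply sum_congr rfl
      intro i _
      rw [hB, map_mul, hb, map_natCast]
      ring
    rw [this, h, mul_zero]
  have hLam : ∀ z : 𝓞 K, Lam lam B z = 0 := by
    intro z
    by_contra hcon
    exact field_baker σ lam α hα B hzero z hcon
  have htt : ∀ i (z : 𝓞 K), tt B i z = 0 := by
    intro i z
    have h1 := hLam z
    rw [Fintype.linearIndependent_iff] at hli
    have h2 := hli (fun i => (tt B i z : ℚ)) (by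
      rw [← h1]
      unfold Lam
      apply sum_congr rfl
      intro j _
      rw [Algebra.smul_def, mul_comm]
      simp) i
    exact_mod_cast h2
  intro i
  by_contra hne
  have hb0 : b i ≠ 0 := by
    intro h0
    apply hne
    rw [← hb i, h0, map_zero]
  have hB0 : (B i : K) ≠ 0 := by rw [hB]; exact mul_ne_zero hQ0 hb0
  obtain ⟨Q', hQ'1, hQ'⟩ := exists_den (fun _ : Unit => (B i : K)⁻¹)
  obtain ⟨w, hw⟩ : ∃ w : 𝓞 K, (w : K) = (Q' : K) * (B i : K)⁻¹ := ⟨⟨_, hQ' ()⟩, rfl⟩
  have h1 := htt i w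
  unfold tt at h1
  have h2 : w * B i = algebraMap ℤ (𝓞 K) (Q' : ℤ) := by
    apply RingOfIntegers.ext
    rw [show (((w * B i : 𝓞 K)) : K) = (w : K) * (B i : K) from rfl, hw]
    rw [inv_mul_cancel_right₀ hB0]
    simp
  rw [h2, Algebra.trace_algebraMap, RingOfIntegers.rank] at h1
  have h3 : 0 < Module.finrank ℚ K := Module.finrank_pos
  have h4 : (Q' : ℤ) ≠ 0 := by
    have : Q' ≠ 0 := by omega
    exact_mod_cast this
  rw [smul_eq_zero] at h1
  rcases h1 with h1 | h1
  · omega
  · exact h4 h1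

end Pool.Agent.Lib.MP_60829e_nt.Bk
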