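import Pool.Agent.Lib.MP_60829e_nt.DensMain
import Pool.Agent.Lib.MP_60829e_nt.BBaker

/-! Density-one theorem: final assembly with Baker's theorem. -/

open MvPolynomial Finset

namespace MP60829e.Dens

/-- Logarithms of distinct primes are linearly independent over the rationals. -/
theorem linearIndependent_log_primes :
    LinearIndependent ℚ (fun p : Nat.Primes => ((Real.log (p : ℕ) : ℝ) : ℂ)) := by
  classical
  -- reduce to integer relations
  rw [← LinearIndependent.iff_fractionRing (R := ℤ) (K := ℚ)]
  rw [linearIndependent_iff']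
  intro s g hg
  -- real relation
  have h1 : ∑ p ∈ s, (g p : ℝ) * Real.log (p : ℕ) = 0 := by
    have : ((∑ p ∈ s, (g p : ℝ) * Real.log (p : ℕ) : ℝ) : ℂ) = 0 := by
      rw [← hg]
      push_cast
      refine Finset.sum_congr rfl fun p _ => ?_
      simp
    exact_mod_cast this
  -- split positive and negative parts
  have h2 : ∏ p ∈ s, ((p : ℕ) : ℝ) ^ (g p).toNat = ∏ p ∈ s, ((p : ℕ) : ℝ) ^ (-g p).toNat := by
    apply Real.log_injOn_pos
    · simp only [Set.mem_Ioi]
      exact Finset.prod_pos fun p _ => pow_pos (by exact_mod_cast p.2.pos) _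
    · simp only [Set.mem_Ioi]
      exact Finset.prod_pos fun p _ => pow_pos (by exact_mod_cast p.2.pos) _
    · rw [Real.log_prod, Real.log_prod]
      · rw [← sub_eq_zero, ← Finset.sum_sub_distrib, ← h1]
        refine Finset.sum_congr rfl fun p _ => ?_
        rw [Real.log_pow, Real.log_pow, ← sub_mul]
        congr 1
        have := Int.toNat_sub_toNat_neg (g p)
        exact_mod_cast this
      · intro p _
        exact pow_ne_zero _ (by exact_mod_cast p.2.ne_zero)
      · intro p _
        exact pow_ne_zero _ (by exact_mod_cast p.2.ne_zero)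
  have h3 : ∏ p ∈ s, (p : ℕ) ^ (g p).toNat = ∏ p ∈ s, (p : ℕ) ^ (-g p).toNat := by
    exact_mod_cast h2
  intro q hq
  have h4 := congrArg (fun m => Nat.factorization m (q : ℕ)) h3
  rw [Nat.factorization_prod, Nat.factorization_prod] at h4
  · simp only [Nat.factorization_pow, Finsupp.coe_finsetSum, Finset.sum_apply,
      Finsupp.coe_smul, Pi.smul_apply, smul_eq_mul] at h4
    have h5 : ∀ e : Nat.Primes → ℕ, ∑ p ∈ s, e p * ((p : ℕ).factorization (q : ℕ)) = e q := by
      intro e
      rw [Finset.sum_eq_single q]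
      · rw [q.2.factorization_self, mul_one]
      · intro p _ hpq
        rw [p.2.factorization, Finsupp.single_apply, if_neg, mul_zero]
        intro h
        exact hpq (Subtype.ext h)
      · intro h; exact absurd hq h
    rw [h5, h5] at h4
    omega
  · intro p _
    exact pow_ne_zero _ p.2.ne_zero
  · intro p _
    exact pow_ne_zero _ p.2.ne_zero

/-- Baker's theorem for logarithms of primes. -/
theorem baker_log_primes :
    LinearIndependent QA (fun p : Nat.Primes => ((Real.log (p : ℕ) : ℝ) : ℂ)) := by
  classical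
  rw [linearIndependent_iff']
  intro s g hg p hp
  have h1 := Pool.Agent.Lib.MP_60829e_nt.Bk.baker_hom
    (I := {p : Nat.Primes // p ∈ s})
    (lam := fun i => ((Real.log ((i : Nat.Primes) : ℕ) : ℝ) : ℂ)) ?_ ?_
    (fun i => ((g i : QA) : ℂ)) ?_ ?_ ⟨p, hp⟩
  · exact Subtype.ext h1
  · intro i
    rw [← Complex.ofReal_exp, Real.exp_log (by exact_mod_cast (i : Nat.Primes).2.pos)]
    have : IsAlgebraic ℚ ((((i : Nat.Primes) : ℕ) : ℂ)) := isAlgebraic_natCast _
    simpa using this
  · exact linearIndependent_log_primes.comp _ Subtype.val_injective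
  · intro i
    exact mem_algebraicClosure_iff.mp (g i).2
  · rw [← hg, ← Finset.sum_attach s (fun i => g i • (((Real.log (i : ℕ) : ℝ) : ℂ)))]
    refine Finset.sum_congr rfl fun i _ => ?_
    rw [mul_comm]
    rfl

/-- An affine shear over the algebraic numbers preserves `NoRel`. -/
theorem NoRel.shear {k n D : ℕ} {lam : Fin k → ℂ} {y : Fin n → ℂ}
    (h : NoRel D (Sum.elim lam y)) {v : Fin n → ℂ}
    (hv : ∀ i, v i ∈ Submodule.span QA (insert 1 (Set.range lam))) :
    NoRel D (Sum.elim lam fun i => y i + v i) := by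
  classical
  have h1 : ∀ i, ∃ c0 : QA, ∃ c : Fin k → QA, v i = (c0 : ℂ) + ∑ j, (c j : ℂ) * lam j := by
    intro i
    obtain ⟨c0, z, hz, hvz⟩ := Submodule.mem_span_insert.mp (hv i)
    obtain ⟨c, hc⟩ := (Submodule.mem_span_range_iff_exists_fun QA).mp hz
    refine ⟨c0, c, ?_⟩
    rw [hvz, ← hc]
    have : c0 • (1 : ℂ) = (c0 : ℂ) := by
      rw [Algebra.smul_def, mul_one]; rfl
    rw [this]
    congr 1
  choose c0 c hc using h1
  let w : Fin n → MvPolynomial (Fin k ⊕ Fin n) QA :=
    fun i => C (c0 i) + ∑ j, C (c i j) * X (Sum.inl j)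
  have hw : ∀ i, (w i).totalDegree ≤ 1 := by
    intro i
    refine (totalDegree_add _ _).trans (max_le ?_ ?_)
    · rw [totalDegree_C]; exact Nat.zero_le _
    · refine totalDegree_finsetSum_le fun j _ => ?_
      refine (totalDegree_mul _ _).trans ?_
      rw [totalDegree_C, totalDegree_X]
  refine NoRel.subst h (Sum.elim (fun j => X (Sum.inl j)) (fun i => X (Sum.inr i) + w i)) ?_ ?_ ?_
  · rintro (j | i)
    · exact (totalDegree_X _).le
    · refine (totalDegree_add _ _).trans (max_le ?_ (hw i))
      rw [totalDegree_X]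
  · let τ : MvPolynomial (Fin k ⊕ Fin n) QA →ₐ[QA] MvPolynomial (Fin k ⊕ Fin n) QA :=
      aeval (Sum.elim (fun j => X (Sum.inl j)) (fun i => X (Sum.inr i) - w i))
    apply Function.LeftInverse.injective (g := τ)
    intro f
    have hτw : ∀ i, τ (w i) = w i := by
      intro i
      simp only [w, map_add, map_sum, map_mul]
      congr 1
      · exact MvPolynomial.aeval_C _ _
      · refine Finset.sum_congr rfl fun j _ => ?_
        congr 1
        · exact MvPolynomial.aeval_C _ _
        · simp [τ]
    have h2 : τ.comp (aeval (Sum.elim (fun j => X (Sum.inl j)) (fun i => X (Sum.inr i) + w i))) =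
        AlgHom.id QA _ := by
      apply MvPolynomial.algHom_ext
      rintro (j | i)
      · simp [AlgHom.comp_apply, τ]
      · rw [AlgHom.comp_apply, aeval_X, Sum.elim_inr, map_add, hτw]
        simp [τ]
    exact congrArg (fun φ => φ f) h2
  · rintro (j | i)
    · simp
    · simp only [Sum.elim_inr, map_add, aeval_X, w, map_sum, map_mul, Sum.elim_inl]
      rw [hc i]
      congr 2
      · rw [MvPolynomial.aeval_C]; rfl
      · refine Finset.sum_congr rfl fun j _ => ?_
        rw [MvPolynomial.aeval_C]; rfl

/-- The density-one extension theorem. -/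
theorem extension (n k D : ℕ) (lam : Fin k → ℂ) (hlam : NoRel D lam) (u : Fin n → ℂ) :
    DensityZero {b | ∃ v : Fin n → ℂ,
      (∀ i, v i ∈ Submodule.span QA (insert 1 (Set.range lam))) ∧
      ¬ NoRel D (Sum.elim lam fun i => u i + ((Real.log (b i) : ℝ) : ℂ) + v i)} := by
  refine ((main baker_log_primes n D).1 k lam hlam u).mono ?_
  rintro b _ ⟨v, hv, hrel⟩ hno
  exact hrel (hno.shear hv)

end MP60829e.Dens
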