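import Mathlib

namespace Pool.Agent.Lib.MP_60829e_nt.Gen

open Finset MvPolynomial

/-- exponent vectors of bounded degree -/
abbrev Ex (ι : Type) (D : ℕ) : Type := {n : ι →₀ ℕ | (n.sum fun _ e => e) ≤ D}

noncomputable def exEquiv (ι : Type) [Fintype ι] (D : ℕ) : Ex ι D ≃ {P : Option ι → ℕ // ∑ i, P i = D} where
  toFun n := ⟨fun o => o.elim (D - (n : ι →₀ ℕ).sum fun _ e => e) (fun i => (n : ι →₀ ℕ) i), by
    rw [Fintype.sum_option]
    simp only [Option.elim_none, Option.elim_some]
    have h := n.2
    simp only [Set.mem_setOf_eq] at h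
    have h2 : (n : ι →₀ ℕ).sum (fun _ e => e) = ∑ i, (n : ι →₀ ℕ) i := Finsupp.sum_fintype _ _ (fun _ => rfl)
    rw [h2] at h ⊢
    omega⟩
  invFun P := ⟨Finsupp.equivFunOnFinite.symm (fun i => P.1 (some i)), by
    have h := P.2
    rw [Fintype.sum_option] at h
    simp only [Set.mem_setOf_eq]
    rw [Finsupp.sum_fintype _ _ (fun _ => rfl)]
    simp only [Finsupp.equivFunOnFinite_symm_apply_apply]
    omega⟩
  left_inv n := by
    apply Subtype.ext
    ext i
    simp
  right_inv P := by
    apply Subtype.ext
    funext o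
    have h := P.2
    rw [Fintype.sum_option] at h
    cases o with
    | none =>
      simp only [Option.elim_none]
      rw [Finsupp.sum_fintype _ _ (fun _ => rfl)]
      simp only [Finsupp.equivFunOnFinite_symm_apply_apply]
      omega
    | some i => simp

instance exFintype (ι : Type) [Fintype ι] (D : ℕ) : Finite (Ex ι D) := by
  classical
  exact Finite.of_equiv _ ((exEquiv ι D).trans (Sym.equivNatSumOfFintype (Option ι) D).symm).symm

lemma card_ex (ι : Type) [Fintype ι] (D : ℕ) : Nat.card (Ex ι D) = (Fintype.card ι + D).choose D := by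
  classical
  rw [Nat.card_congr ((exEquiv ι D).trans (Sym.equivNatSumOfFintype (Option ι) D).symm)]
  rw [Nat.card_eq_fintype_card, Sym.card_sym_eq_choose, Fintype.card_option]
  congr 1
  omega

lemma finrank_rtd (k : Type) [Field k] (ι : Type) [Fintype ι] (D : ℕ) :
    Module.finrank k (restrictTotalDegree ι k D) = (Fintype.card ι + D).choose D := by
  rw [← card_ex]
  exact Module.finrank_eq_nat_card_basis (basisRestrictSupport k {n : ι →₀ ℕ | (n.sum fun _ e => e) ≤ D})

/-- selection of functionals -/
lemma exists_functionals {k V Z : Type} [Field k] [AddCommGroup V] [Module k V] [FiniteDimensional k V]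
    (φ : Z → Module.Dual k V) (h : ∀ v, (∀ z, φ z v = 0) → v = 0) (N : ℕ) (hN : Module.finrank k V = N) :
    ∃ z : Fin N → Z, ∀ v, (∀ i, φ (z i) v = 0) → v = 0 := by
  subst hN
  have hspan : Submodule.span k (Set.range φ) = ⊤ := by
    have h1 : (Submodule.span k (Set.range φ)).dualCoannihilator = ⊥ := by
      rw [Submodule.eq_bot_iff]
      intro v hv
      apply h
      intro z
      rw [Submodule.mem_dualCoannihilator] at hv
      exact hv _ (Submodule.subset_span ⟨z, rfl⟩)
    have h2 := Subspace.dualCoannihilator_dualAnnihilator_eq (W := Submodule.span k (Set.range φ))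
    rw [h1] at h2
    rw [← h2]
    exact Submodule.dualAnnihilator_bot
  obtain ⟨b, hb1, hb2, hb3⟩ := exists_linearIndependent k (Set.range φ)
  rw [hspan] at hb2
  let B : Module.Basis b k (Module.Dual k V) := Module.Basis.mk hb3 (by rw [Subtype.range_coe, hb2])
  have hBapp : ∀ i : b, B i = (i : Module.Dual k V) := fun i => by simp [B]
  have hfin : Finite b := Module.Finite.finite_basis B
  have := Fintype.ofFinite b
  have hcard : Fintype.card b = Module.finrank k V := by
    rw [← Module.finrank_eq_card_basis B, Subspace.dual_finrank_eq]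
  let e : Fin (Module.finrank k V) ≃ b := (Fintype.equivFinOfCardEq hcard).symm
  choose z hz using fun i : b => hb1 i.2
  refine ⟨fun i => z (e i), ?_⟩
  intro v hv
  apply h
  intro z0
  have h3 : ∀ ψ : Module.Dual k V, ψ v = 0 := by
    intro ψ
    have h4 : ψ ∈ Submodule.span k b := by rw [hb2]; trivial
    induction h4 using Submodule.span_induction with
    | mem x hx =>
      have h5 := hv (e.symm ⟨x, hx⟩)
      simp only [Equiv.apply_symm_apply] at h5
      rw [hz ⟨x, hx⟩] at h5
      exact h5
    | zero => rfl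
    | add x y _ _ hx hy => rw [LinearMap.add_apply, hx, hy, add_zero]
    | smul c x _ hx => rw [LinearMap.smul_apply, hx, smul_zero]
  exact h3 _

section Main

variable {k : Type} [Field k] [IsAlgClosed k] {F : Type} [Field F] [Algebra k F]
variable {σ : Type} [Finite σ]

/-- common zeros of all relations of `θ` -/
abbrev ZZ (k : Type) [Field k] {F : Type} [Field F] [Algebra k F] {σ : Type} (θ : σ → F) : Type :=
  {x : σ → k // ∀ p : MvPolynomial σ k, aeval θ p = 0 → eval x p = 0}

lemma pt (θ : σ → F) (g : MvPolynomial σ k) (hg : aeval θ g ≠ 0) :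
    ∃ x : ZZ k θ, eval x.1 g ≠ 0 := by
  let I : Ideal (MvPolynomial σ k) := RingHom.ker (aeval θ : MvPolynomial σ k →ₐ[k] F)
  have hI : I.IsPrime := RingHom.ker_isPrime _
  have h1 : vanishingIdeal k (zeroLocus k I) = I := IsPrime.vanishingIdeal_zeroLocus I
  by_contra hcon
  push Not at hcon
  apply hg
  have h2 : g ∈ vanishingIdeal k (zeroLocus k I) := by
    intro x hx
    have h3 := hcon ⟨x, fun p hp => by
      have := hx p hp
      rwa [aeval_eq_eval] at this⟩
    rw [aeval_eq_eval]
    exact h3
  rw [h1] at h2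
  exact h2

/-- no relation of degree at most `D` -/
def DF (k : Type) [Field k] {F : Type} [Field F] [Algebra k F] {ι : Type} (D : ℕ) (z : ι → F) : Prop :=
  ∀ f : MvPolynomial ι k, f.totalDegree ≤ D → aeval z f = 0 → f = 0

omit [IsAlgClosed k] [Finite σ] in
lemma aeval_comp {ι : Type} (θ : σ → F) (y : ι → MvPolynomial σ k) (f : MvPolynomial ι k) :
    aeval (fun i => aeval θ (y i)) f = aeval θ (aeval y f) := by
  have : ((aeval θ : MvPolynomial σ k →ₐ[k] F).comp (aeval y)) = aeval (fun i => aeval θ (y i)) := by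
    apply MvPolynomial.algHom_ext
    intro i
    simp
  rw [← this]
  rfl

/-- enough points -/
lemma exists_points {ι : Type} [Fintype ι] {D : ℕ} (θ : σ → F) (y : ι → MvPolynomial σ k)
    (hy : DF k D (fun i => aeval θ (y i))) (N : ℕ) (hN : (Fintype.card ι + D).choose D = N) :
    ∃ x : Fin N → (σ → k), (∀ j, ∀ p : MvPolynomial σ k, aeval θ p = 0 → eval (x j) p = 0) ∧
      ∀ f : MvPolynomial ι k, f.totalDegree ≤ D → (∀ j, eval (x j) (aeval y f) = 0) → f = 0 := by
  have hfd : FiniteDimensional k (restrictTotalDegree ι k D) := inferInstance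
  let φ : ZZ k θ → Module.Dual k (restrictTotalDegree ι k D) := fun x =>
    ((aeval x.1 : MvPolynomial σ k →ₐ[k] k).toLinearMap ∘ₗ (aeval y : MvPolynomial ι k →ₐ[k] MvPolynomial σ k).toLinearMap) ∘ₗ
      (restrictTotalDegree ι k D).subtype
  have hφ : ∀ x f, φ x f = eval x.1 (aeval y (f : MvPolynomial ι k)) := by
    intro x f
    simp only [φ, LinearMap.comp_apply, AlgHom.toLinearMap_apply, Submodule.subtype_apply]
    rw [aeval_eq_eval]
  obtain ⟨z, hz⟩ := exists_functionals φ (by
    intro f hf
    by_contra hne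
    have h1 : aeval θ (aeval y (f : MvPolynomial ι k)) ≠ 0 := by
      intro h0
      apply hne
      apply Subtype.ext
      apply hy
      · exact (mem_restrictTotalDegree ι D (f : MvPolynomial ι k)).mp f.2
      · rw [aeval_comp]; exact h0
    obtain ⟨x, hx⟩ := pt θ _ h1
    apply hx
    rw [← hφ]
    exact hf x) N (by rw [finrank_rtd k ι D, hN])
  refine ⟨fun j => (z j).1, fun j => (z j).2, ?_⟩
  intro f hf hz0
  have h1 := hz ⟨f, (mem_restrictTotalDegree ι D f).mpr hf⟩ (by
    intro i
    rw [hφ]
    exact hz0 i)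
  exact congrArg Subtype.val h1

end Main

end Pool.Agent.Lib.MP_60829e_nt.Gen
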