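import Mathlib

namespace MP60829e.Dens

/-- The numbers `x i` satisfy no nonzero polynomial relation of total degree at most `D` with
algebraic coefficients. -/
def NoRel {ι : Type} (D : ℕ) (x : ι → ℂ) : Prop :=
  ∀ f : MvPolynomial ι ℂ, f ≠ 0 → (∀ m, IsAlgebraic ℚ (f.coeff m)) → f.totalDegree ≤ D →
    MvPolynomial.eval x f ≠ 0

/-- `X` has natural density zero among the `n`-tuples of positive integers. -/
def DensityZero {n : ℕ} (X : Set (Fin n → ℕ)) : Prop :=
  Filter.Tendsto (fun B : ℕ =>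
    (Nat.card {b : Fin n → ℕ // b ∈ X ∧ ∀ i, 1 ≤ b i ∧ b i ≤ B} : ℝ) / (B : ℝ) ^ n)
    Filter.atTop (nhds 0)

end MP60829e.Dens
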