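import Mathlib

open MvPolynomial

namespace MP60829e.Dens

variable {K : Type*} [Field K]

/-- Simultaneous nonsingular evaluation matrices. -/
theorem exists_rows {A : Type*} [CommRing A] [Algebra K A] (I : Ideal A) [hI : I.IsPrime]
    (Y : Set (A →ₐ[K] K)) (hY : ∀ p, p ∉ I → ∃ φ ∈ Y, φ p ≠ 0)
    {S : Type*} [Fintype S] (M : ℕ) (g : S → Fin M → A)
    (hg : ∀ s (lam : Fin M → K), lam ≠ 0 → ∑ a, lam a • g s a ∉ I) :
    ∃ φ : Fin M → (A →ₐ[K] K), (∀ m, φ m ∈ Y) ∧
      ∀ s, LinearIndependent K (fun m : Fin M => fun a : Fin M => φ m (g s a)) := by
  classical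
  have key : ∀ m : ℕ, m ≤ M → ∃ φ : Fin m → (A →ₐ[K] K), (∀ k, φ k ∈ Y) ∧
      ∀ s, LinearIndependent K (fun k : Fin m => fun a : Fin M => φ k (g s a)) := by
    intro m
    induction m with
    | zero =>
      intro _
      refine ⟨Fin.elim0, fun k => k.elim0, fun s => linearIndependent_empty_type⟩
    | succ m ih =>
      intro hm
      obtain ⟨φ, hφY, hφ⟩ := ih (by omega)
      have hlam : ∀ s, ∃ f : (Fin M → K) →ₗ[K] K, f ≠ 0 ∧
          Submodule.span K (Set.range fun k : Fin m => fun a : Fin M => φ k (g s a)) ≤
            LinearMap.ker f := by
        intro s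
        apply Submodule.exists_le_ker_of_lt_top
        rw [lt_top_iff_ne_top]
        intro htop
        have h1 := finrank_span_eq_card (hφ s)
        rw [htop, finrank_top, Module.finrank_fin_fun, Fintype.card_fin] at h1
        omega
      choose f hf0 hfker using hlam
      set r : S → A := fun s => ∑ a, f s (Pi.single a 1) • g s a with hr
      have hfv : ∀ s (v : Fin M → K), f s v = ∑ a, v a * f s (Pi.single a 1) := by
        intro s v
        conv_lhs => rw [show v = ∑ a, v a • (Pi.single a (1 : K) : Fin M → K) by
          ext b
          simp [Finset.sum_apply, Pi.single_apply]]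
        rw [map_sum]
        simp [map_smul]
      have hr0 : ∀ s, r s ∉ I := by
        intro s
        apply hg s
        intro h0
        apply hf0 s
        ext v
        have := congrFun h0 v
        simpa using this
      have hprod : ∏ s, r s ∉ I := by
        intro h
        rw [Ideal.IsPrime.prod_mem_iff] at h
        obtain ⟨s, -, hs⟩ := h
        exact hr0 s hs
      obtain ⟨ψ, hψY, hψ⟩ := hY _ hprod
      refine ⟨Fin.snoc φ ψ, ?_, ?_⟩
      · intro k
        refine Fin.lastCases ?_ (fun k => ?_) k
        · simpa using hψY
        · simpa using hφY k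
      · intro s
        have hsn : (fun k : Fin (m + 1) => fun a : Fin M =>
            (Fin.snoc φ ψ : Fin (m + 1) → (A →ₐ[K] K)) k (g s a)) =
            Fin.snoc (fun k : Fin m => fun a : Fin M => φ k (g s a)) (fun a => ψ (g s a)) := by
          funext k
          refine Fin.lastCases ?_ (fun k => ?_) k
          · simp
          · simp
        rw [hsn, linearIndependent_finSnoc]
        refine ⟨hφ s, fun hmem => ?_⟩
        have h2 := hfker s hmem
        rw [LinearMap.mem_ker, hfv] at h2
        have h3 : ψ (r s) = 0 := by
          rw [hr]
          simp only [map_sum, map_smul, smul_eq_mul]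
          rw [← h2]
          exact Finset.sum_congr rfl fun a _ => mul_comm _ _
        apply hψ
        rw [map_prod]
        exact Finset.prod_eq_zero (Finset.mem_univ s) h3
  exact key M le_rfl

section shift

variable {σ : Type*}

/-- translation of polynomials -/
noncomputable def sh (h : σ → K) : MvPolynomial σ K →ₐ[K] MvPolynomial σ K :=
  aeval fun i => X i + C (h i)

theorem eval_sh (h x : σ → K) (P : MvPolynomial σ K) :
    eval x (sh h P) = eval (x + h) P := by
  have : (aeval x : MvPolynomial σ K →ₐ[K] K).comp (sh h) = aeval (x + h) := by
    apply MvPolynomial.algHom_ext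
    intro i
    simp [sh]
  have h2 := congrArg (fun φ => φ P) this
  simpa [MvPolynomial.coe_aeval_eq_eval] using h2

theorem totalDegree_sh_monomial (h : σ → K) : ∀ (d : ℕ) (m : σ →₀ ℕ), m.degree = d →
    (sh h (monomial m 1)).totalDegree ≤ d ∧
    (1 ≤ d → (sh h (monomial m 1) - monomial m 1).totalDegree ≤ d - 1) ∧
    (d = 0 → sh h (monomial m 1) - monomial m 1 = 0) := by
  classical
  intro d
  induction d with
  | zero =>
    intro m hm
    have : m = 0 := (Finsupp.degree_eq_zero_iff m).mp hm
    subst this
    have h1 : (monomial (0 : σ →₀ ℕ) (1 : K)) = 1 := rfl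
    rw [h1]
    simp
  | succ d ih =>
    intro m hm
    have hne : m ≠ 0 := by
      rintro rfl
      simp at hm
    obtain ⟨i, hi⟩ := Finsupp.ne_iff.mp hne
    have hle : Finsupp.single i 1 ≤ m := by
      rw [Finsupp.single_le_iff]
      simpa [Nat.one_le_iff_ne_zero] using hi
    obtain ⟨m', rfl⟩ : ∃ m', m = m' + Finsupp.single i 1 := ⟨m - Finsupp.single i 1, (tsub_add_cancel_of_le hle).symm⟩
    have hd : m'.degree = d := by
      rw [map_add] at hm
      simpa using hm
    obtain ⟨h1, h2, h3⟩ := ih m' hd
    have hmon : (monomial (m' + Finsupp.single i 1) (1 : K)) = monomial m' 1 * X i := by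
      rw [monomial_add_single, pow_one]
    have hX : sh h (X i) = X i + C (h i) := by simp [sh]
    have hdeg1 : (X i + C (h i) : MvPolynomial σ K).totalDegree ≤ 1 := by
      refine (totalDegree_add _ _).trans ?_
      simp [totalDegree_X, totalDegree_C]
    refine ⟨?_, fun _ => ?_, fun h0 => absurd h0 (by omega)⟩
    · rw [hmon, map_mul, hX]
      exact (totalDegree_mul _ _).trans (by omega)
    · rw [hmon, map_mul, hX]
      have hid : sh h (monomial m' 1) * (X i + C (h i)) - monomial m' 1 * X i =
          (sh h (monomial m' 1) - monomial m' 1) * X i + sh h (monomial m' 1) * C (h i) := by ring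
      rw [hid]
      refine (totalDegree_add _ _).trans (max_le ?_ ?_)
      · by_cases hd0 : d = 0
        · rw [h3 hd0]
          simp
        · have := h2 (by omega)
          refine (totalDegree_mul _ _).trans ?_
          rw [totalDegree_X]
          omega
      · refine (totalDegree_mul _ _).trans ?_
        rw [totalDegree_C]
        omega

theorem totalDegree_sh_sub (h : σ → K) (P : MvPolynomial σ K) (T : ℕ)
    (hP : P.totalDegree ≤ T + 1) : (sh h P - P).totalDegree ≤ T := by
  classical
  have hsum : sh h P - P = ∑ m ∈ P.support, C (P.coeff m) * (sh h (monomial m 1) - monomial m 1) := by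
    conv_lhs => rw [P.as_sum]
    rw [map_sum, ← Finset.sum_sub_distrib]
    refine Finset.sum_congr rfl fun m _ => ?_
    have : (monomial m (P.coeff m) : MvPolynomial σ K) = C (P.coeff m) * monomial m 1 := by
      rw [C_mul_monomial, mul_one]
    rw [this, map_mul, mul_sub]
    congr 1
    congr 1
    simp [sh, MvPolynomial.algebraMap_eq]
  rw [hsum]
  refine totalDegree_finsetSum_le fun m hm => ?_
  refine (totalDegree_mul _ _).trans ?_
  rw [totalDegree_C, zero_add]
  have hmd : m.degree ≤ T + 1 := by
    have := le_totalDegree hm
    exact this.trans hP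
  obtain ⟨-, h2, h3⟩ := totalDegree_sh_monomial h m.degree m rfl
  by_cases h0 : m.degree = 0
  · rw [h3 h0]
    simp
  · exact (h2 (by omega)).trans (by omega)

end shift

/-- A polynomial of degree at most `T` that vanishes on a sum of `T` affinely spanning sets is
zero. -/
theorem vanish [CharZero K] {σ : Type*} [Finite σ] {M : ℕ} : ∀ (T : ℕ) (P : MvPolynomial σ K),
    P.totalDegree ≤ T → ∀ (G : Fin T → Fin (M + 1) → (σ → K)),
    (∀ j, Submodule.span K (Set.range fun a : Fin M => G j a.succ - G j 0) = ⊤) →
    ∀ v : σ → K, (∀ c : Fin T → Fin (M + 1), eval (v + ∑ j, G j (c j)) P = 0) → P = 0 := by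
  intro T
  induction T with
  | zero =>
    intro P hP G _ v hv
    have h1 : P = C (coeff 0 P) := totalDegree_eq_zero_iff_eq_C.mp (by omega)
    have h2 := hv Fin.elim0
    rw [h1] at h2
    simp at h2
    rw [h1, h2, map_zero]
  | succ T ih =>
    intro P hP G hG v hv
    have hinv : ∀ (a : Fin M) (x : σ → K), eval (x + (G 0 a.succ - G 0 0)) P = eval x P := by
      intro a x
      have hQ : sh (G 0 a.succ) P - sh (G 0 0) P = 0 := by
        refine ih (sh (G 0 a.succ) P - sh (G 0 0) P) ?_ (fun j => G j.succ) (fun j => hG j.succ) v ?_
        · have : sh (G 0 a.succ) P - sh (G 0 0) P =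
              (sh (G 0 a.succ) P - P) - (sh (G 0 0) P - P) := by ring
          rw [this]
          refine (totalDegree_sub _ _).trans (max_le ?_ ?_)
          · exact totalDegree_sh_sub _ _ _ hP
          · exact totalDegree_sh_sub _ _ _ hP
        · intro c
          rw [map_sub, eval_sh, eval_sh]
          have e1 := hv (Fin.cons a.succ c)
          have e2 := hv (Fin.cons 0 c)
          rw [Fin.sum_univ_succ] at e1 e2
          simp only [Fin.cons_zero, Fin.cons_succ] at e1 e2
          rw [show v + ∑ j, G (Fin.succ j) (c j) + G 0 a.succ =
            v + (G 0 a.succ + ∑ j, G (Fin.succ j) (c j)) by abel, e1,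
            show v + ∑ j, G (Fin.succ j) (c j) + G 0 0 =
            v + (G 0 0 + ∑ j, G (Fin.succ j) (c j)) by abel, e2, sub_zero]
      have h1 := congrArg (eval (x - G 0 0)) hQ
      rw [map_sub, eval_sh, eval_sh, map_zero, sub_eq_zero] at h1
      rw [show x + (G 0 a.succ - G 0 0) = x - G 0 0 + G 0 a.succ by abel, h1]
      congr 1
      simp
    -- invariance under all multiples
    have hline : ∀ (a : Fin M) (t : K) (x : σ → K),
        eval (x + t • (G 0 a.succ - G 0 0)) P = eval x P := by
      intro a t x
      set h := G 0 a.succ - G 0 0 with hh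
      have hnat : ∀ n : ℕ, eval (x + (n : K) • h) P = eval x P := by
        intro n
        induction n with
        | zero => simp
        | succ n ihn =>
          rw [show x + ((n + 1 : ℕ) : K) • h = (x + (n : K) • h) + h by
            push_cast; rw [add_smul, one_smul]; abel, hinv, ihn]
      let q : Polynomial K := (MvPolynomial.aeval (fun i => Polynomial.C (x i) + Polynomial.X * Polynomial.C (h i)) P)
      have hq : ∀ s : K, q.eval s = eval (x + s • h) P := by
        intro s
        have : ((Polynomial.evalRingHom s).comp
            (MvPolynomial.aeval (fun i => Polynomial.C (x i) + Polynomial.X * Polynomial.C (h i)) :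
              MvPolynomial σ K →ₐ[K] Polynomial K).toRingHom) = eval (x + s • h) := by
          apply MvPolynomial.ringHom_ext
          · intro r
            simp
          · intro i
            simp
            exact mul_comm _ _
        exact congrArg (fun φ => φ P) this
      have hz : q - Polynomial.C (eval x P) = 0 := by
        apply Polynomial.eq_zero_of_infinite_isRoot
        apply Set.Infinite.mono (s := Set.range fun n : ℕ => (n : K))
        · rintro _ ⟨n, rfl⟩
          simp only [Set.mem_ofPred_eq, Polynomial.IsRoot.def, Polynomial.eval_sub,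
            Polynomial.eval_C, hq, hnat, sub_self]
        · exact Set.infinite_range_of_injective Nat.cast_injective
      have := hq t
      rw [sub_eq_zero.mp hz, Polynomial.eval_C] at this
      exact this.symm
    have hall : ∀ (y x : σ → K), eval (x + y) P = eval x P := by
      intro y
      have hy : y ∈ Submodule.span K (Set.range fun a : Fin M => G 0 a.succ - G 0 0) := by
        rw [hG 0]; trivial
      induction hy using Submodule.span_induction with
      | mem y hy =>
        obtain ⟨a, rfl⟩ := hy
        exact fun x => hinv a x
      | zero => intro x; simp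
      | add y z _ _ ihy ihz =>
        intro x
        rw [← add_assoc, ihz, ihy]
      | smul t y hy' _ =>
        intro x
        -- write y as combination
        have : ∀ (z : σ → K), z ∈ Submodule.span K (Set.range fun a : Fin M => G 0 a.succ - G 0 0) →
            ∀ (t : K) (x : σ → K), eval (x + t • z) P = eval x P := by
          intro z hz
          induction hz using Submodule.span_induction with
          | mem z hz =>
            obtain ⟨a, rfl⟩ := hz
            exact fun t x => hline a t x
          | zero => intro t x; simp
          | add z w _ _ ihz ihw =>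
            intro t x
            rw [smul_add, ← add_assoc, ihw, ihz]
          | smul s z _ ihz =>
            intro t x
            rw [smul_smul, ihz]
        exact this y hy' t x
    have hev : ∀ x : σ → K, eval x P = 0 := by
      intro x
      have h0 := hv (fun _ => 0)
      set y := v + ∑ j, G j 0
      have := hall (x - y) y
      rw [add_sub_cancel] at this
      rw [this]
      exact h0
    have : Infinite K := inferInstance
    exact MvPolynomial.funext (fun x => by rw [hev x, map_zero])

end MP60829e.Dens
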