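import Mathlib
import Pool.Agent.Lib.MP_60829e_nt.DensAlg

open MvPolynomial

namespace MP60829e.Dens

variable {K : Type*} [Field K]

/-- Index type of the variables: `k` fixed ones and `n` varying ones. -/
abbrev Ix (k n : ℕ) := Fin k ⊕ Fin n

/-- The exponents of degree at most `D`. -/
noncomputable def expos (k n D : ℕ) : Finset (Ix k n →₀ ℕ) :=
  (Finsupp.finite_of_degree_le (σ := Ix k n) D).toFinset

theorem mem_expos {k n D : ℕ} {m : Ix k n →₀ ℕ} : m ∈ expos k n D ↔ m.degree ≤ D := by
  simp [expos]

/-- number of exponents -/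
noncomputable def Mn (k n D : ℕ) : ℕ := (expos k n D).card

/-- enumeration of exponents -/
noncomputable def en (k n D : ℕ) : Fin (Mn k n D) ≃ expos k n D := (expos k n D).equivFin.symm

/-- evaluation determinant -/
noncomputable def Phi (k n D : ℕ) (x : Ix k n → Fin (Mn k n D) → K) : K :=
  (Matrix.of fun m a : Fin (Mn k n D) => ∏ i, x i m ^ ((en k n D a : Ix k n →₀ ℕ) i)).det

/-- evaluation determinant as a polynomial in one block -/
noncomputable def PhiP (k n D : ℕ) (x : Ix k n → Fin (Mn k n D) → K) (i : Ix k n) :
    MvPolynomial (Fin (Mn k n D)) K :=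
  (Matrix.of fun m a : Fin (Mn k n D) => (X m : MvPolynomial (Fin (Mn k n D)) K) ^
    ((en k n D a : Ix k n →₀ ℕ) i) *
    C (∏ i' ∈ Finset.univ.erase i, x i' m ^ ((en k n D a : Ix k n →₀ ℕ) i'))).det

theorem eval_PhiP (k n D : ℕ) (x : Ix k n → Fin (Mn k n D) → K) (i : Ix k n)
    (y : Fin (Mn k n D) → K) :
    eval y (PhiP k n D x i) = Phi k n D (Function.update x i y) := by
  classical
  unfold PhiP Phi
  rw [RingHom.map_det]
  congr 1
  ext m a
  simp only [RingHom.mapMatrix_apply, Matrix.map_apply, Matrix.of_apply, map_mul, map_pow,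
    eval_X, eval_C]
  rw [← Finset.mul_prod_erase Finset.univ _ (Finset.mem_univ i)]
  rw [Function.update_self]
  congr 1
  refine Finset.prod_congr rfl fun i' hi' => ?_
  rw [Function.update_of_ne (Finset.ne_of_mem_erase hi')]

theorem totalDegree_PhiP (k n D : ℕ) (x : Ix k n → Fin (Mn k n D) → K) (i : Ix k n) :
    (PhiP k n D x i).totalDegree ≤ Mn k n D * D := by
  classical
  unfold PhiP
  rw [Matrix.det_apply]
  refine totalDegree_finsetSum_le fun σ _ => ?_
  refine (totalDegree_smul_le _ _).trans ?_
  refine (totalDegree_finsetProd _ _).trans ?_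
  calc ∑ j : Fin (Mn k n D), _ ≤ ∑ _j : Fin (Mn k n D), D := by
        refine Finset.sum_le_sum fun j _ => ?_
        simp only [Matrix.of_apply]
        refine (totalDegree_mul _ _).trans ?_
        rw [totalDegree_C, add_zero, totalDegree_X_pow]
        have h := mem_expos.mp (en k n D j).2
        exact (Finsupp.le_degree i _).trans h
    _ = Mn k n D * D := by simp

/-- Block by block vanishing. -/
theorem Phi_eq_zero [CharZero K] (k n D : ℕ) (y : Fin k → Fin (Mn k n D) → K)
    (v : Fin n → Fin (Mn k n D) → K)
    (G : Fin n → Fin (Mn k n D * D) → Fin (Mn k n D + 1) → (Fin (Mn k n D) → K))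
    (hG : ∀ i j, Submodule.span K (Set.range fun a : Fin (Mn k n D) => G i j a.succ - G i j 0) = ⊤)
    (h : ∀ c : Fin n → Fin (Mn k n D * D) → Fin (Mn k n D + 1),
      Phi k n D (Sum.elim y fun i => v i + ∑ j, G i j (c i j)) = 0) :
    ∀ x : Fin n → Fin (Mn k n D) → K, Phi k n D (Sum.elim y x) = 0 := by
  classical
  have key : ∀ s : Finset (Fin n), ∀ x : Fin n → Fin (Mn k n D) → K,
      (∀ i, i ∉ s → ∃ c : Fin (Mn k n D * D) → Fin (Mn k n D + 1),
        x i = v i + ∑ j, G i j (c j)) →
      Phi k n D (Sum.elim y x) = 0 := by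
    intro s
    induction s using Finset.induction_on with
    | empty =>
      intro x hx
      choose c hc using fun i => hx i (Finset.notMem_empty i)
      have : x = fun i => v i + ∑ j, G i j (c i j) := funext hc
      rw [this]
      exact h c
    | insert i s his ih =>
      intro x hx
      have hup : ∀ z, Function.update (Sum.elim y x) (Sum.inr i) z =
          Sum.elim y (Function.update x i z) := by
        intro z
        funext t
        rcases t with t | t
        · simp
        · by_cases ht : t = i
          · subst ht; simp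
          · rw [Function.update_of_ne (by simpa using ht)]
            simp [Function.update_of_ne ht]
      have hP : PhiP k n D (Sum.elim y x) (Sum.inr i) = 0 := by
        refine vanish (Mn k n D * D) _ (totalDegree_PhiP k n D _ _) (G i) (hG i) (v i) fun c => ?_
        rw [eval_PhiP, hup]
        apply ih
        intro i' hi'
        by_cases hii : i' = i
        · subst hii
          exact ⟨c, by rw [Function.update_self]⟩
        · obtain ⟨c', hc'⟩ := hx i' (by
            rw [Finset.mem_insert]
            rintro (h | h)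
            · exact hii h
            · exact hi' h)
          exact ⟨c', by rw [Function.update_of_ne hii, hc']⟩
      have := eval_PhiP k n D (Sum.elim y x) (Sum.inr i) (x i)
      rw [hP, map_zero, hup, Function.update_eq_self] at this
      exact this.symm
  intro x
  exact key Finset.univ x fun i hi => absurd (Finset.mem_univ i) hi

theorem eval_expand (k n D : ℕ) (f : MvPolynomial (Ix k n) K) (hf : f.totalDegree ≤ D)
    (y : Ix k n → K) :
    eval y f = ∑ a : Fin (Mn k n D), (∏ i, y i ^ ((en k n D a : Ix k n →₀ ℕ) i)) *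
      f.coeff (en k n D a : Ix k n →₀ ℕ) := by
  classical
  rw [eval_eq']
  have h1 : ∑ a : Fin (Mn k n D), (∏ i, y i ^ ((en k n D a : Ix k n →₀ ℕ) i)) *
      f.coeff (en k n D a : Ix k n →₀ ℕ) =
      ∑ m : expos k n D, (∏ i, y i ^ ((m : Ix k n →₀ ℕ) i)) * f.coeff (m : Ix k n →₀ ℕ) :=
    Equiv.sum_comp (en k n D) (fun m : expos k n D =>
      (∏ i, y i ^ ((m : Ix k n →₀ ℕ) i)) * f.coeff (m : Ix k n →₀ ℕ))
  rw [h1, Finset.sum_coe_sort (expos k n D) (fun m => (∏ i, y i ^ (m i)) * f.coeff m)]
  rw [← Finset.sum_subset (s₁ := f.support) (s₂ := expos k n D)]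
  · exact Finset.sum_congr rfl fun m _ => mul_comm _ _
  · intro m hm
    rw [mem_expos]
    exact (le_totalDegree hm).trans hf
  · intro m _ hm
    rw [notMem_support_iff.mp hm, mul_zero]

/-- The monomials of degree at most `D` in `lam` and free variables are linearly independent if
`lam` satisfies no relation of degree at most `D`. -/
theorem monomials_indep {C' : Type*} [Field C'] [Algebra K C'] (k n D : ℕ)
    (lam : Fin k → C')
    (hlam : ∀ f : MvPolynomial (Fin k) K, f ≠ 0 → f.totalDegree ≤ D → aeval lam f ≠ 0)
    (c : Fin (Mn k n D) → K)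
    (h : ∑ a, C (algebraMap K C' (c a)) * ∏ t : Ix k n, (Sum.elim (fun i => C (lam i))
      (fun i => (X i : MvPolynomial (Fin n) C')) t) ^ ((en k n D a : Ix k n →₀ ℕ) t) = 0) :
    c = 0 := by
  classical
  let E := Finsupp.sumFinsuppEquivProdFinsupp (α := Fin k) (β := Fin n) (γ := ℕ)
  let B : Fin (Mn k n D) → (Fin k →₀ ℕ) := fun a => (E (en k n D a : Ix k n →₀ ℕ)).1
  let A : Fin (Mn k n D) → (Fin n →₀ ℕ) := fun a => (E (en k n D a : Ix k n →₀ ℕ)).2
  have hB : ∀ a i, B a i = (en k n D a : Ix k n →₀ ℕ) (Sum.inl i) := fun a i => rfl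
  have hA : ∀ a i, A a i = (en k n D a : Ix k n →₀ ℕ) (Sum.inr i) := fun a i => rfl
  have hdeg : ∀ a, (B a).degree ≤ D := by
    intro a
    have h1 := mem_expos.mp (en k n D a).2
    rw [Finsupp.degree_eq_sum] at h1 ⊢
    rw [Fintype.sum_sum_type] at h1
    simp only [hB]
    omega
  have hterm : ∀ a, (∏ t : Ix k n, (Sum.elim (fun i => C (lam i))
      (fun i => (X i : MvPolynomial (Fin n) C')) t) ^ ((en k n D a : Ix k n →₀ ℕ) t)) =
      monomial (A a) (∏ i, lam i ^ (B a i)) := by
    intro a
    rw [Fintype.prod_sum_type]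
    simp only [Sum.elim_inl, Sum.elim_inr]
    rw [monomial_eq, Finsupp.prod_fintype _ _ (by simp)]
    congr 1
    simp [map_prod, map_pow, hB]
  funext a0
  let f : MvPolynomial (Fin k) K := ∑ a ∈ Finset.univ.filter (fun a => A a = A a0), monomial (B a) (c a)
  have hf0 : f = 0 := by
    by_contra hne
    refine hlam f hne ?_ ?_
    · refine totalDegree_finsetSum_le fun a _ => ?_
      exact (totalDegree_monomial_le _ _).trans (hdeg a)
    · have h2 := congrArg (coeff (A a0)) h
      rw [coeff_sum, coeff_zero] at h2
      refine Eq.trans ?_ h2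
      simp only [f, map_sum, aeval_monomial]
      rw [Finset.sum_filter]
      refine Finset.sum_congr rfl fun a _ => ?_
      rw [hterm, coeff_C_mul, coeff_monomial]
      split_ifs with hAa
      · rw [Finsupp.prod_fintype _ _ (by simp)]
      · simp
  have h3 := congrArg (coeff (B a0)) hf0
  rw [coeff_zero] at h3
  simp only [f, coeff_sum, coeff_monomial] at h3
  rw [Finset.sum_eq_single a0] at h3
  · simpa using h3
  · intro b hb hne
    rw [if_neg]
    intro hBb
    apply hne
    apply (en k n D).injective
    apply Subtype.ext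
    apply E.injective
    exact Prod.ext hBb (Finset.mem_filter.mp hb).2
  · intro hnot
    exact absurd (by simp) hnot

/-- **Grid lemma.** -/
theorem grid {C' : Type*} [Field C'] [Algebra K C'] [IsAlgClosed K] [CharZero K] (k n D : ℕ)
    (lam : Fin k → C')
    (hlam : ∀ f : MvPolynomial (Fin k) K, f ≠ 0 → f.totalDegree ≤ D → aeval lam f ≠ 0)
    (u : Fin n → C') (w : Fin n → Fin (Mn k n D * D) → Fin (Mn k n D + 1) → C')
    (hw : ∀ i j, LinearIndependent K (fun a : Fin (Mn k n D) => w i j a.succ - w i j 0))
    (h : ∀ c : Fin n → Fin (Mn k n D * D) → Fin (Mn k n D + 1), ∃ f : MvPolynomial (Ix k n) K,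
      f ≠ 0 ∧ f.totalDegree ≤ D ∧
        aeval (Sum.elim lam fun i => u i + ∑ j, w i j (c i j)) f = 0) : False := by
  classical
  -- generators: lam, u, w and n free variables
  let σ := (Fin k ⊕ Fin n) ⊕ (Fin n × Fin (Mn k n D * D) × Fin (Mn k n D + 1)) ⊕ Fin n
  let R := MvPolynomial (Fin n) C'
  let val : σ → R := Sum.elim (Sum.elim (fun i => C (lam i)) (fun i => C (u i)))
    (Sum.elim (fun t => C (w t.1 t.2.1 t.2.2)) (fun i => X i))
  let ev : MvPolynomial σ K →ₐ[K] R := aeval val
  let I : Ideal (MvPolynomial σ K) := RingHom.ker ev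
  have hI : I.IsPrime := RingHom.ker_isPrime _
  let Y : Set (MvPolynomial σ K →ₐ[K] K) := {φ | ∃ y ∈ zeroLocus K I, φ = aeval y}
  have hY : ∀ p, p ∉ I → ∃ φ ∈ Y, φ p ≠ 0 := by
    intro p hp
    by_contra hcon
    push Not at hcon
    apply hp
    rw [← IsPrime.vanishingIdeal_zeroLocus (K := K) I, mem_vanishingIdeal_iff]
    intro y hy
    exact hcon (aeval y) ⟨y, hy, rfl⟩
  have hCinj : Function.Injective (C : C' →+* R) := C_injective _ _
  -- the families
  let fam : Option (Fin n × Fin (Mn k n D * D)) → Fin (Mn k n D) → MvPolynomial σ K := fun s a =>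
    match s with
    | some s => X (Sum.inr (Sum.inl (s.1, s.2, a.succ))) - X (Sum.inr (Sum.inl (s.1, s.2, 0)))
    | none => ∏ t : Ix k n, (X (Sum.elim (fun i => Sum.inl (Sum.inl i))
        (fun i => Sum.inr (Sum.inr i)) t : σ) : MvPolynomial σ K) ^ ((en k n D a : Ix k n →₀ ℕ) t)
  obtain ⟨φ, hφY, hφ⟩ := exists_rows I Y hY (Mn k n D) fam
    (by
      intro s c hc hmem
      apply hc
      have h1 : ev (∑ a, c a • fam s a) = 0 := hmem
      rw [map_sum] at h1
      rcases s with _ | s
      · -- monomials
        refine monomials_indep k n D lam hlam c ?_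
        rw [← h1]
        refine Finset.sum_congr rfl fun a _ => ?_
        rw [map_smul, Algebra.smul_def, MvPolynomial.algebraMap_apply]
        congr 1
        simp only [fam, map_prod, map_pow]
        refine Finset.prod_congr rfl fun t _ => ?_
        rcases t with t | t
        · simp [ev, val]
        · simp [ev, val]
      · have h2 : ∑ a, c a • (w s.1 s.2 a.succ - w s.1 s.2 0) = 0 := by
          apply hCinj
          rw [map_zero, ← h1, map_sum]
          refine Finset.sum_congr rfl fun a _ => ?_
          have e1 : ev (c a • fam (some s) a) = algebraMap K R (c a) *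
              (C (w s.1 s.2 a.succ) - C (w s.1 s.2 0)) := by
            rw [map_smul, Algebra.smul_def]
            congr 1
            simp [ev, val, fam]
          have e2 : algebraMap K R (c a) = C (algebraMap K C' (c a)) :=
            MvPolynomial.algebraMap_apply _
          rw [e1, e2, Algebra.smul_def (c a) (w s.1 s.2 a.succ - w s.1 s.2 0), map_mul, map_sub]
        funext a
        exact Fintype.linearIndependent_iff.mp (hw s.1 s.2) c h2 a)
  let y : Fin k → Fin (Mn k n D) → K := fun i m => φ m (X (Sum.inl (Sum.inl i)))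
  let v : Fin n → Fin (Mn k n D) → K := fun i m => φ m (X (Sum.inl (Sum.inr i)))
  let G : Fin n → Fin (Mn k n D * D) → Fin (Mn k n D + 1) → (Fin (Mn k n D) → K) :=
    fun i j a m => φ m (X (Sum.inr (Sum.inl (i, j, a))))
  let x : Fin n → Fin (Mn k n D) → K := fun i m => φ m (X (Sum.inr (Sum.inr i)))
  have hG : ∀ i j, Submodule.span K (Set.range fun a : Fin (Mn k n D) => G i j a.succ - G i j 0) = ⊤ := by
    intro i j
    have h1 := hφ (some (i, j))
    have h2 : IsUnit (Matrix.of fun m a : Fin (Mn k n D) =>
        φ m (X (Sum.inr (Sum.inl (i, j, a.succ))) - X (Sum.inr (Sum.inl (i, j, 0))))) := by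
      rw [← Matrix.linearIndependent_rows_iff_isUnit]
      exact h1
    rw [← Matrix.linearIndependent_cols_iff_isUnit] at h2
    have h3 : LinearIndependent K (fun a : Fin (Mn k n D) => G i j a.succ - G i j 0) := by
      convert h2 using 1
      funext a m
      simp [G, Matrix.col]
    apply h3.span_eq_top_of_card_eq_finrank'
    simp
  have hphi := Phi_eq_zero k n D y v G hG (by
    intro c
    obtain ⟨f, hf0, hfd, hf⟩ := h c
    let L : MvPolynomial (Ix k n) K →ₐ[K] MvPolynomial σ K :=
      aeval (Sum.elim (fun i => X (Sum.inl (Sum.inl i)))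
        fun i => X (Sum.inl (Sum.inr i)) + ∑ j, X (Sum.inr (Sum.inl (i, j, c i j))))
    have hL : ev (L f) = 0 := by
      have : (ev.comp L) = (Algebra.ofId C' R |>.restrictScalars K).comp
          (aeval (Sum.elim lam fun i => u i + ∑ j, w i j (c i j))) := by
        apply MvPolynomial.algHom_ext
        intro i
        rcases i with i | i
        · simp only [AlgHom.comp_apply, L, ev, aeval_X, Sum.elim_inl, val]
          rfl
        · simp only [AlgHom.comp_apply, L, ev, aeval_X, Sum.elim_inr, map_add, map_sum, val,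
            Sum.elim_inl]
          rfl
      have h2 := congrArg (fun ψ => ψ f) this
      simp only [AlgHom.comp_apply] at h2
      rw [h2, hf, map_zero]
    have hLm : ∀ m, φ m (L f) = 0 := by
      intro m
      obtain ⟨y, hy, hyφ⟩ := hφY m
      rw [hyφ]
      exact hy (L f) hL
    have hev : ∀ m, eval (fun t => (Sum.elim y (fun i => v i + ∑ j, G i j (c i j)) :
        Ix k n → Fin (Mn k n D) → K) t m) f = 0 := by
      intro m
      rw [← hLm m]
      have : (φ m).comp L = aeval (fun t => (Sum.elim y (fun i => v i + ∑ j, G i j (c i j)) :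
        Ix k n → Fin (Mn k n D) → K) t m) := by
        apply MvPolynomial.algHom_ext
        intro i
        rcases i with i | i
        · simp [L, y]
        · simp [L, v, G, Finset.sum_apply]
      have h2 := congrArg (fun ψ => ψ f) this
      simp only [AlgHom.comp_apply] at h2
      rw [h2]
      exact (congrFun (congrArg DFunLike.coe (MvPolynomial.coe_aeval_eq_eval _)) f).symm
    unfold Phi
    rw [← Matrix.exists_mulVec_eq_zero_iff]
    refine ⟨fun a => f.coeff (en k n D a : Ix k n →₀ ℕ), ?_, ?_⟩
    · intro h0
      apply hf0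
      ext m
      rw [coeff_zero]
      by_cases hm : m ∈ expos k n D
      · have := congrFun h0 ((en k n D).symm ⟨m, hm⟩)
        simpa using this
      · by_contra hne
        apply hm
        rw [mem_expos]
        exact (le_totalDegree (mem_support_iff.mpr hne)).trans hfd
    · funext m
      have := hev m
      rw [eval_expand k n D f hfd] at this
      simpa [Matrix.mulVec, dotProduct] using this)
  -- contradiction with the nonvanishing for the free variables
  have h1 := hφ none
  have h2 : IsUnit (Matrix.of fun m a : Fin (Mn k n D) => φ m (fam none a)) := by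
    rw [← Matrix.linearIndependent_rows_iff_isUnit]
    exact h1
  rw [Matrix.isUnit_iff_isUnit_det] at h2
  apply h2.ne_zero
  rw [← hphi x]
  unfold Phi
  congr 1
  ext m a
  simp only [Matrix.of_apply, fam, map_prod, map_pow]
  refine Finset.prod_congr rfl fun t _ => ?_
  rcases t with t | t
  · simp [y]
  · simp [x]

end MP60829e.Dens
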