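import Mathlib

open Filter Finset

namespace MP60829e.Dens

/-- number of elements of `X` in the box `[1,B]^n` -/
noncomputable def cnt {n : ℕ} (X : Set (Fin n → ℕ)) (B : ℕ) : ℕ := by
  classical
  exact ((Fintype.piFinset fun _ : Fin n => Finset.Icc 1 B).filter (fun b => b ∈ X)).card

/-- positive upper density -/
def UDP {n : ℕ} (X : Set (Fin n → ℕ)) : Prop :=
  ∃ δ : ℝ, 0 < δ ∧ ∃ᶠ B : ℕ in atTop, δ * (B : ℝ) ^ n ≤ cnt X B

theorem exists_primes (Q : ℕ) (ε : ℝ) (hε : 0 < ε) : ∃ P : Finset ℕ,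
    (∀ p ∈ P, p.Prime ∧ Q ≤ p) ∧ ∏ p ∈ P, (1 - (p : ℝ)⁻¹) < ε := by
  classical
  set f : ℕ → ℝ := Set.indicator {p | p.Prime} (fun n : ℕ ↦ (1 : ℝ) / n) with hf
  have hf0 : ∀ n, 0 ≤ f n := fun n => Set.indicator_nonneg (fun _ _ => by positivity) n
  have h1 := (not_summable_iff_tendsto_nat_atTop_of_nonneg hf0).mp not_summable_one_div_on_primes
  obtain ⟨C, hC⟩ : ∃ C : ℝ, Real.exp (-C) < ε :=
    ⟨-Real.log (ε / 2), by rw [neg_neg, Real.exp_log (by positivity)]; linarith⟩
  obtain ⟨N, hN⟩ := (h1.eventually_ge_atTop (∑ i ∈ range Q, f i + C)).and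
    (eventually_ge_atTop Q) |>.exists
  refine ⟨(Ico Q N).filter Nat.Prime, ?_, ?_⟩
  · intro p hp
    rw [mem_filter, mem_Ico] at hp
    exact ⟨hp.2, hp.1.1⟩
  · have hsum : C ≤ ∑ p ∈ (Ico Q N).filter Nat.Prime, (p : ℝ)⁻¹ := by
      have h2 : ∑ p ∈ (Ico Q N).filter Nat.Prime, (p : ℝ)⁻¹ = ∑ p ∈ Ico Q N, f p := by
        rw [sum_filter]
        refine sum_congr rfl fun p _ => ?_
        simp only [hf, Set.indicator_apply, Set.mem_ofPred_eq, one_div]
      rw [h2]
      have h3 := sum_range_add_sum_Ico f hN.2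
      linarith [hN.1]
    refine lt_of_le_of_lt ?_ hC
    calc ∏ p ∈ (Ico Q N).filter Nat.Prime, (1 - (p : ℝ)⁻¹)
        ≤ ∏ p ∈ (Ico Q N).filter Nat.Prime, Real.exp (-(p : ℝ)⁻¹) := by
          refine prod_le_prod (fun p hp => ?_) (fun p hp => ?_)
          · rw [mem_filter] at hp
            have : (1 : ℝ) ≤ p := by exact_mod_cast hp.2.one_lt.le
            have := inv_le_one_of_one_le₀ this
            linarith
          · have := Real.add_one_le_exp (-(p : ℝ)⁻¹)
            linarith
      _ = Real.exp (-∑ p ∈ (Ico Q N).filter Nat.Prime, (p : ℝ)⁻¹) := by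
          rw [← Real.exp_sum, sum_neg_distrib]
      _ ≤ Real.exp (-C) := Real.exp_le_exp.mpr (by linarith)

theorem count_coprime (P : Finset ℕ) (hP : ∀ p ∈ P, p.Prime) (B : ℕ) :
    (((Icc 1 B).filter fun m => ∀ p ∈ P, ¬ p ∣ m).card : ℝ) ≤
      B * ∏ p ∈ P, (1 - (p : ℝ)⁻¹) + (∏ p ∈ P, p : ℕ) := by
  classical
  set W : ℕ := ∏ p ∈ P, p with hW
  have hW0 : W ≠ 0 := Finset.prod_ne_zero_iff.mpr fun p hp => (hP p hp).ne_zero
  have hWpos : (0 : ℝ) < W := by exact_mod_cast Nat.pos_of_ne_zero hW0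
  have hset : (Icc 1 B).filter (fun m => ∀ p ∈ P, ¬ p ∣ m) ⊆
      (Ico 1 (1 + B)).filter (fun m => W.Coprime m) := by
    intro m hm
    rw [mem_filter, mem_Icc] at hm
    rw [mem_filter, mem_Ico]
    refine ⟨⟨hm.1.1, by omega⟩, ?_⟩
    rw [hW, Nat.coprime_prod_left_iff]
    intro p hp
    exact (Nat.Prime.coprime_iff_not_dvd (hP p hp)).mpr (hm.2 p hp)
  have h1 := (card_le_card hset).trans (Nat.Ico_filter_coprime_le 1 B hW0)
  have h2 : (W.totient : ℝ) = W * ∏ p ∈ P, (1 - (p : ℝ)⁻¹) := by
    have h3 := Nat.totient_eq_mul_prod_factors W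
    rw [hW, Nat.primeFactors_prod hP, ← hW] at h3
    have h4 := congrArg (fun q : ℚ => (q : ℝ)) h3
    push_cast at h4
    exact h4
  have h3 : (((Icc 1 B).filter fun m => ∀ p ∈ P, ¬ p ∣ m).card : ℝ) ≤
      (W.totient : ℝ) * ((B / W : ℕ) + 1) := by exact_mod_cast h1
  refine h3.trans ?_
  have h4 : ((B / W : ℕ) : ℝ) ≤ (B : ℝ) / W := Nat.cast_div_le
  have h5 : (W.totient : ℝ) ≤ W := by exact_mod_cast Nat.totient_le W
  have h6 : (0 : ℝ) ≤ W.totient := by positivity
  calc (W.totient : ℝ) * ((B / W : ℕ) + 1) ≤ W.totient * ((B : ℝ) / W + 1) := by gcongr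
    _ = W.totient * ((B : ℝ) / W) + W.totient := by ring
    _ ≤ B * ∏ p ∈ P, (1 - (p : ℝ)⁻¹) + W := by
        refine add_le_add ?_ h5
        rw [h2]
        apply le_of_eq
        field_simp

theorem card_update_box {n : ℕ} (i : Fin n) (F : Finset ℕ) (B : ℕ) :
    (Fintype.piFinset (Function.update (fun _ : Fin n => Icc 1 B) i F)).card =
      F.card * B ^ (n - 1) := by
  classical
  rw [Fintype.card_piFinset]
  have : ∀ j, (Function.update (fun _ : Fin n => Icc 1 B) i F j).card =
      Function.update (fun _ : Fin n => B) i F.card j := by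
    intro j
    by_cases h : j = i
    · subst h; simp
    · simp [Function.update_of_ne h]
  rw [prod_congr rfl fun j _ => this j, prod_update_of_mem (mem_univ i), prod_const,
    card_sdiff_of_subset (by simp)]
  simp

theorem dilate {n : ℕ} {X : Set (Fin n → ℕ)} (hX : UDP X) (i : Fin n) (M : ℕ) :
    ∃ S : Finset ℕ, S.card = M + 1 ∧ (∀ p ∈ S, p.Prime) ∧
      UDP {b | ∀ p ∈ S, Function.update b i (p * b i) ∈ X} := by
  classical
  obtain ⟨δ, hδ, hfreq⟩ := hX
  obtain ⟨Q, hQ⟩ := exists_nat_gt (4 * (M : ℝ) / δ)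
  have hQ0 : (0 : ℝ) < Q := lt_of_le_of_lt (by positivity) hQ
  have hMQ : (M : ℝ) / Q ≤ δ / 4 := by
    rw [div_lt_iff₀ hδ] at hQ
    rw [div_le_div_iff₀ hQ0 (by norm_num)]
    linarith
  obtain ⟨P, hP, hPε⟩ := exists_primes Q (δ / 4) (by positivity)
  set XS : Finset ℕ → Set (Fin n → ℕ) := fun S => {b | ∀ p ∈ S, Function.update b i (p * b i) ∈ X}
    with hXS
  by_contra hcon
  push Not at hcon
  have hno : ∀ S ∈ P.powersetCard (M + 1), ¬ UDP (XS S) := by
    intro S hS
    rw [mem_powersetCard] at hS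
    exact hcon S hS.2 fun p hp => (hP p (hS.1 hp)).1
  set N : ℝ := (P.card : ℝ) * (P.powersetCard (M + 1)).card + 1 with hN
  have hNpos : 0 < N := by positivity
  set η : ℝ := δ / (4 * N) with hη
  have hηpos : 0 < η := by positivity
  have hev : ∀ᶠ B : ℕ in atTop, ∀ S ∈ P.powersetCard (M + 1),
      (cnt (XS S) B : ℝ) < η * (B : ℝ) ^ n := by
    rw [Finset.eventually_all]
    intro S hS
    have := hno S hS
    unfold UDP at this
    push Not at this
    exact this η hηpos
  set W : ℕ := ∏ p ∈ P, p with hW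
  obtain ⟨B, hBδ, hBS, hBW, hB1⟩ := (hfreq.and_eventually (hev.and
    ((tendsto_natCast_atTop_atTop (R := ℝ)).eventually_ge_atTop (4 * W / δ) |>.and
      (eventually_ge_atTop 1)))).exists
  have hBpos : (0 : ℝ) < B := by exact_mod_cast hB1
  have hn1 : (B : ℝ) * B ^ (n - 1) = (B : ℝ) ^ n := by
    rw [← pow_succ']
    congr 1
    have := i.pos
    omega
  -- the box
  set Box := Fintype.piFinset fun _ : Fin n => Icc 1 B with hBox
  have hmemBox : ∀ b : Fin n → ℕ, b ∈ Box ↔ ∀ j, 1 ≤ b j ∧ b j ≤ B := by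
    intro b
    simp [hBox, Fintype.mem_piFinset]
  set A0 := Box.filter fun b => b ∈ X with hA0
  set A1 := Box.filter fun b => ∀ p ∈ P, ¬ p ∣ b i with hA1
  set Pairs := (P ×ˢ Box).filter fun t => Q * t.2 i ≤ B ∧ Function.update t.2 i (t.1 * t.2 i) ∈ X
    with hPairs
  have hA1card : (A1.card : ℝ) ≤ δ / 2 * (B : ℝ) ^ n := by
    have hsub : A1 ⊆ Fintype.piFinset (Function.update (fun _ : Fin n => Icc 1 B) i
        ((Icc 1 B).filter fun m => ∀ p ∈ P, ¬ p ∣ m)) := by
      intro b hb
      rw [hA1, mem_filter, hmemBox] at hb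
      rw [Fintype.mem_piFinset]
      intro j
      by_cases hj : j = i
      · subst hj
        rw [Function.update_self, mem_filter, mem_Icc]
        exact ⟨hb.1 j, hb.2⟩
      · rw [Function.update_of_ne hj, mem_Icc]
        exact hb.1 j
    have h1 : (A1.card : ℝ) ≤ (((Icc 1 B).filter fun m => ∀ p ∈ P, ¬ p ∣ m).card : ℝ) *
        (B : ℝ) ^ (n - 1) := by
      have := card_le_card hsub
      rw [card_update_box] at this
      exact_mod_cast this
    have h2 := count_coprime P (fun p hp => (hP p hp).1) B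
    have h3 : (((Icc 1 B).filter fun m => ∀ p ∈ P, ¬ p ∣ m).card : ℝ) ≤ δ / 2 * B := by
      refine h2.trans ?_
      have h4 : (B : ℝ) * ∏ p ∈ P, (1 - (p : ℝ)⁻¹) ≤ B * (δ / 4) := by gcongr
      have h5 : (W : ℝ) ≤ δ / 4 * B := by
        rw [div_le_iff₀ hδ] at hBW
        linarith
      rw [← hW]
      linarith
    calc (A1.card : ℝ) ≤ δ / 2 * B * (B : ℝ) ^ (n - 1) := h1.trans (by gcongr)
      _ = δ / 2 * (B : ℝ) ^ n := by rw [← hn1]; ring
  have hcover : A0 ⊆ A1 ∪ Pairs.image (fun t => Function.update t.2 i (t.1 * t.2 i)) := by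
    intro b hb
    rw [hA0, mem_filter, hmemBox] at hb
    rw [mem_union]
    by_cases h : ∀ p ∈ P, ¬ p ∣ b i
    · left
      rw [hA1, mem_filter, hmemBox]
      exact ⟨hb.1, h⟩
    · right
      push Not at h
      obtain ⟨p, hpP, m, hm⟩ := h
      have hpp := (hP p hpP).1
      have hpQ := (hP p hpP).2
      have hbi := hb.1 i
      have hm0 : 1 ≤ m := by
        rcases Nat.eq_zero_or_pos m with h0 | h0
        · subst h0; omega
        · exact h0
      have hupd : Function.update (Function.update b i m) i (p * (Function.update b i m) i) = b := by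
        rw [Function.update_idem, Function.update_self, ← hm, Function.update_eq_self]
      rw [mem_image]
      refine ⟨(p, Function.update b i m), ?_, hupd⟩
      rw [hPairs, mem_filter, mem_product, hmemBox]
      refine ⟨⟨hpP, fun j => ?_⟩, ?_, ?_⟩
      · by_cases hj : j = i
        · subst hj
          simp only [Function.update_self]
          refine ⟨hm0, le_trans ?_ hbi.2⟩
          rw [hm]
          exact Nat.le_mul_of_pos_left m hpp.pos
        · simp only [Function.update_of_ne hj]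
          exact hb.1 j
      · simp only [Function.update_self]
        calc Q * m ≤ p * m := Nat.mul_le_mul_right m hpQ
          _ = b i := hm.symm
          _ ≤ B := hbi.2
      · simp only
        rw [hupd]
        exact hb.2
  have hA0card : δ * (B : ℝ) ^ n ≤ A0.card := by
    have : cnt X B = A0.card := by
      unfold cnt
      rfl
    rw [← this]
    exact hBδ
  have hPairs1 : δ / 2 * (B : ℝ) ^ n ≤ Pairs.card := by
    have h1 : (A0.card : ℝ) ≤ A1.card + Pairs.card := by
      have h2 := (card_le_card hcover).trans (card_union_le _ _)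
      have h3 : (Pairs.image (fun t => Function.update t.2 i (t.1 * t.2 i))).card ≤ Pairs.card :=
        card_image_le
      exact_mod_cast h2.trans (by omega)
    linarith
  -- fibres of Pairs
  set Box' := Box.filter fun b => Q * b i ≤ B with hBox'
  set fib : (Fin n → ℕ) → Finset ℕ := fun b => P.filter fun p => Function.update b i (p * b i) ∈ X
    with hfib
  have hPairs2 : Pairs.card = ∑ b ∈ Box', (fib b).card := by
    have h1 : Pairs = (Box'.sigma fib).image (fun t => (t.2, t.1)) := by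
      ext ⟨p, b⟩
      simp only [hPairs, hBox', hfib, mem_filter, mem_product, mem_image, mem_sigma, Prod.mk.injEq,
        Sigma.exists]
      constructor
      · rintro ⟨⟨hp, hb⟩, hq, hx⟩
        exact ⟨b, p, ⟨⟨hb, hq⟩, hp, hx⟩, rfl, rfl⟩
      · rintro ⟨b', p', ⟨⟨hb, hq⟩, hp, hx⟩, rfl, rfl⟩
        exact ⟨⟨hp, hb⟩, hq, hx⟩
    rw [h1, card_image_of_injective, card_sigma]
    rintro ⟨b, p⟩ ⟨b', p'⟩ h
    simp only [Prod.mk.injEq] at h
    obtain ⟨h1, h2⟩ := h
    subst h1; subst h2; rfl
  set Good := Box'.filter fun b => M + 1 ≤ (fib b).card with hGood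
  have hPairs3 : (Pairs.card : ℝ) ≤ M * Box'.card + P.card * Good.card := by
    have h1 : ∑ b ∈ Box', (fib b).card ≤ ∑ b ∈ Box', (M + if M + 1 ≤ (fib b).card then P.card else 0) := by
      refine sum_le_sum fun b _ => ?_
      split_ifs with h
      · have : (fib b).card ≤ P.card := card_le_card (filter_subset _ _)
        omega
      · omega
    have h2 : ∑ b ∈ Box', (M + if M + 1 ≤ (fib b).card then P.card else 0) =
        M * Box'.card + P.card * Good.card := by
      rw [sum_add_distrib, sum_const, smul_eq_mul, ← sum_filter, sum_const, smul_eq_mul]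
      ring
    rw [hPairs2]
    exact_mod_cast h1.trans h2.le
  have hBox'card : (M : ℝ) * Box'.card ≤ δ / 4 * (B : ℝ) ^ n := by
    have hsub : Box' ⊆ Fintype.piFinset (Function.update (fun _ : Fin n => Icc 1 B) i
        ((Icc 1 B).filter fun m => Q * m ≤ B)) := by
      intro b hb
      rw [hBox', mem_filter, hmemBox] at hb
      rw [Fintype.mem_piFinset]
      intro j
      by_cases hj : j = i
      · subst hj
        rw [Function.update_self, mem_filter, mem_Icc]
        exact ⟨hb.1 j, hb.2⟩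
      · rw [Function.update_of_ne hj, mem_Icc]
        exact hb.1 j
    have h0 : (((Icc 1 B).filter fun m => Q * m ≤ B).card : ℝ) ≤ (B : ℝ) / Q := by
      have hQn : 0 < Q := by exact_mod_cast hQ0
      have : (Icc 1 B).filter (fun m => Q * m ≤ B) ⊆ Icc 1 (B / Q) := by
        intro m hm
        rw [mem_filter, mem_Icc] at hm
        rw [mem_Icc]
        exact ⟨hm.1.1, (Nat.le_div_iff_mul_le hQn).mpr (by rw [mul_comm]; exact hm.2)⟩
      have h1 := card_le_card this
      rw [Nat.card_Icc, Nat.add_sub_cancel] at h1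
      calc (((Icc 1 B).filter fun m => Q * m ≤ B).card : ℝ) ≤ ((B / Q : ℕ) : ℝ) := by exact_mod_cast h1
        _ ≤ (B : ℝ) / Q := Nat.cast_div_le
    have h1 : (Box'.card : ℝ) ≤ (B : ℝ) / Q * (B : ℝ) ^ (n - 1) := by
      have := card_le_card hsub
      rw [card_update_box] at this
      calc (Box'.card : ℝ) ≤ (((Icc 1 B).filter fun m => Q * m ≤ B).card : ℝ) * (B : ℝ) ^ (n - 1) := by
            exact_mod_cast this
        _ ≤ (B : ℝ) / Q * (B : ℝ) ^ (n - 1) := by gcongr
    calc (M : ℝ) * Box'.card ≤ M * ((B : ℝ) / Q * (B : ℝ) ^ (n - 1)) := by gcongr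
      _ = (M : ℝ) / Q * (B : ℝ) ^ n := by rw [← hn1]; field_simp
      _ ≤ δ / 4 * (B : ℝ) ^ n := by gcongr
  have hGood1 : δ / 4 * (B : ℝ) ^ n ≤ P.card * Good.card := by linarith
  have hGood2 : Good.card ≤ ∑ S ∈ P.powersetCard (M + 1), cnt (XS S) B := by
    have hsub : Good ⊆ (P.powersetCard (M + 1)).biUnion
        fun S => Box.filter fun b => b ∈ XS S := by
      intro b hb
      rw [hGood, mem_filter, hBox', mem_filter] at hb
      obtain ⟨S, hSsub, hScard⟩ := exists_subset_card_eq hb.2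
      rw [mem_biUnion]
      refine ⟨S, ?_, ?_⟩
      · rw [mem_powersetCard]
        exact ⟨hSsub.trans (filter_subset _ _), hScard⟩
      · rw [mem_filter]
        refine ⟨hb.1.1, fun p hp => ?_⟩
        have := hSsub hp
        rw [hfib, mem_filter] at this
        exact this.2
    refine (card_le_card hsub).trans (card_biUnion_le.trans ?_)
    refine sum_le_sum fun S _ => ?_
    unfold cnt
    refine le_of_eq ?_
    congr
  have hfinal : (Good.card : ℝ) ≤ (P.powersetCard (M + 1)).card * (η * (B : ℝ) ^ n) := by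
    calc (Good.card : ℝ) ≤ ∑ S ∈ P.powersetCard (M + 1), (cnt (XS S) B : ℝ) := by
          exact_mod_cast hGood2
      _ ≤ ∑ S ∈ P.powersetCard (M + 1), (η * (B : ℝ) ^ n) :=
          sum_le_sum fun S hS => (hBS S hS).le
      _ = _ := by rw [sum_const, nsmul_eq_mul]
  have hBn : (0 : ℝ) < (B : ℝ) ^ n := by positivity
  have h1 : δ / 4 * (B : ℝ) ^ n ≤ (N - 1) * (η * (B : ℝ) ^ n) := by
    calc δ / 4 * (B : ℝ) ^ n ≤ P.card * Good.card := hGood1
      _ ≤ P.card * ((P.powersetCard (M + 1)).card * (η * (B : ℝ) ^ n)) := by gcongr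
      _ = (N - 1) * (η * (B : ℝ) ^ n) := by rw [hN]; ring
  have h2 : N * (η * (B : ℝ) ^ n) = δ / 4 * (B : ℝ) ^ n := by
    rw [hη]
    field_simp
  have h3 : 0 < η * (B : ℝ) ^ n := by positivity
  nlinarith

theorem grid_dens {n : ℕ} (M : ℕ) : ∀ (N : ℕ) (κ : Fin N → Fin n) (X : Set (Fin n → ℕ)), UDP X →
    ∃ S : Fin N → Finset ℕ, (∀ k, (S k).card = M + 1 ∧ ∀ p ∈ S k, p.Prime) ∧
      UDP {b : Fin n → ℕ | ∀ p : Fin N → ℕ, (∀ k, p k ∈ S k) →
        (fun i => b i * ∏ k, if κ k = i then p k else 1) ∈ X} := by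
  classical
  intro N
  induction N with
  | zero =>
    intro κ X hX
    refine ⟨Fin.elim0, fun k => k.elim0, ?_⟩
    convert hX using 1
    ext b
    simp only [Set.mem_ofPred_eq, univ_eq_empty, prod_empty, mul_one]
    constructor
    · intro h
      exact h Fin.elim0 fun k => k.elim0
    · intro h _ _
      exact h
  | succ N ih =>
    intro κ X hX
    obtain ⟨S0, hS0card, hS0p, hX1⟩ := dilate hX (κ 0) M
    obtain ⟨S, hS, hX2⟩ := ih (fun k => κ k.succ) _ hX1
    refine ⟨Fin.cons S0 S, ?_, ?_⟩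
    · intro k
      refine Fin.cases ?_ (fun k => ?_) k
      · simpa using ⟨hS0card, hS0p⟩
      · simpa using hS k
    · convert hX2 using 1
      ext b
      simp only [Set.mem_ofPred_eq]
      have hkey : ∀ (p0 : ℕ) (p : Fin N → ℕ),
          (fun i => b i * ∏ k, if κ k = i then (Fin.cons p0 p : Fin (N + 1) → ℕ) k else 1) =
          Function.update (fun i => b i * ∏ k : Fin N, if κ k.succ = i then p k else 1) (κ 0)
            (p0 * (b (κ 0) * ∏ k : Fin N, if κ k.succ = κ 0 then p k else 1)) := by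
        intro p0 p
        funext i
        by_cases hi : i = κ 0
        · subst hi
          rw [Function.update_self, Fin.prod_univ_succ]
          simp only [Fin.cons_zero, Fin.cons_succ, if_true]
          ring
        · rw [Function.update_of_ne hi, Fin.prod_univ_succ]
          rw [if_neg (fun h => hi h.symm), one_mul]
          simp only [Fin.cons_succ]
      constructor
      · intro h p hp p0 hp0
        have := h (Fin.cons p0 p) (by
          intro k
          refine Fin.cases ?_ (fun k => ?_) k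
          · simpa using hp0
          · simpa using hp k)
        rw [hkey] at this
        exact this
      · intro h p hp
        obtain ⟨p0, p', rfl⟩ : ∃ p0 p', p = Fin.cons p0 p' := ⟨p 0, Fin.tail p, (Fin.cons_self_tail p).symm⟩
        rw [hkey]
        apply h p'
        · intro k
          have := hp k.succ
          simpa using this
        · have := hp 0
          simpa using this

end MP60829e.Dens
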