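import Mathlib

open Polynomial Complex
open scoped Nat

namespace MP60829e

/-- `a^N * g(γ)` is an algebraic integer if `a γ` is and `deg g ≤ N`. -/
theorem isIntegral_pow_mul_aeval {K : Type*} [Field K] (a : ℤ) (γ : K)
    (hγ : IsIntegral ℤ ((a : K) * γ)) (g : ℤ[X]) (N : ℕ) (hN : g.natDegree ≤ N) :
    IsIntegral ℤ ((a : K) ^ N * aeval γ g) := by
  rw [aeval_eq_sum_range, Finset.mul_sum]
  refine IsIntegral.sum _ fun i hi => ?_
  have hi' : i ≤ N := by
    have := Finset.mem_range.mp hi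
    omega
  have : (a : K) ^ N * (g.coeff i • γ ^ i)
      = ((a ^ (N - i) * g.coeff i : ℤ) : K) * ((a : K) * γ) ^ i := by
    rw [zsmul_eq_mul, mul_pow]
    push_cast
    have h1 : (a : K) ^ N = (a : K) ^ (N - i) * (a : K) ^ i := by
      rw [← pow_add]; congr 1; omega
    rw [h1]; ring
  rw [this]
  exact (isIntegral_algebraMap (R := ℤ) (A := K)).mul (hγ.pow i)

theorem tendsto_aux (B C : ℝ) :
    Filter.Tendsto (fun p : ℕ => B * (C ^ p / (p - 1)!)) Filter.atTop (nhds 0) := by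
  have h := FloorSemiring.tendsto_pow_div_factorial_atTop C
  have h2 : Filter.Tendsto (fun p : ℕ => (B * C) * (C ^ (p - 1) / (p - 1)!)) Filter.atTop
      (nhds ((B * C) * 0)) :=
    Filter.Tendsto.const_mul _ (h.comp (Filter.tendsto_sub_atTop_nat 1))
  rw [mul_zero] at h2
  refine h2.congr' ?_
  filter_upwards [Filter.eventually_ge_atTop 1] with p hp
  obtain ⟨k, rfl⟩ : ∃ k, p = k + 1 := ⟨p - 1, by omega⟩
  simp only [Nat.add_sub_cancel]
  rw [pow_succ]
  ring

theorem HL_core {K : Type*} [Field K] [CharZero K] [FiniteDimensional ℚ K] [IsGalois ℚ K]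
    (ι : K →ₐ[ℚ] ℂ)
    (M : K →₀ ℤ) (hM0 : M 0 ≠ 0)
    (hinv : ∀ σ : K ≃ₐ[ℚ] K, ∀ γ, M (σ γ) = M γ)
    (hE : M.sum (fun γ m => (m : ℂ) * exp (ι γ)) = 0) : False := by
  classical
  set S : Finset K := M.support.erase 0 with hS
  -- polynomial with the exponents as roots
  have hf : ∀ γ : K, ∃ q : ℤ[X], γ ≠ 0 → (q.coeff 0 ≠ 0 ∧ aeval γ q = 0) := by
    intro γ
    by_cases h : γ = 0
    · exact ⟨0, fun h' => absurd h h'⟩
    · have halg : IsAlgebraic ℤ γ :=
        (IsFractionRing.isAlgebraic_iff ℤ ℚ K).mpr (Algebra.IsAlgebraic.isAlgebraic γ)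
      obtain ⟨q, hq⟩ := halg.exists_nonzero_coeff_and_aeval_eq_zero
        (mem_nonZeroDivisors_of_ne_zero h)
      exact ⟨q, fun _ => hq⟩
  choose F hF using hf
  set f : ℤ[X] := ∏ γ ∈ S, F γ with hfdef
  have hne : ∀ γ ∈ S, γ ≠ 0 := fun γ h => (Finset.mem_erase.mp h).1
  have hf0 : f.eval 0 ≠ 0 := by
    rw [hfdef, eval_prod]
    refine Finset.prod_ne_zero_iff.mpr fun γ hγ => ?_
    rw [← coeff_zero_eq_eval_zero]
    exact (hF γ (hne γ hγ)).1
  have hfne : f ≠ 0 := by
    intro h; rw [h] at hf0; simp at hf0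
  have hroot : ∀ γ ∈ S, (ι γ) ∈ f.aroots ℂ := by
    intro γ hγ
    rw [mem_aroots]
    refine ⟨hfne, ?_⟩
    rw [hfdef, map_prod]
    refine Finset.prod_eq_zero hγ ?_
    have h1 := (hF γ (hne γ hγ)).2
    have h2 : aeval (ι γ) (F γ) = ι (aeval γ (F γ)) := by
      have := Polynomial.aeval_algHom_apply (ι.restrictScalars ℤ) γ (F γ)
      simpa using this
    rw [h2, h1, map_zero]
  -- common denominator
  have hden : ∀ γ : K, ∃ y : ℤ, y ≠ 0 ∧ IsIntegral ℤ ((y : K) * γ) := by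
    intro γ
    have halg : IsAlgebraic ℤ γ :=
        (IsFractionRing.isAlgebraic_iff ℤ ℚ K).mpr (Algebra.IsAlgebraic.isAlgebraic γ)
    obtain ⟨y, hy, h⟩ := halg.exists_integral_multiple
    refine ⟨y, hy, ?_⟩
    simpa [Algebra.smul_def] using h
  choose y hy0 hy using hden
  set a : ℤ := ∏ γ ∈ S, y γ with ha
  have ha0 : a ≠ 0 := Finset.prod_ne_zero_iff.mpr fun γ _ => hy0 γ
  have haint : ∀ γ ∈ S, IsIntegral ℤ ((a : K) * γ) := by
    intro γ hγ
    have : (a : K) * γ = ((∏ δ ∈ S.erase γ, y δ : ℤ) : K) * ((y γ : K) * γ) := by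
      rw [ha, ← Finset.prod_erase_mul S y hγ]
      push_cast
      ring
    rw [this]
    exact (isIntegral_algebraMap (R := ℤ) (A := K)).mul (hy γ)
  obtain ⟨c, hc⟩ := LindemannWeierstrass.exp_polynomial_approx f hf0
  set d := f.natDegree with hd
  set B : ℝ := ∑ γ ∈ S, ‖((M γ : ℤ) : ℂ)‖ with hB
  set C : ℝ := ‖(a : ℂ)‖ ^ d * |c| with hC
  -- choose a large prime
  have hev := (tendsto_aux B C).eventually (gt_mem_nhds (show (0 : ℝ) < 1 by norm_num))
  obtain ⟨P0, hP0⟩ := Filter.eventually_atTop.mp hev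
  obtain ⟨p, hpge, hp⟩ := Nat.exists_infinite_primes
    (P0 + (f.eval 0).natAbs + a.natAbs + (M 0).natAbs + 1)
  have hlt := hP0 p (by omega)
  obtain ⟨n, hpn, g, hgdeg, hg⟩ := hc p (by omega) hp
  -- the rational integer
  set s : K := ∑ γ ∈ S, (M γ : K) * aeval γ g with hs
  have hSinv : ∀ σ : K ≃ₐ[ℚ] K, ∀ γ, γ ∈ S ↔ σ γ ∈ S := by
    intro σ γ
    simp only [hS, Finset.mem_erase, Finsupp.mem_support_iff, hinv σ γ]
    constructor
    · rintro ⟨h1, h2⟩
      exact ⟨by simpa using h1, h2⟩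
    · rintro ⟨h1, h2⟩
      exact ⟨by simpa using h1, h2⟩
  have hsfix : ∀ σ : K ≃ₐ[ℚ] K, σ s = s := by
    intro σ
    rw [hs, map_sum]
    have hterm : ∀ γ ∈ S, σ ((M γ : K) * aeval γ g) = (M (σ γ) : K) * aeval (σ γ) g := by
      intro γ _
      rw [map_mul, map_intCast, hinv σ γ]
      congr 1
      have := Polynomial.aeval_algHom_apply ((σ : K →ₐ[ℚ] K).restrictScalars ℤ) γ g
      simpa using this.symm
    rw [Finset.sum_congr rfl hterm]
    refine Finset.sum_bij (fun γ _ => σ γ) ?_ ?_ ?_ ?_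
    · intro γ hγ; exact (hSinv σ γ).mp hγ
    · intro γ _ δ _ h; exact σ.injective h
    · intro γ hγ
      exact ⟨σ.symm γ, by
        rw [hSinv σ]; simpa using hγ, by simp⟩
    · intro γ _; rfl
  obtain ⟨q, hq⟩ := (IsGalois.mem_range_algebraMap_iff_fixed (F := ℚ) s).mpr hsfix
  set N := p * d with hN
  have hint : IsIntegral ℤ ((a : K) ^ N * s) := by
    rw [hs, Finset.mul_sum]
    refine IsIntegral.sum _ fun γ hγ => ?_
    have h1 : (a : K) ^ N * ((M γ : K) * aeval γ g) = ((M γ : ℤ) : K) * ((a : K) ^ N * aeval γ g) := by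
      ring
    rw [h1]
    exact (isIntegral_algebraMap (R := ℤ) (A := K)).mul
      (isIntegral_pow_mul_aeval a γ (haint γ hγ) g N (by omega))
  have hint2 : IsIntegral ℤ ((a : ℚ) ^ N * q) := by
    have h1 : (a : K) ^ N * s = algebraMap ℚ K ((a : ℚ) ^ N * q) := by
      rw [map_mul, map_pow, map_intCast, hq]
    rw [h1] at hint
    exact (isIntegral_algebraMap_iff (algebraMap ℚ K).injective).mp hint
  obtain ⟨z, hz⟩ := IsIntegrallyClosed.isIntegral_iff.mp hint2
  -- key identity in ℂ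
  have hsum : (n : ℂ) * (M 0 : ℂ) + ∑ γ ∈ S, (M γ : ℂ) * ((n : ℂ) * exp (ι γ)) = 0 := by
    have h1 : M.sum (fun γ m => (m : ℂ) * exp (ι γ))
        = (M 0 : ℂ) + ∑ γ ∈ S, (M γ : ℂ) * exp (ι γ) := by
      rw [Finsupp.sum, hS, ← Finset.add_sum_erase _ _ (Finsupp.mem_support_iff.mpr hM0)]
      simp
    rw [h1] at hE
    have h2 := congrArg (fun w => (n : ℂ) * w) hE
    simp only [mul_add, mul_zero, Finset.mul_sum] at h2
    rw [← h2]
    congr 1
    refine Finset.sum_congr rfl fun γ _ => by ring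
  have hιs : ι s = ∑ γ ∈ S, (M γ : ℂ) * aeval (ι γ) g := by
    rw [hs, map_sum]
    refine Finset.sum_congr rfl fun γ _ => ?_
    rw [map_mul, map_intCast]
    congr 1
    have := Polynomial.aeval_algHom_apply (ι.restrictScalars ℤ) γ g
    simpa using this.symm
  have hzC : (a : ℂ) ^ N * ι s = (z : ℂ) := by
    have h1 : ι s = (q : ℂ) := by
      rw [← hq, AlgHom.commutes]; simp
    rw [h1]
    have h2 : ((algebraMap ℤ ℚ z : ℚ) : ℂ) = (((a : ℚ) ^ N * q : ℚ) : ℂ) := by rw [hz]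
    push_cast at h2
    simp at h2
    rw [← h2]
  have hident : ((a ^ N * n * M 0 + p * z : ℤ) : ℂ)
      = (a : ℂ) ^ N * ∑ γ ∈ S, -((M γ : ℂ) * ((n : ℤ) • exp (ι γ) - (p : ℕ) • aeval (ι γ) g)) := by
    push_cast
    rw [← hzC, hιs]
    have h1 : ∑ γ ∈ S, -((M γ : ℂ) * ((n : ℤ) • exp (ι γ) - (p : ℕ) • aeval (ι γ) g))
        = (p : ℂ) * ∑ γ ∈ S, (M γ : ℂ) * aeval (ι γ) g
          - ∑ γ ∈ S, (M γ : ℂ) * ((n : ℂ) * exp (ι γ)) := by
      rw [Finset.mul_sum, ← Finset.sum_sub_distrib]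
      refine Finset.sum_congr rfl fun γ _ => ?_
      rw [zsmul_eq_mul, nsmul_eq_mul]; ring
    rw [h1]
    have h2 : ∑ γ ∈ S, (M γ : ℂ) * ((n : ℂ) * exp (ι γ)) = -((n : ℂ) * (M 0 : ℂ)) := by
      linear_combination hsum
    rw [h2]; ring
  have hbound : ‖((a ^ N * n * M 0 + p * z : ℤ) : ℂ)‖ ≤ B * (C ^ p / (p - 1)!) := by
    rw [hident, norm_mul, norm_pow]
    have h1 : ‖∑ γ ∈ S, -((M γ : ℂ) * ((n : ℤ) • exp (ι γ) - (p : ℕ) • aeval (ι γ) g))‖
        ≤ ∑ γ ∈ S, ‖(M γ : ℂ)‖ * (|c| ^ p / (p - 1)!) := by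
      refine (norm_sum_le _ _).trans (Finset.sum_le_sum fun γ hγ => ?_)
      rw [norm_neg, norm_mul]
      refine mul_le_mul_of_nonneg_left ?_ (norm_nonneg _)
      refine (hg (hroot γ hγ)).trans ?_
      refine div_le_div_of_nonneg_right ?_ (by positivity)
      rw [← abs_pow]; exact le_abs_self _
    calc ‖(a : ℂ)‖ ^ N * ‖∑ γ ∈ S, -((M γ : ℂ) * ((n : ℤ) • exp (ι γ) - (p : ℕ) • aeval (ι γ) g))‖
        ≤ ‖(a : ℂ)‖ ^ N * ∑ γ ∈ S, ‖(M γ : ℂ)‖ * (|c| ^ p / (p - 1)!) := by gcongr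
      _ = B * (C ^ p / (p - 1)!) := by
          rw [← Finset.sum_mul, ← hB, hC, mul_pow, hN, mul_comm p d, pow_mul]
          ring
  have hlt1 : ‖((a ^ N * n * M 0 + p * z : ℤ) : ℂ)‖ < 1 := lt_of_le_of_lt hbound hlt
  have hzero : (a ^ N * n * M 0 + p * z : ℤ) = 0 := by
    rw [Complex.norm_intCast] at hlt1
    have : |(a ^ N * n * M 0 + p * z : ℤ)| < 1 := by exact_mod_cast hlt1
    exact Int.abs_lt_one_iff.mp this
  have hdvd : (p : ℤ) ∣ a ^ N * n * M 0 := by
    have : a ^ N * n * M 0 = p * (-z) := by linarith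
    exact ⟨-z, this⟩
  have hpp : Prime (p : ℤ) := Nat.prime_iff_prime_int.mp hp
  rcases hpp.dvd_or_dvd hdvd with h | h
  · rcases hpp.dvd_or_dvd h with h | h
    · have h2 := hpp.dvd_of_dvd_pow h
      have h3 := Int.natAbs_dvd_natAbs.mpr h2
      have h4 := Nat.le_of_dvd (Int.natAbs_pos.mpr ha0) h3
      simp at h4
      omega
    · exact hpn h
  · have h3 := Int.natAbs_dvd_natAbs.mpr h
    have h4 := Nat.le_of_dvd (Int.natAbs_pos.mpr hM0) h3
    simp at h4
    omega

open AddMonoidAlgebra in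
/-- **Hermite-Lindemann**: the exponential of a nonzero algebraic number is transcendental. -/
theorem hermite_lindemann {α : ℂ} (hα : α ≠ 0) (ha : IsAlgebraic ℚ α)
    (hb : IsAlgebraic ℚ (exp α)) : False := by
  classical
  -- the splitting field inside `ℂ`
  set P := minpoly ℚ α with hP
  have hPirr : Irreducible P := minpoly.irreducible ha.isIntegral
  set K : IntermediateField ℚ ℂ := IntermediateField.adjoin ℚ (P.rootSet ℂ) with hK
  have hsf : P.IsSplittingField ℚ K :=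
    IntermediateField.adjoin_rootSet_isSplittingField (IsAlgClosed.splits _)
  have : FiniteDimensional ℚ K := Polynomial.IsSplittingField.finiteDimensional K P
  have : IsGalois ℚ K := IsGalois.of_separable_splitting_field (p := P) hPirr.separable
  have hαK : α ∈ K := by
    apply IntermediateField.subset_adjoin
    rw [Polynomial.mem_rootSet]
    exact ⟨hPirr.ne_zero, minpoly.aeval ℚ α⟩
  set a : K := ⟨α, hαK⟩ with hadef
  have ha0 : a ≠ 0 := by
    intro h; apply hα; simpa [hadef] using congrArg Subtype.val h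
  set ι : K →ₐ[ℚ] ℂ := K.val with hι
  -- the algebraic relation for `exp α`
  have hbZ : IsAlgebraic ℤ (exp α) := (IsFractionRing.isAlgebraic_iff ℤ ℚ ℂ).mpr hb
  obtain ⟨q, hq0, hq⟩ := hbZ
  -- evaluation of the group algebra
  let e : Multiplicative K →* ℂ :=
    { toFun := fun γ => exp (ι γ.toAdd)
      map_one' := by simp
      map_mul' := fun x y => by simp [Complex.exp_add] }
  let E : AddMonoidAlgebra ℤ K →ₐ[ℤ] ℂ := AddMonoidAlgebra.lift ℤ ℂ K e
  have hEs : ∀ (γ : K) (m : ℤ), E (single γ m) = (m : ℂ) * exp (ι γ) := by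
    intro γ m
    simp [E, e]
  set x : AddMonoidAlgebra ℤ K := Polynomial.aeval (single a (1 : ℤ)) q with hx
  have hEx : E x = 0 := by
    rw [hx, ← Polynomial.aeval_algHom_apply, hEs]
    have h1 : ι a = α := rfl
    rw [h1]
    simpa using hq
  have hx0 : x ≠ 0 := by
    intro h
    apply hq0
    ext j
    have h1 : x.coeff (j • a) = q.coeff j := by
      rw [hx, Polynomial.aeval_eq_sum_range, AddMonoidAlgebra.coeff_sum]
      rw [Finsupp.finsetSum_apply]
      have h2 : ∀ i ∈ Finset.range (q.natDegree + 1),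
          (q.coeff i • (single a (1 : ℤ)) ^ i).coeff (j • a) = if i = j then q.coeff j else 0 := by
        intro i _
        rw [AddMonoidAlgebra.single_pow, AddMonoidAlgebra.coeff_smul_apply,
          AddMonoidAlgebra.coeff_single, Finsupp.single_apply]
        by_cases hij : i = j
        · subst hij; simp
        · have : i • a ≠ j • a := by
            intro h
            apply hij
            rw [nsmul_eq_mul, nsmul_eq_mul] at h
            exact_mod_cast mul_right_cancel₀ ha0 h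
          rw [if_neg hij, one_pow, if_neg this, smul_zero]
      rw [Finset.sum_congr rfl h2]
      rw [Finset.sum_ite_eq' (Finset.range (q.natDegree + 1)) j]
      split_ifs with h3
      · rfl
      · symm
        apply Polynomial.coeff_eq_zero_of_natDegree_lt
        have := Finset.mem_range.not.mp h3
        omega
    rw [← h1, h]; simp
  -- the norm
  let act : (K ≃ₐ[ℚ] K) → (AddMonoidAlgebra ℤ K ≃ₐ[ℤ] AddMonoidAlgebra ℤ K) :=
    fun σ => AddMonoidAlgebra.domCongr ℤ ℤ (σ : K ≃+ K)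
  have hact : ∀ (σ : K ≃ₐ[ℚ] K) (y : AddMonoidAlgebra ℤ K) (γ : K),
      (act σ y).coeff γ = y.coeff (σ.symm γ) := by
    intro σ y γ
    simp only [act]
    rw [AddMonoidAlgebra.coeff_domCongr]
    rfl
  have hactmul : ∀ (σ τ : K ≃ₐ[ℚ] K) (y : AddMonoidAlgebra ℤ K),
      act τ (act σ y) = act (τ * σ) y := by
    intro σ τ y
    ext γ
    rw [hact, hact, hact]
    rfl
  set N : AddMonoidAlgebra ℤ K := ∏ σ : K ≃ₐ[ℚ] K, act σ x with hN
  have hN0 : N ≠ 0 := by
    rw [hN]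
    refine Finset.prod_ne_zero_iff.mpr fun σ _ => ?_
    intro h
    apply hx0
    have := (act σ).injective (h.trans (map_zero (act σ)).symm)
    exact this
  have hNinv : ∀ τ : K ≃ₐ[ℚ] K, act τ N = N := by
    intro τ
    rw [hN, map_prod]
    refine Fintype.prod_equiv (Equiv.mulLeft τ) _ _ fun σ => ?_
    rw [hactmul]; rfl
  have hEN : E N = 0 := by
    rw [hN, map_prod]
    refine Finset.prod_eq_zero (Finset.mem_univ 1) ?_
    have : act 1 x = x := by
      ext γ; rw [hact]; rfl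
    rw [this, hEx]
  let ng : AddMonoidAlgebra ℤ K ≃ₐ[ℤ] AddMonoidAlgebra ℤ K :=
    AddMonoidAlgebra.domCongr ℤ ℤ (AddEquiv.neg K)
  have hng : ∀ (y : AddMonoidAlgebra ℤ K) (γ : K), (ng y).coeff γ = y.coeff (-γ) := by
    intro y γ
    simp only [ng]
    rw [AddMonoidAlgebra.coeff_domCongr]
    rfl
  set M : AddMonoidAlgebra ℤ K := N * ng N with hM
  have hEM : E M = 0 := by rw [hM, map_mul, hEN, zero_mul]
  have hngN : ∀ τ : K ≃ₐ[ℚ] K, act τ (ng N) = ng N := by
    intro τ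
    ext γ
    rw [hact, hng, hng, ← map_neg]
    have := congrArg (fun y => AddMonoidAlgebra.coeff y (-γ)) (hNinv τ)
    simpa [hact] using this
  have hMinv : ∀ τ : K ≃ₐ[ℚ] K, act τ M = M := by
    intro τ
    rw [hM, map_mul, hNinv, hngN]
  have hM0 : M.coeff 0 ≠ 0 := by
    have h1 : M.coeff 0 = N.coeff.sum fun h r => r * r := by
      rw [hM, AddMonoidAlgebra.coeff_mul_apply_left]
      refine Finsupp.sum_congr fun γ _ => ?_
      rw [hng]
      simp
    rw [h1, Finsupp.sum]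
    apply ne_of_gt
    obtain ⟨γ, hγ⟩ : ∃ γ, γ ∈ N.coeff.support := by
      by_contra hcon
      push Not at hcon
      apply hN0
      rw [← AddMonoidAlgebra.coeff_eq_zero, ← Finsupp.support_eq_empty]
      exact Finset.eq_empty_of_forall_notMem hcon
    refine Finset.sum_pos (fun δ hδ => ?_) ⟨γ, hγ⟩
    exact mul_self_pos.mpr (Finsupp.mem_support_iff.mp hδ)
  refine HL_core ι M.coeff hM0 ?_ ?_
  · intro σ γ
    have := congrArg (fun y => AddMonoidAlgebra.coeff y (σ γ)) (hMinv σ)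
    simp only [hact] at this
    rw [← this]; simp
  · have h1 := hEM
    simp only [E] at h1
    rw [AddMonoidAlgebra.lift_apply] at h1
    rw [← h1]
    refine Finsupp.sum_congr fun γ _ => ?_
    simp [e]

end MP60829e
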