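import Mathlib
import Pool.Agent.Lib.MP_60829e_nt.DensDefs
import Pool.Agent.Lib.MP_60829e_nt.DensGrid
import Pool.Agent.Lib.MP_60829e_nt.DensNT
import Pool.Agent.Lib.MP_60829e_nt.HL

open Filter Finset MvPolynomial

namespace MP60829e.Dens

/-- the field of algebraic numbers -/
noncomputable abbrev QA := algebraicClosure ℚ ℂ

theorem isAlgClosed_QA : IsAlgClosed QA :=
  (IsAlgClosed.algebraicClosure_eq_bot_iff _ ℂ).mp (algebraicClosure.algebraicClosure_eq_bot ℚ ℂ)

theorem totalDegree_map_eq {ι : Type} (g : MvPolynomial ι QA) :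
    (MvPolynomial.map (algebraMap QA ℂ) g).totalDegree = g.totalDegree := by
  have hinj : Function.Injective (algebraMap QA ℂ) := (algebraMap QA ℂ).injective
  unfold totalDegree
  rw [support_map_of_injective g hinj]

theorem noRel_iff {ι : Type} {D : ℕ} {x : ι → ℂ} : NoRel D x ↔
    ∀ f : MvPolynomial ι QA, f ≠ 0 → f.totalDegree ≤ D → aeval x f ≠ 0 := by
  have hinj : Function.Injective (algebraMap QA ℂ) := (algebraMap QA ℂ).injective
  constructor
  · intro h f hf0 hfd hev
    refine h (MvPolynomial.map (algebraMap QA ℂ) f) ?_ ?_ ?_ ?_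
    · intro h0
      exact hf0 (MvPolynomial.map_injective _ hinj (by rw [h0, map_zero]))
    · intro m
      rw [coeff_map]
      exact mem_algebraicClosure_iff.mp (f.coeff m).2
    · rw [totalDegree_map_eq]; exact hfd
    · rw [eval_map, ← aeval_def]; exact hev
  · intro h f hf0 hfalg hfd hev
    have hrange : f ∈ Set.range (MvPolynomial.map (σ := ι) (algebraMap QA ℂ)) := by
      rw [mem_range_map_iff_coeffs_subset]
      intro x hx
      obtain ⟨m, hm⟩ := mem_coeffs_iff.mp hx
      refine ⟨⟨f.coeff m, mem_algebraicClosure_iff.mpr (hfalg m)⟩, ?_⟩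
      exact hm.2.symm
    obtain ⟨g, rfl⟩ := hrange
    refine h g ?_ ?_ ?_
    · rintro rfl
      exact hf0 (map_zero _)
    · rwa [totalDegree_map_eq] at hfd
    · rw [aeval_def, ← eval_map]; exact hev

theorem UDP.nonempty {n : ℕ} {X : Set (Fin n → ℕ)} (h : UDP X) :
    ∃ b ∈ X, ∀ i, 1 ≤ b i := by
  classical
  obtain ⟨δ, hδ, hf⟩ := h
  obtain ⟨B, hB, hB1⟩ := (hf.and_eventually (eventually_ge_atTop 1)).exists
  have h1 : (0 : ℝ) < cnt X B := lt_of_lt_of_le (by positivity) hB
  have h2 : 0 < cnt X B := by exact_mod_cast h1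
  unfold cnt at h2
  obtain ⟨b, hb⟩ := Finset.card_pos.mp h2
  rw [mem_filter, Fintype.mem_piFinset] at hb
  exact ⟨b, hb.2, fun i => (mem_Icc.mp (hb.1 i)).1⟩

theorem cnt_eq_card {n : ℕ} (X : Set (Fin n → ℕ)) (B : ℕ) :
    cnt X B = Nat.card {b : Fin n → ℕ // b ∈ X ∧ ∀ i, 1 ≤ b i ∧ b i ≤ B} := by
  classical
  unfold cnt
  rw [← Nat.card_eq_finsetCard]
  refine Nat.card_congr (Equiv.subtypeEquivRight fun b => ?_)
  rw [mem_filter, Fintype.mem_piFinset]
  simp only [mem_Icc]
  exact and_comm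

theorem densityZero_of_not_UDP {n : ℕ} {X : Set (Fin n → ℕ)} (h : ¬ UDP X) : DensityZero X := by
  unfold DensityZero
  simp only [← cnt_eq_card]
  rw [Metric.tendsto_atTop]
  intro ε hε
  unfold UDP at h
  push Not at h
  have h1 := h ε hε
  obtain ⟨N, hN⟩ := eventually_atTop.mp h1
  refine ⟨max N 1, fun B hB => ?_⟩
  have hB1 : 1 ≤ B := le_trans (le_max_right _ _) hB
  have hBpos : (0 : ℝ) < (B : ℝ) ^ n := by
    have : (0 : ℝ) < B := by exact_mod_cast hB1
    positivity
  have h2 := hN B (le_trans (le_max_left _ _) hB)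
  rw [Real.dist_eq, sub_zero, abs_of_nonneg (by positivity), div_lt_iff₀ hBpos]
  exact h2

theorem DensityZero.mono {n : ℕ} {X Y : Set (Fin n → ℕ)} (hY : DensityZero Y)
    (h : ∀ b, (∀ i, 1 ≤ b i) → b ∈ X → b ∈ Y) : DensityZero X := by
  unfold DensityZero at hY ⊢
  refine squeeze_zero (fun B => by positivity) (fun B => ?_) hY
  gcongr
  have hfin : Finite {b : Fin n → ℕ // b ∈ Y ∧ ∀ i, 1 ≤ b i ∧ b i ≤ B} := by
    apply Set.Finite.to_subtype (s := {b : Fin n → ℕ | b ∈ Y ∧ ∀ i, 1 ≤ b i ∧ b i ≤ B})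
    apply Set.Finite.subset (Set.Finite.pi' fun _ : Fin n => Set.finite_Icc 1 B)
    intro b hb i
    exact hb.2 i
  refine Nat.card_le_card_of_injective (fun b => ⟨b.1, h b.1 (fun i => (b.2.2 i).1) b.2.1, b.2.2⟩) ?_
  intro a b hab
  exact Subtype.ext (congrArg (fun t => t.1) hab)

theorem not_UDP_bad
    (hBaker : LinearIndependent QA (fun p : Nat.Primes => ((Real.log (p : ℕ) : ℝ) : ℂ)))
    (n D k : ℕ) (lam : Fin k → ℂ) (hlam : NoRel D lam) (u : Fin n → ℂ) :
    ¬ UDP {b : Fin n → ℕ | ¬ NoRel D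
      (Sum.elim lam fun i => u i + ((Real.log (b i) : ℝ) : ℂ))} := by
  classical
  intro hU
  have := isAlgClosed_QA
  rw [noRel_iff] at hlam
  obtain ⟨S, hS, hU2⟩ := grid_dens (Mn k n D) (n * (Mn k n D * D))
    (fun t => (finProdFinEquiv.symm t).1) _ hU
  obtain ⟨b, hb, hb1⟩ := hU2.nonempty
  -- enumerate the sets S t
  have hen : ∀ t, ∃ q : Fin (Mn k n D + 1) → Nat.Primes, Function.Injective q ∧
      ∀ a, ((q a : Nat.Primes) : ℕ) ∈ S t := by
    intro t
    obtain ⟨hc, hp⟩ := hS t
    let e : Fin (Mn k n D + 1) ≃ S t := (Fintype.equivFinOfCardEq (by simpa using hc)).symm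
    refine ⟨fun a => ⟨(e a : ℕ), hp _ (e a).2⟩, ?_, fun a => (e a).2⟩
    intro a a' h
    apply e.injective
    apply Subtype.ext
    exact congrArg (fun x : Nat.Primes => (x : ℕ)) h
  choose q hqinj hqS using hen
  let w : Fin n → Fin (Mn k n D * D) → Fin (Mn k n D + 1) → ℂ := fun i j a =>
    ((Real.log ((q (finProdFinEquiv (i, j)) a : Nat.Primes) : ℕ) : ℝ) : ℂ)
  refine grid (K := QA) (C' := ℂ) k n D lam hlam
    (fun i => u i + ((Real.log (b i) : ℝ) : ℂ)) w ?_ ?_
  · intro i j
    have hli := hBaker.comp (q (finProdFinEquiv (i, j))) (hqinj _)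
    rw [Fintype.linearIndependent_iff] at hli ⊢
    intro g hg a
    have h1 := hli (Fin.cons (-∑ a, g a) g) (by
      rw [Fin.sum_univ_succ]
      simp only [Fin.cons_zero, Fin.cons_succ, Function.comp_apply]
      have h2 : ∑ a : Fin (Mn k n D), g a • (w i j a.succ - w i j 0) =
          (-∑ a, g a) • w i j 0 + ∑ a : Fin (Mn k n D), g a • w i j a.succ := by
        simp only [smul_sub, sum_sub_distrib, neg_smul, sum_smul]
        ring
      have h3 : (-∑ a, g a) • w i j 0 + ∑ a : Fin (Mn k n D), g a • w i j a.succ = 0 := by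
        rw [← h2]; exact hg
      exact h3) a.succ
    simpa using h1
  · intro c
    have hmem := hb (fun t => ((q t (c (finProdFinEquiv.symm t).1 (finProdFinEquiv.symm t).2) :
      Nat.Primes) : ℕ)) (fun t => hqS t _)
    have hmem2 : ¬ NoRel D (Sum.elim lam fun i => u i + ((Real.log
      ((fun i => b i * ∏ t, if (finProdFinEquiv.symm t).1 = i then
        ((q t (c (finProdFinEquiv.symm t).1 (finProdFinEquiv.symm t).2) : Nat.Primes) : ℕ)
        else 1) i : ℕ) : ℝ) : ℂ)) := hmem
    rw [noRel_iff] at hmem2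
    push Not at hmem2
    obtain ⟨g, hg0, hgd, hgev⟩ := hmem2
    refine ⟨g, hg0, hgd, ?_⟩
    rw [← hgev]
    congr 2
    funext t
    rcases t with t | i
    · rfl
    · simp only [Sum.elim_inr]
      have hprod : ∏ t : Fin (n * (Mn k n D * D)), (if (finProdFinEquiv.symm t).1 = i then
          ((q t (c (finProdFinEquiv.symm t).1 (finProdFinEquiv.symm t).2) : Nat.Primes) : ℕ)
          else 1) = ∏ j : Fin (Mn k n D * D),
            ((q (finProdFinEquiv (i, j)) (c i j) : Nat.Primes) : ℕ) := by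
        rw [← Equiv.prod_comp (finProdFinEquiv (m := n) (n := Mn k n D * D))]
        rw [Fintype.prod_prod_type]
        simp only [Equiv.symm_apply_apply]
        rw [Finset.prod_eq_single i]
        · simp
        · intro i' _ hi'
          apply Finset.prod_eq_one
          intro j _
          rw [if_neg hi']
        · intro h; exact absurd (mem_univ i) h
      have hlog : Real.log ((b i * ∏ j : Fin (Mn k n D * D),
          ((q (finProdFinEquiv (i, j)) (c i j) : Nat.Primes) : ℕ) : ℕ) : ℝ) =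
          Real.log (b i) + ∑ j : Fin (Mn k n D * D),
            Real.log ((q (finProdFinEquiv (i, j)) (c i j) : Nat.Primes) : ℕ) := by
        push_cast
        rw [Real.log_mul, Real.log_prod]
        · intro j _
          exact_mod_cast (q (finProdFinEquiv (i, j)) (c i j)).2.ne_zero
        · exact_mod_cast (Nat.one_le_iff_ne_zero.mp (hb1 i))
        · rw [Finset.prod_ne_zero_iff]
          intro j _
          exact_mod_cast (q (finProdFinEquiv (i, j)) (c i j)).2.ne_zero
      rw [hprod, hlog, Complex.ofReal_add, Complex.ofReal_sum, add_assoc]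

/-- A degree one substitution preserves `NoRel`. -/
theorem NoRel.subst {ι ι' : Type} {D : ℕ} {x : ι → ℂ} {y : ι' → ℂ} (hy : NoRel D y)
    (σ : ι → MvPolynomial ι' QA) (hσ : ∀ i, (σ i).totalDegree ≤ 1)
    (hinj : Function.Injective (aeval σ : MvPolynomial ι QA →ₐ[QA] MvPolynomial ι' QA))
    (hx : ∀ i, x i = aeval y (σ i)) : NoRel D x := by
  classical
  rw [noRel_iff] at hy ⊢
  intro f hf0 hfd hev
  refine hy (aeval σ f) ?_ ?_ ?_
  · intro h0
    exact hf0 (hinj (by rw [h0, map_zero]))
  · rw [f.as_sum, map_sum]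
    refine totalDegree_finsetSum_le fun m hm => ?_
    rw [aeval_monomial, MvPolynomial.algebraMap_eq]
    refine (totalDegree_mul _ _).trans ?_
    rw [totalDegree_C, zero_add, Finsupp.prod]
    refine (totalDegree_finsetProd _ _).trans ?_
    have h1 : ∑ i ∈ m.support, (σ i ^ m i).totalDegree ≤ ∑ i ∈ m.support, m i := by
      refine Finset.sum_le_sum fun i _ => ?_
      refine (totalDegree_pow _ _).trans ?_
      calc m i * (σ i).totalDegree ≤ m i * 1 := Nat.mul_le_mul_left _ (hσ i)
        _ = m i := mul_one _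
    refine h1.trans ?_
    exact (le_totalDegree hm).trans hfd
  · rw [← hev]
    have h1 : (aeval y : MvPolynomial ι' QA →ₐ[QA] ℂ).comp (aeval σ) = aeval x := by
      apply MvPolynomial.algHom_ext
      intro i
      rw [AlgHom.comp_apply, aeval_X, aeval_X, hx]
    exact congrArg (fun φ => φ f) h1

/-- `2πi` satisfies no relation. -/
theorem noRel_two_pi_I (D : ℕ) : NoRel D (fun _ : Fin 1 => 2 * (Real.pi : ℂ) * Complex.I) := by
  rw [noRel_iff]
  intro f hf0 _ hev
  have htr : Transcendental QA (2 * (Real.pi : ℂ) * Complex.I) := by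
    apply Transcendental.algebraicClosure
    intro h
    refine hermite_lindemann (α := 2 * (Real.pi : ℂ) * Complex.I) ?_ h ?_
    · simp [Real.pi_ne_zero]
    · rw [Complex.exp_two_pi_mul_I]
      exact isAlgebraic_one
  have hai : AlgebraicIndependent QA (fun _ : Fin 1 => 2 * (Real.pi : ℂ) * Complex.I) := by
    rw [algebraicIndependent_unique_type_iff]
    exact htr
  exact hf0 (hai.eq_zero_of_aeval_eq_zero f hev)

theorem main
    (hBaker : LinearIndependent QA (fun p : Nat.Primes => ((Real.log (p : ℕ) : ℝ) : ℂ)))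
    (n D : ℕ) :
    (∀ (k : ℕ) (lam : Fin k → ℂ), NoRel D lam → ∀ u : Fin n → ℂ,
      DensityZero {b | ¬ NoRel D (Sum.elim lam fun i => u i + ((Real.log (b i) : ℝ) : ℂ))}) ∧
    (∀ β : Fin n → ℂ, (∀ i, β i ≠ 0) →
      DensityZero {b | ∃ l : Fin n → ℂ, (∀ i, Complex.exp (l i) = β i * b i) ∧
        ¬ NoRel D (Sum.elim (fun _ : Fin 1 => (Real.pi : ℂ)) l)}) := by
  have h1 : ∀ (k : ℕ) (lam : Fin k → ℂ), NoRel D lam → ∀ u : Fin n → ℂ,
      DensityZero {b | ¬ NoRel D (Sum.elim lam fun i => u i + ((Real.log (b i) : ℝ) : ℂ))} :=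
    fun k lam hlam u => densityZero_of_not_UDP (not_UDP_bad hBaker n D k lam hlam u)
  refine ⟨h1, fun β hβ => ?_⟩
  refine (h1 1 _ (noRel_two_pi_I D) (fun i => Complex.log (β i))).mono ?_
  rintro b hb1 ⟨l, hl, hrel⟩ hno
  apply hrel
  -- l i = log β i + log b i + 2 π i k i
  have hk : ∀ i, ∃ z : ℤ, l i = (Complex.log (β i) + ((Real.log (b i) : ℝ) : ℂ)) +
      z * (2 * (Real.pi : ℂ) * Complex.I) := by
    intro i
    have hbi : (0 : ℝ) < b i := by exact_mod_cast hb1 i
    have : Complex.exp (l i) = Complex.exp (Complex.log (β i) + ((Real.log (b i) : ℝ) : ℂ)) := by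
      rw [hl, Complex.exp_add, Complex.exp_log (hβ i), ← Complex.ofReal_exp, Real.exp_log hbi]
      simp
    obtain ⟨z, hz⟩ := Complex.exp_eq_exp_iff_exists_int.mp this
    exact ⟨z, hz⟩
  choose z hz using hk
  have hI : IsAlgebraic ℚ Complex.I := by
    refine ⟨Polynomial.X ^ 2 + 1, ?_, ?_⟩
    · intro h
      have := congrArg (Polynomial.eval 0) h
      simp at this
    · simp
  let I' : QA := ⟨Complex.I, mem_algebraicClosure_iff.mpr hI⟩
  have hI2 : I' * I' = -1 := by
    apply Subtype.ext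
    simp [I']
  have hI0 : I' ≠ 0 := by
    intro h
    rw [h] at hI2
    simp at hI2
  let c0 : QA := (2 * I')⁻¹
  have hc0 : c0 * (2 * I') = 1 := inv_mul_cancel₀ (by simpa using hI0)
  refine NoRel.subst hno (Sum.elim (fun _ => C c0 * X (Sum.inl 0))
    (fun i => X (Sum.inr i) + C (z i : QA) * X (Sum.inl 0))) ?_ ?_ ?_
  · intro t
    rcases t with t | t
    · refine (totalDegree_mul _ _).trans ?_
      rw [totalDegree_C, totalDegree_X]
    · refine (totalDegree_add _ _).trans (max_le ?_ ?_)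
      · rw [totalDegree_X]
      · refine (totalDegree_mul _ _).trans ?_
        rw [totalDegree_C, totalDegree_X]
  · -- inverse substitution
    let τ : MvPolynomial (Fin 1 ⊕ Fin n) QA →ₐ[QA] MvPolynomial (Fin 1 ⊕ Fin n) QA :=
      aeval (Sum.elim (fun _ => C (2 * I') * X (Sum.inl 0))
        (fun i => X (Sum.inr i) - C (z i : QA) * (C (2 * I') * X (Sum.inl 0))))
    apply Function.LeftInverse.injective (g := τ)
    intro f
    have h2 : τ.comp (aeval (Sum.elim (fun _ => C c0 * X (Sum.inl 0))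
        (fun i => X (Sum.inr i) + C (z i : QA) * X (Sum.inl 0)))) = AlgHom.id QA _ := by
      apply MvPolynomial.algHom_ext
      intro t
      rcases t with t | t
      · have ht : t = 0 := Subsingleton.elim _ _
        subst ht
        simp only [AlgHom.comp_apply, aeval_X, Sum.elim_inl, map_mul, τ, AlgHom.id_apply]
        rw [show (aeval (Sum.elim (fun _ => C 2 * C I' * X (Sum.inl 0))
          (fun i => X (Sum.inr i) - C (z i : QA) * (C 2 * C I' * X (Sum.inl 0)))) :
            MvPolynomial (Fin 1 ⊕ Fin n) QA →ₐ[QA] MvPolynomial (Fin 1 ⊕ Fin n) QA) (C c0) = C c0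
          from MvPolynomial.aeval_C _ _]
        rw [← map_mul, ← mul_assoc, ← map_mul, hc0, map_one, one_mul]
      · simp only [AlgHom.comp_apply, aeval_X, Sum.elim_inr, map_add, map_mul, τ, AlgHom.id_apply,
          Sum.elim_inl]
        simp
    exact congrArg (fun φ => φ f) h2
  · intro t
    rcases t with t | t
    · simp only [Sum.elim_inl, map_mul, aeval_X]
      have : (aeval (Sum.elim (fun _ : Fin 1 => 2 * (Real.pi : ℂ) * Complex.I)
          fun i => Complex.log (β i) + ((Real.log (b i) : ℝ) : ℂ))) (C c0 : MvPolynomial (Fin 1 ⊕ Fin n) QA)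
          = ((c0 : QA) : ℂ) := by
        rw [MvPolynomial.aeval_C]; rfl
      rw [this]
      have h3 : ((c0 : QA) : ℂ) * (2 * Complex.I) = 1 := by
        have h4 := congrArg (fun t : QA => (t : ℂ)) hc0
        have h5 : ((2 : QA) : ℂ) = 2 := map_ofNat (algebraMap QA ℂ) 2
        rw [← h5]
        exact h4
      calc (Real.pi : ℂ) = (((c0 : QA) : ℂ) * (2 * Complex.I)) * Real.pi := by rw [h3, one_mul]
        _ = _ := by ring
    · simp only [Sum.elim_inr, map_add, map_mul, aeval_X, Sum.elim_inl]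
      rw [hz t]
      congr 1
      congr 1
      simp

end MP60829e.Dens
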