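import Mathlib
import Pool.Agent.Lib.MP_60829e_nt.HL

open MvPolynomial

namespace MP60829e

variable {ι : Type*}

/-- All coefficients are algebraic numbers. -/
def Alg (F : MvPolynomial ι ℂ) : Prop := ∀ m, IsAlgebraic ℚ (F.coeff m)

theorem isAlg_intCast (z : ℤ) : IsAlgebraic ℚ (z : ℂ) := by
  have := isAlgebraic_algebraMap (R := ℚ) (A := ℂ) (z : ℚ)
  simpa using this

theorem isAlg_ratCast (z : ℚ) : IsAlgebraic ℚ (z : ℂ) := by
  have := isAlgebraic_algebraMap (R := ℚ) (A := ℂ) z
  simpa using this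

theorem Alg.add {F G : MvPolynomial ι ℂ} (hF : Alg F) (hG : Alg G) : Alg (F + G) := by
  intro m; rw [coeff_add]; exact (hF m).add (hG m)

theorem Alg.zero : Alg (0 : MvPolynomial ι ℂ) := by
  intro m; rw [coeff_zero]; exact isAlgebraic_zero

theorem Alg.C_mul {F : MvPolynomial ι ℂ} (hF : Alg F) {c : ℂ} (hc : IsAlgebraic ℚ c) :
    Alg (C c * F) := by
  intro m; rw [coeff_C_mul]; exact hc.mul (hF m)

theorem Alg.sum {κ : Type*} (s : Finset κ) (F : κ → MvPolynomial ι ℂ) (h : ∀ i ∈ s, Alg (F i)) :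
    Alg (∑ i ∈ s, F i) := by
  classical
  induction s using Finset.induction_on with
  | empty => simpa using Alg.zero
  | insert a s ha ih =>
    rw [Finset.sum_insert ha]
    exact (h a (Finset.mem_insert_self _ _)).add
      (ih fun i hi => h i (Finset.mem_insert_of_mem hi))

theorem Alg.pderiv {F : MvPolynomial ι ℂ} (hF : Alg F) (i : ι) : Alg (pderiv i F) := by
  classical
  intro m
  rw [coeff_pderiv]
  refine (hF _).mul ?_
  have := isAlg_intCast ((m i : ℤ) + 1)
  push_cast at this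
  simpa using this

/-- The affine substitution `F(U) ↦ F((Y - a)/ω)`. -/
noncomputable def T (a : ι → ℂ) (ω : ℂ) : MvPolynomial ι ℂ →ₐ[ℂ] MvPolynomial ι ℂ :=
  aeval fun i => C ω⁻¹ * (X i - C (a i))

theorem T_C (a : ι → ℂ) (ω c : ℂ) : T a ω (C c) = C c := by
  simp [T, MvPolynomial.algebraMap_eq]

theorem T_X (a : ι → ℂ) (ω : ℂ) (i : ι) : T a ω (X i) = C ω⁻¹ * (X i - C (a i)) := by
  simp [T]

theorem pderiv_T (a : ι → ℂ) (ω : ℂ) (i : ι) (F : MvPolynomial ι ℂ) :
    pderiv i (T a ω F) = C ω⁻¹ * T a ω (pderiv i F) := by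
  classical
  induction F using MvPolynomial.induction_on with
  | C c => simp [T_C]
  | add p q hp hq => rw [map_add, map_add, map_add, map_add, hp, hq]; ring
  | mul_X p j hp =>
    rw [map_mul, pderiv_mul, hp, pderiv_mul, map_add, map_mul, map_mul, T_X, pderiv_C_mul,
      map_sub, pderiv_C, pderiv_X]
    by_cases h : j = i
    · subst h; simp; ring
    · rw [Pi.single_eq_of_ne h]; simp; ring

/-- Cast of a rational polynomial to a complex polynomial. -/
noncomputable def cst : MvPolynomial ι ℚ →+* MvPolynomial ι ℂ := MvPolynomial.map (algebraMap ℚ ℂ)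

theorem cst_C (r : ℚ) : cst (C r : MvPolynomial ι ℚ) = C (r : ℂ) := by
  simp [cst]

theorem cst_X (i : ι) : cst (X i : MvPolynomial ι ℚ) = X i := by
  simp [cst]

theorem cst_injective : Function.Injective (cst : MvPolynomial ι ℚ → MvPolynomial ι ℂ) :=
  MvPolynomial.map_injective _ (algebraMap ℚ ℂ).injective

theorem coeff_cst (g : MvPolynomial ι ℚ) (m : ι →₀ ℕ) : (cst g).coeff m = ((g.coeff m : ℚ) : ℂ) := by
  simp [cst, coeff_map]

theorem cst_pderiv (g : MvPolynomial ι ℚ) (i : ι) : cst (pderiv i g) = pderiv i (cst g) := by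
  simp [cst, pderiv_map]

theorem totalDegree_pderiv_add_one_le {R : Type*} [CommSemiring R] (F : MvPolynomial ι R) (i : ι)
    (h : pderiv i F ≠ 0) : (pderiv i F).totalDegree + 1 ≤ F.totalDegree := by
  classical
  have hne : (pderiv i F).support.Nonempty := support_nonempty.mpr h
  obtain ⟨m, hm, hmd⟩ := Finset.exists_mem_eq_sup _ hne (fun s : ι →₀ ℕ => s.sum fun _ e => e)
  have h1 : (pderiv i F).totalDegree = m.sum fun _ e => e := hmd
  rw [h1]
  have h2 : m + Finsupp.single i 1 ∈ F.support := by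
    rw [mem_support_iff] at hm ⊢
    rw [coeff_pderiv] at hm
    exact left_ne_zero_of_mul hm
  have h3 := le_totalDegree h2
  rw [Finsupp.sum_add_index' (fun _ => rfl) (fun _ _ _ => rfl)] at h3
  simpa using h3

theorem exists_pderiv {R : Type*} [CommRing R] [IsDomain R] [CharZero R]
    (F : MvPolynomial ι R) (e : ℕ) (h : F.totalDegree = e + 1) :
    ∃ i, pderiv i F ≠ 0 ∧ (pderiv i F).totalDegree = e := by
  classical
  have hF : F ≠ 0 := by rintro rfl; simp at h
  have hne : F.support.Nonempty := support_nonempty.mpr hF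
  obtain ⟨m, hm, hmd⟩ := Finset.exists_mem_eq_sup _ hne (fun s : ι →₀ ℕ => s.sum fun _ e => e)
  have h1 : F.totalDegree = m.sum fun _ e => e := hmd
  have hm0 : m ≠ 0 := by
    rintro rfl
    rw [h1] at h
    simp at h
  obtain ⟨i, hi⟩ := Finsupp.ne_iff.mp hm0
  have hi1 : 1 ≤ m i := Nat.one_le_iff_ne_zero.mpr hi
  set m' := m - Finsupp.single i 1 with hm'
  have hadd : m' + Finsupp.single i 1 = m := by
    rw [hm']
    exact tsub_add_cancel_of_le (by simpa [Finsupp.single_le_iff] using hi1)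
  have hcoeff : (pderiv i F).coeff m' ≠ 0 := by
    rw [coeff_pderiv, hadd]
    refine mul_ne_zero (mem_support_iff.mp hm) ?_
    exact_mod_cast Nat.succ_ne_zero (m' i)
  have hne' : pderiv i F ≠ 0 := by
    intro h0; rw [h0] at hcoeff; simp at hcoeff
  refine ⟨i, hne', le_antisymm ?_ ?_⟩
  · have := totalDegree_pderiv_add_one_le F i hne'
    omega
  · have h2 := le_totalDegree (mem_support_iff.mpr hcoeff)
    have h3 : (m.sum fun _ e => e) = (m'.sum fun _ e => e) + 1 := by
      rw [← hadd, Finsupp.sum_add_index' (fun _ => rfl) (fun _ _ _ => rfl)]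
      simp
    omega

section degree

variable {a : ι → ℂ} {ω : ℂ}

/-- If `c · g((Y-a)/ω)` has algebraic coefficients, then `c ω^{-deg g}` is algebraic. -/
theorem scale_algebraic : ∀ (e : ℕ) (g : MvPolynomial ι ℚ) (c : ℂ), g ≠ 0 →
    g.totalDegree = e → Alg (C c * T a ω (cst g)) → IsAlgebraic ℚ (c * (ω⁻¹) ^ e) := by
  intro e
  induction e with
  | zero =>
    intro g c hg hdeg hA
    have h1 : g = C (g.coeff 0) := totalDegree_eq_zero_iff_eq_C.mp hdeg
    have hr : g.coeff 0 ≠ 0 := by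
      intro h; apply hg; rw [h1, h]; simp
    rw [h1, cst_C, T_C] at hA
    have h2 := hA 0
    rw [← C_mul, coeff_zero_C] at h2
    have h3 : c = c * ((g.coeff 0 : ℚ) : ℂ) * (((g.coeff 0)⁻¹ : ℚ) : ℂ) := by
      push_cast
      field_simp
    rw [pow_zero, mul_one, h3]
    exact h2.mul (isAlg_ratCast _)
  | succ e ih =>
    intro g c hg hdeg hA
    obtain ⟨i, hi0, hie⟩ := exists_pderiv g e hdeg
    have h1 := hA.pderiv i
    rw [pderiv_C_mul, pderiv_T, ← mul_assoc, ← C_mul, ← cst_pderiv] at h1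
    have h2 := ih (pderiv i g) (c * ω⁻¹) hi0 hie h1
    convert h2 using 1
    rw [pow_succ]; ring

theorem degree_eq (hω0 : ω ≠ 0) (hω : Transcendental ℚ ω) (g : MvPolynomial ι ℚ) (hg : g ≠ 0)
    (d : ℕ) (hA : Alg (C (ω ^ d) * T a ω (cst g))) : g.totalDegree = d := by
  have h1 := scale_algebraic g.totalDegree g (ω ^ d) hg rfl hA
  by_contra hne
  apply hω
  rcases lt_or_gt_of_ne hne with h | h
  · -- ω^(d - e) algebraic
    obtain ⟨k, hk⟩ : ∃ k, d = g.totalDegree + (k + 1) := ⟨d - g.totalDegree - 1, by omega⟩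
    have h2 : ω ^ d * ω⁻¹ ^ g.totalDegree = ω ^ (k + 1) := by
      have h5 : ω ^ g.totalDegree ≠ 0 := pow_ne_zero _ hω0
      rw [hk, pow_add, inv_pow]
      field_simp
    rw [h2] at h1
    exact h1.of_pow (Nat.succ_pos k)
  · obtain ⟨k, hk⟩ : ∃ k, g.totalDegree = d + (k + 1) := ⟨g.totalDegree - d - 1, by omega⟩
    have h2 : ω ^ d * ω⁻¹ ^ g.totalDegree = (ω⁻¹) ^ (k + 1) := by
      have h5 : ω ^ d ≠ 0 := pow_ne_zero _ hω0
      rw [hk, pow_add, inv_pow ω d, ← mul_assoc, mul_inv_cancel₀ h5, one_mul]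
    rw [h2] at h1
    have h3 := h1.of_pow (Nat.succ_pos k)
    simpa using h3.inv

end degree

section direction

variable [Fintype ι] {a : ι → ℂ} {ω : ℂ}

/-- Directional derivative. -/
noncomputable def dd (w : ι → ℚ) (g : MvPolynomial ι ℚ) : MvPolynomial ι ℚ :=
  ∑ i, C (w i) * pderiv i g

theorem pderiv_dd (w : ι → ℚ) (g : MvPolynomial ι ℚ) (j : ι) :
    pderiv j (dd w g) = dd w (pderiv j g) := by
  classical
  unfold dd
  rw [map_sum]
  refine Finset.sum_congr rfl fun i _ => ?_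
  rw [pderiv_C_mul]
  congr 1
  ext m
  rw [coeff_pderiv, coeff_pderiv, coeff_pderiv, coeff_pderiv]
  by_cases h : i = j
  · subst h; rfl
  · have h1 : DFunLike.coe (m + Finsupp.single j 1) i = m i := by
      simp [Finsupp.single_apply, Ne.symm h]
    have h2 : DFunLike.coe (m + Finsupp.single i 1) j = m j := by
      simp [Finsupp.single_apply, h]
    rw [h1, h2]
    rw [show m + Finsupp.single j 1 + Finsupp.single i 1 = m + Finsupp.single i 1 + Finsupp.single j 1
      from by abel]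
    ring

theorem alg_dd (hω0 : ω ≠ 0) (w : ι → ℚ) (g : MvPolynomial ι ℚ) (d : ℕ)
    (hA : Alg (C (ω ^ (d + 1)) * T a ω (cst g))) :
    (∀ i, Alg (C (ω ^ d) * T a ω (cst (pderiv i g)))) ∧ Alg (C (ω ^ d) * T a ω (cst (dd w g))) := by
  have h1 : ∀ i, Alg (C (ω ^ d) * T a ω (cst (pderiv i g))) := by
    intro i
    have h1 := hA.pderiv i
    rw [pderiv_C_mul, pderiv_T, ← mul_assoc, ← C_mul, ← cst_pderiv] at h1
    have h2 : ω ^ (d + 1) * ω⁻¹ = ω ^ d := by
      rw [pow_succ]; field_simp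
    rwa [h2] at h1
  refine ⟨h1, ?_⟩
  unfold dd
  rw [map_sum, map_sum, Finset.mul_sum]
  refine Alg.sum _ _ fun i _ => ?_
  have h3 : C (ω ^ d) * T a ω (cst (C (w i) * pderiv i g))
      = C ((w i : ℚ) : ℂ) * (C (ω ^ d) * T a ω (cst (pderiv i g))) := by
    rw [map_mul, map_mul, cst_C, T_C]; ring
  rw [h3]
  exact (h1 i).C_mul (isAlg_ratCast _)

theorem affine_of_totalDegree_le_one {R : Type*} [CommSemiring R] (g : MvPolynomial ι R)
    (h : g.totalDegree ≤ 1) :
    g = (∑ i, C (g.coeff (Finsupp.single i 1)) * X i) + C (g.coeff 0) := by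
  classical
  ext m
  rw [coeff_add, coeff_sum, coeff_C]
  have h1 : ∀ i, (C (g.coeff (Finsupp.single i 1)) * X i : MvPolynomial ι R).coeff m
      = if Finsupp.single i 1 = m then g.coeff m else 0 := by
    intro i
    rw [coeff_C_mul, coeff_X]
    split_ifs with h2
    · rw [h2]; simp
    · simp
  simp_rw [h1]
  by_cases hm0 : m = 0
  · subst hm0
    have : ∀ i : ι, ¬ (Finsupp.single i 1 = (0 : ι →₀ ℕ)) := by
      intro i; simp
    simp [this]
  · have hm0' : ¬ (0 = m) := fun h => hm0 h.symm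
    by_cases hc : g.coeff m = 0
    · simp [hc, hm0']
    · have h2 := le_totalDegree (mem_support_iff.mpr hc)
      have h3 : (m.sum fun _ e => e) ≤ 1 := h2.trans h
      obtain ⟨i, hi⟩ := Finsupp.ne_iff.mp hm0
      have hi1 : 1 ≤ m i := Nat.one_le_iff_ne_zero.mpr hi
      have hle : Finsupp.single i 1 ≤ m := by simpa [Finsupp.single_le_iff] using hi1
      obtain ⟨m', hm'⟩ : ∃ m', m = Finsupp.single i 1 + m' := ⟨m - Finsupp.single i 1, by
        rw [add_comm]; exact (tsub_add_cancel_of_le hle).symm⟩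
      have h4 : m' = 0 := by
        rw [hm', Finsupp.sum_add_index' (fun _ => rfl) (fun _ _ _ => rfl)] at h3
        simp only [Finsupp.sum_single_index] at h3
        have h5 : (m'.sum fun _ e => e) = 0 := by omega
        ext j
        by_contra hj
        have : m' j ≤ m'.sum fun _ e => e :=
          Finset.single_le_sum (f := fun j => m' j) (fun _ _ => Nat.zero_le _)
            (Finsupp.mem_support_iff.mpr hj)
        simp at hj
        omega
      have h6 : m = Finsupp.single i 1 := by rw [hm', h4, add_zero]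
      have h7 : ∀ j, (Finsupp.single j 1 = m) ↔ j = i := by
        intro j
        rw [h6]
        constructor
        · intro h
          have := DFunLike.congr_fun h i
          simp [Finsupp.single_apply] at this
          exact this
        · rintro rfl; rfl
      simp [h7, hm0']

theorem direction (hω0 : ω ≠ 0) (hω : Transcendental ℚ ω)
    (hlog : ∀ (q : ι → ℚ) (r : ℚ), IsAlgebraic ℚ ((r : ℂ) * ω - ∑ i, (q i : ℂ) * a i) →
      ∑ i, (q i : ℂ) * a i = (r : ℂ) * ω)
    (hprop : ∀ q q' : ι → ℚ, q ≠ 0 → (∃ r : ℚ, ∑ i, (q i : ℂ) * a i = (r : ℂ) * ω) →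
      (∃ r : ℚ, ∑ i, (q' i : ℂ) * a i = (r : ℂ) * ω) → ∃ t : ℚ, q' = t • q) :
    ∀ (d : ℕ) (g : MvPolynomial ι ℚ), g ≠ 0 → Alg (C (ω ^ (d + 1)) * T a ω (cst g)) →
      ∃ q : ι → ℚ, q ≠ 0 ∧ (∃ r : ℚ, ∑ i, (q i : ℂ) * a i = (r : ℂ) * ω) ∧
        ∀ w : ι → ℚ, ∑ i, q i * w i = 0 → dd w g = 0 := by
  classical
  intro d
  induction d with
  | zero =>
    intro g hg hA
    have hdeg : g.totalDegree = 1 := degree_eq hω0 hω g hg 1 hA
    have haff := affine_of_totalDegree_le_one g hdeg.le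
    set q : ι → ℚ := fun i => g.coeff (Finsupp.single i 1) with hq
    set r : ℚ := g.coeff 0 with hr
    have hq0 : q ≠ 0 := by
      intro h
      have : g = C r := by
        rw [haff]
        have h2 : ∀ i, g.coeff (Finsupp.single i 1) = 0 := fun i => congrFun h i
        simp [h2]
      rw [this, totalDegree_C] at hdeg
      omega
    have hcoeff0 := hA 0
    have hTg : T a ω (cst g) = (∑ i, C (q i : ℂ) * (C ω⁻¹ * (X i - C (a i)))) + C (r : ℂ) := by
      conv_lhs => rw [haff]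
      rw [map_add, map_add, cst_C, T_C, map_sum, map_sum]
      congr 1
      refine Finset.sum_congr rfl fun i _ => ?_
      rw [map_mul, map_mul, cst_C, T_C, cst_X, T_X]
    rw [hTg, coeff_C_mul, coeff_add, coeff_sum, coeff_zero_C] at hcoeff0
    have h3 : ∀ i, (C (q i : ℂ) * (C ω⁻¹ * (X i - C (a i))) : MvPolynomial ι ℂ).coeff 0
        = -(ω⁻¹ * ((q i : ℂ) * a i)) := by
      intro i
      rw [coeff_C_mul, coeff_C_mul, coeff_sub, coeff_zero_X, coeff_zero_C]; ring
    simp_rw [h3] at hcoeff0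
    rw [Finset.sum_neg_distrib, ← Finset.mul_sum] at hcoeff0
    have h4 : ω ^ (0 + 1) * (-(ω⁻¹ * ∑ i, (q i : ℂ) * a i) + (r : ℂ))
        = (r : ℂ) * ω - ∑ i, (q i : ℂ) * a i := by
      field_simp
      ring
    rw [h4] at hcoeff0
    refine ⟨q, hq0, ⟨r, hlog q r hcoeff0⟩, ?_⟩
    intro w hw
    unfold dd
    have h5 : ∀ i, pderiv i g = C (q i) := by
      intro i
      conv_lhs => rw [haff]
      rw [map_add, pderiv_C, add_zero, map_sum]
      have h6 : ∀ j, pderiv i (C (g.coeff (Finsupp.single j 1)) * X j : MvPolynomial ι ℚ)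
          = if j = i then C (q j) else 0 := by
        intro j
        rw [pderiv_C_mul, pderiv_X]
        by_cases h : j = i
        · subst h; simp [hq]
        · rw [Pi.single_eq_of_ne h, mul_zero, if_neg h]
      rw [Finset.sum_congr rfl fun j _ => h6 j]
      simp
    simp_rw [h5]
    rw [← C_0, ← hw, map_sum]
    refine Finset.sum_congr rfl fun i _ => ?_
    rw [← C_mul, mul_comm]
  | succ d ih =>
    intro g hg hA
    have hdeg : g.totalDegree = d + 1 + 1 := degree_eq hω0 hω g hg _ hA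
    obtain ⟨i0, hi0, -⟩ := exists_pderiv g (d + 1) hdeg
    obtain ⟨q0, hq0, hr0, -⟩ := ih (pderiv i0 g) hi0 ((alg_dd hω0 0 g (d + 1) hA).1 i0)
    refine ⟨q0, hq0, hr0, ?_⟩
    intro w hw
    by_contra hne
    have hAh := (alg_dd hω0 w g (d + 1) hA).2
    have hdegh : (dd w g).totalDegree = d + 1 := degree_eq hω0 hω _ hne _ hAh
    obtain ⟨i1, hi1, -⟩ := exists_pderiv (dd w g) d hdegh
    rw [pderiv_dd] at hi1
    have hh1 : pderiv i1 g ≠ 0 := by
      intro h
      apply hi1
      rw [h]; simp [dd]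
    obtain ⟨q1, hq1, hr1, hkill⟩ := ih (pderiv i1 g) hh1 ((alg_dd hω0 0 g (d + 1) hA).1 i1)
    obtain ⟨t, ht⟩ := hprop q0 q1 hq0 hr0 hr1
    apply hi1
    apply hkill
    rw [ht]
    simp only [Pi.smul_apply, smul_eq_mul, mul_assoc]
    rw [← Finset.mul_sum, hw, mul_zero]

end direction

end MP60829e
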