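import Mathlib
import Pool.Agent.Lib.MP_60829e_nt.Core

open MvPolynomial

namespace MP60829e

variable {ι : Type*} [Fintype ι]

theorem dd_add (w : ι → ℚ) (p q : MvPolynomial ι ℚ) : dd w (p + q) = dd w p + dd w q := by
  unfold dd
  rw [← Finset.sum_add_distrib]
  refine Finset.sum_congr rfl fun i _ => ?_
  rw [map_add, mul_add]

theorem dd_mul (w : ι → ℚ) (p q : MvPolynomial ι ℚ) : dd w (p * q) = dd w p * q + p * dd w q := by
  unfold dd
  rw [Finset.sum_mul, Finset.mul_sum, ← Finset.sum_add_distrib]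
  refine Finset.sum_congr rfl fun i _ => ?_
  rw [pderiv_mul]; ring

theorem dd_X (w : ι → ℚ) (j : ι) : dd w (X j : MvPolynomial ι ℚ) = C (w j) := by
  classical
  unfold dd
  rw [Finset.sum_eq_single j]
  · simp
  · intro i _ hi
    rw [pderiv_X_of_ne hi.symm, mul_zero]
  · simp

theorem dd_C (w : ι → ℚ) (c : ℚ) : dd w (C c : MvPolynomial ι ℚ) = 0 := by
  unfold dd; simp

/-- Restriction to the line `u + t w`. -/
noncomputable def line (u w : ι → ℚ) : MvPolynomial ι ℚ →ₐ[ℚ] Polynomial ℚ :=
  aeval fun i => Polynomial.C (u i) + Polynomial.C (w i) * Polynomial.X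

theorem derivative_line (u w : ι → ℚ) (g : MvPolynomial ι ℚ) :
    Polynomial.derivative (line u w g) = line u w (dd w g) := by
  induction g using MvPolynomial.induction_on with
  | C c => simp [line, dd_C]
  | add p q hp hq => rw [map_add, map_add, dd_add, map_add, hp, hq]
  | mul_X p j hp =>
    rw [map_mul (line u w), Polynomial.derivative_mul, hp, dd_mul, map_add, map_mul, map_mul, dd_X]
    congr 1
    congr 1
    simp [line]

omit [Fintype ι] in
theorem eval_line (u w : ι → ℚ) (g : MvPolynomial ι ℚ) (t : ℚ) :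
    (line u w g).eval t = eval (fun i => u i + w i * t) g := by
  induction g using MvPolynomial.induction_on with
  | C c => simp [line]
  | add p q hp hq => rw [map_add, Polynomial.eval_add, hp, hq, map_add]
  | mul_X p j hp =>
    rw [map_mul, Polynomial.eval_mul, hp, map_mul]
    simp [line]

theorem eval_add_of_dd_eq_zero (u w : ι → ℚ) (g : MvPolynomial ι ℚ) (h : dd w g = 0) :
    eval (fun i => u i + w i) g = eval u g := by
  have h1 : Polynomial.derivative (line u w g) = 0 := by
    rw [derivative_line, h, map_zero]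
  have h2 := Polynomial.derivative_eq_zero.mp h1
  obtain ⟨c, hc⟩ := Polynomial.natDegree_eq_zero.mp h2
  have h3 := eval_line u w g 0
  have h4 := eval_line u w g 1
  rw [← hc] at h3 h4
  simp only [Polynomial.eval_C, mul_zero, add_zero, mul_one] at h3 h4
  rw [← h4, ← h3]

theorem invariant_form (g : MvPolynomial ι ℚ) (q v : ι → ℚ) (hqv : ∑ i, q i * v i = 1)
    (hdd : ∀ w : ι → ℚ, ∑ i, q i * w i = 0 → dd w g = 0) :
    g = aeval (fun i => C (v i) * (∑ j, C (q j) * X j) : ι → MvPolynomial ι ℚ) g := by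
  apply MvPolynomial.funext
  intro u
  set L : ℚ := ∑ j, q j * u j with hL
  have h1 : eval u (aeval (fun i => C (v i) * (∑ j, C (q j) * X j) : ι → MvPolynomial ι ℚ) g)
      = eval (fun i => v i * L) g := by
    rw [← MvPolynomial.coe_aeval_eq_eval, ← MvPolynomial.coe_aeval_eq_eval]
    have h2 : (aeval u : MvPolynomial ι ℚ →ₐ[ℚ] ℚ)
        (aeval (fun i => C (v i) * (∑ j, C (q j) * X j) : ι → MvPolynomial ι ℚ) g)
        = ((aeval u : MvPolynomial ι ℚ →ₐ[ℚ] ℚ).comp
          (aeval (fun i => C (v i) * (∑ j, C (q j) * X j) : ι → MvPolynomial ι ℚ))) g := rfl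
    have h3 : ((aeval u : MvPolynomial ι ℚ →ₐ[ℚ] ℚ).comp
          (aeval (fun i => C (v i) * (∑ j, C (q j) * X j) : ι → MvPolynomial ι ℚ)))
        = aeval (fun i => v i * L) := by
      apply MvPolynomial.algHom_ext
      intro i
      simp [hL]
    have h4 := DFunLike.congr_fun h3 g
    simpa using h4
  rw [h1]
  set w : ι → ℚ := fun i => u i - v i * L with hw
  have hw0 : ∑ i, q i * w i = 0 := by
    have h5 : ∑ i, q i * w i = (∑ i, q i * u i) - (∑ i, q i * v i) * L := by
      rw [Finset.sum_mul, ← Finset.sum_sub_distrib]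
      refine Finset.sum_congr rfl fun i _ => ?_
      rw [hw]; ring
    rw [h5, hqv, ← hL]; ring
  have h6 := eval_add_of_dd_eq_zero (fun i => v i * L) w g (hdd w hw0)
  rw [← h6]
  have h7 : (fun i => v i * L + w i) = u := by
    funext i
    simp [hw]
  rw [h7]

end MP60829e
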