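import Mathlib
import Pool.Agent.Lib.MP_60829e_nt.Line

open MvPolynomial

namespace MP60829e

theorem isAlg_exp_rat_mul (q : ℚ) (x : ℂ) (hx : IsAlgebraic ℚ (Complex.exp x)) :
    IsAlgebraic ℚ (Complex.exp ((q : ℂ) * x)) := by
  have h1 : (Complex.exp ((q : ℂ) * x)) ^ q.den = (Complex.exp x) ^ q.num := by
    rw [← Complex.exp_nat_mul, ← Complex.exp_int_mul]
    congr 1
    have h2 : (q : ℂ) = (q.num : ℂ) / (q.den : ℂ) := by
      exact_mod_cast congrArg (fun r : ℚ => (r : ℂ)) (Rat.num_div_den q).symm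
    have h3 : (q.den : ℂ) ≠ 0 := by exact_mod_cast q.den_nz
    rw [h2]
    field_simp
  have h2 : IsAlgebraic ℚ ((Complex.exp x) ^ q.num) := by
    rcases q.num with n | n
    · simpa using hx.pow n
    · rw [zpow_negSucc]; exact (hx.pow (n + 1)).inv
  rw [← h1] at h2
  exact h2.of_pow q.den_pos

variable {ι : Type*} [Fintype ι]

theorem isAlg_exp_comb (a : ι → ℂ) (ω : ℂ) (ha : ∀ i, IsAlgebraic ℚ (Complex.exp (a i)))
    (hω : IsAlgebraic ℚ (Complex.exp ω)) (q : ι → ℚ) (r : ℚ) :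
    IsAlgebraic ℚ (Complex.exp ((r : ℂ) * ω - ∑ i, (q i : ℂ) * a i)) := by
  rw [Complex.exp_sub, Complex.exp_sum, div_eq_mul_inv]
  refine (isAlg_exp_rat_mul r ω hω).mul (IsAlgebraic.inv ?_)
  classical
  refine Finset.prod_induction _ (fun z => IsAlgebraic ℚ z) (fun x y hx hy => hx.mul hy)
    isAlgebraic_one ?_
  intro i _
  exact isAlg_exp_rat_mul (q i) (a i) (ha i)

theorem eq_zero_of_isAlg (z : ℂ) (h1 : IsAlgebraic ℚ (Complex.exp z)) (h2 : IsAlgebraic ℚ z) :
    z = 0 := by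
  by_contra h
  exact hermite_lindemann h h2 h1

theorem core_contra (a : ι → ℂ) (ω : ℂ) (hω0 : ω ≠ 0)
    (ha : ∀ i, IsAlgebraic ℚ (Complex.exp (a i))) (hω : IsAlgebraic ℚ (Complex.exp ω))
    (g : MvPolynomial ι ℚ) (hirr : Irreducible (cst g)) (k : ι → ℚ) (hk : eval k g = 0)
    (hind : LinearIndependent ℚ (fun i => a i + (k i : ℂ) * ω))
    (hA : Alg (C (ω ^ g.totalDegree) * T a ω (cst g))) : False := by
  classical
  have hωtr : Transcendental ℚ ω := fun h => hω0 (eq_zero_of_isAlg ω hω h)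
  have hg0 : g ≠ 0 := by
    rintro rfl
    exact hirr.ne_zero (map_zero _)
  -- degree at least one
  obtain ⟨d, hd⟩ : ∃ d, g.totalDegree = d + 1 := by
    rcases Nat.eq_zero_or_pos g.totalDegree with h | h
    · exfalso
      have h1 := totalDegree_eq_zero_iff_eq_C.mp h
      rw [h1, eval_C] at hk
      rw [hk, C_0] at h1
      exact hg0 h1
    · exact ⟨g.totalDegree - 1, by omega⟩
  -- independence in usable form
  have hind' : ∀ q : ι → ℚ, ∑ i, (q i : ℂ) * (a i + (k i : ℂ) * ω) = 0 → q = 0 := by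
    intro q hq
    have := Fintype.linearIndependent_iff.mp hind q (by
      rw [← hq]
      refine Finset.sum_congr rfl fun i _ => ?_
      rw [Algebra.smul_def]; simp)
    funext i; exact this i
  have hsumℓ : ∀ q : ι → ℚ, ∑ i, (q i : ℂ) * (a i + (k i : ℂ) * ω)
      = (∑ i, (q i : ℂ) * a i) + ((∑ i, q i * k i : ℚ) : ℂ) * ω := by
    intro q
    push_cast
    rw [Finset.sum_mul, ← Finset.sum_add_distrib]
    refine Finset.sum_congr rfl fun i _ => ?_
    ring
  have hlog : ∀ (q : ι → ℚ) (r : ℚ), IsAlgebraic ℚ ((r : ℂ) * ω - ∑ i, (q i : ℂ) * a i) →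
      ∑ i, (q i : ℂ) * a i = (r : ℂ) * ω := by
    intro q r h
    have h1 := eq_zero_of_isAlg _ (isAlg_exp_comb a ω ha hω q r) h
    exact (sub_eq_zero.mp h1).symm
  have hprop : ∀ q q' : ι → ℚ, q ≠ 0 → (∃ r : ℚ, ∑ i, (q i : ℂ) * a i = (r : ℂ) * ω) →
      (∃ r : ℚ, ∑ i, (q' i : ℂ) * a i = (r : ℂ) * ω) → ∃ t : ℚ, q' = t • q := by
    rintro q q' hq ⟨r, hr⟩ ⟨r', hr'⟩
    set s : ℚ := r + ∑ i, q i * k i with hs
    set s' : ℚ := r' + ∑ i, q' i * k i with hs'
    have e1 : ∑ i, (q i : ℂ) * (a i + (k i : ℂ) * ω) = (s : ℂ) * ω := by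
      rw [hsumℓ, hr, hs]; push_cast; ring
    have e2 : ∑ i, (q' i : ℂ) * (a i + (k i : ℂ) * ω) = (s' : ℂ) * ω := by
      rw [hsumℓ, hr', hs']; push_cast; ring
    have hs0 : s ≠ 0 := by
      intro h
      apply hq
      apply hind'
      rw [e1, h]; simp
    refine ⟨s' / s, ?_⟩
    have h3 : (fun i => s' * q i - s * q' i) = 0 := by
      apply hind'
      have h4 : ∑ i, ((s' * q i - s * q' i : ℚ) : ℂ) * (a i + (k i : ℂ) * ω)
          = (s' : ℂ) * (∑ i, (q i : ℂ) * (a i + (k i : ℂ) * ω))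
            - (s : ℂ) * (∑ i, (q' i : ℂ) * (a i + (k i : ℂ) * ω)) := by
        rw [Finset.mul_sum, Finset.mul_sum, ← Finset.sum_sub_distrib]
        refine Finset.sum_congr rfl fun i _ => ?_
        push_cast; ring
      rw [h4, e1, e2]; ring
    funext i
    have h5 := congrFun h3 i
    simp only [Pi.zero_apply] at h5
    simp only [Pi.smul_apply, smul_eq_mul]
    field_simp
    linarith
  rw [hd] at hA
  obtain ⟨q, hq0, -, hkill⟩ := direction hω0 hωtr hlog hprop d g hg0 hA
  -- normalise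
  obtain ⟨i0, hi0⟩ := Function.ne_iff.mp hq0
  simp only [Pi.zero_apply] at hi0
  set v : ι → ℚ := Pi.single i0 (q i0)⁻¹ with hv
  have hqv : ∑ i, q i * v i = 1 := by
    rw [Finset.sum_eq_single i0]
    · simp [hv, hi0]
    · intro i _ hi
      simp [hv, hi]
    · simp
  have hform := invariant_form g q v hqv hkill
  -- one variable polynomial
  set L : MvPolynomial ι ℂ := ∑ j, C ((q j : ℚ) : ℂ) * X j with hL
  set ĝ : Polynomial ℂ := aeval (fun i => Polynomial.C ((v i : ℚ) : ℂ) * Polynomial.X) (cst g)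
    with hĝ
  have hgL : cst g = Polynomial.aeval L ĝ := by
    have h1 : cst g = aeval (fun i => C ((v i : ℚ) : ℂ) * L) (cst g) := by
      conv_lhs => rw [hform]
      have h2 : ∀ p : MvPolynomial ι ℚ,
          cst (aeval (fun i => C (v i) * (∑ j, C (q j) * X j) : ι → MvPolynomial ι ℚ) p)
          = aeval (fun i => C ((v i : ℚ) : ℂ) * L) (cst p) := by
        intro p
        induction p using MvPolynomial.induction_on with
        | C c => simp [cst_C, MvPolynomial.algebraMap_eq]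
        | add p q hp hq => rw [map_add, map_add, map_add, map_add, hp, hq]
        | mul_X p j hp =>
          rw [map_mul, map_mul, map_mul, map_mul, hp, aeval_X, cst_X, aeval_X, map_mul, cst_C,
            map_sum, hL]
          congr 1
          congr 1
          refine Finset.sum_congr rfl fun i _ => ?_
          rw [map_mul, cst_C, cst_X]
      exact h2 g
    have h3 : ∀ p : MvPolynomial ι ℂ, aeval (fun i => C ((v i : ℚ) : ℂ) * L) p
        = Polynomial.aeval L (aeval (fun i => Polynomial.C ((v i : ℚ) : ℂ) * Polynomial.X) p) := by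
      intro p
      induction p using MvPolynomial.induction_on with
      | C c => simp [MvPolynomial.algebraMap_eq]
      | add p q hp hq => rw [map_add, map_add, map_add, hp, hq]
      | mul_X p j hp =>
        rw [map_mul, map_mul, map_mul, hp, aeval_X, aeval_X, map_mul, Polynomial.aeval_C,
          Polynomial.aeval_X, MvPolynomial.algebraMap_eq]
    rw [hĝ, ← h3, ← h1]
  have hĝdeg : ĝ.degree ≠ 0 := by
    intro h
    rw [Polynomial.eq_C_of_degree_eq_zero h, Polynomial.aeval_C] at hgL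
    have h1 : ĝ.coeff 0 ≠ 0 := by
      intro h2
      rw [h2, map_zero] at hgL
      exact hirr.ne_zero hgL
    apply hirr.not_isUnit
    rw [hgL]
    exact (IsUnit.mk0 _ h1).map _
  obtain ⟨t0, ht0⟩ := IsAlgClosed.exists_root ĝ hĝdeg
  obtain ⟨h', hh'⟩ := Polynomial.dvd_iff_isRoot.mpr ht0
  have hfac : cst g = (L - C t0) * Polynomial.aeval L h' := by
    rw [hgL, hh', map_mul, map_sub, Polynomial.aeval_X, Polynomial.aeval_C,
      MvPolynomial.algebraMap_eq]
  have hcoL : ∀ j, L.coeff (Finsupp.single j 1) = (q j : ℂ) := by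
    intro j
    rw [hL, coeff_sum, Finset.sum_eq_single j]
    · rw [coeff_C_mul, coeff_X]; simp
    · intro i _ hi
      rw [coeff_C_mul, coeff_X]
      have : Finsupp.single i 1 ≠ Finsupp.single j 1 := by
        intro h; exact hi (Finsupp.single_left_injective one_ne_zero h)
      simp [this]
    · simp
  have hLnu : ¬ IsUnit (L - C t0) := by
    intro hu
    rw [MvPolynomial.isUnit_iff_eq_C_of_isReduced] at hu
    obtain ⟨r, -, hr⟩ := hu
    have h1 := congrArg (fun p => p.coeff (Finsupp.single i0 1)) hr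
    simp only [coeff_sub, hcoL, coeff_C] at h1
    have h2 : ¬ (0 = Finsupp.single i0 1) := by
      intro h
      have := DFunLike.congr_fun h i0
      simp at this
    rw [if_neg h2, if_neg h2, sub_zero] at h1
    exact hi0 (by exact_mod_cast h1)
  have hu2 : IsUnit (Polynomial.aeval L h') := by
    rcases hirr.isUnit_or_isUnit hfac with h | h
    · exact absurd h hLnu
    · exact h
  rw [MvPolynomial.isUnit_iff_eq_C_of_isReduced] at hu2
  obtain ⟨c, hc, hc'⟩ := hu2
  have hc0 : c ≠ 0 := hc.ne_zero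
  rw [hc'] at hfac
  -- evaluate at k
  have hk' : eval (fun i => ((k i : ℚ) : ℂ)) (cst g) = 0 := by
    have h1 : eval (fun i => ((k i : ℚ) : ℂ)) (cst g) = ((eval k g : ℚ) : ℂ) := by
      rw [cst, eval_map]
      have := MvPolynomial.eval₂_comp_left (algebraMap ℚ ℂ) (RingHom.id ℚ) k g
      simp only [RingHom.comp_id] at this
      rw [MvPolynomial.eval₂_id] at this
      simpa [Function.comp_def] using this.symm
    rw [h1, hk]; simp
  have ht0' : t0 = ((∑ i, q i * k i : ℚ) : ℂ) := by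
    rw [hfac, map_mul, map_sub, eval_C, eval_C] at hk'
    have h1 := (mul_eq_zero.mp hk').resolve_right hc0
    have h2 : eval (fun i => ((k i : ℚ) : ℂ)) L = ((∑ i, q i * k i : ℚ) : ℂ) := by
      rw [hL, map_sum]; push_cast
      refine Finset.sum_congr rfl fun i _ => ?_
      simp
    rw [h2] at h1
    exact (sub_eq_zero.mp h1).symm
  -- coefficients
  have hTL : T a ω L = ∑ j, C ((q j : ℚ) : ℂ) * (C ω⁻¹ * (X j - C (a j))) := by
    rw [hL, map_sum]
    refine Finset.sum_congr rfl fun j _ => ?_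
    rw [map_mul, T_C, T_X]
  rw [hfac, map_mul, map_sub, T_C, T_C, hTL] at hA
  have hA1 := hA (Finsupp.single i0 1)
  have hA0 := hA 0
  have hi00 : ¬ (0 = Finsupp.single i0 1) := by
    intro h
    have := DFunLike.congr_fun h i0
    simp at this
  have hc1 : (C (ω ^ (d + 1)) * ((∑ j, C ((q j : ℚ) : ℂ) * (C ω⁻¹ * (X j - C (a j))) - C t0) * C c)
      : MvPolynomial ι ℂ).coeff (Finsupp.single i0 1) = ω ^ d * c * (q i0 : ℂ) := by
    rw [coeff_C_mul, mul_comm _ (C c), coeff_C_mul, coeff_sub, coeff_sum, Finset.sum_eq_single i0]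
    · rw [coeff_C_mul, coeff_C_mul, coeff_sub, coeff_X, coeff_C, coeff_C, if_neg hi00, if_neg hi00]
      simp
      rw [pow_succ]
      field_simp
    · intro j _ hj
      rw [coeff_C_mul, coeff_C_mul, coeff_sub, coeff_X, coeff_C, if_neg hi00]
      have : Finsupp.single j 1 ≠ Finsupp.single i0 1 := by
        intro h; exact hj (Finsupp.single_left_injective one_ne_zero h)
      simp [this]
    · simp
  have hc0' : (C (ω ^ (d + 1)) * ((∑ j, C ((q j : ℚ) : ℂ) * (C ω⁻¹ * (X j - C (a j))) - C t0) * C c)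
      : MvPolynomial ι ℂ).coeff 0
      = -(ω ^ d * c * ∑ i, (q i : ℂ) * (a i + (k i : ℂ) * ω)) := by
    rw [coeff_C_mul, mul_comm _ (C c), coeff_C_mul, coeff_sub, coeff_sum, coeff_zero_C]
    have h1 : ∀ j, (C ((q j : ℚ) : ℂ) * (C ω⁻¹ * (X j - C (a j))) : MvPolynomial ι ℂ).coeff 0
        = -(ω⁻¹ * ((q j : ℂ) * a j)) := by
      intro j
      rw [coeff_C_mul, coeff_C_mul, coeff_sub, coeff_zero_X, coeff_zero_C]; ring
    simp_rw [h1]
    rw [Finset.sum_neg_distrib, ← Finset.mul_sum, hsumℓ, ht0', pow_succ]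
    field_simp
    ring
  rw [hc1] at hA1
  rw [hc0'] at hA0
  have hBalg : IsAlgebraic ℚ (ω ^ d * c) := by
    have h1 := hA1.mul (isAlg_ratCast (q i0)⁻¹)
    have h2 : ω ^ d * c * (q i0 : ℂ) * (((q i0)⁻¹ : ℚ) : ℂ) = ω ^ d * c := by
      push_cast
      have : (q i0 : ℂ) ≠ 0 := by exact_mod_cast hi0
      field_simp
    rwa [h2] at h1
  have hB0 : ω ^ d * c ≠ 0 := mul_ne_zero (pow_ne_zero _ hω0) hc0
  have hSalg : IsAlgebraic ℚ (∑ i, (q i : ℂ) * (a i + (k i : ℂ) * ω)) := by
    have h1 := (hBalg.inv).mul hA0.neg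
    have h2 : (ω ^ d * c)⁻¹ * - -(ω ^ d * c * ∑ i, (q i : ℂ) * (a i + (k i : ℂ) * ω))
        = ∑ i, (q i : ℂ) * (a i + (k i : ℂ) * ω) := by
      rw [neg_neg, ← mul_assoc, inv_mul_cancel₀ hB0, one_mul]
    rwa [h2] at h1
  have hexp : IsAlgebraic ℚ (Complex.exp (∑ i, (q i : ℂ) * (a i + (k i : ℂ) * ω))) := by
    have h1 := isAlg_exp_comb a ω ha hω (fun i => -(q i)) (∑ i, q i * k i)
    convert h1 using 2
    rw [hsumℓ]
    have h2 : ∑ i, (((-(q i) : ℚ)) : ℂ) * a i = -∑ i, (q i : ℂ) * a i := by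
      rw [← Finset.sum_neg_distrib]
      refine Finset.sum_congr rfl fun i _ => ?_
      push_cast; ring
    rw [h2]; ring
  have hzero := eq_zero_of_isAlg _ hexp hSalg
  exact hq0 (hind' q hzero)

end MP60829e
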