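import Mathlib
import Pool.Agent.Lib.MP_60829e_nt.Contra

open MvPolynomial

namespace MP60829e

variable {ι : Type*}

section mapL

variable {k : Type*} [Field k] [Algebra k ℂ]

/-- Apply a `k`-linear functional to the coefficients. -/
noncomputable def mapL (ψ : ℂ →ₗ[k] k) (F : MvPolynomial ι ℂ) : MvPolynomial ι k :=
  ∑ m ∈ F.support, monomial m (ψ (F.coeff m))

theorem coeff_mapL (ψ : ℂ →ₗ[k] k) (F : MvPolynomial ι ℂ) (m : ι →₀ ℕ) :
    (mapL ψ F).coeff m = ψ (F.coeff m) := by
  classical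
  unfold mapL
  rw [coeff_sum]
  simp_rw [coeff_monomial]
  rw [Finset.sum_ite_eq']
  split_ifs with h
  · rfl
  · rw [notMem_support_iff.mp h, map_zero]

theorem totalDegree_mapL_le (ψ : ℂ →ₗ[k] k) (F : MvPolynomial ι ℂ) :
    (mapL ψ F).totalDegree ≤ F.totalDegree := by
  classical
  unfold totalDegree
  refine Finset.sup_mono fun m hm => ?_
  rw [mem_support_iff] at hm ⊢
  intro h
  apply hm
  rw [coeff_mapL, h, map_zero]

theorem eval_mapL (ψ : ℂ →ₗ[k] k) (F : MvPolynomial ι ℂ) (y : ι → k) :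
    eval y (mapL ψ F) = ψ (eval (fun i => algebraMap k ℂ (y i)) F) := by
  classical
  unfold mapL
  rw [map_sum]
  conv_rhs => rw [F.as_sum, map_sum, map_sum]
  refine Finset.sum_congr rfl fun m _ => ?_
  rw [eval_monomial, eval_monomial]
  have h1 : (m.prod fun i e => (algebraMap k ℂ (y i)) ^ e)
      = algebraMap k ℂ (m.prod fun i e => (y i) ^ e) := by
    rw [Finsupp.prod, Finsupp.prod, map_prod]
    refine Finset.prod_congr rfl fun i _ => ?_
    rw [map_pow]
  rw [h1, mul_comm (coeff m F), ← Algebra.smul_def, map_smul, smul_eq_mul, mul_comm]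

theorem exists_functional (c : ℂ) (hc : c ≠ 0) : ∃ ψ : ℂ →ₗ[k] k, ψ c ≠ 0 := by
  have h : c ∉ (⊥ : Submodule k ℂ) := by simpa using hc
  obtain ⟨f, hf, -⟩ := Submodule.exists_dual_map_eq_bot_of_notMem h inferInstance
  exact ⟨f, hf⟩

theorem exists_functional_one (c : ℂ) (hc : c ∉ Set.range (algebraMap k ℂ)) :
    ∃ ψ : ℂ →ₗ[k] k, ψ 1 = 0 ∧ ψ c ≠ 0 := by
  have h : c ∉ (Submodule.span k {(1 : ℂ)}) := by
    intro h
    rw [Submodule.mem_span_singleton] at h
    obtain ⟨a, ha⟩ := h
    apply hc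
    exact ⟨a, by rw [← ha, Algebra.smul_def, mul_one]⟩
  obtain ⟨f, hf, hf2⟩ := Submodule.exists_dual_map_eq_bot_of_notMem h inferInstance
  refine ⟨f, ?_, hf⟩
  have h1 : f 1 ∈ Submodule.map f (Submodule.span k {(1 : ℂ)}) :=
    Submodule.mem_map_of_mem (Submodule.mem_span_singleton_self _)
  rw [hf2] at h1
  simpa using h1

/-- A complex polynomial with values in `k` at all points of `k^n` has coefficients in `k`. -/
theorem coeff_mem_range [Infinite k] (F : MvPolynomial ι ℂ)
    (h : ∀ y : ι → k, eval (fun i => algebraMap k ℂ (y i)) F ∈ Set.range (algebraMap k ℂ))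
    (m : ι →₀ ℕ) : F.coeff m ∈ Set.range (algebraMap k ℂ) := by
  by_contra hm
  obtain ⟨ψ, h1, h2⟩ := exists_functional_one _ hm
  apply h2
  rw [← coeff_mapL]
  have h3 : mapL ψ F = 0 := by
    apply MvPolynomial.funext
    intro y
    rw [eval_mapL, map_zero]
    obtain ⟨z, hz⟩ := h y
    rw [← hz]
    have : algebraMap k ℂ z = z • (1 : ℂ) := by rw [Algebra.smul_def, mul_one]
    rw [this, map_smul, h1, smul_zero]
  rw [h3, coeff_zero]

end mapL

/-- One variable: ratios of values of a factor of a polynomial with algebraic coefficients. -/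
theorem ratio_algebraic (p : Polynomial ℂ) (F : Polynomial (algebraicClosure ℚ ℂ)) (hF : F ≠ 0)
    (hp : p ∣ F.map (algebraMap (algebraicClosure ℚ ℂ) ℂ)) (t0 t1 : ℂ) (h0 : IsAlgebraic ℚ t0)
    (h1 : IsAlgebraic ℚ t1) (hpt : p.eval t0 ≠ 0) :
    IsAlgebraic ℚ (p.eval t1 / p.eval t0) := by
  have hp0 : p ≠ 0 := by rintro rfl; simp at hpt
  have hroots : ∀ ρ ∈ p.roots, IsAlgebraic ℚ ρ := by
    intro ρ hρ
    have h2 : p.eval ρ = 0 := (Polynomial.mem_roots hp0).mp hρ
    obtain ⟨r, hr⟩ := hp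
    have h3 : Polynomial.aeval ρ F = 0 := by
      rw [← Polynomial.eval_map_algebraMap, hr, Polynomial.eval_mul, h2, zero_mul]
    have h4 : IsAlgebraic (algebraicClosure ℚ ℂ) ρ := ⟨F, hF, h3⟩
    have : Algebra.IsAlgebraic ℚ (algebraicClosure ℚ ℂ) := algebraicClosure.isAlgebraic ℚ ℂ
    exact h4.restrictScalars ℚ
  have hev : ∀ t, IsAlgebraic ℚ t → IsAlgebraic ℚ (p.eval t / p.leadingCoeff) := by
    intro t ht
    have h2 := (IsAlgClosed.splits p).eval_eq_prod_roots t
    have h3 : p.leadingCoeff ≠ 0 := Polynomial.leadingCoeff_ne_zero.mpr hp0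
    rw [h2, mul_div_cancel_left₀ _ h3]
    refine Multiset.prod_induction (fun z => IsAlgebraic ℚ z) _ (fun x y hx hy => hx.mul hy)
      isAlgebraic_one ?_
    intro z hz
    obtain ⟨ρ, hρ, rfl⟩ := Multiset.mem_map.mp hz
    exact ht.sub (hroots ρ hρ)
  have h3 : p.leadingCoeff ≠ 0 := Polynomial.leadingCoeff_ne_zero.mpr hp0
  have h4 : p.eval t1 / p.eval t0 = (p.eval t1 / p.leadingCoeff) * (p.eval t0 / p.leadingCoeff)⁻¹ := by
    field_simp
  rw [h4]
  exact (hev t1 h1).mul (hev t0 h0).inv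

/-- Restriction of a complex polynomial to a line. -/
noncomputable def lineC {R : Type*} [CommRing R] (u w : ι → R) : MvPolynomial ι R →ₐ[R] Polynomial R :=
  aeval fun i => Polynomial.C (u i) + Polynomial.C (w i) * Polynomial.X

theorem eval_lineC {R : Type*} [CommRing R] (u w : ι → R) (g : MvPolynomial ι R) (t : R) :
    (lineC u w g).eval t = eval (fun i => u i + w i * t) g := by
  induction g using MvPolynomial.induction_on with
  | C c => simp [lineC]
  | add p q hp hq => rw [map_add, Polynomial.eval_add, hp, hq, map_add]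
  | mul_X p j hp =>
    rw [map_mul, Polynomial.eval_mul, hp, map_mul]
    simp [lineC]

theorem lineC_map {R S : Type*} [CommRing R] [CommRing S] (φ : R →+* S) (u w : ι → R)
    (g : MvPolynomial ι R) :
    lineC (fun i => φ (u i)) (fun i => φ (w i)) (map φ g) = (lineC u w g).map φ := by
  induction g using MvPolynomial.induction_on with
  | C c => simp [lineC]
  | add p q hp hq => rw [map_add, map_add, map_add, Polynomial.map_add, hp, hq]
  | mul_X p j hp =>
    rw [map_mul, map_mul, hp, map_mul, Polynomial.map_mul]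
    simp [lineC]

/-- A factor (over `ℂ`) of a nonzero polynomial with algebraic coefficients has, up to a scalar,
algebraic coefficients. -/
theorem factor_alg (f : MvPolynomial ι (algebraicClosure ℚ ℂ)) (hf : f ≠ 0)
    (G : MvPolynomial ι ℂ) (hG : G ∣ map (algebraMap (algebraicClosure ℚ ℂ) ℂ) f) :
    ∃ c : ℂ, c ≠ 0 ∧ Alg (C c * G) := by
  obtain ⟨y0, hy0⟩ : ∃ y0 : ι → algebraicClosure ℚ ℂ, eval y0 f ≠ 0 := by
    by_contra hcon
    push Not at hcon
    exact hf (MvPolynomial.funext fun y => by rw [hcon y, map_zero])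
  set φ := algebraMap (algebraicClosure ℚ ℂ) ℂ with hφ
  have hevf : ∀ y : ι → algebraicClosure ℚ ℂ, eval (fun i => φ (y i)) (map φ f) = φ (eval y f) := by
    intro y
    have := MvPolynomial.eval₂_comp_left φ (RingHom.id _) y f
    rw [MvPolynomial.eval₂_id, RingHom.comp_id] at this
    rw [eval_map, this]; rfl
  have hGy0 : eval (fun i => φ (y0 i)) G ≠ 0 := by
    obtain ⟨r, hr⟩ := hG
    intro h
    have h1 := hevf y0
    rw [hr, map_mul, h, zero_mul] at h1
    apply hy0
    exact φ.injective (by rw [← h1, map_zero])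
  refine ⟨(eval (fun i => φ (y0 i)) G)⁻¹, inv_ne_zero hGy0, ?_⟩
  intro m
  have h1 := coeff_mem_range (k := algebraicClosure ℚ ℂ)
    (C (eval (fun i => φ (y0 i)) G)⁻¹ * G) ?_ m
  · obtain ⟨z, hz⟩ := h1
    rw [← hz]
    exact mem_algebraicClosure_iff.mp z.2
  · intro y
    set w : ι → algebraicClosure ℚ ℂ := fun i => y i - y0 i with hw
    have h2 := ratio_algebraic (lineC (fun i => φ (y0 i)) (fun i => φ (w i)) G) (lineC y0 w f)
      ?_ ?_ 0 1 isAlgebraic_zero isAlgebraic_one ?_
    · rw [eval_lineC, eval_lineC] at h2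
      rw [map_mul, eval_C]
      have h3 : (fun i => φ (y0 i) + φ (w i) * 1) = fun i => φ (y i) := by
        funext i; rw [hw, mul_one, ← map_add]; congr 1; ring
      have h4 : (fun i => φ (y0 i) + φ (w i) * 0) = fun i => φ (y0 i) := by
        funext i; ring
      rw [h3, h4] at h2
      have h5 : (eval (fun i => φ (y0 i)) G)⁻¹ * eval (fun i => φ (y i)) G
          = eval (fun i => φ (y i)) G / eval (fun i => φ (y0 i)) G := by ring
      rw [h5]
      exact ⟨⟨_, mem_algebraicClosure_iff.mpr h2⟩, rfl⟩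
    · intro h
      apply hy0
      have h3 := eval_lineC y0 w f 0
      rw [h] at h3
      simpa using h3.symm
    · rw [← lineC_map]
      obtain ⟨r, hr⟩ := hG
      exact ⟨lineC (fun i => φ (y0 i)) (fun i => φ (w i)) r, by rw [hr, map_mul]⟩
    · rw [eval_lineC]
      simpa using hGy0

end MP60829e
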