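import Mathlib
import Pool.Agent.Lib.MP_60829e_nt.Factor

open MvPolynomial

namespace MP60829e

variable {ι : Type*}

theorem totalDegree_add_le {R : Type*} [CommSemiring R] (p q : MvPolynomial ι R) (d : ℕ)
    (hp : p.totalDegree ≤ d) (hq : q.totalDegree ≤ d) : (p + q).totalDegree ≤ d :=
  (totalDegree_add p q).trans (max_le hp hq)

/-- Putting together auxiliary polynomials for the irreducible factors. -/
theorem assemble (Z : Set (ι → ℂ)) (P : MvPolynomial ι ℂ) : P ≠ 0 →
    (∀ g, Irreducible g → g ∣ P → ∃ Q : MvPolynomial ι ℂ, ¬ g ∣ Q ∧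
      Q.totalDegree ≤ g.totalDegree ∧ ∀ x ∈ Z, eval x g = 0 → eval x Q = 0) →
    ∃ Q : MvPolynomial ι ℂ, IsRelPrime P Q ∧ Q.totalDegree ≤ P.totalDegree ∧
      ∀ x ∈ Z, eval x P = 0 → eval x Q = 0 := by
  refine UniqueFactorizationMonoid.induction_on_prime P ?_ ?_ ?_
  · intro h; exact absurd rfl h
  · intro u hu _ _
    refine ⟨1, isRelPrime_one_right, by simp, ?_⟩
    intro x _ hx
    have := hu.map (eval x)
    rw [hx] at this
    exact absurd this not_isUnit_zero
  · intro P' p hP' hp ih hne hfac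
    obtain ⟨Q', hQ'1, hQ'2, hQ'3⟩ := ih hP' (fun g hg hgP => hfac g hg (hgP.mul_left p))
    have hdeg : (p * P').totalDegree = p.totalDegree + P'.totalDegree :=
      totalDegree_mul_of_isDomain hp.ne_zero hP'
    by_cases hpP : p ∣ P'
    · refine ⟨Q', ?_, by omega, ?_⟩
      · refine WfDvdMonoid.isRelPrime_of_no_irreducible_factors (fun h => hne h.1) ?_
        intro r hr hr1 hr2
        have hrp : Prime r := hr.prime
        rcases hrp.dvd_or_dvd hr1 with h | h
        · exact hr.not_isUnit (hQ'1 (h.trans hpP) hr2)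
        · exact hr.not_isUnit (hQ'1 h hr2)
      · intro x hx hx0
        obtain ⟨s, hs⟩ := hpP
        have h1 : eval x P' = 0 := by
          rw [map_mul] at hx0
          rcases mul_eq_zero.mp hx0 with h | h
          · rw [hs, map_mul, h, zero_mul]
          · exact h
        exact hQ'3 x hx h1
    · obtain ⟨Qp, hQp1, hQp2, hQp3⟩ := hfac p hp.irreducible (dvd_mul_right p P')
      refine ⟨Q' * p + Qp * P', ?_, ?_, ?_⟩
      · refine WfDvdMonoid.isRelPrime_of_no_irreducible_factors (fun h => hne h.1) ?_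
        intro r hr hr1 hr2
        have hrp : Prime r := hr.prime
        rcases hrp.dvd_or_dvd hr1 with h | h
        · -- r ~ p
          have hpr : p ∣ r := by
            exact (hr.dvd_symm hp.irreducible h)
          have h2 : p ∣ Qp * P' := by
            have h3 : p ∣ Q' * p + Qp * P' := hpr.trans hr2
            exact (dvd_add_right (dvd_mul_left p Q')).mp h3
          rcases hp.dvd_or_dvd h2 with h3 | h3
          · exact hQp1 h3
          · exact hpP h3
        · have h2 : r ∣ Q' * p := by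
            exact (dvd_add_left (h.mul_left Qp)).mp hr2
          rcases hrp.dvd_or_dvd h2 with h3 | h3
          · exact hr.not_isUnit (hQ'1 h h3)
          · exact hpP ((hr.dvd_symm hp.irreducible h3).trans h)
      · apply totalDegree_add_le
        · refine (totalDegree_mul _ _).trans ?_
          omega
        · refine (totalDegree_mul _ _).trans ?_
          omega
      · intro x hx hx0
        rw [map_mul] at hx0
        rw [map_add, map_mul, map_mul]
        rcases mul_eq_zero.mp hx0 with h | h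
        · rw [h, hQp3 x hx h]; ring
        · rw [h, hQ'3 x hx h]; ring

/-- The inverse substitution `F(Y) ↦ F(a + ω U)`. -/
noncomputable def S (a : ι → ℂ) (ω : ℂ) : MvPolynomial ι ℂ →ₐ[ℂ] MvPolynomial ι ℂ :=
  aeval fun i => C (a i) + C ω * X i

theorem T_S (a : ι → ℂ) (ω : ℂ) (hω : ω ≠ 0) (F : MvPolynomial ι ℂ) : T a ω (S a ω F) = F := by
  have h : (T a ω).comp (S a ω) = AlgHom.id ℂ _ := by
    apply MvPolynomial.algHom_ext
    intro i
    simp only [S, AlgHom.comp_apply, aeval_X, map_add, map_mul, T_C, T_X, AlgHom.id_apply]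
    rw [← mul_assoc, ← C_mul, mul_inv_cancel₀ hω, C_1]
    ring
  exact DFunLike.congr_fun h F

theorem S_T (a : ι → ℂ) (ω : ℂ) (hω : ω ≠ 0) (F : MvPolynomial ι ℂ) : S a ω (T a ω F) = F := by
  have h : (S a ω).comp (T a ω) = AlgHom.id ℂ _ := by
    apply MvPolynomial.algHom_ext
    intro i
    rw [AlgHom.comp_apply, T_X]
    simp only [S, aeval_X, map_sub, map_mul, MvPolynomial.algHom_C, AlgHom.id_apply]
    simp only [MvPolynomial.algebraMap_eq]
    rw [add_sub_cancel_left, ← mul_assoc, ← C_mul, inv_mul_cancel₀ hω, C_1]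
    ring
  exact DFunLike.congr_fun h F

theorem eval_S (a : ι → ℂ) (ω : ℂ) (x : ι → ℂ) (F : MvPolynomial ι ℂ) :
    eval x (S a ω F) = eval (fun i => a i + ω * x i) F := by
  induction F using MvPolynomial.induction_on with
  | C c => simp [S]
  | add p q hp hq => rw [map_add, map_add, map_add, hp, hq]
  | mul_X p j hp =>
    rw [map_mul, map_mul, map_mul, hp]
    simp [S]

theorem totalDegree_aeval_le {R : Type*} [CommSemiring R] (v : ι → MvPolynomial ι R)
    (hv : ∀ i, (v i).totalDegree ≤ 1) (F : MvPolynomial ι R) :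
    (aeval v F).totalDegree ≤ F.totalDegree := by
  classical
  conv_lhs => rw [F.as_sum, map_sum]
  refine (totalDegree_finsetSum _ _).trans (Finset.sup_le fun m hm => ?_)
  rw [aeval_monomial]
  refine (totalDegree_mul _ _).trans ?_
  rw [MvPolynomial.algebraMap_eq, totalDegree_C, zero_add, Finsupp.prod]
  refine (totalDegree_finsetProd _ _).trans ?_
  refine le_trans ?_ (le_totalDegree hm)
  rw [Finsupp.sum]
  refine Finset.sum_le_sum fun i _ => ?_
  refine (totalDegree_pow _ _).trans ?_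
  calc m i * (v i).totalDegree ≤ m i * 1 := Nat.mul_le_mul_left _ (hv i)
    _ = m i := mul_one _

theorem totalDegree_S_le (a : ι → ℂ) (ω : ℂ) (F : MvPolynomial ι ℂ) :
    (S a ω F).totalDegree ≤ F.totalDegree := by
  refine totalDegree_aeval_le _ (fun i => ?_) F
  apply totalDegree_add_le
  · simp
  · refine (totalDegree_mul _ _).trans ?_
    simp [totalDegree_C, totalDegree_X]

theorem totalDegree_T_le (a : ι → ℂ) (ω : ℂ) (F : MvPolynomial ι ℂ) :
    (T a ω F).totalDegree ≤ F.totalDegree := by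
  refine totalDegree_aeval_le _ (fun i => ?_) F
  refine (totalDegree_mul _ _).trans ?_
  rw [totalDegree_C, zero_add, sub_eq_add_neg]
  apply totalDegree_add_le
  · simp [totalDegree_X]
  · simp

theorem eval_cst (k : ι → ℚ) (g : MvPolynomial ι ℚ) :
    eval (fun i => ((k i : ℚ) : ℂ)) (cst g) = ((eval k g : ℚ) : ℂ) := by
  rw [cst, eval_map]
  have := MvPolynomial.eval₂_comp_left (algebraMap ℚ ℂ) (RingHom.id ℚ) k g
  simp only [RingHom.comp_id] at this
  rw [MvPolynomial.eval₂_id] at this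
  simpa [Function.comp_def] using this.symm

theorem totalDegree_cst_le (g : MvPolynomial ι ℚ) : (cst g).totalDegree ≤ g.totalDegree := by
  unfold totalDegree
  refine Finset.sup_mono fun m hm => ?_
  rw [mem_support_iff] at hm ⊢
  intro h
  apply hm
  rw [coeff_cst, h]; simp

theorem factor_claim [Fintype ι] (a : ι → ℂ) (ω : ℂ) (hω0 : ω ≠ 0)
    (ha : ∀ i, IsAlgebraic ℚ (Complex.exp (a i))) (hω : IsAlgebraic ℚ (Complex.exp ω))
    (f : MvPolynomial ι (algebraicClosure ℚ ℂ)) (hf : f ≠ 0)
    (g : MvPolynomial ι ℂ) (hg : Irreducible g)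
    (hgP : g ∣ S a ω (map (algebraMap (algebraicClosure ℚ ℂ) ℂ) f)) :
    ∃ Q : MvPolynomial ι ℂ, ¬ g ∣ Q ∧ Q.totalDegree ≤ g.totalDegree ∧
      ∀ k : ι → ℚ, LinearIndependent ℚ (fun i => a i + (k i : ℂ) * ω) →
        eval (fun i => (k i : ℂ)) g = 0 → eval (fun i => (k i : ℂ)) Q = 0 := by
  classical
  by_cases h : ∃ ψ : ℂ →ₗ[ℚ] ℚ, ¬ g ∣ cst (mapL ψ g)
  · obtain ⟨ψ, hψ⟩ := h
    refine ⟨cst (mapL ψ g), hψ, (totalDegree_cst_le _).trans (totalDegree_mapL_le _ _), ?_⟩
    intro k _ hk
    rw [eval_cst, eval_mapL]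
    have : (fun i => algebraMap ℚ ℂ (k i)) = fun i => ((k i : ℚ) : ℂ) := by
      funext i; simp
    rw [this, hk, map_zero]; simp
  · push Not at h
    by_cases hE : ∃ k : ι → ℚ, LinearIndependent ℚ (fun i => a i + (k i : ℂ) * ω) ∧
        eval (fun i => (k i : ℂ)) g = 0
    · exfalso
      obtain ⟨k, hk1, hk2⟩ := hE
      obtain ⟨m, hm⟩ := MvPolynomial.ne_zero_iff.mp hg.ne_zero
      obtain ⟨ψ, hψ⟩ := exists_functional (k := ℚ) _ hm
      set g0 := mapL ψ g with hg0
      have hg00 : g0 ≠ 0 := by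
        intro h0
        apply hψ
        rw [← coeff_mapL, ← hg0, h0, coeff_zero]
      obtain ⟨h', hh'⟩ := h ψ
      have hcst0 : cst g0 ≠ 0 := by
        intro h0
        exact hg00 (cst_injective (by rw [h0, map_zero]))
      have hh'0 : h' ≠ 0 := by
        rintro rfl
        rw [mul_zero] at hh'
        exact hcst0 hh'
      have hdeg : h'.totalDegree = 0 := by
        have h1 : (cst g0).totalDegree = g.totalDegree + h'.totalDegree := by
          rw [hh']; exact totalDegree_mul_of_isDomain hg.ne_zero hh'0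
        have h2 : (cst g0).totalDegree ≤ g.totalDegree :=
          (totalDegree_cst_le g0).trans (totalDegree_mapL_le ψ g)
        omega
      have hC := totalDegree_eq_zero_iff_eq_C.mp hdeg
      have hc0 : h'.coeff 0 ≠ 0 := by
        intro h0; rw [h0, C_0] at hC; exact hh'0 hC
      have hunit : IsUnit h' := by
        rw [hC]; exact (IsUnit.mk0 _ hc0).map _
      have hirr : Irreducible (cst g0) := by
        rw [hh']
        exact (irreducible_mul_isUnit hunit).mpr hg
      have hk3 : eval k g0 = 0 := by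
        have h1 : ((eval k g0 : ℚ) : ℂ) = 0 := by
          rw [← eval_cst, hh', map_mul, hk2, zero_mul]
        exact_mod_cast h1
      have hdvd : T a ω (cst g0) ∣ map (algebraMap (algebraicClosure ℚ ℂ) ℂ) f := by
        have h1 : cst g0 ∣ S a ω (map (algebraMap (algebraicClosure ℚ ℂ) ℂ) f) := by
          rw [hh']
          exact (hunit.mul_right_dvd).mpr hgP
        obtain ⟨r, hr⟩ := h1
        refine ⟨T a ω r, ?_⟩
        rw [← map_mul, ← hr, T_S a ω hω0]
      obtain ⟨c, hc, hA⟩ := factor_alg f hf _ hdvd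
      have h1 := scale_algebraic g0.totalDegree g0 c hg00 rfl hA
      have h2 : c * ω⁻¹ ^ g0.totalDegree ≠ 0 :=
        mul_ne_zero hc (pow_ne_zero _ (inv_ne_zero hω0))
      have h3 := hA.C_mul h1.inv
      have h4 : (c * ω⁻¹ ^ g0.totalDegree)⁻¹ * c = ω ^ g0.totalDegree := by
        rw [mul_inv, mul_comm c⁻¹, mul_assoc, inv_mul_cancel₀ hc, mul_one, inv_pow, inv_inv]
      rw [← mul_assoc, ← C_mul, h4] at h3
      exact core_contra a ω hω0 ha hω g0 hirr k hk3 hk1 h3
    · push Not at hE
      refine ⟨1, ?_, by simp, ?_⟩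
      · intro h1
        exact hg.not_isUnit (isUnit_of_dvd_one h1)
      · intro k hk1 hk2
        exact absurd hk2 (hE k hk1)

/-- **Codimension two theorem.** -/
theorem codim_two [Fintype ι] (a : ι → ℂ) (ω : ℂ) (hω0 : ω ≠ 0)
    (ha : ∀ i, IsAlgebraic ℚ (Complex.exp (a i))) (hω : IsAlgebraic ℚ (Complex.exp ω))
    (f : MvPolynomial ι (algebraicClosure ℚ ℂ)) (hf : f ≠ 0) :
    ∃ Q : MvPolynomial ι ℂ,
      IsRelPrime (map (algebraMap (algebraicClosure ℚ ℂ) ℂ) f) Q ∧
      Q.totalDegree ≤ f.totalDegree ∧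
      ∀ k : ι → ℚ, LinearIndependent ℚ (fun i => a i + (k i : ℂ) * ω) →
        eval (fun i => a i + (k i : ℂ) * ω) (map (algebraMap (algebraicClosure ℚ ℂ) ℂ) f) = 0 →
        eval (fun i => a i + (k i : ℂ) * ω) Q = 0 := by
  classical
  set F := map (algebraMap (algebraicClosure ℚ ℂ) ℂ) f with hF
  have hF0 : F ≠ 0 := by
    intro h
    apply hf
    exact MvPolynomial.map_injective _ (algebraMap (algebraicClosure ℚ ℂ) ℂ).injective
      (by rw [← hF, h, map_zero])
  have hFdeg : F.totalDegree ≤ f.totalDegree := by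
    unfold totalDegree
    refine Finset.sup_mono fun m hm => ?_
    rw [mem_support_iff] at hm ⊢
    intro h
    apply hm
    rw [hF, coeff_map, h, map_zero]
  set P := S a ω F with hP
  have hP0 : P ≠ 0 := by
    intro h
    apply hF0
    rw [← T_S a ω hω0 F, ← hP, h, map_zero]
  set Z : Set (ι → ℂ) := {x | ∃ k : ι → ℚ, x = (fun i => (k i : ℂ)) ∧
    LinearIndependent ℚ (fun i => a i + (k i : ℂ) * ω)} with hZ
  obtain ⟨Q, hQ1, hQ2, hQ3⟩ := assemble Z P hP0 (by
    intro g hg hgP
    obtain ⟨Q, h1, h2, h3⟩ := factor_claim a ω hω0 ha hω f hf g hg hgP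
    refine ⟨Q, h1, h2, ?_⟩
    rintro x ⟨k, rfl, hk⟩ hx
    exact h3 k hk hx)
  refine ⟨T a ω Q, ?_, ?_, ?_⟩
  · intro d hd1 hd2
    have h1 : S a ω d ∣ P := by
      obtain ⟨r, hr⟩ := hd1
      exact ⟨S a ω r, by rw [hP, hr, map_mul]⟩
    have h2 : S a ω d ∣ Q := by
      obtain ⟨r, hr⟩ := hd2
      refine ⟨S a ω r, ?_⟩
      rw [← map_mul, ← hr, S_T a ω hω0]
    have h3 := (hQ1 h1 h2).map (T a ω)
    rwa [T_S a ω hω0] at h3
  · exact (totalDegree_T_le a ω Q).trans (hQ2.trans ((totalDegree_S_le a ω F).trans hFdeg))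
  · intro k hk1 hk2
    have h0 : (fun i => a i + (k i : ℂ) * ω) = fun i => a i + ω * (k i : ℂ) := by
      funext i; ring
    rw [h0, ← eval_S, S_T a ω hω0]
    apply hQ3 _ ⟨k, rfl, hk1⟩
    rw [hP, eval_S, ← h0]
    exact hk2

end MP60829e
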