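import Mathlib

open MvPolynomial Module

namespace MP60829e

section Bezout

variable {K : Type*} [Field K]

/-- Number of monomials of degree at most `t` in two variables. -/
def Dm (t : ℕ) : ℕ := ∑ k ∈ Finset.range (t + 1), (k + 1)

theorem two_Dm (t : ℕ) : 2 * Dm t = (t + 1) * (t + 2) := by
  induction t with
  | zero => simp [Dm]
  | succ t ih =>
    unfold Dm at ih ⊢
    rw [Finset.sum_range_succ, mul_add, ih]; ring

theorem card_le_sum (t : ℕ) :
    Nat.card {n : Fin 2 →₀ ℕ | (n.sum fun _ e => e) ≤ t} = Dm t := by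
  classical
  have e : {n : Fin 2 →₀ ℕ | (n.sum fun _ e => e) ≤ t} ≃ {p : ℕ × ℕ | p.1 + p.2 ≤ t} := by
    refine Equiv.subtypeEquiv (Finsupp.equivFunOnFinite.trans (finTwoArrowEquiv ℕ)) ?_
    intro n
    simp [Finsupp.sum_fintype, Fin.sum_univ_two]
  rw [Nat.card_congr e]
  have h2 : {p : ℕ × ℕ | p.1 + p.2 ≤ t}
      = ((Finset.range (t + 1)).biUnion (fun k => Finset.HasAntidiagonal.antidiagonal k) :
        Finset (ℕ × ℕ)) := by
    ext p
    simp only [Set.mem_ofPred_eq, Finset.coe_biUnion, Set.mem_iUnion, Finset.mem_coe,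
      Finset.HasAntidiagonal.mem_antidiagonal, Finset.mem_range]
    constructor
    · intro h; exact ⟨p.1 + p.2, by omega, rfl⟩
    · rintro ⟨k, hk, h⟩; omega
  rw [h2, Nat.card_coe_set_eq, Set.ncard_coe_finset, Finset.card_biUnion]
  · simp [Dm, Finset.Nat.card_antidiagonal]
  · intro i _ j _ hij
    rw [Function.onFun, Finset.disjoint_left]
    intro p hp1 hp2
    rw [Finset.HasAntidiagonal.mem_antidiagonal] at hp1 hp2
    exact hij (by omega)

noncomputable abbrev V (K : Type*) [Field K] (t : ℕ) : Submodule K (MvPolynomial (Fin 2) K) :=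
  restrictTotalDegree (Fin 2) K t

theorem finite_le (t : ℕ) : Finite {n : Fin 2 →₀ ℕ | (n.sum fun _ e => e) ≤ t} := by
  have h := card_le_sum t
  refine Nat.finite_of_card_ne_zero ?_
  rw [h]
  have := two_Dm t
  intro h0
  rw [h0] at this
  simp at this

instance finV (t : ℕ) : Module.Finite K (V K t) := by
  have := finite_le t
  exact Module.Finite.of_basis (basisRestrictSupport K {n : Fin 2 →₀ ℕ | (n.sum fun _ e => e) ≤ t})

theorem finrank_V (t : ℕ) : finrank K (V K t) = Dm t := by
  have := finite_le t
  have h := Module.finrank_eq_nat_card_basis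
    (basisRestrictSupport K {n : Fin 2 →₀ ℕ | (n.sum fun _ e => e) ≤ t})
  rw [← card_le_sum]
  exact h

theorem mem_V {t : ℕ} {p : MvPolynomial (Fin 2) K} : p ∈ V K t ↔ p.totalDegree ≤ t :=
  mem_restrictTotalDegree _ _ _

/-- interpolation -/
theorem exists_interp (s : Finset (Fin 2 → K)) (x : Fin 2 → K) (t : ℕ)
    (ht : s.card ≤ t) :
    ∃ p ∈ V K t, eval x p = 1 ∧ ∀ y ∈ s, y ≠ x → eval y p = 0 := by
  classical
  have h1 : ∀ y : Fin 2 → K, ∃ l : MvPolynomial (Fin 2) K, l.totalDegree ≤ 1 ∧
      (y ≠ x → eval y l = 0 ∧ eval x l ≠ 0) := by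
    intro y
    by_cases hy : y = x
    · exact ⟨0, by simp, fun h => absurd hy h⟩
    · obtain ⟨i, hi⟩ := Function.ne_iff.mp hy
      refine ⟨X i - C (y i), ?_, fun _ => ⟨by simp, ?_⟩⟩
      · rw [sub_eq_add_neg, ← C_neg]
        refine (totalDegree_add _ _).trans (max_le ?_ ?_)
        · simp [totalDegree_X]
        · simp
      · simp only [map_sub, eval_X, eval_C]
        exact sub_ne_zero.mpr (Ne.symm hi)
  choose l hl1 hl2 using h1
  set p : MvPolynomial (Fin 2) K := ∏ y ∈ s.erase x, l y with hp
  have hpx : eval x p ≠ 0 := by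
    rw [hp, map_prod]
    refine Finset.prod_ne_zero_iff.mpr fun y hy => ?_
    exact (hl2 y (Finset.mem_erase.mp hy).1).2
  refine ⟨C (eval x p)⁻¹ * p, ?_, ?_, ?_⟩
  · rw [mem_V]
    refine (totalDegree_mul _ _).trans ?_
    rw [totalDegree_C, zero_add, hp]
    refine (totalDegree_finsetProd _ _).trans ?_
    calc ∑ y ∈ s.erase x, (l y).totalDegree ≤ ∑ y ∈ s.erase x, 1 :=
          Finset.sum_le_sum fun y _ => hl1 y
      _ = (s.erase x).card := by simp
      _ ≤ t := (Finset.card_le_card (Finset.erase_subset _ _)).trans ht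
  · rw [map_mul, eval_C, inv_mul_cancel₀ hpx]
  · intro y hy hyx
    have h0 : eval y p = 0 := by
      rw [hp, map_prod]
      exact Finset.prod_eq_zero (Finset.mem_erase.mpr ⟨hyx, hy⟩) (hl2 y hyx).1
    rw [map_mul, h0, mul_zero]

/-- evaluation map at the points of `s` -/
noncomputable def evS (s : Finset (Fin 2 → K)) (t : ℕ) : V K t →ₗ[K] (s → K) where
  toFun p := fun x => eval (x : Fin 2 → K) (p : MvPolynomial (Fin 2) K)
  map_add' p q := by funext x; simp
  map_smul' c p := by funext x; simp

theorem evS_surj (s : Finset (Fin 2 → K)) (t : ℕ) (ht : s.card ≤ t) :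
    Function.Surjective (evS s t) := by
  classical
  intro v
  choose p hp1 hp2 hp3 using fun x : s => exists_interp s x.1 t ht
  refine ⟨∑ x : s, v x • ⟨p x, hp1 x⟩, ?_⟩
  funext y
  rw [map_sum, Finset.sum_apply, Finset.sum_eq_single y]
  · rw [map_smul, Pi.smul_apply]
    have : evS s t ⟨p y, hp1 y⟩ y = 1 := hp2 y
    rw [this]; simp
  · intro x _ hxy
    rw [map_smul, Pi.smul_apply]
    have : evS s t ⟨p x, hp1 x⟩ y = 0 := hp3 x y.1 y.2 (fun h => hxy (Subtype.ext h.symm))
    rw [this]; simp
  · intro h; exact absurd (Finset.mem_univ _) h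

theorem finrank_ker_evS (s : Finset (Fin 2 → K)) (t : ℕ) (ht : s.card ≤ t) :
    finrank K (LinearMap.ker (evS (K := K) s t)) + s.card = Dm t := by
  have h1 := LinearMap.finrank_range_add_finrank_ker (evS (K := K) s t)
  rw [LinearMap.range_eq_top.mpr (evS_surj s t ht), finrank_top, finrank_V] at h1
  have h2 : finrank K (s → K) = s.card := by simp
  omega

/-- **Bezout's inequality** for plane curves without common component. -/
theorem bezout (P Q : MvPolynomial (Fin 2) K) (h : IsRelPrime P Q)
    (s : Finset (Fin 2 → K)) (hs : ∀ x ∈ s, eval x P = 0 ∧ eval x Q = 0) :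
    s.card ≤ P.totalDegree * Q.totalDegree := by
  classical
  rcases s.eq_empty_or_nonempty with hse | ⟨x0, hx0⟩
  · simp [hse]
  have hP0 : P ≠ 0 := by
    rintro rfl
    have hu : IsUnit Q := isRelPrime_zero_left.mp h
    have := hu.map (eval x0)
    rw [(hs x0 hx0).2] at this
    exact not_isUnit_zero this
  have hQ0 : Q ≠ 0 := by
    rintro rfl
    have hu : IsUnit P := isRelPrime_zero_right.mp h
    have := hu.map (eval x0)
    rw [(hs x0 hx0).1] at this
    exact not_isUnit_zero this
  set m := P.totalDegree with hm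
  set n := Q.totalDegree with hn
  set r := s.card with hr
  -- the map
  let Φ : (V K (r + n)) × (V K (r + m)) →ₗ[K] V K (r + m + n) :=
    { toFun := fun AB => ⟨AB.1.1 * P + AB.2.1 * Q, by
        rw [mem_V]
        refine (totalDegree_add _ _).trans (max_le ?_ ?_)
        · refine (totalDegree_mul _ _).trans ?_
          have := mem_V.mp AB.1.2
          omega
        · refine (totalDegree_mul _ _).trans ?_
          have := mem_V.mp AB.2.2
          omega⟩
      map_add' := fun x y => by
        apply Subtype.ext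
        simp only [Prod.fst_add, Prod.snd_add, Submodule.coe_add]
        ring
      map_smul' := fun c x => by
        apply Subtype.ext
        simp only [Prod.smul_fst, Prod.smul_snd, Submodule.coe_smul, RingHom.id_apply, smul_add,
          smul_mul_assoc] }
  -- kernel bound
  let Ψ : V K r →ₗ[K] (V K (r + n)) × (V K (r + m)) :=
    { toFun := fun A => (⟨-(A.1 * Q), by
        rw [mem_V, totalDegree_neg]
        refine (totalDegree_mul _ _).trans ?_
        have := mem_V.mp A.2
        omega⟩, ⟨A.1 * P, by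
        rw [mem_V]
        refine (totalDegree_mul _ _).trans ?_
        have := mem_V.mp A.2
        omega⟩)
      map_add' := fun x y => by
        apply Prod.ext
        · apply Subtype.ext
          simp only [Submodule.coe_add, Prod.fst_add]
          ring
        · apply Subtype.ext
          simp only [Submodule.coe_add, Prod.snd_add]
          ring
      map_smul' := fun c x => by
        apply Prod.ext
        · apply Subtype.ext
          simp only [Submodule.coe_smul, Prod.smul_fst, RingHom.id_apply, smul_mul_assoc, smul_neg]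
        · apply Subtype.ext
          simp only [Submodule.coe_smul, Prod.smul_snd, RingHom.id_apply, smul_mul_assoc] }
  have hker : LinearMap.ker Φ ≤ LinearMap.range Ψ := by
    rintro ⟨⟨A, hA⟩, ⟨B, hB⟩⟩ hAB
    have h1 : A * P + B * Q = 0 := by
      have := congrArg Subtype.val (LinearMap.mem_ker.mp hAB)
      simpa [Φ] using this
    have h2 : P ∣ B * Q := ⟨-A, by linear_combination h1⟩
    obtain ⟨D, hD⟩ := h.dvd_of_dvd_mul_right h2
    have h3 : A = -(D * Q) := by
      have h4 : P * (A + D * Q) = 0 := by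
        rw [hD] at h1
        linear_combination h1
      rcases mul_eq_zero.mp h4 with h5 | h5
      · exact absurd h5 hP0
      · linear_combination h5
    have hDmem : D ∈ V K r := by
      rw [mem_V]
      by_cases hD0 : D = 0
      · simp [hD0]
      · have h6 := totalDegree_mul_of_isDomain hP0 hD0
        rw [← hD] at h6
        have h7 := mem_V.mp hB
        omega
    refine ⟨⟨D, hDmem⟩, ?_⟩
    apply Prod.ext
    · apply Subtype.ext
      simp [Ψ, h3]
    · apply Subtype.ext
      simp [Ψ, hD, mul_comm]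
  have hkerdim : finrank K (LinearMap.ker Φ) ≤ Dm r := by
    calc finrank K (LinearMap.ker Φ) ≤ finrank K (LinearMap.range Ψ) :=
          Submodule.finrank_mono hker
      _ ≤ finrank K (V K r) := LinearMap.finrank_range_le Ψ
      _ = Dm r := finrank_V r
  have hrange : LinearMap.range Φ ≤ LinearMap.ker (evS s (r + m + n)) := by
    rintro _ ⟨⟨⟨A, hA⟩, ⟨B, hB⟩⟩, rfl⟩
    rw [LinearMap.mem_ker]
    funext x
    have h1 := hs x.1 x.2
    simp [evS, Φ, h1.1, h1.2]
  have h1 := LinearMap.finrank_range_add_finrank_ker Φ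
  rw [Module.finrank_prod, finrank_V, finrank_V] at h1
  have h2 := Submodule.finrank_mono hrange
  have h3 := finrank_ker_evS (K := K) s (r + m + n) (by omega)
  have e1 := two_Dm (r + n)
  have e2 := two_Dm (r + m)
  have e3 := two_Dm r
  have e4 := two_Dm (r + m + n)
  have h4 : Dm (r + n) + Dm (r + m) + r ≤ Dm (r + m + n) + Dm r := by omega
  have h5 : 2 * r ≤ 2 * (m * n) := by
    have : (r + n + 1) * (r + n + 2) + (r + m + 1) * (r + m + 2) + 2 * r
        ≤ (r + m + n + 1) * (r + m + n + 2) + (r + 1) * (r + 2) := by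
      rw [← e1, ← e2, ← e3, ← e4]; omega
    nlinarith [this]
  omega

end Bezout

end MP60829e
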