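import Mathlib
import Pool.Agent.Lib.MP_60829e_nt.BCore

namespace Pool.Agent.Lib.MP_60829e_nt.Bk

open Finset

section Multi

variable {Ω J Γ : Type} [Fintype J] [DecidableEq J]

/-- the product function on the point set -/
noncomputable def pf (a : Ω → J → ℂ) (h : J → ℂ → ℂ) : Ω → ℂ := fun ω => ∏ j, h j (a ω j)

lemma pf_update (a : Ω → J → ℂ) (h : J → ℂ → ℂ) (j0 : J) (x : ℂ → ℂ) (ω : Ω) :
    pf a (Function.update h j0 x) ω = x (a ω j0) * ∏ j ∈ univ.erase j0, h j (a ω j) := by
  unfold pf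
  rw [← mul_prod_erase univ _ (mem_univ j0)]
  congr 1
  · simp
  · apply prod_congr rfl
    intro j hj
    rw [Function.update_of_ne (ne_of_mem_erase hj)]

/-- multilinear extension of vanishing from generators to spans -/
lemma van_span' (E : (Ω → ℂ) →ₗ[ℂ] ℂ) (a : Ω → J → ℂ) (V : J → Set (ℂ → ℂ))
    (hV : ∀ h : J → ℂ → ℂ, (∀ j, h j ∈ V j) → E (pf a h) = 0) :
    ∀ h : J → ℂ → ℂ, (∀ j, h j ∈ Submodule.span ℂ (V j)) → E (pf a h) = 0 := by
  have key : ∀ U : Finset J, ∀ h : J → ℂ → ℂ, (∀ j ∈ U, h j ∈ Submodule.span ℂ (V j)) →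
      (∀ j, j ∉ U → h j ∈ V j) → E (pf a h) = 0 := by
    intro U
    induction U using Finset.induction_on with
    | empty =>
      intro h _ h2
      exact hV h (fun j => h2 j (by simp))
    | insert j0 U hj0 ih =>
      intro h h1 h2
      have hx : ∀ x ∈ Submodule.span ℂ (V j0), E (pf a (Function.update h j0 x)) = 0 := by
        intro x hx
        induction hx using Submodule.span_induction with
        | mem x hx =>
          apply ih
          · intro j hj
            have hne : j ≠ j0 := fun h => hj0 (h ▸ hj)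
            rw [Function.update_of_ne hne]
            exact h1 j (mem_insert_of_mem hj)
          · intro j hj
            by_cases hne : j = j0
            · subst hne; simpa using hx
            · rw [Function.update_of_ne hne]
              exact h2 j (by simp [hne, hj])
        | zero =>
          have : pf a (Function.update h j0 0) = 0 := by
            funext ω
            rw [pf_update]
            simp
          rw [this, map_zero]
        | add x y _ _ hx hy =>
          have : pf a (Function.update h j0 (x + y)) = pf a (Function.update h j0 x) + pf a (Function.update h j0 y) := by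
            funext ω
            rw [Pi.add_apply, pf_update, pf_update, pf_update, Pi.add_apply, add_mul]
          rw [this, map_add, hx, hy, add_zero]
        | smul c x _ hx =>
          have : pf a (Function.update h j0 (c • x)) = c • pf a (Function.update h j0 x) := by
            funext ω
            rw [Pi.smul_apply, pf_update, pf_update, Pi.smul_apply, smul_eq_mul, smul_eq_mul, mul_assoc]
          rw [this, map_smul, hx, smul_zero]
      have := hx (h j0) (h1 j0 (mem_insert_self _ _))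
      rwa [Function.update_eq_self] at this
  intro h hh
  exact key univ h (fun j _ => hh j) (fun j hj => absurd (mem_univ j) hj)

theorem multi' {S T : ℕ} (hS : 1 ≤ S) (E : (Ω → ℂ) →ₗ[ℂ] ℂ) (a : Ω → J → ℂ)
    (hvan : ∀ t s : J → ℕ, ∑ j, t j < T → (∀ j, s j < S) → E (pf a (fun j => gf (t j) (s j))) = 0)
    (t s : J → ℕ) (ht : ∑ j, t j = T) (hs : ∀ j, s j < S) :
    E (pf a (fun j => gf (t j) (s j))) = E (pf a (fun j => rf S (t j) (s j))) := by
  choose v hv1 hv2 using fun j => rf_eq hS (t j) (s j) (hs j)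
  have hexp : pf a (fun j => rf S (t j) (s j))
      = ∑ U ∈ (univ : Finset J).powerset, pf a (fun j => if j ∈ U then gf (t j) (s j) else v j) := by
    funext ω
    rw [Finset.sum_apply]
    unfold pf
    have h1 : ∀ j, rf S (t j) (s j) (a ω j) = gf (t j) (s j) (a ω j) + v j (a ω j) := by
      intro j
      rw [hv2 j]; rfl
    simp_rw [h1]
    rw [prod_add]
    apply sum_congr rfl
    intro U _
    rw [← prod_sdiff (subset_univ U), mul_comm]
    congr 1
    · apply prod_congr rfl
      intro j hj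
      rw [mem_sdiff] at hj
      rw [if_neg hj.2]
    · apply prod_congr rfl
      intro j hj
      rw [if_pos hj]
  have hzero : ∀ U ∈ (univ : Finset J).powerset, U ≠ univ →
      E (pf a (fun j => if j ∈ U then gf (t j) (s j) else v j)) = 0 := by
    intro U _ hU
    apply van_span' E a (fun j => gens S (if j ∈ U then t j + 1 else t j))
    · intro h hh
      choose τ σ h1 h2 h3 using hh
      have e : pf a h = pf a (fun j => gf (τ j) (σ j)) := by
        unfold pf
        funext ω
        apply prod_congr rfl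
        intro j _
        rw [h3 j]
      rw [e]
      apply hvan _ _ _ h2
      rw [← ht]
      obtain ⟨j0, hj0⟩ : ∃ j0, j0 ∉ U := by
        by_contra hcon
        push Not at hcon
        exact hU (eq_univ_iff_forall.mpr hcon)
      apply sum_lt_sum
      · intro j _
        have := h1 j
        by_cases hj : j ∈ U
        · rw [if_pos hj] at this; omega
        · rw [if_neg hj] at this; omega
      · refine ⟨j0, mem_univ _, ?_⟩
        have := h1 j0
        rwa [if_neg hj0] at this
    · intro j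
      by_cases hj : j ∈ U
      · rw [if_pos hj, if_pos hj]
        apply Submodule.subset_span
        exact ⟨t j, s j, by omega, hs j, rfl⟩
      · rw [if_neg hj, if_neg hj]
        exact hv1 j
  rw [hexp, map_sum]
  rw [sum_eq_single_of_mem (univ : Finset J) (mem_powerset_self _) hzero]
  congr 1
  unfold pf
  funext ω
  apply prod_congr rfl
  intro j _
  simp only [mem_univ, if_true]

/-- word functions -/
noncomputable def wd (a : Ω → J → ℂ) (u : Ω → Γ → ℂ) {r : ℕ} (f : Fin r → Γ) (s : J → ℕ) : Ω → ℂ :=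
  fun ω => (∏ l, u ω (f l)) * ∏ j, Complex.exp (a ω j * s j)

/-- multiplication by the exponential, followed by the functional -/
noncomputable def Ev' (E : (Ω → ℂ) →ₗ[ℂ] ℂ) (a : Ω → J → ℂ) (s : J → ℕ) : (Ω → ℂ) →ₗ[ℂ] ℂ :=
  E ∘ₗ (LinearMap.mulRight ℂ (fun ω => ∏ j, Complex.exp (a ω j * s j)))

lemma Ev'_apply (E : (Ω → ℂ) →ₗ[ℂ] ℂ) (a : Ω → J → ℂ) (s : J → ℕ) (w : Ω → ℂ) :
    Ev' E a s w = E (fun ω => w ω * ∏ j, Complex.exp (a ω j * s j)) := rfl

lemma Ev'_pow (E : (Ω → ℂ) →ₗ[ℂ] ℂ) (a : Ω → J → ℂ) (u : Ω → Γ → ℂ) (s : J → ℕ) (r : ℕ)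
    (hr : ∀ f : Fin r → Γ, E (wd a u f s) = 0) :
    ∀ w ∈ (Submodule.span ℂ (Set.range (fun g ω => u ω g : Γ → Ω → ℂ))) ^ r, Ev' E a s w = 0 := by
  intro w hw
  rw [Submodule.span_pow] at hw
  induction hw using Submodule.span_induction with
  | mem x hx =>
    rw [Set.mem_pow] at hx
    obtain ⟨f, rfl⟩ := hx
    choose g hg using fun i => (f i).2
    have h1 := hr g
    rw [List.prod_ofFn, Ev'_apply, ← h1]
    congr 1
    funext ω
    unfold wd
    congr 1
    rw [Finset.prod_apply]
    apply prod_congr rfl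
    intro l _
    rw [← hg l]
  | zero => rw [map_zero]
  | add x y _ _ hx hy => rw [map_add, hx, hy, add_zero]
  | smul c x _ hx => rw [map_smul, hx, smul_zero]

variable [Fintype Γ]

lemma wd_to_gf (E : (Ω → ℂ) →ₗ[ℂ] ℂ) (a : Ω → J → ℂ) (u : Ω → Γ → ℂ) (s : J → ℕ) (r : ℕ)
    (hr : ∀ f : Fin r → Γ, E (wd a u f s) = 0)
    (P : J → Γ → ℂ) (hP : ∀ ω j, a ω j = ∑ g, P j g * u ω g)
    (t : J → ℕ) (ht : ∑ j, t j = r) :
    E (pf a (fun j => gf (t j) (s j))) = 0 := by
  have h1 : ∏ j, (fun ω => a ω j : Ω → ℂ) ^ t j ∈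
      (Submodule.span ℂ (Set.range (fun g ω => u ω g : Γ → Ω → ℂ))) ^ r := by
    rw [← ht]
    apply prod_pow_mem_pow
    intro j
    have : (fun ω => a ω j : Ω → ℂ) = ∑ g, P j g • (fun ω => u ω g : Ω → ℂ) := by
      funext ω
      rw [hP ω j, Finset.sum_apply]
      rfl
    rw [this]
    apply Submodule.sum_mem
    intro g _
    apply Submodule.smul_mem
    apply Submodule.subset_span
    exact ⟨g, rfl⟩
  have h2 := Ev'_pow E a u s r hr _ h1
  rw [Ev'_apply] at h2
  rw [← h2]
  congr 1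
  funext ω
  unfold pf
  rw [Finset.prod_apply, ← prod_mul_distrib]
  apply prod_congr rfl
  intro j _
  simp [gf]

omit [Fintype Γ] in
lemma wd_bound (E : (Ω → ℂ) →ₗ[ℂ] ℂ) (a : Ω → J → ℂ) (u : Ω → Γ → ℂ) (s : J → ℕ) (r : ℕ)
    (R : Γ → J → ℂ) (hR : ∀ ω g, u ω g = ∑ j, R g j * a ω j) {C B : ℝ} (hC0 : 0 ≤ C)
    (hC : ∀ g j, ‖R g j‖ ≤ C)
    (hB : ∀ t : J → ℕ, ∑ j, t j = r → ‖E (pf a (fun j => gf (t j) (s j)))‖ ≤ B)
    (f : Fin r → Γ) : ‖E (wd a u f s)‖ ≤ (Fintype.card J * C) ^ r * B := by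
  have h1 : wd a u f s = ∑ φ : Fin r → J, (∏ l, R (f l) (φ l)) •
      pf a (fun j => gf (#{l | φ l = j}) (s j)) := by
    funext ω
    rw [Finset.sum_apply]
    unfold wd
    have h2 : ∏ l, u ω (f l) = ∑ φ : Fin r → J, ∏ l, (R (f l) (φ l) * a ω (φ l)) := by
      simp_rw [hR]
      rw [Finset.prod_univ_sum]
      simp
    rw [h2, sum_mul]
    apply sum_congr rfl
    intro φ _
    rw [prod_mul_distrib, prod_comp_fiber φ (a ω), Pi.smul_apply, smul_eq_mul]
    have h3 : pf a (fun j => gf (#{l | φ l = j}) (s j)) ω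
        = (∏ j, a ω j ^ (#{l | φ l = j})) * ∏ j, Complex.exp (a ω j * s j) := by
      unfold pf
      rw [← prod_mul_distrib]
      rfl
    rw [h3]
    ring
  rw [h1, map_sum]
  refine (norm_sum_le _ _).trans ?_
  have h4 : ∀ φ ∈ (univ : Finset (Fin r → J)), ‖E ((∏ l, R (f l) (φ l)) •
      pf a (fun j => gf (#{l | φ l = j}) (s j)))‖ ≤ C ^ r * B := by
    intro φ _
    rw [map_smul, norm_smul, norm_prod]
    apply mul_le_mul _ (hB _ (sum_fiber_card φ)) (norm_nonneg _) (by positivity)
    calc ∏ l, ‖R (f l) (φ l)‖ ≤ ∏ _l : Fin r, C := by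
          apply prod_le_prod
          · intro l _; exact norm_nonneg _
          · intro l _; exact hC _ _
      _ = C ^ r := by simp
  refine (Finset.sum_le_sum h4).trans ?_
  rw [sum_const, card_univ, Fintype.card_fun, Fintype.card_fin, nsmul_eq_mul, mul_pow]
  push_cast
  rw [mul_assoc]

end Multi

section Functional

variable {κ : Type} [Fintype κ]

/-- functions that are entire in the second variable -/
def nice (κ : Type) : Submodule ℂ (κ × ℂ → ℂ) where
  carrier := {h | ∀ k, Differentiable ℂ (fun ε : ℂ => h (k, ε))}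
  add_mem' := by
    intro x y hx hy k
    exact (hx k).add (hy k)
  zero_mem' := by
    intro k
    exact differentiable_const _
  smul_mem' := by
    intro c x hx k
    exact (hx k).const_smul c

lemma nice_contDiffAt {h : κ × ℂ → ℂ} (hh : h ∈ nice κ) (k : κ) (n : ℕ) (x : ℂ) :
    ContDiffAt ℂ n (fun ε : ℂ => h (k, ε)) x :=
  (hh k).contDiff.contDiffAt

/-- the functional of an exponential polynomial -/
noncomputable def E0 {M : ℕ} (p : κ × Fin M → ℂ) : nice κ →ₗ[ℂ] ℂ where
  toFun h := ∑ km : κ × Fin M, p km * iteratedDeriv (km.2 : ℕ) (fun ε : ℂ => (h : κ × ℂ → ℂ) (km.1, ε)) 0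
  map_add' x y := by
    rw [← sum_add_distrib]
    apply sum_congr rfl
    intro km _
    rw [← mul_add]
    congr 1
    exact iteratedDeriv_add (nice_contDiffAt x.2 _ _ _) (nice_contDiffAt y.2 _ _ _)
  map_smul' c x := by
    rw [RingHom.id_apply, smul_eq_mul, mul_sum]
    apply sum_congr rfl
    intro km _
    have : iteratedDeriv (km.2 : ℕ) (fun ε : ℂ => ((c • x : nice κ) : κ × ℂ → ℂ) (km.1, ε)) 0
        = c * iteratedDeriv (km.2 : ℕ) (fun ε : ℂ => (x : κ × ℂ → ℂ) (km.1, ε)) 0 := by
      exact iteratedDeriv_const_mul_field c (fun ε : ℂ => (x : κ × ℂ → ℂ) (km.1, ε))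
    rw [this]
    ring

/-- extension of the functional to all functions -/
lemma exists_E {M : ℕ} (p : κ × Fin M → ℂ) : ∃ E : (κ × ℂ → ℂ) →ₗ[ℂ] ℂ, ∀ h ∈ nice κ,
    E h = ∑ km : κ × Fin M, p km * iteratedDeriv (km.2 : ℕ) (fun ε : ℂ => h (km.1, ε)) 0 := by
  obtain ⟨E, hE⟩ := (E0 p).exists_extend
  refine ⟨E, ?_⟩
  intro h hh
  have := LinearMap.congr_fun hE ⟨h, hh⟩
  exact this

lemma E_bound {M : ℕ} (p : κ × Fin M → ℂ) (h : κ × ℂ → ℂ) (hh : h ∈ nice κ) {B : ℝ}
    (hB : ∀ k, ∀ ε : ℂ, ‖ε‖ ≤ 1 → ‖h (k, ε)‖ ≤ B) :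
    ‖∑ km : κ × Fin M, p km * iteratedDeriv (km.2 : ℕ) (fun ε : ℂ => h (km.1, ε)) 0‖
      ≤ (∑ km, ‖p km‖) * (M.factorial * B) := by
  refine (norm_sum_le _ _).trans ?_
  rw [sum_mul]
  apply sum_le_sum
  intro km _
  rw [norm_mul]
  apply mul_le_mul_of_nonneg_left _ (norm_nonneg _)
  have h1 := Complex.norm_iteratedDeriv_le_of_forall_mem_sphere_norm_le (c := 0) (R := 1) (C := B)
    (f := fun ε : ℂ => h (km.1, ε)) (km.2 : ℕ) one_pos (hh km.1).diffContOnCl (by
      intro z hz
      apply hB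
      rw [mem_sphere_zero_iff_norm] at hz
      exact hz.le)
  refine h1.trans ?_
  rw [one_pow, div_one]
  have hB0 : 0 ≤ B := (norm_nonneg _).trans (hB km.1 0 (by simp))
  apply mul_le_mul_of_nonneg_right _ hB0
  exact_mod_cast Nat.factorial_le km.2.isLt.le

end Functional

end Pool.Agent.Lib.MP_60829e_nt.Bk
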