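import Mathlib
import Pool.Agent.Lib.MP_60829e_nt.CMulti
import Pool.Agent.Lib.MP_60829e_nt.BFieldC

namespace Pool.Agent.Lib.MP_60829e_nt.Bk

open Finset NumberField

/-- derivative of order `m` at `0` of `(X + ε) ^ τ * exp (ε y)` -/
def qq {R : Type} [CommRing R] (m τ : ℕ) (X y : R) : R :=
  ∑ i ∈ range (m + 1), (m.choose i : R) * ((τ.descFactorial i : ℕ) : R) * X ^ (τ - i) * y ^ (m - i)

lemma map_qq {R R' : Type} [CommRing R] [CommRing R'] (φ : R →+* R') (m τ : ℕ) (X y : R) :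
    φ (qq m τ X y) = qq m τ (φ X) (φ y) := by
  unfold qq
  rw [map_sum]
  apply sum_congr rfl
  intro i _
  rw [map_mul, map_mul, map_mul, map_pow, map_pow, map_natCast, map_natCast]

lemma qq_int {K : Type} [Field K] (m τ : ℕ) (X y : K) (hX : IsIntegral ℤ X) (hy : IsIntegral ℤ y) :
    IsIntegral ℤ (qq m τ X y) := by
  have hint : ∀ n : ℕ, IsIntegral ℤ (n : K) := by
    intro n
    have : IsIntegral ℤ (algebraMap ℤ K (n : ℤ)) := isIntegral_algebraMap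
    simpa using this
  unfold qq
  apply IsIntegral.sum
  intro i _
  exact (((hint _).mul (hint _)).mul (hX.pow _)).mul (hy.pow _)

lemma qq_norm (m τ : ℕ) (X y : ℂ) {A B : ℝ} (hA : 1 ≤ A) (hX : ‖X‖ ≤ A) (hy : ‖y‖ ≤ B) :
    ‖qq m τ X y‖ ≤ A ^ τ * (B + τ) ^ m := by
  have hB : 0 ≤ B := (norm_nonneg _).trans hy
  unfold qq
  refine (norm_sum_le _ _).trans ?_
  have h1 : ∀ i ∈ range (m + 1), ‖(m.choose i : ℂ) * ((τ.descFactorial i : ℕ) : ℂ) * X ^ (τ - i) * y ^ (m - i)‖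
      ≤ A ^ τ * ((τ : ℝ) ^ i * B ^ (m - i) * (m.choose i : ℝ)) := by
    intro i _
    rw [norm_mul, norm_mul, norm_mul, norm_pow, norm_pow, Complex.norm_natCast, Complex.norm_natCast]
    have h2 : ((τ.descFactorial i : ℕ) : ℝ) ≤ (τ : ℝ) ^ i := by exact_mod_cast Nat.descFactorial_le_pow τ i
    have h3 : ‖X‖ ^ (τ - i) ≤ A ^ τ :=
      (pow_le_pow_left₀ (norm_nonneg _) hX _).trans (pow_le_pow_right₀ hA (Nat.sub_le _ _))
    have h4 : ‖y‖ ^ (m - i) ≤ B ^ (m - i) := pow_le_pow_left₀ (norm_nonneg _) hy _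
    calc (m.choose i : ℝ) * ((τ.descFactorial i : ℕ) : ℝ) * ‖X‖ ^ (τ - i) * ‖y‖ ^ (m - i)
        ≤ (m.choose i : ℝ) * ((τ : ℝ) ^ i) * A ^ τ * B ^ (m - i) := by gcongr
      _ = _ := by ring
  refine (Finset.sum_le_sum h1).trans ?_
  rw [← mul_sum, ← add_pow, add_comm]

lemma iteratedDeriv_pow_exp (m τ : ℕ) (X y : ℂ) :
    iteratedDeriv m (fun ε : ℂ => (X + ε) ^ τ * Complex.exp (ε * y)) 0 = qq m τ X y := by
  have h1 : ContDiffAt ℂ m (fun ε : ℂ => (X + ε) ^ τ) 0 := by fun_prop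
  have h2 : ContDiffAt ℂ m (fun ε : ℂ => Complex.exp (ε * y)) 0 := by fun_prop
  rw [iteratedDeriv_fun_mul h1 h2]
  unfold qq
  apply sum_congr rfl
  intro i _
  have h3 : iteratedDeriv i (fun ε : ℂ => (X + ε) ^ τ) 0 = ((τ.descFactorial i : ℕ) : ℂ) * X ^ (τ - i) := by
    have h4 := congrFun (iteratedDeriv_comp_const_add i (fun z : ℂ => z ^ τ) X) 0
    rw [h4]
    simp [iteratedDeriv_eq_iterate]
  have h5 : iteratedDeriv (m - i) (fun ε : ℂ => Complex.exp (ε * y)) 0 = y ^ (m - i) := by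
    have h6 : (fun ε : ℂ => Complex.exp (ε * y)) = fun ε : ℂ => Complex.exp (y * ε) := by
      funext ε; rw [mul_comm]
    rw [h6, iteratedDeriv_cexp_const_mul]
    simp
  rw [h3, h5]
  ring

lemma gens_diff {S t : ℕ} {f : ℂ → ℂ} (hf : f ∈ Submodule.span ℂ (gens S t)) : Differentiable ℂ f := by
  induction hf using Submodule.span_induction with
  | mem x hx =>
    obtain ⟨τ, s, _, _, rfl⟩ := hx
    unfold gf
    fun_prop
  | zero => exact differentiable_const _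
  | add x y _ _ hx hy => exact hx.add hy
  | smul c x _ hx => exact hx.const_smul c

lemma rf_diff {S : ℕ} (hS : 1 ≤ S) (t s : ℕ) (hs : s < S) : Differentiable ℂ (rf S t s) := by
  obtain ⟨v, hv, h⟩ := rf_eq hS t s hs
  rw [h]
  apply Differentiable.add
  · unfold gf
    fun_prop
  · exact gens_diff hv

lemma pf_nice {κ J : Type} [Fintype J] (a0 b0 : κ → J → ℂ) (h : J → ℂ → ℂ) (hh : ∀ j, Differentiable ℂ (h j)) :
    pf (fun (ω : κ × ℂ) j => a0 ω.1 j + ω.2 * b0 ω.1 j) h ∈ nice κ := by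
  intro k
  unfold pf
  apply Differentiable.fun_finset_prod
  intro j _
  exact (hh j).comp (by fun_prop : Differentiable ℂ (fun ε : ℂ => a0 k j + ε * b0 k j))

section Field

variable {K : Type} [Field K] [NumberField K] {I : Type} [Fintype I]

/-- values of the auxiliary function, inside the field -/
noncomputable def gK2 {Γ : Type} [DecidableEq Γ] (α : I → K) (β : I → 𝓞 K) (v : Γ → Gal(K/ℚ)) (g1 : Γ)
    (β0 : 𝓞 K) {L M : ℕ} (p : (JJ K → Fin L) × Fin M → 𝓞 K) {r : ℕ} (f : Fin r → Γ) (s : JJ K → ℕ) : K :=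
  ∑ km, (p km : K) * (∏ l, if f l = g1 then 1 else v (f l) (xx (fun j => (km.1 j : ℕ)) : K)) *
    qq (km.2 : ℕ) (#{l | f l = g1}) (-(β0 : K) * (xx (fun j => (km.1 j : ℕ)) : K)) (xx s : K) *
    eps α β (xx (fun j => (km.1 j : ℕ)) * xx s)

/-- the points -/
noncomputable def aa (σ : K →+* ℂ) (lam : I → ℂ) (β : I → 𝓞 K) (L : ℕ) :
    ((JJ K → Fin L) × ℂ) → JJ K → ℂ :=
  fun ω j => Lam lam β (RingOfIntegers.basis K j * xx (fun j => (ω.1 j : ℕ)))
    + ω.2 * σ (RingOfIntegers.basis K j : K)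

/-- the linear forms -/
noncomputable def uu {Γ : Type} [DecidableEq Γ] (σ : K →+* ℂ) (v : Γ → Gal(K/ℚ)) (g1 : Γ) (β0 : 𝓞 K) (L : ℕ) :
    ((JJ K → Fin L) × ℂ) → Γ → ℂ :=
  fun ω g => if g = g1 then σ (-(β0 : K) * (xx (fun j => (ω.1 j : ℕ)) : K)) + ω.2
    else σ (v g (xx (fun j => (ω.1 j : ℕ)) : K))

lemma wd_form {Γ : Type} [DecidableEq Γ] (σ : K →+* ℂ) (lam : I → ℂ) (β : I → 𝓞 K)
    (v : Γ → Gal(K/ℚ)) (g1 : Γ) (β0 : 𝓞 K) (L : ℕ) {r : ℕ} (f : Fin r → Γ) (s : JJ K → ℕ)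
    (k : JJ K → Fin L) (ε : ℂ) :
    wd (aa σ lam β L) (uu σ v g1 β0 L) f s (k, ε)
      = (σ (∏ l, if f l = g1 then 1 else v (f l) (xx (fun j => (k j : ℕ)) : K)) *
        Complex.exp (Lam lam β (xx (fun j => (k j : ℕ)) * xx s))) *
        ((σ (-(β0 : K) * (xx (fun j => (k j : ℕ)) : K)) + ε) ^ (#{l | f l = g1}) *
          Complex.exp (ε * σ (xx s : K))) := by
  unfold wd
  have h1 : ∏ l, uu σ v g1 β0 L (k, ε) (f l)
      = σ (∏ l, if f l = g1 then 1 else v (f l) (xx (fun j => (k j : ℕ)) : K)) *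
        (σ (-(β0 : K) * (xx (fun j => (k j : ℕ)) : K)) + ε) ^ (#{l | f l = g1}) := by
    rw [map_prod, ← prod_const, prod_filter, ← prod_mul_distrib]
    apply prod_congr rfl
    intro l _
    unfold uu
    by_cases h : f l = g1
    · simp [h]
    · simp [h]
  have h2 : ∏ j, Complex.exp (aa σ lam β L (k, ε) j * s j)
      = Complex.exp (Lam lam β (xx (fun j => (k j : ℕ)) * xx s)) * Complex.exp (ε * σ (xx s : K)) := by
    rw [← Complex.exp_sum, ← Complex.exp_add]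
    congr 1
    rw [Lam_mul_xx]
    have h3 : σ (xx s : K) = ∑ j, σ (RingOfIntegers.basis K j : K) * s j := by
      unfold xx
      rw [show (((∑ j, (s j : 𝓞 K) * RingOfIntegers.basis K j : 𝓞 K)) : K)
        = algebraMap (𝓞 K) K (∑ j, (s j : 𝓞 K) * RingOfIntegers.basis K j) from rfl]
      rw [map_sum, map_sum]
      apply sum_congr rfl
      intro j _
      rw [map_mul, map_mul, map_natCast, map_natCast, mul_comm]
    rw [h3, mul_sum, ← sum_add_distrib]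
    apply sum_congr rfl
    intro j _
    unfold aa
    ring
  rw [h1, h2]
  ring

lemma wd_nice {Γ : Type} [DecidableEq Γ] (σ : K →+* ℂ) (lam : I → ℂ) (β : I → 𝓞 K)
    (v : Γ → Gal(K/ℚ)) (g1 : Γ) (β0 : 𝓞 K) (L : ℕ) {r : ℕ} (f : Fin r → Γ) (s : JJ K → ℕ) :
    wd (aa σ lam β L) (uu σ v g1 β0 L) f s ∈ nice (JJ K → Fin L) := by
  intro k
  simp_rw [wd_form]
  fun_prop

lemma gK2_E {Γ : Type} [DecidableEq Γ] (σ : K →+* ℂ) (lam : I → ℂ) (α : I → K)
    (hα : ∀ i, σ (α i) = Complex.exp (lam i)) (β : I → 𝓞 K)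
    (v : Γ → Gal(K/ℚ)) (g1 : Γ) (β0 : 𝓞 K) {L M : ℕ} (p : (JJ K → Fin L) × Fin M → 𝓞 K)
    (E : ((JJ K → Fin L) × ℂ → ℂ) →ₗ[ℂ] ℂ)
    (hE : ∀ h ∈ nice (JJ K → Fin L), E h = ∑ km : (JJ K → Fin L) × Fin M, σ (p km : K) *
      iteratedDeriv (km.2 : ℕ) (fun ε : ℂ => h (km.1, ε)) 0)
    {r : ℕ} (f : Fin r → Γ) (s : JJ K → ℕ) :
    E (wd (aa σ lam β L) (uu σ v g1 β0 L) f s) = σ (gK2 α β v g1 β0 p f s) := by
  rw [hE _ (wd_nice σ lam β v g1 β0 L f s)]
  unfold gK2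
  rw [map_sum]
  apply sum_congr rfl
  intro km _
  simp_rw [wd_form]
  have h4 : ∀ A B Q e : K, σ (A * B * Q * e) = σ A * σ B * σ Q * σ e := by
    intro A B Q e
    rw [map_mul, map_mul, map_mul]
  rw [iteratedDeriv_const_mul_field, iteratedDeriv_pow_exp, h4, map_qq, eps_exp σ lam α hα]
  ring

end Field

end Pool.Agent.Lib.MP_60829e_nt.Bk
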