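import Mathlib
import Pool.Agent.Lib.MP_60829e_nt.CField

namespace Pool.Agent.Lib.MP_60829e_nt.Bk

open Finset NumberField Polynomial

/-- confluent Vandermonde -/
lemma confluent {F : Type} [Field F] [CharZero F] {κ : Type} [Fintype κ] (x : κ → F) (hx : Function.Injective x)
    (M : ℕ) (p : κ × Fin M → F)
    (h : ∀ r : ℕ, ∑ km : κ × Fin M, p km * (((r.descFactorial (km.2 : ℕ) : ℕ) : F) * x km.1 ^ (r - km.2)) = 0) :
    p = 0 := by
  classical
  -- vanishing against all polynomials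
  have hpoly : ∀ q : F[X], ∑ km : κ × Fin M, p km * (derivative^[(km.2 : ℕ)] q).eval (x km.1) = 0 := by
    intro q
    induction q using Polynomial.induction_on' with
    | add a b ha hb =>
      simp_rw [iterate_map_add, eval_add, mul_add]
      rw [sum_add_distrib, ha, hb, add_zero]
    | monomial n c =>
      have h1 := h n
      have h2 : ∀ km : κ × Fin M, (derivative^[(km.2 : ℕ)] (monomial n c)).eval (x km.1)
          = c * (((n.descFactorial (km.2 : ℕ) : ℕ) : F) * x km.1 ^ (n - km.2)) := by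
        intro km
        rw [← C_mul_X_pow_eq_monomial, iterate_derivative_C_mul, eval_mul, eval_C,
          iterate_derivative_X_pow_eq_natCast_mul]
        simp
      simp_rw [h2]
      have h3 : ∀ km : κ × Fin M, p km * (c * (((n.descFactorial (km.2 : ℕ) : ℕ) : F) * x km.1 ^ (n - km.2)))
          = c * (p km * (((n.descFactorial (km.2 : ℕ) : ℕ) : F) * x km.1 ^ (n - km.2))) := by
        intro km; ring
      simp_rw [h3]
      rw [← mul_sum, h1, mul_zero]
  by_contra hp
  obtain ⟨⟨k0, m1⟩, hkm⟩ : ∃ km, p km ≠ 0 := by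
    by_contra hcon
    push Not at hcon
    exact hp (funext hcon)
  -- maximal order at k0
  obtain ⟨m0, hm0, hmax⟩ : ∃ m0 : Fin M, p (k0, m0) ≠ 0 ∧ ∀ m : Fin M, m0 < m → p (k0, m) = 0 := by
    have hne : (univ.filter (fun m : Fin M => p (k0, m) ≠ 0)).Nonempty := ⟨m1, by simpa using hkm⟩
    refine ⟨(univ.filter (fun m : Fin M => p (k0, m) ≠ 0)).max' hne, ?_, ?_⟩
    · have := Finset.max'_mem _ hne
      rw [mem_filter] at this
      exact this.2
    · intro m hm
      by_contra hcon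
      have := Finset.le_max' (univ.filter (fun m : Fin M => p (k0, m) ≠ 0)) m (by simpa using hcon)
      exact absurd hm (not_lt.mpr this)
  let g : F[X] := ∏ k ∈ univ.erase k0, (X - C (x k)) ^ M
  let q : F[X] := g * (X - C (x k0)) ^ (m0 : ℕ)
  have hg0 : g ≠ 0 := by
    apply prod_ne_zero_iff.mpr
    intro k _
    exact pow_ne_zero _ (X_sub_C_ne_zero _)
  have hq0 : q ≠ 0 := mul_ne_zero hg0 (pow_ne_zero _ (X_sub_C_ne_zero _))
  have hgroot : rootMultiplicity (x k0) g = 0 := by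
    apply rootMultiplicity_eq_zero
    simp only [g]
    rw [IsRoot, eval_prod, prod_eq_zero_iff]
    rintro ⟨k, hk, h2⟩
    rw [eval_pow, eval_sub, eval_X, eval_C] at h2
    have h3 := (pow_eq_zero_iff (n := M) (by have := m0.isLt; omega)).mp h2
    rw [sub_eq_zero] at h3
    exact (ne_of_mem_erase hk) (hx h3).symm
  have hqroot : rootMultiplicity (x k0) q = m0 := by
    simp only [q]
    rw [rootMultiplicity_mul (by exact hq0), hgroot, rootMultiplicity_X_sub_C_pow, zero_add]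
  have hval : ∀ km : κ × Fin M, km ≠ (k0, m0) → p km * (derivative^[(km.2 : ℕ)] q).eval (x km.1) = 0 := by
    rintro ⟨k, m⟩ hne
    by_cases hk : k = k0
    · subst hk
      rcases lt_trichotomy m m0 with h1 | h1 | h1
      · have h2 : (m : ℕ) < rootMultiplicity (x k) q := by rw [hqroot]; exact h1
        have h3 := (lt_rootMultiplicity_iff_isRoot_iterate_derivative hq0).mp h2 m le_rfl
        rw [show eval (x (k, m).1) (derivative^[((k, m).2 : ℕ)] q) = 0 from h3, mul_zero]
      · exact absurd (by rw [h1]) hne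
      · rw [hmax m h1, zero_mul]
    · have h1 : (X - C (x k)) ^ M ∣ q := by
        apply dvd_mul_of_dvd_left
        exact dvd_prod_of_mem (fun k => (X - C (x k)) ^ M) (mem_erase.mpr ⟨hk, mem_univ k⟩)
      have h2 : M ≤ rootMultiplicity (x k) q := (le_rootMultiplicity_iff hq0).mpr h1
      have h3 := (lt_rootMultiplicity_iff_isRoot_iterate_derivative hq0).mp
        (lt_of_lt_of_le m.isLt h2) m le_rfl
      rw [show eval (x (k, m).1) (derivative^[((k, m).2 : ℕ)] q) = 0 from h3, mul_zero]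
  have h1 := hpoly q
  rw [Finset.sum_eq_single_of_mem (k0, m0) (mem_univ _) (fun km _ hne => hval km hne)] at h1
  rcases mul_eq_zero.mp h1 with h2 | h2
  · exact hm0 h2
  · have h3 : (m0 : ℕ) < rootMultiplicity (x k0) q := by
      rw [lt_rootMultiplicity_iff_isRoot_iterate_derivative hq0]
      intro m hm
      rcases Nat.lt_or_ge m m0 with h4 | h4
      · have h5 : m < rootMultiplicity (x k0) q := by rw [hqroot]; exact h4
        exact (lt_rootMultiplicity_iff_isRoot_iterate_derivative hq0).mp h5 m le_rfl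
      · have : m = m0 := by omega
        rw [this]
        exact h2
    rw [hqroot] at h3
    exact lt_irrefl _ h3

section Field

variable {K : Type} [Field K] [NumberField K] {I : Type} [Fintype I]

lemma qq_zero {R : Type} [CommRing R] (m τ : ℕ) (X : R) :
    qq m τ X 0 = ((τ.descFactorial m : ℕ) : R) * X ^ (τ - m) := by
  unfold qq
  rw [Finset.sum_eq_single_of_mem m (mem_range.mpr (Nat.lt_succ_self m))]
  · simp
  · intro i hi hne
    rw [mem_range] at hi
    have : m - i ≠ 0 := by omega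
    rw [zero_pow this, mul_zero]

lemma gK2_ne {Γ : Type} [DecidableEq Γ] (α : I → K) (β : I → 𝓞 K) (v : Γ → Gal(K/ℚ)) (g1 : Γ)
    (β0 : 𝓞 K) (hβ0 : β0 ≠ 0) {L M : ℕ} (p : (JJ K → Fin L) × Fin M → 𝓞 K) (hp : p ≠ 0) :
    ∃ r : ℕ, gK2 α β v g1 β0 p (fun _ : Fin r => g1) 0 ≠ 0 := by
  by_contra hcon
  push Not at hcon
  apply hp
  have hβ0' : (β0 : K) ≠ 0 := by
    intro h
    apply hβ0
    apply RingOfIntegers.ext
    simpa using h
  have h1 := confluent (fun k : JJ K → Fin L => -(β0 : K) * (xx (fun j => (k j : ℕ)) : K)) (by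
    intro k1 k2 h
    have h2 := mul_left_cancel₀ (neg_ne_zero.mpr hβ0') h
    have h3 : xx (fun j => (k1 j : ℕ)) = xx (fun j => (k2 j : ℕ)) := RingOfIntegers.ext h2
    have h4 := xx_inj _ _ h3
    funext j
    exact Fin.ext (congrFun h4 j)) M (fun km => (p km : K)) (by
    intro r
    have h1 := hcon r
    unfold gK2 at h1
    rw [← h1]
    apply sum_congr rfl
    intro km _
    have h0 : xx (0 : JJ K → ℕ) = 0 := by unfold xx; simp
    have h2 : eps α β (xx (fun j => (km.1 j : ℕ)) * xx 0) = 1 := by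
      rw [h0, mul_zero]
      unfold eps tt
      simp
    rw [h2, h0]
    simp [qq_zero])
  funext km
  have := congrFun h1 km
  apply RingOfIntegers.ext
  simpa using this

lemma aa_nice (σ : K →+* ℂ) (lam : I → ℂ) (β : I → 𝓞 K) (L : ℕ) (h : JJ K → ℂ → ℂ)
    (hh : ∀ j, Differentiable ℂ (h j)) : pf (aa σ lam β L) h ∈ nice (JJ K → Fin L) := by
  intro k
  unfold pf aa
  apply Differentiable.fun_finset_prod
  intro j _
  exact (hh j).comp (by fun_prop : Differentiable ℂ (fun ε : ℂ =>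
    Lam lam β (RingOfIntegers.basis K j * xx (fun j => (k j : ℕ))) + ε * σ (RingOfIntegers.basis K j : K)))

lemma gK2_int {Γ : Type} [DecidableEq Γ] (α : I → K) (β : I → 𝓞 K) (v : Γ → Gal(K/ℚ)) (g1 : Γ)
    (β0 : 𝓞 K) {L M : ℕ} (p : (JJ K → Fin L) × Fin M → 𝓞 K) {r : ℕ} (f : Fin r → Γ) (s : JJ K → ℕ) (D : ℕ)
    (hD : ∀ k : JJ K → Fin L, IsIntegral ℤ ((D : K) * eps α β (xx (fun j => (k j : ℕ)) * xx s))) :
    IsIntegral ℤ ((D : K) * gK2 α β v g1 β0 p f s) := by
  unfold gK2
  rw [mul_sum]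
  apply IsIntegral.sum
  intro km _
  have h1 : ∀ A B Q e : K, (D : K) * (A * B * Q * e) = A * B * Q * ((D : K) * e) := by
    intro A B Q e; ring
  rw [h1]
  apply IsIntegral.mul _ (hD km.1)
  apply IsIntegral.mul
  · apply IsIntegral.mul (RingOfIntegers.isIntegral_coe _)
    apply IsIntegral.prod
    intro l _
    by_cases h : f l = g1
    · rw [if_pos h]; exact isIntegral_one
    · rw [if_neg h]
      exact (RingOfIntegers.isIntegral_coe (xx (fun j => (km.1 j : ℕ)))).map ((v (f l)).toAlgHom.restrictScalars ℤ)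
  · apply qq_int
    · exact ((RingOfIntegers.isIntegral_coe β0).neg).mul (RingOfIntegers.isIntegral_coe _)
    · exact RingOfIntegers.isIntegral_coe _

lemma gK2_norm {Γ : Type} [DecidableEq Γ] (α : I → K) (β : I → 𝓞 K) (v : Γ → Gal(K/ℚ)) (g1 : Γ)
    (β0 : 𝓞 K) {L M : ℕ} (p : (JJ K → Fin L) × Fin M → 𝓞 K) {r : ℕ} (f : Fin r → Γ) (s : JJ K → ℕ)
    (φ : K →+* ℂ) {P X Y E : ℝ}
    (hP0 : 0 ≤ P) (hX0 : 1 ≤ X) (hY0 : 0 ≤ Y) (hYr : 1 ≤ Y + r)
    (hP : ∀ k, ‖φ (p k : K)‖ ≤ P)
    (hX : ∀ (k : JJ K → Fin L) (g : Γ), ‖φ (v g (xx (fun j => (k j : ℕ)) : K))‖ ≤ X)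
    (hX' : ∀ (k : JJ K → Fin L), ‖φ (-(β0 : K) * (xx (fun j => (k j : ℕ)) : K))‖ ≤ X)
    (hY : ‖φ (xx s : K)‖ ≤ Y)
    (hE : ∀ k : JJ K → Fin L, ‖φ (eps α β (xx (fun j => (k j : ℕ)) * xx s))‖ ≤ E) :
    ‖φ (gK2 α β v g1 β0 p f s)‖ ≤ ((L : ℝ) ^ (Fintype.card (JJ K)) * M) * P * (X ^ r * (Y + r) ^ M) * E := by
  classical
  unfold gK2
  rw [map_sum]
  refine (norm_sum_le _ _).trans ?_
  have h1 : ∀ km ∈ (univ : Finset ((JJ K → Fin L) × Fin M)), ‖φ ((p km : K) *
      (∏ l, if f l = g1 then 1 else v (f l) (xx (fun j => (km.1 j : ℕ)) : K)) *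
    qq (km.2 : ℕ) (#{l | f l = g1}) (-(β0 : K) * (xx (fun j => (km.1 j : ℕ)) : K)) (xx s : K) *
    eps α β (xx (fun j => (km.1 j : ℕ)) * xx s))‖ ≤ P * (X ^ r * (Y + r) ^ M) * E := by
    intro km _
    have h4 : ∀ A B Q e : K, ‖φ (A * B * Q * e)‖ = ‖φ A‖ * ‖φ B‖ * ‖φ Q‖ * ‖φ e‖ := by
      intro A B Q e
      rw [map_mul, map_mul, map_mul, norm_mul, norm_mul, norm_mul]
    rw [h4, map_qq]
    have h5 : ‖φ (∏ l, if f l = g1 then 1 else v (f l) (xx (fun j => (km.1 j : ℕ)) : K))‖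
        ≤ X ^ (#{l | ¬ f l = g1}) := by
      rw [map_prod, norm_prod, ← prod_const, prod_filter]
      apply prod_le_prod
      · intro l _; exact norm_nonneg _
      · intro l _
        by_cases h : f l = g1
        · simp [h]
        · rw [if_neg h, if_pos h]; exact hX _ _
    have h6 := qq_norm (km.2 : ℕ) (#{l | f l = g1}) (φ (-(β0 : K) * (xx (fun j => (km.1 j : ℕ)) : K)))
      (φ (xx s : K)) hX0 (hX' km.1) hY
    have hcard : #{l | f l = g1} + #{l | ¬ f l = g1} = r := by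
      rw [Finset.card_filter_add_card_filter_not]
      simp
    have h7 : (Y + (#{l | f l = g1} : ℕ)) ^ (km.2 : ℕ) ≤ (Y + r) ^ M := by
      have h8 : ((#{l | f l = g1} : ℕ) : ℝ) ≤ r := by
        have : #{l | f l = g1} ≤ r := by omega
        exact_mod_cast this
      calc (Y + (#{l | f l = g1} : ℕ)) ^ (km.2 : ℕ) ≤ (Y + r) ^ (km.2 : ℕ) := by gcongr
        _ ≤ (Y + r) ^ M := pow_le_pow_right₀ hYr km.2.isLt.le
    have hX00 : 0 ≤ X := by linarith
    calc ‖φ (p km : K)‖ * ‖φ (∏ l, if f l = g1 then 1 else v (f l) (xx (fun j => (km.1 j : ℕ)) : K))‖ *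
        ‖qq (km.2 : ℕ) (#{l | f l = g1}) (φ (-(β0 : K) * (xx (fun j => (km.1 j : ℕ)) : K))) (φ (xx s : K))‖ *
        ‖φ (eps α β (xx (fun j => (km.1 j : ℕ)) * xx s))‖
        ≤ P * X ^ (#{l | ¬ f l = g1}) * (X ^ (#{l | f l = g1}) * (Y + r) ^ M) * E := by
          have h9 := hP km
          have h10 := hE km.1
          have h11 := h6.trans (mul_le_mul_of_nonneg_left h7 (by positivity))
          gcongr
      _ = P * (X ^ r * (Y + r) ^ M) * E := by
          have h12 : X ^ r = X ^ (#{l | f l = g1}) * X ^ (#{l | ¬ f l = g1}) := by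
            rw [← pow_add, hcard]
          rw [h12]
          ring
  refine (Finset.sum_le_sum h1).trans ?_
  rw [sum_const, card_univ, Fintype.card_prod, Fintype.card_fun, Fintype.card_fin, Fintype.card_fin, nsmul_eq_mul]
  push_cast
  apply le_of_eq
  ring

end Field

end Pool.Agent.Lib.MP_60829e_nt.Bk
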