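import Mathlib
import Pool.Agent.Lib.MP_60829e_nt.CFieldB
import Pool.Agent.Lib.MP_60829e_nt.CNum
import Pool.Agent.Lib.MP_60829e_nt.BFieldD

namespace Pool.Agent.Lib.MP_60829e_nt.Bk

open Finset NumberField

section Field

variable {K : Type} [Field K] [NumberField K] [IsGalois ℚ K] {I : Type} [Fintype I]

/-- The inhomogeneous linear form cannot vanish with a nonzero constant term. -/
theorem field_baker_inhom (σ : K →+* ℂ) (lam : I → ℂ) (α : I → K) (hα : ∀ i, σ (α i) = Complex.exp (lam i))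
    (β : I → 𝓞 K) (β0 : 𝓞 K) (hβ0 : β0 ≠ 0) (hzero : σ (β0 : K) + ∑ i, lam i * σ (β i : K) = 0) : False := by
  classical
  have hβ0' : (β0 : K) ≠ 0 := by
    intro h
    apply hβ0
    apply RingOfIntegers.ext
    simpa using h
  have hc1 : cg σ lam β 1 = -σ (β0 : K) := by
    unfold cg
    rw [eq_neg_iff_add_eq_zero, add_comm, ← hzero]
    congr 1
  have hc1' : cg σ lam β 1 ≠ 0 := by
    rw [hc1, neg_ne_zero]
    exact (map_ne_zero σ).mpr hβ0'
  obtain ⟨N, hN⟩ := exists_dual (K := K) σ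
  let Γ := {g : Gal(K/ℚ) // cg σ lam β g ≠ 0}
  let g1 : Γ := ⟨1, hc1'⟩
  obtain ⟨e, he⟩ : ∃ e, Fintype.card (JJ K) = e + 1 := by
    refine ⟨Fintype.card (JJ K) - 1, ?_⟩
    have : 0 < Fintype.card (JJ K) := by rw [card_JJ]; exact Module.finrank_pos
    omega
  have hΓe : Fintype.card Γ ≤ e + 1 := by
    have h1 : Fintype.card Γ ≤ Fintype.card (Gal(K/ℚ)) := Fintype.card_subtype_le _
    rw [card_G, he] at h1
    exact h1
  let v : Γ → Gal(K/ℚ) := fun g => g.1
  let R : Γ → JJ K → ℂ := fun g j => if g = g1 then N g.1 j else (cg σ lam β g.1)⁻¹ * N g.1 j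
  obtain ⟨C1, Q, hC1', hQ1, hQC', hIC', hxx', htt', hLam', hR'', hint1, hint2, hal1', hal2', hsieg'⟩ :=
    constants σ lam α β R
  obtain ⟨C2, hC2⟩ := exists_bd (fun j : JJ K => (RingOfIntegers.basis K j : K))
  obtain ⟨C3, hC3⟩ := exists_bd (fun _ : Unit => (β0 : K))
  obtain ⟨C, hC⟩ : ∃ C : ℕ, C = C1 * (C3 + 1) + C2 := ⟨_, rfl⟩
  have hC1C : C1 ≤ C := by rw [hC]; nlinarith
  have hC1 : 1 ≤ C := hC1'.trans hC1C
  have hCC1 : (C1 : ℝ) ≤ C := by exact_mod_cast hC1C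
  have hCr : (1:ℝ) ≤ C := by exact_mod_cast hC1
  have hQC : Q ≤ C := hQC'.trans hC1C
  have hIC : Fintype.card I ≤ C := hIC'.trans hC1C
  obtain ⟨S, hS⟩ : ∃ S, S = e * (e + 1) + e ^ 2 * (e + 2) + (e + 1) * (2 * e + 3) + 1 := ⟨_, rfl⟩
  have hS1 : 1 ≤ S := by omega
  obtain ⟨B, hB⟩ := numeric2 e C S hC1 hS
  obtain ⟨n0, hn0⟩ := exists_nat_gt B
  -- parameters
  obtain ⟨n, hn⟩ : ∃ n, n = max n0 1 := ⟨_, rfl⟩
  have hn1 : 1 ≤ n := by rw [hn]; exact le_max_right _ _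
  have hnn0 : n0 ≤ n := by rw [hn]; exact le_max_left _ _
  obtain ⟨T, hT⟩ : ∃ T, T = n ^ (e + 1) := ⟨_, rfl⟩
  obtain ⟨L, hL⟩ : ∃ L, L = 2 * S * n ^ e := ⟨_, rfl⟩
  obtain ⟨E, hE⟩ : ∃ E, E = C * L * S := ⟨_, rfl⟩
  have hT1 : 1 ≤ T := by rw [hT]; exact Nat.one_le_pow _ _ hn1
  have hL1 : 1 ≤ L := by
    rw [hL]
    have : 1 ≤ n ^ e := Nat.one_le_pow _ _ hn1
    nlinarith
  have hLr : (1:ℝ) ≤ L := by exact_mod_cast hL1
  have hTr : (1:ℝ) ≤ T := by exact_mod_cast hT1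
  have hSr : (1:ℝ) ≤ S := by exact_mod_cast hS1
  obtain ⟨D, hD⟩ : ∃ D : ℕ, D = Q ^ (Fintype.card I * E) := ⟨_, rfl⟩
  have hD1 : 1 ≤ D := by rw [hD]; exact Nat.one_le_pow _ _ hQ1
  have hDC : (D : ℝ) ≤ (C : ℝ) ^ (C * E) := by
    rw [hD]
    push_cast
    calc (Q : ℝ) ^ (Fintype.card I * E) ≤ (C : ℝ) ^ (Fintype.card I * E) := by
          apply pow_le_pow_left₀ (Nat.cast_nonneg _)
          exact_mod_cast hQC
      _ ≤ (C : ℝ) ^ (C * E) := by
          apply pow_le_pow_right₀ hCr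
          exact Nat.mul_le_mul_right _ hIC
  -- bounds
  have hxk : ∀ (k : JJ K → Fin L) (φ : K →+* ℂ), ‖φ (xx (fun j => (k j : ℕ)) : K)‖ ≤ C1 * L :=
    fun k φ => hxx' _ L (fun j => (k j).isLt.le) φ
  have hxkg : ∀ (k : JJ K → Fin L) (φ : K →+* ℂ) (g : Gal(K/ℚ)), ‖φ (g (xx (fun j => (k j : ℕ)) : K))‖ ≤ C * L := by
    intro k φ g
    refine (hxk k (φ.comp (g : K →+* K))).trans ?_
    gcongr
  have hxkb : ∀ (k : JJ K → Fin L) (φ : K →+* ℂ), ‖φ (-(β0 : K) * (xx (fun j => (k j : ℕ)) : K))‖ ≤ C * L := by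
    intro k φ
    rw [map_mul, norm_mul, map_neg, norm_neg]
    have h1 := hC3 () φ
    have h2 := hxk k φ
    calc ‖φ (β0 : K)‖ * ‖φ (xx (fun j => (k j : ℕ)) : K)‖ ≤ C3 * (C1 * L) :=
          mul_le_mul h1 h2 (norm_nonneg _) (Nat.cast_nonneg _)
      _ = ((C3 * C1 : ℕ) : ℝ) * L := by push_cast; ring
      _ ≤ C * L := by
          apply mul_le_mul_of_nonneg_right _ (Nat.cast_nonneg _)
          have : C3 * C1 ≤ C := by rw [hC]; nlinarith
          exact_mod_cast this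
  have hys : ∀ (s : JJ K → ℕ), (∀ j, s j < S) → ∀ φ : K →+* ℂ, ‖φ (xx s : K)‖ ≤ C * S := by
    intro s hs φ
    refine (hxx' s S (fun j => (hs j).le) φ).trans ?_
    gcongr
  have httE : ∀ (k : JJ K → Fin L) (s : JJ K → ℕ), (∀ j, s j < S) → ∀ i,
      (tt β i (xx (fun j => (k j : ℕ)) * xx s)).natAbs ≤ E := by
    intro k s hs i
    rw [hE]
    refine (htt' _ _ L S (fun j => (k j).isLt.le) (fun j => (hs j).le) i).trans ?_
    gcongr
  have hal1 : ∀ i, ∀ φ : K →+* ℂ, ‖φ (α i)‖ ≤ C := fun i φ => (hal1' i φ).trans hCC1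
  have hal2 : ∀ i, ∀ φ : K →+* ℂ, ‖φ (α i)⁻¹‖ ≤ C := fun i φ => (hal2' i φ).trans hCC1
  have hepsint : ∀ (k : JJ K → Fin L) (s : JJ K → ℕ), (∀ j, s j < S) →
      IsIntegral ℤ ((D : K) * eps α β (xx (fun j => (k j : ℕ)) * xx s)) := by
    intro k s hs
    rw [hD]
    exact eps_int α Q hint1 hint2 _ E (httE k s hs)
  have hepsn : ∀ (k : JJ K → Fin L) (s : JJ K → ℕ), (∀ j, s j < S) → ∀ φ : K →+* ℂ,
      ‖φ (eps α β (xx (fun j => (k j : ℕ)) * xx s))‖ ≤ (C : ℝ) ^ (C * E) := by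
    intro k s hs φ
    refine (eps_norm α hCr hal1 hal2 _ E (httE k s hs) φ).trans ?_
    apply pow_le_pow_right₀ hCr
    exact Nat.mul_le_mul_right _ hIC
  obtain ⟨A, hA⟩ : ∃ A : ℝ, A = ((C : ℝ) * L) ^ ((e + 1) * T) * ((C : ℝ) * S + T) ^ T *
    ((C : ℝ) ^ (C * E) * (C : ℝ) ^ (C * E)) := ⟨_, rfl⟩
  have hCL : (1:ℝ) ≤ C * L := by nlinarith
  have hCS : (1:ℝ) ≤ C * S := by nlinarith
  have hCE : (1:ℝ) ≤ (C : ℝ) ^ (C * E) := one_le_pow₀ hCr
  have hCST : (1:ℝ) ≤ (C : ℝ) * S + T := by linarith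
  have hA1 : 1 ≤ A := by
    rw [hA]
    have h1 : (1:ℝ) ≤ ((C : ℝ) * L) ^ ((e + 1) * T) := one_le_pow₀ hCL
    have h2 : (1:ℝ) ≤ ((C : ℝ) * S + T) ^ T := one_le_pow₀ hCST
    calc (1:ℝ) = 1 * 1 * (1 * 1) := by ring
      _ ≤ _ := by gcongr
  -- Siegel
  let ent : ((Γ → Fin T) × (JJ K → Fin S)) → ((JJ K → Fin L) × Fin T) → K := fun m km =>
    ((∏ g : Γ, if g = g1 then 1 else (v g (xx (fun j => (km.1 j : ℕ)) : K)) ^ (m.1 g : ℕ)) *
      qq (km.2 : ℕ) (m.1 g1 : ℕ) (-(β0 : K) * (xx (fun j => (km.1 j : ℕ)) : K)) (xx (fun j => (m.2 j : ℕ)) : K)) *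
      ((D : K) * eps α β (xx (fun j => (km.1 j : ℕ)) * xx (fun j => (m.2 j : ℕ))))
  have hTne : NeZero T := ⟨by omega⟩
  have hSne : NeZero S := ⟨by omega⟩
  have hLne : NeZero L := ⟨by omega⟩
  have hcard : Fintype.card ((Γ → Fin T) × (JJ K → Fin S)) = T ^ (Fintype.card Γ) * S ^ (e + 1) := by
    rw [Fintype.card_prod, Fintype.card_fun, Fintype.card_fun, Fintype.card_fin, Fintype.card_fin, he]
  have hcard2 : Fintype.card ((JJ K → Fin L) × Fin T) = L ^ (e + 1) * T := by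
    rw [Fintype.card_prod, Fintype.card_fun, Fintype.card_fin, Fintype.card_fin, he]
  obtain ⟨p, hp0, hpeq, hpb'⟩ := hsieg' _ _ ent A hA1 (by
      rw [hcard]; positivity) (by
      rw [hcard, hcard2]
      have h1 : T ^ (Fintype.card Γ) ≤ T ^ (e + 1) := Nat.pow_le_pow_right hT1 hΓe
      have h2 : L ^ (e + 1) = (2 * S) ^ (e + 1) * T ^ e := by
        rw [hL, hT, mul_pow, ← pow_mul, ← pow_mul, mul_comm e]
      rw [h2, mul_pow]
      have h3 : 2 ≤ 2 ^ (e + 1) := by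
        calc 2 = 2 ^ 1 := rfl
          _ ≤ 2 ^ (e + 1) := Nat.pow_le_pow_right (by norm_num) (by omega)
      calc 2 * (T ^ (Fintype.card Γ) * S ^ (e + 1)) ≤ 2 ^ (e + 1) * (T ^ (e + 1) * S ^ (e + 1)) := by gcongr
        _ = 2 ^ (e + 1) * S ^ (e + 1) * T ^ e * T := by ring) (by
      intro m km
      apply IsIntegral.mul _ (hepsint km.1 _ (fun j => (m.2 j).isLt))
      apply IsIntegral.mul
      · apply IsIntegral.prod
        intro g _
        by_cases h : g = g1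
        · rw [if_pos h]; exact isIntegral_one
        · rw [if_neg h]
          apply IsIntegral.pow
          exact (RingOfIntegers.isIntegral_coe (xx (fun j => (km.1 j : ℕ)))).map ((v g).toAlgHom.restrictScalars ℤ)
      · apply qq_int
        · exact ((RingOfIntegers.isIntegral_coe β0).neg).mul (RingOfIntegers.isIntegral_coe _)
        · exact RingOfIntegers.isIntegral_coe _) (by
      intro m km φ
      simp only [ent]
      have h4 : ∀ A B D' e' : K, ‖φ ((A * B) * (D' * e'))‖ = ‖φ A‖ * ‖φ B‖ * (‖φ D'‖ * ‖φ e'‖) := by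
        intro A B D' e'
        rw [map_mul, map_mul, map_mul, norm_mul, norm_mul, norm_mul]
      rw [h4, map_natCast, Complex.norm_natCast, map_qq, map_prod, norm_prod, hA]
      have h1 : ∏ g : Γ, ‖φ (if g = g1 then 1 else (v g (xx (fun j => (km.1 j : ℕ)) : K)) ^ (m.1 g : ℕ))‖
          ≤ ((C : ℝ) * L) ^ (Fintype.card Γ * T - T) := by
        calc ∏ g : Γ, ‖φ (if g = g1 then 1 else (v g (xx (fun j => (km.1 j : ℕ)) : K)) ^ (m.1 g : ℕ))‖
            ≤ ∏ g : Γ, (if g = g1 then 1 else ((C : ℝ) * L) ^ T) := by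
              apply prod_le_prod
              · intro g _; exact norm_nonneg _
              · intro g _
                by_cases h : g = g1
                · simp [h]
                · rw [if_neg h, if_neg h, map_pow, norm_pow]
                  exact (pow_le_pow_left₀ (norm_nonneg _) (hxkg km.1 φ (v g)) _).trans
                    (pow_le_pow_right₀ hCL (m.1 g).isLt.le)
          _ = ((C : ℝ) * L) ^ (Fintype.card Γ * T - T) := by
              rw [← mul_prod_erase univ _ (mem_univ g1), if_pos rfl, one_mul]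
              have h5 : ∀ g ∈ univ.erase g1, (if g = g1 then (1:ℝ) else ((C : ℝ) * L) ^ T) = ((C : ℝ) * L) ^ T := by
                intro g hg
                rw [if_neg (ne_of_mem_erase hg)]
              rw [prod_congr rfl h5, prod_const, card_erase_of_mem (mem_univ g1), card_univ, ← pow_mul,
                mul_comm T, Nat.sub_mul, one_mul]
      have h2 := hepsn km.1 (fun j => (m.2 j : ℕ)) (fun j => (m.2 j).isLt) φ
      have h3 := qq_norm (km.2 : ℕ) (m.1 g1 : ℕ) (φ (-(β0 : K) * (xx (fun j => (km.1 j : ℕ)) : K)))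
        (φ (xx (fun j => (m.2 j : ℕ)) : K)) hCL (hxkb km.1 φ) (hys _ (fun j => (m.2 j).isLt) φ)
      have h3' : ((C : ℝ) * L) ^ (m.1 g1 : ℕ) * ((C : ℝ) * S + (m.1 g1 : ℕ)) ^ (km.2 : ℕ)
          ≤ ((C : ℝ) * L) ^ T * ((C : ℝ) * S + T) ^ T := by
        have h6 : ((m.1 g1 : ℕ) : ℝ) ≤ T := by exact_mod_cast (m.1 g1).isLt.le
        have h7 : ((C : ℝ) * S + (m.1 g1 : ℕ)) ^ (km.2 : ℕ) ≤ ((C : ℝ) * S + T) ^ T := by
          calc ((C : ℝ) * S + (m.1 g1 : ℕ)) ^ (km.2 : ℕ) ≤ ((C : ℝ) * S + T) ^ (km.2 : ℕ) := by gcongr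
            _ ≤ _ := pow_le_pow_right₀ hCST km.2.isLt.le
        have h8 : ((C : ℝ) * L) ^ (m.1 g1 : ℕ) ≤ ((C : ℝ) * L) ^ T := pow_le_pow_right₀ hCL (m.1 g1).isLt.le
        gcongr
      have h9 : ((C : ℝ) * L) ^ (Fintype.card Γ * T - T) * ((C : ℝ) * L) ^ T ≤ ((C : ℝ) * L) ^ ((e + 1) * T) := by
        rw [← pow_add]
        apply pow_le_pow_right₀ hCL
        have h10 : 1 ≤ Fintype.card Γ := Fintype.card_pos_iff.mpr ⟨g1⟩
        have h11 : T ≤ Fintype.card Γ * T := by nlinarith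
        rw [Nat.sub_add_cancel h11]
        exact Nat.mul_le_mul_right _ hΓe
      calc (∏ g : Γ, ‖φ (if g = g1 then 1 else (v g (xx (fun j => (km.1 j : ℕ)) : K)) ^ (m.1 g : ℕ))‖) *
          ‖qq (km.2 : ℕ) (m.1 g1 : ℕ) (φ (-(β0 : K) * (xx (fun j => (km.1 j : ℕ)) : K)))
            (φ (xx (fun j => (m.2 j : ℕ)) : K))‖ *
          ((D : ℝ) * ‖φ (eps α β (xx (fun j => (km.1 j : ℕ)) * xx (fun j => (m.2 j : ℕ))))‖)
          ≤ ((C : ℝ) * L) ^ (Fintype.card Γ * T - T) * (((C : ℝ) * L) ^ T * ((C : ℝ) * S + T) ^ T) *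
            ((C : ℝ) ^ (C * E) * (C : ℝ) ^ (C * E)) := by
            have h12 := h3.trans h3'
            gcongr
        _ = (((C : ℝ) * L) ^ (Fintype.card Γ * T - T) * ((C : ℝ) * L) ^ T) * ((C : ℝ) * S + T) ^ T *
            ((C : ℝ) ^ (C * E) * (C : ℝ) ^ (C * E)) := by ring
        _ ≤ _ := by gcongr) (by
      refine ⟨(fun _ => 0, fun _ => 0), (fun _ => 0, 0), ?_⟩
      simp only [ent]
      apply mul_ne_zero
      · apply mul_ne_zero
        · rw [prod_ne_zero_iff]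
          intro g _
          by_cases h : g = g1
          · simp [h]
          · simp [h]
        · simp [qq]
      · apply mul_ne_zero
        · have : D ≠ 0 := by omega
          exact_mod_cast this
        · intro h
          have h2 := eps_exp σ lam α hα β (xx (fun j => (((fun _ => 0 : JJ K → Fin L) j : Fin L) : ℕ)) *
            xx (fun j => (((fun _ => 0 : JJ K → Fin S) j : Fin S) : ℕ)))
          rw [h, map_zero] at h2
          exact (Complex.exp_ne_zero _) h2.symm)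
  rw [hcard2] at hpb'
  push_cast at hpb'
  obtain ⟨P, hP⟩ : ∃ P : ℝ, P = C * (C * ((L : ℝ) ^ (e + 1) * T) * A) := ⟨_, rfl⟩
  have hA0 : 0 ≤ A := by linarith
  have hP0 : 0 ≤ P := by rw [hP]; positivity
  have hpb : ∀ km, ∀ φ : K →+* ℂ, ‖φ (p km : K)‖ ≤ P := by
    intro km φ
    refine (hpb' km φ).trans ?_
    rw [hP]
    gcongr
  -- vanishing up to order T
  have hvanT : ∀ r : ℕ, r < T → ∀ f : Fin r → Γ, ∀ s : JJ K → ℕ, (∀ j, s j < S) →
      gK2 α β v g1 β0 p f s = 0 := by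
    intro r hr f s hs
    have h1 := hpeq (fun g => ⟨#{l | f l = g}, by
      refine lt_of_le_of_lt (card_filter_le _ _) ?_
      simpa using hr⟩, fun j => ⟨s j, hs j⟩)
    simp only [ent] at h1
    have hDne : (D : K) ≠ 0 := by
      have : D ≠ 0 := by omega
      exact_mod_cast this
    apply mul_left_cancel₀ hDne
    rw [mul_zero, ← h1]
    unfold gK2
    rw [mul_sum]
    apply sum_congr rfl
    intro km _
    have h2 : (∏ l, if f l = g1 then 1 else v (f l) (xx (fun j => (km.1 j : ℕ)) : K))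
        = ∏ g : Γ, if g = g1 then 1 else (v g (xx (fun j => (km.1 j : ℕ)) : K)) ^ (#{l | f l = g}) := by
      rw [← Finset.prod_fiberwise univ f (fun l => if f l = g1 then 1 else v (f l) (xx (fun j => (km.1 j : ℕ)) : K))]
      apply prod_congr rfl
      intro j _
      by_cases hj : j = g1
      · rw [if_pos hj]
        apply prod_eq_one
        intro l hl
        rw [mem_filter] at hl
        rw [hl.2, if_pos hj]
      · rw [if_neg hj, ← prod_const]
        apply prod_congr rfl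
        intro l hl
        rw [mem_filter] at hl
        rw [hl.2, if_neg hj]
    rw [h2]
    ring
  -- first nonvanishing order
  have hex : ∃ r : ℕ, ∃ f : Fin r → Γ, ∃ s : JJ K → ℕ, (∀ j, s j < S) ∧ gK2 α β v g1 β0 p f s ≠ 0 := by
    obtain ⟨r, hr⟩ := gK2_ne α β v g1 β0 hβ0 p hp0
    exact ⟨r, _, 0, fun j => by simp only [Pi.zero_apply]; omega, hr⟩
  obtain ⟨X, ⟨f, s, hs, hne⟩, hmin⟩ : ∃ X : ℕ, (∃ f : Fin X → Γ, ∃ s : JJ K → ℕ, (∀ j, s j < S) ∧
      gK2 α β v g1 β0 p f s ≠ 0) ∧ ∀ r < X, ¬ (∃ f : Fin r → Γ, ∃ s : JJ K → ℕ, (∀ j, s j < S) ∧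
      gK2 α β v g1 β0 p f s ≠ 0) := ⟨Nat.find hex, Nat.find_spec hex, fun r hr => Nat.find_min hex hr⟩
  have hTX : T ≤ X := by
    by_contra hcon
    push Not at hcon
    exact hne (hvanT X hcon f s hs)
  have hX1 : 1 ≤ X := hT1.trans hTX
  have hXr : (1:ℝ) ≤ X := by exact_mod_cast hX1
  have hvan : ∀ r < X, ∀ f : Fin r → Γ, ∀ s : JJ K → ℕ, (∀ j, s j < S) → gK2 α β v g1 β0 p f s = 0 := by
    intro r hr f s hs
    by_contra hcon
    exact hmin r hr ⟨f, s, hs, hcon⟩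
  -- complex side
  obtain ⟨EE, hEE⟩ := exists_E (κ := JJ K → Fin L) (M := T) (fun km => σ (p km : K))
  obtain ⟨a, ha⟩ : ∃ a : ((JJ K → Fin L) × ℂ) → JJ K → ℂ, a = aa σ lam β L := ⟨_, rfl⟩
  obtain ⟨u, hu⟩ : ∃ u : ((JJ K → Fin L) × ℂ) → Γ → ℂ, u = uu σ v g1 β0 L := ⟨_, rfl⟩
  have hgam : ∀ (r : ℕ) (f : Fin r → Γ) (s : JJ K → ℕ), EE (wd a u f s) = σ (gK2 α β v g1 β0 p f s) := by
    intro r f s
    rw [ha, hu]
    exact gK2_E σ lam α hα β v g1 β0 p EE hEE f s
  -- linear relations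
  have hP' : ∀ ω j, a ω j = ∑ g : Γ, (if g = g1 then σ (RingOfIntegers.basis K j : K) else
      cg σ lam β g.1 * σ (g.1 (RingOfIntegers.basis K j : K))) * u ω g := by
    rintro ⟨k, ε⟩ j
    rw [ha, hu]
    simp only [aa]
    rw [Lam_eq σ]
    have h1 : ∑ g : Gal(K/ℚ), cg σ lam β g * σ (g ((RingOfIntegers.basis K j * xx (fun j => (k j : ℕ)) : 𝓞 K) : K))
        = ∑ g ∈ univ.filter (fun g : Gal(K/ℚ) => cg σ lam β g ≠ 0), cg σ lam β g * σ (g ((RingOfIntegers.basis K j * xx (fun j => (k j : ℕ)) : 𝓞 K) : K)) := by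
      rw [sum_filter]
      apply sum_congr rfl
      intro g _
      by_cases h : cg σ lam β g = 0
      · simp [h]
      · simp [h]
    rw [h1]
    rw [← Finset.sum_subtype_eq_sum_filter]
    rw [Finset.subtype_univ]
    rw [← add_sum_erase univ _ (mem_univ g1), ← add_sum_erase univ _ (mem_univ g1)]
    have h2 : ∀ g ∈ univ.erase g1, (if g = g1 then σ (RingOfIntegers.basis K j : K) else
      cg σ lam β g.1 * σ (g.1 (RingOfIntegers.basis K j : K))) * uu σ v g1 β0 L (k, ε) g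
        = cg σ lam β g.1 * σ (g.1 ((RingOfIntegers.basis K j * xx (fun j => (k j : ℕ)) : 𝓞 K) : K)) := by
      intro g hg
      have hg' := ne_of_mem_erase hg
      unfold uu
      rw [if_neg hg', if_neg hg']
      rw [show ((RingOfIntegers.basis K j * xx (fun j => (k j : ℕ)) : 𝓞 K) : K)
        = (RingOfIntegers.basis K j : K) * (xx (fun j => (k j : ℕ)) : K) from rfl]
      rw [map_mul, map_mul]
      ring
    rw [sum_congr rfl h2]
    have h3 : cg σ lam β g1.1 * σ (g1.1 ((RingOfIntegers.basis K j * xx (fun j => (k j : ℕ)) : 𝓞 K) : K))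
        + ε * σ (RingOfIntegers.basis K j : K)
        = (if g1 = g1 then σ (RingOfIntegers.basis K j : K) else
      cg σ lam β g1.1 * σ (g1.1 (RingOfIntegers.basis K j : K))) * uu σ v g1 β0 L (k, ε) g1 := by
      unfold uu
      rw [if_pos rfl, if_pos rfl]
      rw [show cg σ lam β g1.1 = -σ (β0 : K) from hc1]
      rw [show ((RingOfIntegers.basis K j * xx (fun j => (k j : ℕ)) : 𝓞 K) : K)
        = (RingOfIntegers.basis K j : K) * (xx (fun j => (k j : ℕ)) : K) from rfl]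
      rw [show g1.1 ((RingOfIntegers.basis K j : K) * (xx (fun j => (k j : ℕ)) : K))
        = (RingOfIntegers.basis K j : K) * (xx (fun j => (k j : ℕ)) : K) from rfl]
      rw [map_mul, map_mul, map_neg]
      ring
    rw [← h3]
    ring
  have hR' : ∀ ω g, u ω g = ∑ j, R g j * a ω j := by
    rintro ⟨k, ε⟩ g
    -- apply the dual matrix to the vector of coefficients
    have h1 := hN (fun h => cg σ lam β h * σ (h (xx (fun j => (k j : ℕ)) : K)) + if h = 1 then ε else 0) g.1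
    have h2 : ∀ j, ∑ h : Gal(K/ℚ), (cg σ lam β h * σ (h (xx (fun j => (k j : ℕ)) : K)) + if h = 1 then ε else 0) *
        σ (h (RingOfIntegers.basis K j : K)) = a (k, ε) j := by
      intro j
      rw [ha]
      simp only [aa]
      rw [Lam_eq σ]
      simp_rw [add_mul]
      rw [sum_add_distrib]
      congr 1
      · apply sum_congr rfl
        intro h _
        rw [show ((RingOfIntegers.basis K j * xx (fun j => (k j : ℕ)) : 𝓞 K) : K)
          = (RingOfIntegers.basis K j : K) * (xx (fun j => (k j : ℕ)) : K) from rfl]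
        rw [map_mul, map_mul]
        ring
      · rw [Finset.sum_eq_single_of_mem (1 : Gal(K/ℚ)) (mem_univ _)]
        · rw [if_pos rfl]; rfl
        · intro h _ hne
          rw [if_neg hne, zero_mul]
    simp_rw [h2] at h1
    by_cases hg : g = g1
    · subst hg
      simp only [R, if_true]
      rw [h1, hu]
      simp only [uu, if_true]
      rw [show (1 : Gal(K/ℚ)) = (1 : Gal(K/ℚ)) from rfl]
      rw [show cg σ lam β g1.1 = -σ (β0 : K) from hc1]
      rw [map_mul, map_neg]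
      have : g1.1 = 1 := rfl
      rw [if_pos this]
      rfl
    · have hg' : g.1 ≠ 1 := by
        intro h
        apply hg
        exact Subtype.ext h
      simp only [R, if_neg hg]
      simp_rw [mul_assoc]
      rw [← mul_sum, h1, hu]
      simp only [uu, if_neg hg, v, if_neg hg', add_zero]
      rw [← mul_assoc, inv_mul_cancel₀ g.2, one_mul]
  have hR : ∀ g j, ‖R g j‖ ≤ C := fun g j => (hR'' g j).trans hCC1
  have hab : ∀ k (ε : ℂ) j, ‖ε‖ ≤ 1 → ‖a (k, ε) j‖ ≤ C * L := by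
    intro k ε j hε
    rw [ha]
    simp only [aa]
    refine (norm_add_le _ _).trans ?_
    have h1 := hLam' (fun j => (k j : ℕ)) L (fun j => (k j).isLt.le) j
    have h2 := hC2 j σ
    rw [norm_mul]
    have h3 : C1 + C2 ≤ C := by rw [hC]; nlinarith
    have h4 : ((C1 : ℝ) + C2) ≤ C := by exact_mod_cast h3
    calc ‖Lam lam β (RingOfIntegers.basis K j * xx (fun j => (k j : ℕ)))‖ + ‖ε‖ * ‖σ (RingOfIntegers.basis K j : K)‖
        ≤ C1 * L + 1 * C2 := by gcongr
      _ ≤ C1 * L + C2 * L := by nlinarith [Nat.cast_nonneg (α := ℝ) C2]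
      _ = (C1 + C2) * L := by ring
      _ ≤ C * L := by gcongr
  have hvangf : ∀ t s : JJ K → ℕ, ∑ j, t j < X → (∀ j, s j < S) →
      EE (pf a (fun j => gf (t j) (s j))) = 0 := by
    intro t s ht hs
    apply wd_to_gf EE a u s (∑ j, t j) _ _ hP' t rfl
    intro f
    rw [hgam, hvan _ ht f s hs, map_zero]
  obtain ⟨RB, hRB⟩ : ∃ RB : ℝ, RB = (S : ℝ) ^ (e + 1) * (X : ℝ) ^ X *
        (2 * S * (C * L)) ^ (S * X + S * (e + 1)) * Real.exp (((e + 1 : ℕ) : ℝ) * (S * (C * L))) *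
        (Real.exp (((e + 1 : ℕ) : ℝ) * X) / (X : ℝ) ^ (S * X)) := ⟨_, rfl⟩
  have hRB0 : 0 ≤ RB := by rw [hRB]; positivity
  have hsump : ∑ km, ‖σ (p km : K)‖ ≤ ((L : ℝ) ^ (e + 1) * T) * P := by
    refine (Finset.sum_le_sum (fun k _ => hpb k σ)).trans ?_
    rw [sum_const, card_univ, hcard2, nsmul_eq_mul]
    push_cast
    exact le_rfl
  have hanice : ∀ h : JJ K → ℂ → ℂ, (∀ j, Differentiable ℂ (h j)) → pf a h ∈ nice (JJ K → Fin L) := by
    intro h hh
    rw [ha]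
    exact aa_nice σ lam β L h hh
  have hmul : ∀ t : JJ K → ℕ, ∑ j, t j = X →
      ‖EE (pf a (fun j => gf (t j) (s j)))‖ ≤ ((L : ℝ) ^ (e + 1) * T) * P * (T.factorial * RB) := by
    intro t ht
    rw [multi' hS1 EE a hvangf t s ht hs]
    have hn2 := hanice (fun j => rf S (t j) (s j)) (fun j => rf_diff hS1 _ _ (hs j))
    rw [hEE _ hn2]
    have h1 := rb_prod_le S X hX1 hCL t ht
    rw [he, ← hRB] at h1
    refine (E_bound (fun km => σ (p km : K)) _ hn2 (B := RB) ?_).trans ?_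
    · intro k ε hε
      refine le_trans ?_ h1
      unfold pf
      rw [norm_prod]
      apply prod_le_prod
      · intro j _; exact norm_nonneg _
      · intro j _
        exact norm_rf_le hS1 _ _ (hs j) hCL (hab k ε j hε)
    · apply mul_le_mul_of_nonneg_right hsump
      positivity
  have hsmall : ‖σ (gK2 α β v g1 β0 p f s)‖ ≤ (((e + 1 : ℕ) : ℝ) * C) ^ X *
      (((L : ℝ) ^ (e + 1) * T) * P * (T.factorial * RB)) := by
    rw [← hgam]
    have h1 := wd_bound EE a u s X R hR' (C := (C : ℝ)) (Nat.cast_nonneg _) hR hmul f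
    rwa [he] at h1
  obtain ⟨H, hH⟩ : ∃ H : ℝ, H = ((L : ℝ) ^ (e + 1) * T) * P * (((C : ℝ) * L) ^ X * ((C : ℝ) * S + X) ^ T) *
    (C : ℝ) ^ (C * E) := ⟨_, rfl⟩
  have hHn : ∀ φ : K →+* ℂ, ‖φ (gK2 α β v g1 β0 p f s)‖ ≤ H := by
    intro φ
    have h1 := gK2_norm α β v g1 β0 p f s φ hP0 hCL (by positivity) (by linarith) (fun k => hpb k φ)
      (fun k g => hxkg k φ (v g)) (fun k => hxkb k φ) (hys s hs φ) (fun k => hepsn k s hs φ)
    rw [he] at h1
    rw [hH]
    exact h1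
  have hlio := liouville σ (gK2 α β v g1 β0 p f s) hne D hD1
    (gK2_int α β v g1 β0 p f s D (fun k => hepsint k s hs)) hHn
  rw [← card_JJ, he, Nat.add_sub_cancel] at hlio
  have hfinal : 1 ≤ ((C : ℝ) ^ (C * E)) ^ (e + 1) *
      ((((e + 1 : ℕ) : ℝ) * C) ^ X * (((L : ℝ) ^ (e + 1) * T) * P * (T.factorial * RB))) * H ^ e := by
    refine hlio.trans ?_
    have hH0 : 0 ≤ H := (norm_nonneg _).trans (hHn σ)
    gcongr
  have hBX := hB n X L T E hn1 hT hL hTX hE A P H RB hA hP hH hRB hfinal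
  have h1 : (n : ℝ) ≤ X := by
    have h2 : n ≤ T := by
      rw [hT]
      calc n = n ^ 1 := (pow_one _).symm
        _ ≤ n ^ (e + 1) := Nat.pow_le_pow_right hn1 (by omega)
    exact_mod_cast h2.trans hTX
  have h2 : (n0 : ℝ) ≤ n := by exact_mod_cast hnn0
  linarith

end Field

end Pool.Agent.Lib.MP_60829e_nt.Bk
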