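import Mathlib
import Pool.Agent.Lib.MP_60829e_nt.BBaker
import Pool.Agent.Lib.MP_60829e_nt.CFieldD

namespace Pool.Agent.Lib.MP_60829e_nt.Bk

open Finset NumberField

/-- Baker's theorem: if logarithms of algebraic numbers are linearly independent over the
rationals then they are, together with `1`, linearly independent over the algebraic numbers. -/
theorem baker {I : Type} [Fintype I] (lam : I → ℂ)
    (halg : ∀ i, IsAlgebraic ℚ (Complex.exp (lam i))) (hli : LinearIndependent ℚ lam)
    (β0 : ℂ) (hβ0 : IsAlgebraic ℚ β0)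
    (β : I → ℂ) (hβ : ∀ i, IsAlgebraic ℚ (β i)) (h : β0 + ∑ i, lam i * β i = 0) :
    β0 = 0 ∧ ∀ i, β i = 0 := by
  classical
  by_cases h0 : β0 = 0
  · refine ⟨h0, ?_⟩
    rw [h0, zero_add] at h
    exact baker_hom lam halg hli β hβ h
  · exfalso
    obtain ⟨K, hfin, hgal, hK⟩ := exists_galois_field
      ({β0} ∪ (univ.image β ∪ univ.image (fun i => Complex.exp (lam i)))) (by
        intro x hx
        rw [mem_union, mem_union, mem_image, mem_image, mem_singleton] at hx
        rcases hx with rfl | ⟨i, _, rfl⟩ | ⟨i, _, rfl⟩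
        · exact hβ0
        · exact hβ i
        · exact halg i)
    have hnf : NumberField K := ⟨⟩
    have hβ0K : β0 ∈ K := hK _ (mem_union_left _ (mem_singleton_self _))
    have hβK : ∀ i, β i ∈ K := fun i => hK _ (mem_union_right _ (mem_union_left _ (mem_image_of_mem _ (mem_univ i))))
    have hαK : ∀ i, Complex.exp (lam i) ∈ K := fun i =>
      hK _ (mem_union_right _ (mem_union_right _ (mem_image_of_mem (fun i => Complex.exp (lam i)) (mem_univ i))))
    let σ : K →+* ℂ := algebraMap K ℂ
    let α : I → K := fun i => ⟨Complex.exp (lam i), hαK i⟩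
    have hα : ∀ i, σ (α i) = Complex.exp (lam i) := fun i => rfl
    let b : Option I → K := fun i => match i with
      | none => ⟨β0, hβ0K⟩
      | some i => ⟨β i, hβK i⟩
    have hb : ∀ i, σ (b (some i)) = β i := fun i => rfl
    have hb0 : σ (b none) = β0 := rfl
    obtain ⟨Q, hQ1, hQ⟩ := exists_den b
    let B : I → 𝓞 K := fun i => ⟨(Q : K) * b (some i), hQ (some i)⟩
    let B0 : 𝓞 K := ⟨(Q : K) * b none, hQ none⟩
    have hB : ∀ i, (B i : K) = (Q : K) * b (some i) := fun i => rfl
    have hB0 : (B0 : K) = (Q : K) * b none := rfl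
    have hQ0 : (Q : K) ≠ 0 := by
      have : Q ≠ 0 := by omega
      exact_mod_cast this
    have hB0ne : B0 ≠ 0 := by
      intro h1
      have h2 : (B0 : K) = 0 := by rw [h1]; simp
      rw [hB0] at h2
      rcases mul_eq_zero.mp h2 with h3 | h3
      · exact hQ0 h3
      · apply h0
        rw [← hb0, h3, map_zero]
    apply field_baker_inhom σ lam α hα B B0 hB0ne
    have : σ (B0 : K) + ∑ i, lam i * σ (B i : K) = (Q : ℂ) * (β0 + ∑ i, lam i * β i) := by
      rw [mul_add, mul_sum]
      have e1 : σ (B0 : K) = (Q : ℂ) * β0 := by rw [hB0, map_mul, hb0, map_natCast]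
      rw [e1]
      congr 1
      apply sum_congr rfl
      intro i _
      rw [hB, map_mul, hb, map_natCast]
      ring
    rw [this, h, mul_zero]

end Pool.Agent.Lib.MP_60829e_nt.Bk
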