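import Mathlib
import Pool.Agent.Lib.MP_60829e_nt.GAlg

namespace Pool.Agent.Lib.MP_60829e_nt.Gen

open Finset MvPolynomial

section Main

variable {k : Type} [Field k] [IsAlgClosed k] {F : Type} [Field F] [Algebra k F]
variable {σ : Type} [Finite σ]

omit [IsAlgClosed k] in
lemma DF.reindex {ι κ : Type} {D : ℕ} {z : ι → F} (h : DF k D z) (e : κ ≃ ι) : DF k D (fun i => z (e i)) := by
  intro f hf h0
  have h1 : rename e f = 0 := by
    apply h
    · exact (totalDegree_rename_le _ _).trans hf
    · rw [aeval_rename]
      exact h0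
  exact (rename_injective e e.injective) (by rw [h1, map_zero])

omit [IsAlgClosed k] in
/-- invertible affine substitutions -/
lemma DF.subst {ι κ : Type} {D : ℕ} {x : ι → F} {y : κ → F} (hy : DF k D y)
    (s : ι → MvPolynomial κ k) (hs : ∀ i, (s i).totalDegree ≤ 1)
    (hinj : Function.Injective (aeval s : MvPolynomial ι k →ₐ[k] MvPolynomial κ k))
    (hx : ∀ i, x i = aeval y (s i)) : DF k D x := by
  classical
  intro f hfd hev
  have h1 : aeval s f = 0 := by
    apply hy
    · rw [f.as_sum, map_sum]
      refine totalDegree_finsetSum_le fun m hm => ?_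
      rw [aeval_monomial, MvPolynomial.algebraMap_eq]
      refine (totalDegree_mul _ _).trans ?_
      rw [totalDegree_C, zero_add, Finsupp.prod]
      refine (totalDegree_finsetProd _ _).trans ?_
      have h1 : ∑ i ∈ m.support, (s i ^ m i).totalDegree ≤ ∑ i ∈ m.support, m i := by
        refine Finset.sum_le_sum fun i _ => ?_
        refine (totalDegree_pow _ _).trans ?_
        calc m i * (s i).totalDegree ≤ m i * 1 := Nat.mul_le_mul_left _ (hs i)
          _ = m i := mul_one _
      refine h1.trans ?_
      exact (le_totalDegree hm).trans hfd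
    · rw [← aeval_comp]
      have : (fun i => aeval y (s i)) = x := by
        funext i; rw [hx i]
      rw [this]
      exact hev
  exact hinj (by rw [h1, map_zero])

/-- one more number, `Fin` version -/
lemma ext_fin {m D : ℕ} (θ : σ → F) (x' : Fin m → MvPolynomial σ k) (hDF : DF k D (fun i => aeval θ (x' i)))
    {τ : Type} [Fintype τ] (h : τ → MvPolynomial σ k) (hli : LinearIndependent k (fun t => aeval θ (h t)))
    (hcard : (m + D).choose D < Fintype.card τ) :
    ∃ c : τ → k, DF k D (Fin.cons (aeval θ (∑ t, c t • h t)) (fun i => aeval θ (x' i)) : Fin (m + 1) → F) := by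
  classical
  obtain ⟨x, hx1, hx⟩ := exists_points θ x' hDF ((m + D).choose D) (by rw [Fintype.card_fin])
  -- a nonzero combination vanishing at all points
  let ℓ : (τ → k) →ₗ[k] (Fin ((m + D).choose D) → k) :=
    { toFun := fun c j => ∑ t, c t * eval (x j) (h t)
      map_add' := by
        intro a b
        funext j
        simp only [Pi.add_apply, add_mul, sum_add_distrib]
      map_smul' := by
        intro r a
        funext j
        simp only [Pi.smul_apply, smul_eq_mul, RingHom.id_apply, mul_sum, mul_assoc] }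
  have hker : LinearMap.ker ℓ ≠ ⊥ := by
    apply LinearMap.ker_ne_bot_of_finrank_lt
    rw [Module.finrank_fintype_fun_eq_card, Module.finrank_fintype_fun_eq_card, Fintype.card_fin]
    exact hcard
  obtain ⟨c, hc, hc0⟩ := Submodule.exists_mem_ne_zero_of_ne_bot hker
  rw [LinearMap.mem_ker] at hc
  obtain ⟨u, hu⟩ : ∃ u, u = ∑ t, c t • h t := ⟨_, rfl⟩
  have hux : ∀ j, eval (x j) u = 0 := by
    intro j
    have h1 := congrFun hc j
    simp only [ℓ, LinearMap.coe_mk, AddHom.coe_mk, Pi.zero_apply] at h1
    rw [hu, map_sum, ← h1]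
    apply sum_congr rfl
    intro t _
    rw [smul_eval]
  have huθ : aeval θ u ≠ 0 := by
    intro h0
    rw [hu, map_sum] at h0
    rw [Fintype.linearIndependent_iff] at hli
    apply hc0
    funext t
    apply hli c _ t
    rw [← h0]
    apply sum_congr rfl
    intro t _
    rw [map_smul]
  refine ⟨c, ?_⟩
  rw [← hu]
  intro f hfd hf0
  by_contra hfne
  -- the polynomial in one variable
  obtain ⟨G, hG⟩ : ∃ G, G = finSuccEquiv k m f := ⟨_, rfl⟩
  have hGne : G ≠ 0 := by
    rw [hG]
    intro h0
    apply hfne
    exact (finSuccEquiv k m).injective (by rw [h0, map_zero])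
  -- evaluation maps
  let ψ : Polynomial (MvPolynomial (Fin m) k) →+* MvPolynomial σ k :=
    Polynomial.eval₂RingHom (aeval x' : MvPolynomial (Fin m) k →ₐ[k] MvPolynomial σ k).toRingHom u
  have hψ : ψ G = aeval (Fin.cons u x' : Fin (m + 1) → MvPolynomial σ k) f := by
    have h1 : ψ.comp (finSuccEquiv k m).toRingEquiv.toRingHom
        = (aeval (Fin.cons u x' : Fin (m + 1) → MvPolynomial σ k) : MvPolynomial (Fin (m + 1)) k →ₐ[k] _).toRingHom := by
      apply MvPolynomial.ringHom_ext
      · intro r
        simp [ψ, finSuccEquiv_apply]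
      · intro i
        refine Fin.cases ?_ (fun i => ?_) i
        · simp [ψ, finSuccEquiv_X_zero]
        · simp [ψ, finSuccEquiv_X_succ]
    rw [hG]
    exact congrArg (fun φ => φ f) h1
  have hθψ : aeval θ (ψ G) = 0 := by
    rw [hψ, ← aeval_comp, ← hf0]
    congr 1
    congr 1
    funext i
    refine Fin.cases ?_ (fun i => ?_) i
    · simp
    · simp
  -- divide by the power of the variable
  obtain ⟨r, hr⟩ : ∃ r, r = G.natTrailingDegree := ⟨_, rfl⟩
  have hcr : G.coeff r ≠ 0 := by
    rw [hr]
    exact Polynomial.trailingCoeff_nonzero_iff_nonzero.mpr hGne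
  obtain ⟨G', hG'⟩ : ∃ G', G = Polynomial.X ^ r * G' := by
    have : Polynomial.X ^ r ∣ G := by
      rw [Polynomial.X_pow_dvd_iff]
      intro d hd
      apply Polynomial.coeff_eq_zero_of_lt_natTrailingDegree
      rw [← hr]; exact hd
    exact this
  have hG'0 : G'.coeff 0 = G.coeff r := by
    rw [hG', Polynomial.coeff_X_pow_mul' G' r r]
    simp
  have hψG : ψ G = u ^ r * ψ G' := by
    rw [hG', map_mul, map_pow]
    congr 2
    simp [ψ]
  have hθG' : aeval θ (ψ G') = 0 := by
    rw [hψG, map_mul, map_pow] at hθψ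
    rcases mul_eq_zero.mp hθψ with h1 | h1
    · exact absurd h1 (pow_ne_zero r huθ)
    · exact h1
  -- evaluate at the points
  apply hcr
  apply hx
  · rw [hG] at hcr ⊢
    have := totalDegree_coeff_finSuccEquiv_add_le f r hcr
    omega
  · intro j
    have h1 := hx1 j _ hθG'
    rw [← hG'0]
    have h2 : ((eval (x j)).comp ψ) G' = (eval (x j)) (aeval x' (G'.coeff 0)) := by
      have h3 : (eval (x j)).comp ψ = Polynomial.eval₂RingHom ((eval (x j)).comp
          (aeval x' : MvPolynomial (Fin m) k →ₐ[k] MvPolynomial σ k).toRingHom) 0 := by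
        apply Polynomial.ringHom_ext
        · intro a
          simp [ψ]
        · simp [ψ, hux j]
      rw [h3]
      simp [Polynomial.coe_eval₂RingHom]
    rw [← h2]
    exact h1

end Main

end Pool.Agent.Lib.MP_60829e_nt.Gen
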