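import Mathlib
import Pool.Agent.Lib.MP_60829e_nt.GExt

namespace Pool.Agent.Lib.MP_60829e_nt.Gen

open Finset MvPolynomial

section Main

variable {k : Type} [Field k] [IsAlgClosed k] {F : Type} [Field F] [Algebra k F]
variable {σ : Type} [Finite σ]

omit [IsAlgClosed k] in
lemma sum_ex {ι : Type} [Fintype ι] {D : ℕ} (f : MvPolynomial ι k) (hf : f.totalDegree ≤ D)
    [Fintype (Ex ι D)] {A : Type} [AddCommMonoid A] (g : (ι →₀ ℕ) → k → A) (hg : ∀ n, g n 0 = 0) :
    ∑ n ∈ f.support, g n (f.coeff n) = ∑ n : Ex ι D, g n.1 (f.coeff n.1) := by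
  classical
  have hsub : f.support ⊆ (univ : Finset (Ex ι D)).map ⟨fun n => n.1, Subtype.val_injective⟩ := by
    intro n hn
    rw [mem_map]
    exact ⟨⟨n, (le_totalDegree hn).trans hf⟩, mem_univ _, rfl⟩
  rw [sum_subset hsub]
  · rw [sum_map]
    rfl
  · intro n _ hn
    rw [notMem_support_iff] at hn
    rw [hn, hg]

/-- openness of the absence of relations in an affine family -/
lemma openness {ι τ : Type} [Fintype ι] [Fintype τ] {D : ℕ} (θ : σ → F)
    (a : ι → MvPolynomial σ k) (b : ι → τ → MvPolynomial σ k) (M0 : τ → k)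
    (h0 : DF k D (fun i => aeval θ (a i + ∑ s, M0 s • b i s))) :
    ∃ Φ : MvPolynomial τ k, Φ ≠ 0 ∧ Φ.totalDegree ≤ D * (Fintype.card ι + D).choose D ∧ eval M0 Φ ≠ 0 ∧
      ∀ M : τ → k, eval M Φ ≠ 0 → DF k D (fun i => aeval θ (a i + ∑ s, M s • b i s)) := by
  classical
  have hEx : Fintype (Ex ι D) := Fintype.ofFinite _
  obtain ⟨x, hx1, hx2⟩ := exists_points θ _ h0 (Fintype.card (Ex ι D)) (by
    rw [← card_ex, Nat.card_eq_fintype_card])
  let e : Fin (Fintype.card (Ex ι D)) ≃ Ex ι D := (Fintype.equivFin (Ex ι D)).symm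
  -- entries
  let ent : Matrix (Ex ι D) (Ex ι D) (MvPolynomial τ k) := fun j n =>
    ∏ i, (C (eval (x (e.symm j)) (a i)) + ∑ s, X s * C (eval (x (e.symm j)) (b i s))) ^ ((n : ι →₀ ℕ) i)
  have hent : ∀ M : τ → k, ∀ j n, eval M (ent j n)
      = eval (x (e.symm j)) (aeval (fun i => a i + ∑ s, M s • b i s) (monomial (n : ι →₀ ℕ) (1 : k))) := by
    intro M j n
    simp only [ent]
    rw [aeval_monomial, map_one, one_mul, Finsupp.prod_fintype _ _ (fun i => pow_zero _), map_prod, map_prod]
    apply prod_congr rfl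
    intro i _
    rw [map_pow, map_pow]
    congr 1
    rw [map_add, map_add, map_sum, map_sum, eval_C]
    congr 1
    apply sum_congr rfl
    intro s _
    rw [map_mul, eval_X, eval_C, smul_eval]
  -- evaluation of a general polynomial
  have hgen : ∀ M : τ → k, ∀ f : MvPolynomial ι k, f.totalDegree ≤ D → ∀ j : Ex ι D,
      eval (x (e.symm j)) (aeval (fun i => a i + ∑ s, M s • b i s) f)
        = ∑ n : Ex ι D, eval M (ent j n) * f.coeff n.1 := by
    intro M f hf j
    have h1 : aeval (fun i => a i + ∑ s, M s • b i s) f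
        = ∑ n : Ex ι D, f.coeff n.1 • aeval (fun i => a i + ∑ s, M s • b i s) (monomial n.1 (1 : k)) := by
      rw [← sum_ex f hf (fun n c => c • aeval (fun i => a i + ∑ s, M s • b i s) (monomial n (1 : k)))
        (fun n => zero_smul _ _)]
      conv_lhs => rw [f.as_sum, map_sum]
      apply sum_congr rfl
      intro n _
      rw [← map_smul]
      congr 1
      rw [smul_monomial, smul_eq_mul, mul_one]
    rw [h1, map_sum]
    apply sum_congr rfl
    intro n _
    rw [smul_eval, hent]
    ring
  have hM0 : eval M0 ent.det ≠ 0 := by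
    intro h1
    rw [RingHom.map_det] at h1
    obtain ⟨w, hw0, hw⟩ := Matrix.exists_mulVec_eq_zero_iff.mpr h1
    apply hw0
    -- the polynomial with coefficients w
    let f : MvPolynomial ι k := ∑ n : Ex ι D, monomial n.1 (w n)
    have hcoeff : ∀ n : Ex ι D, f.coeff n.1 = w n := by
      intro n
      simp only [f]
      rw [coeff_sum, sum_eq_single n]
      · rw [coeff_monomial, if_pos rfl]
      · intro m _ hm
        rw [coeff_monomial, if_neg]
        intro h2
        exact hm (Subtype.ext h2)
      · intro h2; exact absurd (mem_univ n) h2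
    have hfd : f.totalDegree ≤ D := by
      apply totalDegree_finsetSum_le
      intro n _
      exact (totalDegree_monomial_le _ _).trans n.2
    have hf0 : f = 0 := by
      apply hx2 f hfd
      intro j
      have h3 := hgen M0 f hfd (e j)
      rw [Equiv.symm_apply_apply] at h3
      rw [h3]
      have h4 := congrFun hw (e j)
      simp only [Matrix.mulVec, dotProduct, Pi.zero_apply] at h4
      rw [← h4]
      apply sum_congr rfl
      intro n _
      rw [hcoeff]
      rfl
    funext n
    rw [← hcoeff n, hf0]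
    simp
  refine ⟨ent.det, fun h => hM0 (by rw [h, map_zero]), ?_, hM0, ?_⟩
  · rw [Matrix.det_apply]
    apply totalDegree_finsetSum_le
    intro π _
    refine (totalDegree_smul_le _ _).trans ?_
    refine (totalDegree_finsetProd _ _).trans ?_
    have h1 : ∀ n ∈ (univ : Finset (Ex ι D)), (ent (π n) n).totalDegree ≤ D := by
      intro n _
      simp only [ent]
      refine (totalDegree_finsetProd _ _).trans ?_
      have h2 : ∀ i ∈ (univ : Finset ι), ((C (eval (x (e.symm (π n))) (a i)) +
          ∑ s, X s * C (eval (x (e.symm (π n))) (b i s)) : MvPolynomial τ k) ^ ((n : ι →₀ ℕ) i)).totalDegree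
          ≤ (n : ι →₀ ℕ) i := by
        intro i _
        refine (totalDegree_pow _ _).trans ?_
        have h3 : (C (eval (x (e.symm (π n))) (a i)) +
          ∑ s, X s * C (eval (x (e.symm (π n))) (b i s)) : MvPolynomial τ k).totalDegree ≤ 1 := by
          refine (totalDegree_add _ _).trans (max_le ?_ ?_)
          · rw [totalDegree_C]; omega
          · apply totalDegree_finsetSum_le
            intro s _
            refine (totalDegree_mul _ _).trans ?_
            rw [totalDegree_X, totalDegree_C]
        calc (n : ι →₀ ℕ) i * _ ≤ (n : ι →₀ ℕ) i * 1 := Nat.mul_le_mul_left _ h3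
          _ = (n : ι →₀ ℕ) i := mul_one _
      refine (Finset.sum_le_sum h2).trans ?_
      have h4 := n.2
      simp only [Set.mem_setOf_eq] at h4
      rwa [Finsupp.sum_fintype _ _ (fun _ => rfl)] at h4
    refine (Finset.sum_le_sum h1).trans ?_
    rw [sum_const, card_univ, smul_eq_mul, ← card_ex, Nat.card_eq_fintype_card, mul_comm]
  · intro M hM f hfd hf0
    rw [RingHom.map_det] at hM
    have h1 : ∀ j : Ex ι D, ∑ n : Ex ι D, eval M (ent j n) * f.coeff n.1 = 0 := by
      intro j
      rw [← hgen M f hfd j]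
      apply hx1
      rw [← aeval_comp]
      exact hf0
    have h2 : (fun n : Ex ι D => f.coeff n.1) = 0 := by
      apply Matrix.eq_zero_of_mulVec_eq_zero hM
      funext j
      exact h1 j
    ext n
    rw [coeff_zero]
    by_cases hn : (n.sum fun _ e => e) ≤ D
    · exact congrFun h2 ⟨n, hn⟩
    · apply coeff_eq_zero_of_totalDegree_lt
      push Not at hn
      exact lt_of_le_of_lt hfd hn

end Main

end Pool.Agent.Lib.MP_60829e_nt.Gen
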