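import Mathlib
import Pool.Agent.Lib.MP_60829e_nt.GOpen

namespace Pool.Agent.Lib.MP_60829e_nt.Gen

open Finset MvPolynomial

section Main

variable {k : Type} [Field k] [IsAlgClosed k] {F : Type} [Field F] [Algebra k F]
variable {σ : Type} [Finite σ]

omit [IsAlgClosed k] in
lemma inj_of_leftInv {ι κ : Type} (s : ι → MvPolynomial κ k) (r : κ → MvPolynomial ι k)
    (h : ∀ i, aeval r (s i) = X i) : Function.Injective (aeval s : MvPolynomial ι k →ₐ[k] MvPolynomial κ k) := by
  apply Function.LeftInverse.injective (g := (aeval r : MvPolynomial κ k →ₐ[k] MvPolynomial ι k))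
  intro f
  have h2 : (aeval r : MvPolynomial κ k →ₐ[k] MvPolynomial ι k).comp (aeval s) = AlgHom.id k _ := by
    apply MvPolynomial.algHom_ext
    intro i
    rw [AlgHom.comp_apply, aeval_X, h i]
    rfl
  exact congrArg (fun φ => φ f) h2

omit [IsAlgClosed k] in
lemma mem_span_three {A : Type} [CommRing A] [Algebra k A] {ι : Type} [Fintype ι] {d : ℕ} (x : ι → A) (w : Fin d → A) (u : A)
    (hu : u ∈ Submodule.span k (({1} ∪ Set.range x) ∪ Set.range w)) :
    ∃ (c0 : k) (a : ι → k) (c : Fin d → k), u = c0 • (1 : A) + ∑ i, a i • x i + ∑ j, c j • w j := by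
  rw [Submodule.span_union, Submodule.span_union, Submodule.mem_sup] at hu
  obtain ⟨y, hy, z, hz, rfl⟩ := hu
  rw [Submodule.mem_sup] at hy
  obtain ⟨y1, hy1, y2, hy2, rfl⟩ := hy
  rw [Submodule.mem_span_singleton] at hy1
  rw [Submodule.mem_span_range_iff_exists_fun] at hy2 hz
  obtain ⟨c0, rfl⟩ := hy1
  obtain ⟨a, rfl⟩ := hy2
  obtain ⟨c, rfl⟩ := hz
  exact ⟨c0, a, c, rfl⟩

/-- one more row -/
lemma row {ι : Type} [Fintype ι] {d D : ℕ} (θ : σ → F) (x' : ι → MvPolynomial σ k)
    (hx' : DF k D (fun i => aeval θ (x' i))) (ρ : MvPolynomial σ k) (w : Fin d → MvPolynomial σ k)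
    {τ : Type} [Fintype τ] (h : τ → MvPolynomial σ k) (hli : LinearIndependent k (fun t => aeval θ (h t)))
    (hcard : (Fintype.card ι + D).choose D < Fintype.card τ)
    (hspan : ∀ t, h t ∈ Submodule.span k (({1} ∪ Set.range x') ∪ Set.range w)) :
    ∃ c : Fin d → k, DF k D (Sum.elim (fun i => aeval θ (x' i))
      (fun _ : Unit => aeval θ (ρ + ∑ j, c j • w j)) : ι ⊕ Unit → F) := by
  classical
  let e : ι ≃ Fin (Fintype.card ι) := Fintype.equivFin ι
  have h1 : DF k D (fun i => aeval θ (x' (e.symm i))) := hx'.reindex e.symm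
  obtain ⟨ct, hct⟩ := ext_fin θ (fun i => x' (e.symm i)) h1 h hli hcard
  obtain ⟨u, hu⟩ : ∃ u, u = ∑ t, ct t • h t := ⟨_, rfl⟩
  rw [← hu] at hct
  have huspan : u ∈ Submodule.span k (({1} ∪ Set.range x') ∪ Set.range w) := by
    rw [hu]
    apply Submodule.sum_mem
    intro t _
    exact Submodule.smul_mem _ _ (hspan t)
  obtain ⟨c0, a, c, hu2⟩ := mem_span_three x' w u huspan
  -- remove the constant and the old coordinates
  have h2 : DF k D (Sum.elim (fun i => aeval θ (x' i)) (fun _ : Unit => aeval θ (∑ j, c j • w j)) : ι ⊕ Unit → F) := by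
    apply hct.subst (Sum.elim (fun i => X (e i).succ)
      (fun _ => X 0 - C c0 - ∑ i, C (a i) * X (e i).succ))
    · rintro (i | _)
      · simp only [Sum.elim_inl]
        rw [totalDegree_X]
      · simp only [Sum.elim_inr]
        refine (totalDegree_sub _ _).trans (max_le ?_ ?_)
        · refine (totalDegree_sub _ _).trans (max_le ?_ ?_)
          · rw [totalDegree_X]
          · rw [totalDegree_C]; omega
        · apply totalDegree_finsetSum_le
          intro i _
          refine (totalDegree_mul _ _).trans ?_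
          rw [totalDegree_X, totalDegree_C]
    · apply inj_of_leftInv _ (Fin.cons (X (Sum.inr ()) + C c0 + ∑ i, C (a i) * X (Sum.inl i))
        (fun j => X (Sum.inl (e.symm j))))
      rintro (i | _)
      · simp only [Sum.elim_inl]
        rw [aeval_X]
        simp
      · simp only [Sum.elim_inr]
        rw [map_sub, map_sub, map_sum, aeval_X, aeval_C]
        simp only [Fin.cons_zero, map_mul, aeval_X, Fin.cons_succ, aeval_C, Equiv.symm_apply_apply,
          MvPolynomial.algebraMap_eq]
        ring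
    · rintro (i | _)
      · simp
      · simp only [Sum.elim_inr, map_sub, map_sum, map_mul, aeval_X, aeval_C, Fin.cons_zero,
          Fin.cons_succ, Equiv.symm_apply_apply]
        rw [hu2]
        simp only [map_add, map_sum, map_smul, map_one]
        simp only [Algebra.smul_def]
        ring
  -- the perturbation by ρ
  obtain ⟨Φ, hΦ0, -, -, hΦ⟩ := openness (τ := Unit) (D := D) θ
    (Sum.elim x' (fun _ : Unit => ∑ j, c j • w j) : ι ⊕ Unit → MvPolynomial σ k)
    (Sum.elim (fun _ _ => 0) (fun _ _ => ρ)) 0 (by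
      have : (fun i => aeval θ ((Sum.elim x' (fun _ : Unit => ∑ j, c j • w j) : ι ⊕ Unit → MvPolynomial σ k) i +
          ∑ s : Unit, (0 : Unit → k) s • (Sum.elim (fun _ _ => 0) (fun _ _ => ρ) : ι ⊕ Unit → Unit → MvPolynomial σ k) i s))
          = (Sum.elim (fun i => aeval θ (x' i)) (fun _ : Unit => aeval θ (∑ j, c j • w j)) : ι ⊕ Unit → F) := by
        funext i
        rcases i with i | i
        · simp
        · simp
      rw [this]
      exact h2)
  obtain ⟨M, hM⟩ : ∃ M : Unit → k, eval M (Φ * X ()) ≠ 0 := by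
    by_contra hcon
    push Not at hcon
    have h3 : Φ * X () = 0 := MvPolynomial.funext (fun M => by rw [hcon M, map_zero])
    rcases mul_eq_zero.mp h3 with h4 | h4
    · exact hΦ0 h4
    · exact X_ne_zero _ h4
  rw [map_mul, eval_X] at hM
  have hM1 : eval M Φ ≠ 0 := left_ne_zero_of_mul hM
  have ht : M () ≠ 0 := right_ne_zero_of_mul hM
  have h3 := hΦ M hM1
  have h4 : DF k D (Sum.elim (fun i => aeval θ (x' i))
      (fun _ : Unit => aeval θ ((∑ j, c j • w j) + M () • ρ)) : ι ⊕ Unit → F) := by
    have : (fun i => aeval θ ((Sum.elim x' (fun _ : Unit => ∑ j, c j • w j) : ι ⊕ Unit → MvPolynomial σ k) i +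
          ∑ s : Unit, M s • (Sum.elim (fun _ _ => 0) (fun _ _ => ρ) : ι ⊕ Unit → Unit → MvPolynomial σ k) i s))
          = (Sum.elim (fun i => aeval θ (x' i)) (fun _ : Unit => aeval θ ((∑ j, c j • w j) + M () • ρ)) : ι ⊕ Unit → F) := by
      funext i
      rcases i with i | i
      · simp
      · simp
    rw [this] at h3
    exact h3
  -- rescale
  refine ⟨fun j => (M ())⁻¹ * c j, ?_⟩
  apply h4.subst (Sum.elim (fun i => X (Sum.inl i)) (fun _ => C (M ())⁻¹ * X (Sum.inr ())))
  · rintro (i | _)
    · simp only [Sum.elim_inl]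
      rw [totalDegree_X]
    · simp only [Sum.elim_inr]
      refine (totalDegree_mul _ _).trans ?_
      rw [totalDegree_X, totalDegree_C]
  · apply inj_of_leftInv _ (Sum.elim (fun i => X (Sum.inl i)) (fun _ => C (M ()) * X (Sum.inr ())))
    rintro (i | _)
    · simp
    · simp only [Sum.elim_inr, map_mul, aeval_C, aeval_X, MvPolynomial.algebraMap_eq]
      rw [← mul_assoc, ← map_mul, inv_mul_cancel₀ ht, map_one, one_mul]
  · rintro (i | _)
    · simp
    · simp only [Sum.elim_inr, map_mul, aeval_C, aeval_X]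
      rw [map_add, map_add, mul_add, map_smul, add_comm, ]
      congr 1
      · rw [map_sum, map_sum, mul_sum]
        apply sum_congr rfl
        intro j _
        rw [map_smul, map_smul, Algebra.smul_def, Algebra.smul_def, map_mul, mul_assoc]
      · rw [Algebra.smul_def, ← mul_assoc, ← map_mul, inv_mul_cancel₀ ht, map_one, one_mul]

end Main

end Pool.Agent.Lib.MP_60829e_nt.Gen
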