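import Mathlib
import Pool.Agent.Lib.MP_60829e_nt.GRow
import Pool.Agent.Lib.MP_60829e_nt.CBaker

namespace Pool.Agent.Lib.MP_60829e_nt.Gen

open Finset MvPolynomial

section Main

variable {k : Type} [Field k] [IsAlgClosed k] {F : Type} [Field F] [Algebra k F]
variable {σ : Type} [Finite σ]

/-- several more rows -/
lemma rows {ι : Type} [Fintype ι] {d D : ℕ} (θ : σ → F) (x' : ι → MvPolynomial σ k)
    (hx' : DF k D (fun i => aeval θ (x' i))) (w : Fin d → MvPolynomial σ k)
    {τ : Type} [Fintype τ] (h : τ → MvPolynomial σ k) (hli : LinearIndependent k (fun t => aeval θ (h t)))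
    (hspan : ∀ t, h t ∈ Submodule.span k (({1} ∪ Set.range x') ∪ Set.range w)) :
    ∀ (n : ℕ) (ρ : Fin n → MvPolynomial σ k), (∀ i < n, (Fintype.card ι + i + D).choose D < Fintype.card τ) →
    ∃ M0 : Fin n → Fin d → k, DF k D (Sum.elim (fun i => aeval θ (x' i))
      (fun i => aeval θ (ρ i + ∑ j, M0 i j • w j)) : ι ⊕ Fin n → F) := by
  intro n
  induction n with
  | zero =>
    intro ρ _
    refine ⟨fun i => i.elim0, ?_⟩
    have h1 := hx'.reindex (Equiv.sumEmpty ι (Fin 0))
    have : (fun i => (fun i => aeval θ (x' i)) ((Equiv.sumEmpty ι (Fin 0)) i))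
        = (Sum.elim (fun i => aeval θ (x' i))
      (fun i => aeval θ (ρ i + ∑ j, (fun i => i.elim0 : Fin 0 → Fin d → k) i j • w j)) : ι ⊕ Fin 0 → F) := by
      funext i
      rcases i with i | i
      · simp
      · exact i.elim0
    rw [this] at h1
    exact h1
  | succ n ih =>
    intro ρ hcard
    obtain ⟨M0, hM0⟩ := ih (fun i => ρ i.castSucc) (fun i hi => hcard i (by omega))
    have h0 : DF k D (fun i => aeval θ ((Sum.elim x' (fun i => ρ i.castSucc + ∑ j, M0 i j • w j) :
        ι ⊕ Fin n → MvPolynomial σ k) i)) := by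
      have : (fun i => aeval θ ((Sum.elim x' (fun i => ρ i.castSucc + ∑ j, M0 i j • w j) :
        ι ⊕ Fin n → MvPolynomial σ k) i)) = (Sum.elim (fun i => aeval θ (x' i))
      (fun i => aeval θ (ρ i.castSucc + ∑ j, M0 i j • w j)) : ι ⊕ Fin n → F) := by
        funext i
        rcases i with i | i <;> rfl
      rw [this]
      exact hM0
    obtain ⟨c, hc⟩ := row θ _ h0 (ρ (Fin.last n)) w h hli (by
      rw [Fintype.card_sum, Fintype.card_fin]
      exact hcard n (by omega)) (by
      intro t
      apply Submodule.span_mono _ (hspan t)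
      apply Set.union_subset_union_left
      apply Set.union_subset_union_right
      rintro _ ⟨i, rfl⟩
      exact ⟨Sum.inl i, rfl⟩)
    refine ⟨Fin.snoc M0 c, ?_⟩
    let e : ι ⊕ Fin (n + 1) ≃ (ι ⊕ Fin n) ⊕ Unit :=
      (Equiv.sumCongr (Equiv.refl ι) (finSuccEquivLast.trans (Equiv.optionEquivSumPUnit _))).trans
        (Equiv.sumAssoc ι (Fin n) Unit).symm
    have h1 := hc.reindex e
    convert h1 using 1
    funext i
    rcases i with i | i
    · simp [e]
    · refine Fin.lastCases ?_ (fun i => ?_) i
      · simp [e]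
      · simp [e]

end Main

/-- the field of algebraic numbers -/
noncomputable abbrev QA : IntermediateField ℚ ℂ := algebraicClosure ℚ ℂ

instance : IsAlgClosed QA :=
  (IsAlgClosed.algebraicClosure_eq_bot_iff _ ℂ).mp (algebraicClosure.algebraicClosure_eq_bot ℚ ℂ)

/-- Baker's theorem as linear independence, including `1` -/
lemma baker_li {I : Type} [Fintype I] (lam : I → ℂ) (halg : ∀ i, IsAlgebraic ℚ (Complex.exp (lam i)))
    (hli : LinearIndependent ℚ lam) :
    LinearIndependent QA (fun o : Option I => o.elim (1 : ℂ) lam) := by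
  rw [Fintype.linearIndependent_iff]
  intro g hg
  rw [Fintype.sum_option] at hg
  simp only [Option.elim_none, Option.elim_some] at hg
  have h1 := Bk.baker lam halg hli (g none : ℂ) (mem_algebraicClosure_iff.mp (g none).2)
    (fun i => (g (some i) : ℂ)) (fun i => mem_algebraicClosure_iff.mp (g (some i)).2) (by
    rw [← hg]
    congr 1
    · rw [Algebra.smul_def, mul_one]; rfl
    · apply sum_congr rfl
      intro i _
      rw [Algebra.smul_def, mul_comm]; rfl)
  intro o
  cases o with
  | none => exact Subtype.ext h1.1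
  | some i => exact Subtype.ext (h1.2 i)

/-- The general position theorem, polynomial form. -/
theorem general_position (k n d D : ℕ) (v : Fin k → ℂ) (hv : DF QA D v) (ρ : Fin n → ℂ) (ω : Fin d → ℂ)
    (hω : ∀ j, IsAlgebraic ℚ (Complex.exp (ω j)))
    (hd : (LinearIndependent ℚ ω ∧ (k + n - 1 + D).choose D ≤ d) ∨
      ((∀ i, IsAlgebraic ℚ (Complex.exp (v i))) ∧ LinearIndependent ℚ (Sum.elim v ω) ∧
        (k + n - 1 + D).choose D ≤ k + d)) :
    ∃ Φ : MvPolynomial (Fin n × Fin d) QA, Φ ≠ 0 ∧ Φ.totalDegree ≤ D * (k + n + D).choose D ∧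
      ∀ M : Fin n × Fin d → QA, eval M Φ ≠ 0 →
        DF QA D (Sum.elim v (fun i => ρ i + ∑ j, (M (i, j) : ℂ) * ω j) : Fin k ⊕ Fin n → ℂ) := by
  classical
  let σ : Type := Fin k ⊕ (Fin n ⊕ Fin d)
  let θ : σ → ℂ := Sum.elim v (Sum.elim ρ ω)
  let x' : Fin k → MvPolynomial σ QA := fun i => X (Sum.inl i)
  let ρ' : Fin n → MvPolynomial σ QA := fun i => X (Sum.inr (Sum.inl i))
  let w : Fin d → MvPolynomial σ QA := fun j => X (Sum.inr (Sum.inr j))
  have hx'θ : ∀ i, aeval θ (x' i) = v i := fun i => by simp [x', θ]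
  have hρ'θ : ∀ i, aeval θ (ρ' i) = ρ i := fun i => by simp [ρ', θ]
  have hwθ : ∀ j, aeval θ (w j) = ω j := fun j => by simp [w, θ]
  have hx' : DF QA D (fun i => aeval θ (x' i)) := by
    have : (fun i => aeval θ (x' i)) = v := by funext i; rw [hx'θ]
    rw [this]; exact hv
  have hmono : ∀ i < n, (Fintype.card (Fin k) + i + D).choose D ≤ (k + n - 1 + D).choose D := by
    intro i hi
    rw [Fintype.card_fin]
    exact Nat.choose_le_choose _ (by omega)
  have hrows : ∃ M0 : Fin n → Fin d → QA, DF QA D (Sum.elim (fun i => aeval θ (x' i))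
      (fun i => aeval θ (ρ' i + ∑ j, M0 i j • w j)) : Fin k ⊕ Fin n → ℂ) := by
    rcases hd with ⟨hli, hd⟩ | ⟨hvalg, hli, hd⟩
    · have hB := baker_li ω hω hli
      apply rows θ x' hx' w (fun o : Option (Fin d) => o.elim 1 w) _ _ n ρ'
      · intro i hi
        rw [Fintype.card_option, Fintype.card_fin d]
        have := hmono i hi
        omega
      · have e : (fun t : Option (Fin d) => aeval θ ((fun o : Option (Fin d) => o.elim 1 w) t))
            = (fun o : Option (Fin d) => o.elim (1 : ℂ) ω) := by
          funext o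
          cases o with
          | none => simp
          | some j => simp [hwθ]
        rw [e]
        exact hB
      · intro o
        cases o with
        | none => exact Submodule.subset_span (Or.inl (Or.inl rfl))
        | some j => exact Submodule.subset_span (Or.inr ⟨j, rfl⟩)
    · have hB := baker_li (Sum.elim v ω) (by
        rintro (i | j)
        · exact hvalg i
        · exact hω j) hli
      apply rows θ x' hx' w (fun o : Option (Fin k ⊕ Fin d) => o.elim 1 (Sum.elim x' w)) _ _ n ρ'
      · intro i hi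
        rw [Fintype.card_option, Fintype.card_sum, Fintype.card_fin d]
        have := hmono i hi
        rw [Fintype.card_fin] at this ⊢
        omega
      · have e : (fun t : Option (Fin k ⊕ Fin d) => aeval θ ((fun o : Option (Fin k ⊕ Fin d) => o.elim 1 (Sum.elim x' w)) t))
            = (fun o : Option (Fin k ⊕ Fin d) => o.elim (1 : ℂ) (Sum.elim v ω)) := by
          funext o
          rcases o with _ | (i | j)
          · simp
          · simp [hx'θ]
          · simp [hwθ]
        rw [e]
        exact hB
      · intro o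
        rcases o with _ | (i | j)
        · exact Submodule.subset_span (Or.inl (Or.inl rfl))
        · exact Submodule.subset_span (Or.inl (Or.inr ⟨i, rfl⟩))
        · exact Submodule.subset_span (Or.inr ⟨j, rfl⟩)
  obtain ⟨M0, hM0⟩ := hrows
  -- the affine family
  let a : Fin k ⊕ Fin n → MvPolynomial σ QA := Sum.elim x' ρ'
  let b : Fin k ⊕ Fin n → Fin n × Fin d → MvPolynomial σ QA := fun i s =>
    Sum.elim (fun _ => 0) (fun i => if s.1 = i then w s.2 else 0) i
  have hfam : ∀ M : Fin n × Fin d → QA, (fun i => aeval θ (a i + ∑ s, M s • b i s))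
      = (Sum.elim v (fun i => ρ i + ∑ j, (M (i, j) : ℂ) * ω j) : Fin k ⊕ Fin n → ℂ) := by
    intro M
    funext i
    rcases i with i | i
    · simp [a, b, hx'θ]
    · simp only [a, b, Sum.elim_inr]
      rw [map_add, hρ'θ, map_sum, Fintype.sum_prod_type]
      congr 1
      rw [Finset.sum_eq_single i]
      · apply sum_congr rfl
        intro j _
        simp only [if_true]
        rw [map_smul, hwθ, Algebra.smul_def]
        rfl
      · intro i' _ hne
        apply sum_eq_zero
        intro j _
        simp [hne]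
      · intro h; exact absurd (mem_univ i) h
  obtain ⟨Φ, h1, h2, -, h4⟩ := openness (D := D) θ a b (fun s => M0 s.1 s.2) (by
    rw [hfam]
    have : (Sum.elim v (fun i => ρ i + ∑ j, (M0 i j : ℂ) * ω j) : Fin k ⊕ Fin n → ℂ)
        = (Sum.elim (fun i => aeval θ (x' i))
      (fun i => aeval θ (ρ' i + ∑ j, M0 i j • w j)) : Fin k ⊕ Fin n → ℂ) := by
      funext i
      rcases i with i | i
      · simp [hx'θ]
      · simp only [Sum.elim_inr]
        rw [map_add, hρ'θ, map_sum]
        congr 1
        apply sum_congr rfl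
        intro j _
        rw [map_smul, hwθ, Algebra.smul_def]
        rfl
    rw [this]
    exact hM0)
  refine ⟨Φ, h1, ?_, ?_⟩
  · rw [Fintype.card_sum, Fintype.card_fin, Fintype.card_fin] at h2
    exact h2
  · intro M hM
    have := h4 M hM
    rwa [hfam] at this

end Pool.Agent.Lib.MP_60829e_nt.Gen
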