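import Mathlib
import Pool.Agent.Lib.MP_60829e_nt.BezIsol

namespace Pool.Agent.Lib.MP_60829e_nt.ML

section Compl

variable {k V : Type} [Field k] [Infinite k] [AddCommGroup V] [Module k V] [FiniteDimensional k V]

/-- finitely many subspaces of the same dimension have a common complement -/
lemma common_compl (𝒜 : Finset (Submodule k V)) (s : ℕ) (h : ∀ U ∈ 𝒜, Module.finrank k U = s) :
    ∃ K' : Submodule k V, ∀ U ∈ 𝒜, IsCompl U K' := by
  classical
  rcases 𝒜.eq_empty_or_nonempty with he | ⟨U0, hU0⟩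
  · subst he
    exact ⟨⊥, by simp⟩
  have hsn : s ≤ Module.finrank k V := by
    rw [← h U0 hU0]; exact Submodule.finrank_le U0
  have key : ∀ i, i ≤ Module.finrank k V - s → ∃ K' : Submodule k V, Module.finrank k K' = i ∧
      ∀ U ∈ 𝒜, Disjoint U K' := by
    intro i
    induction i with
    | zero =>
      intro _
      exact ⟨⊥, finrank_bot k V, fun U _ => disjoint_bot_right⟩
    | succ i ih =>
      intro hi
      obtain ⟨K', hK1, hK2⟩ := ih (by omega)
      have hne : ∀ U : 𝒜, ((U : Submodule k V) ⊔ K') ≠ ⊤ := by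
        intro U htop
        have h1 := Submodule.finrank_add_le_finrank_add_finrank (U : Submodule k V) K'
        rw [htop, finrank_top, h U U.2, hK1] at h1
        omega
      obtain ⟨x, hx⟩ := Submodule.exists_forall_notMem_of_forall_ne_top _ hne
      have hxK : x ∉ K' := fun hxK => hx ⟨U0, hU0⟩ (Submodule.mem_sup_right hxK)
      refine ⟨K' ⊔ Submodule.span k {x}, ?_, ?_⟩
      · have hx0 : x ≠ 0 := fun h0 => hxK (by rw [h0]; exact K'.zero_mem)
        have hdisj : Disjoint K' (Submodule.span k {x}) := by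
          rw [Submodule.disjoint_def]
          intro y hy hy2
          obtain ⟨c, rfl⟩ := Submodule.mem_span_singleton.mp hy2
          by_cases hc : c = 0
          · rw [hc, zero_smul]
          · exfalso
            apply hxK
            have := K'.smul_mem c⁻¹ hy
            rwa [smul_smul, inv_mul_cancel₀ hc, one_smul] at this
        have h2 := Submodule.finrank_sup_add_finrank_inf_eq K' (Submodule.span k {x})
        rw [hdisj.eq_bot, finrank_bot, hK1, finrank_span_singleton hx0] at h2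
        omega
      · intro U hU
        rw [Submodule.disjoint_def]
        intro y hyU hyK
        obtain ⟨z, hz, w, hw, rfl⟩ := Submodule.mem_sup.mp hyK
        obtain ⟨c, rfl⟩ := Submodule.mem_span_singleton.mp hw
        by_cases hc : c = 0
        · rw [hc, zero_smul, add_zero] at hyU ⊢
          exact (Submodule.disjoint_def.mp (hK2 U hU)) z hyU hz
        · exfalso
          apply hx ⟨U, hU⟩
          have h3 : c • x = (z + c • x) - z := by abel
          have h4 : c • x ∈ U ⊔ K' := by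
            rw [h3]
            exact Submodule.sub_mem _ (Submodule.mem_sup_left hyU) (Submodule.mem_sup_right hz)
          have := (U ⊔ K').smul_mem c⁻¹ h4
          rwa [smul_smul, inv_mul_cancel₀ hc, one_smul] at this
  obtain ⟨K', hK1, hK2⟩ := key _ le_rfl
  refine ⟨K', fun U hU => ⟨hK2 U hU, ?_⟩⟩
  rw [codisjoint_iff]
  apply Submodule.eq_top_of_finrank_eq
  have h2 := Submodule.finrank_sup_add_finrank_inf_eq U K'
  rw [(hK2 U hU).eq_bot, finrank_bot, hK1, h U hU] at h2
  omega

end Compl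

section Count

variable {k : Type} [Field k] [IsAlgClosed k] {r : ℕ}

/-- linear form as a polynomial -/
noncomputable def lin (f : (Fin r → k) →ₗ[k] k) : MvPolynomial (Fin r) k :=
  ∑ i, MvPolynomial.C (f (Pi.single i 1)) * MvPolynomial.X i

omit [IsAlgClosed k] in
lemma eval_lin (f : (Fin r → k) →ₗ[k] k) (P : Fin r → k) : MvPolynomial.eval P (lin f) = f P := by
  classical
  rw [lin, map_sum]
  simp only [map_mul, MvPolynomial.eval_C, MvPolynomial.eval_X]
  conv_rhs => rw [← Finset.univ_sum_single P, map_sum]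
  apply Finset.sum_congr rfl
  intro i _
  have h1 : (Pi.single i (P i) : Fin r → k) = P i • (Pi.single i 1 : Fin r → k) := by
    rw [← Pi.single_smul, smul_eq_mul, mul_one]
  rw [h1, map_smul, smul_eq_mul, mul_comm]

omit [IsAlgClosed k] in
lemma lin_degree (f : (Fin r → k) →ₗ[k] k) (c : k) : (lin f - MvPolynomial.C c).totalDegree ≤ 1 := by
  refine (MvPolynomial.totalDegree_sub _ _).trans (max_le ?_ (by simp))
  rw [lin]
  refine MvPolynomial.totalDegree_finsetSum_le fun i _ => ?_
  refine (MvPolynomial.totalDegree_mul _ _).trans ?_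
  rw [MvPolynomial.totalDegree_C, MvPolynomial.totalDegree_X]

theorem count_dim (𝒱 : Finset (Submodule k (Fin r → k))) (hanti : ∀ U ∈ 𝒱, ∀ U' ∈ 𝒱, U ≤ U' → U = U')
    (δ : ℕ) (hδ : 1 ≤ δ) (F : Set (MvPolynomial (Fin r) k)) (hF : ∀ p ∈ F, p.totalDegree ≤ δ)
    (hZ : ∀ P : Fin r → k, (∀ p ∈ F, MvPolynomial.eval P p = 0) ↔ ∃ U ∈ 𝒱, P ∈ U) (s : ℕ) :
    (𝒱.filter (fun U : Submodule k (Fin r → k) => Module.finrank k U = s)).card ≤ δ ^ r := by
  classical
  have : Infinite k := IsAlgClosed.instInfinite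
  set 𝒜 := 𝒱.filter (fun U : Submodule k (Fin r → k) => Module.finrank k U = s) with h𝒜
  obtain ⟨K', hK'⟩ := common_compl 𝒜 s (fun U hU => (Finset.mem_filter.mp hU).2)
  have hK2 : ∀ U : 𝒜, IsCompl (U : Submodule k (Fin r → k)) K' := fun U => hK' U U.2
  let pr : ∀ U : 𝒜, (Fin r → k) →ₗ[k] (Fin r → k) := fun U => (U : Submodule k (Fin r → k)).projection K' (hK2 U)
  -- the choice of the point
  let J := {x : 𝒜 × 𝒱 // (x.1 : Submodule k (Fin r → k)) ≠ x.2}
  have hne : ∀ x : J, ((x.1.2 : Submodule k (Fin r → k)).comap (pr x.1.1)) ≠ ⊤ := by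
    intro x htop
    apply x.2
    apply hanti _ (Finset.mem_filter.mp x.1.1.2).1 _ x.1.2.2
    intro u hu
    have h1 : u ∈ ((x.1.2 : Submodule k (Fin r → k)).comap (pr x.1.1)) := by rw [htop]; exact Submodule.mem_top
    rw [Submodule.mem_comap] at h1
    have h2 : pr x.1.1 u = u := Submodule.projection_apply_of_mem_left _ hu
    rwa [h2] at h1
  obtain ⟨a, ha⟩ := Submodule.exists_forall_notMem_of_forall_ne_top _ hne
  let pt : 𝒜 → (Fin r → k) := fun U => pr U a
  have hpt : ∀ U : 𝒜, pt U ∈ (U : Submodule k (Fin r → k)) := fun U => Submodule.projection_apply_mem _ _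
  have hpt2 : ∀ (U : 𝒜) (U' : Submodule k (Fin r → k)) (_ : U' ∈ 𝒱), (U : Submodule k (Fin r → k)) ≠ U' →
      pt U ∉ U' := fun U U' hU' hne => ha ⟨(U, ⟨U', hU'⟩), hne⟩
  have hptK : ∀ U : 𝒜, a - pt U ∈ K' := by
    intro U
    rw [← Submodule.projection_apply_eq_zero_iff (hK2 U), map_sub]
    have h2 : (U : Submodule k (Fin r → k)).projection K' (hK2 U) (pt U) = pt U :=
      Submodule.projection_apply_of_mem_left _ (hpt U)
    rw [h2]
    exact sub_self _
  let F' : Set (MvPolynomial (Fin r) k) := F ∪ {p | ∃ f : (Fin r → k) →ₗ[k] k, K' ≤ LinearMap.ker f ∧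
    p = lin f - MvPolynomial.C (f a)}
  let B : Set (MvPolynomial (Fin r) k) := {l | ∀ U' ∈ 𝒱, Module.finrank k U' ≠ s → ∀ P ∈ U', MvPolynomial.eval P l = 0}
  set T : Set (Fin r → k) := {P | (∀ p ∈ F', MvPolynomial.eval P p = 0) ∧ ∃ l ∈ B, MvPolynomial.eval P l ≠ 0} with hT
  have hT1 : T ⊆ Set.range pt := by
    rintro P ⟨hP1, l, hl, hlP⟩
    obtain ⟨U, hU, hPU⟩ := (hZ P).mp (fun p hp => hP1 p (Or.inl hp))
    have hUs : Module.finrank k U = s := by
      by_contra hcon
      exact hlP (hl U hU hcon P hPU)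
    have hU𝒜 : U ∈ 𝒜 := Finset.mem_filter.mpr ⟨hU, hUs⟩
    refine ⟨⟨U, hU𝒜⟩, ?_⟩
    have hPK : P - a ∈ K' := by
      by_contra hcon
      obtain ⟨f, hf1, hf2⟩ := Submodule.exists_le_ker_of_notMem hcon
      apply hf1
      have h1 := hP1 _ (Or.inr ⟨f, hf2, rfl⟩)
      rw [map_sub, eval_lin, MvPolynomial.eval_C] at h1
      rw [map_sub]; exact h1
    change pr ⟨U, hU𝒜⟩ a = P
    have h2 : pr ⟨U, hU𝒜⟩ P = P := Submodule.projection_apply_of_mem_left _ hPU
    have h3 : pr ⟨U, hU𝒜⟩ (P - a) = 0 := (Submodule.projection_apply_eq_zero_iff _).mpr hPK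
    rw [map_sub, h2] at h3
    exact (sub_eq_zero.mp h3).symm
  have hfin : T.Finite := (Set.finite_range pt).subset hT1
  have hT2 : ∀ U : 𝒜, pt U ∈ T := by
    intro U
    refine ⟨?_, ?_⟩
    · rintro p (hp | ⟨f, hf, rfl⟩)
      · exact (hZ _).mpr ⟨U, (Finset.mem_filter.mp U.2).1, hpt U⟩ p hp
      · rw [map_sub, eval_lin, MvPolynomial.eval_C]
        have h1 := hf (hptK U)
        rw [LinearMap.mem_ker, map_sub] at h1
        rw [sub_eq_zero] at h1 ⊢
        exact h1.symm
    · -- separating polynomial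
      let 𝒲 := 𝒱.filter (fun U' : Submodule k (Fin r → k) => Module.finrank k U' ≠ s)
      have h1 : ∀ U' : 𝒲, ∃ f : (Fin r → k) →ₗ[k] k, f (pt U) ≠ 0 ∧ (U' : Submodule k (Fin r → k)) ≤ LinearMap.ker f := by
        intro U'
        have h2 := Finset.mem_filter.mp U'.2
        apply Submodule.exists_le_ker_of_notMem
        apply hpt2 U U' h2.1
        intro heq
        apply h2.2
        rw [← heq]
        exact (Finset.mem_filter.mp U.2).2
      choose f hf1 hf2 using h1
      refine ⟨∏ U' : 𝒲, lin (f U'), ?_, ?_⟩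
      · intro U' hU' hs P hP
        rw [map_prod]
        apply Finset.prod_eq_zero (Finset.mem_univ (⟨U', Finset.mem_filter.mpr ⟨hU', hs⟩⟩ : 𝒲))
        rw [eval_lin]
        exact hf2 ⟨U', _⟩ hP
      · rw [map_prod, Finset.prod_ne_zero_iff]
        intro U' _
        rw [eval_lin]
        exact hf1 U'
  have hcard := Bez.finite_open_bound F' B δ (by
    rintro p (hp | ⟨f, -, rfl⟩)
    · exact hF p hp
    · exact (lin_degree f _).trans hδ) hfin
  rw [Nat.card_eq_fintype_card, Fintype.card_fin] at hcard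
  refine le_trans ?_ hcard
  rw [← Fintype.card_coe 𝒜, ← Finset.card_univ]
  apply Finset.card_le_card_of_injOn pt
  · intro U _
    rw [Finset.mem_coe, Set.Finite.mem_toFinset]
    exact hT2 U
  · intro U _ U' _ heq
    by_contra hne'
    apply hpt2 U U' (Finset.mem_filter.mp U'.2).1 (fun h => hne' (Subtype.ext h))
    rw [heq]
    exact hpt U'

/-- the number of subspaces in a union of subspaces cut out by equations of bounded degree -/
theorem count_all (𝒱 : Finset (Submodule k (Fin r → k))) (hanti : ∀ U ∈ 𝒱, ∀ U' ∈ 𝒱, U ≤ U' → U = U')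
    (δ : ℕ) (hδ : 1 ≤ δ) (F : Set (MvPolynomial (Fin r) k)) (hF : ∀ p ∈ F, p.totalDegree ≤ δ)
    (hZ : ∀ P : Fin r → k, (∀ p ∈ F, MvPolynomial.eval P p = 0) ↔ ∃ U ∈ 𝒱, P ∈ U) (N : ℕ)
    (hN : ∀ U ∈ 𝒱, Module.finrank k U < N) : 𝒱.card ≤ N * δ ^ r := by
  classical
  rw [Finset.card_eq_sum_card_fiberwise (f := fun U : Submodule k (Fin r → k) => Module.finrank k U) (t := Finset.range N)
    (fun U hU => by
      rw [Finset.mem_coe, Finset.mem_range]
      exact hN U hU)]
  calc ∑ s ∈ Finset.range N, (𝒱.filter (fun U : Submodule k (Fin r → k) => Module.finrank k U = s)).card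
      ≤ ∑ s ∈ Finset.range N, δ ^ r := Finset.sum_le_sum (fun s _ => count_dim 𝒱 hanti δ hδ F hF hZ s)
    _ = N * δ ^ r := by rw [Finset.sum_const, Finset.card_range, smul_eq_mul]

end Count

end Pool.Agent.Lib.MP_60829e_nt.ML
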