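import Mathlib

namespace Pool.Agent.Lib.MP_60829e_nt.ML

open Polynomial

section Gauss

variable {F Γ : Type} [Field F] [LinearOrderedCommGroupWithZero Γ] (v : Valuation F Γ)

/-- weighted Gauss norm of a product of linear factors -/
lemma gauss {J : Type} (T : Finset J) (s : J → F) (ρ : Γ) (hρ : ρ ≠ 0) :
    (∀ j, v ((∏ i ∈ T, (X - C (s i))).coeff j) * ρ ^ j ≤ ∏ i ∈ T, max ρ (v (s i))) ∧
    ∃ j, v ((∏ i ∈ T, (X - C (s i))).coeff j) * ρ ^ j = ∏ i ∈ T, max ρ (v (s i)) := by
  classical
  have hρ0 : 0 < ρ := zero_lt_iff.mpr hρ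
  induction T using Finset.induction_on with
  | empty =>
    simp only [Finset.prod_empty]
    refine ⟨?_, 0, by simp⟩
    intro j
    rw [coeff_one]
    split_ifs with h
    · simp [h]
    · simp
  | insert a T ha ih =>
    obtain ⟨ih1, j1, ih2⟩ := ih
    set P := ∏ i ∈ T, (X - C (s i)) with hP
    set M := ∏ i ∈ T, max ρ (v (s i)) with hM
    have hM0 : 0 < M := by
      rw [hM]
      exact Finset.prod_pos (fun i _ => lt_of_lt_of_le hρ0 (le_max_left _ _))
    rw [Finset.prod_insert ha, Finset.prod_insert ha, ← hP, ← hM]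
    have hc0 : ((X - C (s a)) * P).coeff 0 = -(s a * P.coeff 0) := by
      rw [sub_mul, coeff_sub, coeff_C_mul, mul_coeff_zero, coeff_X_zero]; ring
    have hcs : ∀ j, ((X - C (s a)) * P).coeff (j + 1) = P.coeff j - s a * P.coeff (j + 1) := by
      intro j
      rw [sub_mul, coeff_sub, coeff_C_mul, coeff_X_mul]
    have hup1 : ∀ j, v (P.coeff j) * ρ ^ (j + 1) ≤ max ρ (v (s a)) * M := by
      intro j
      calc v (P.coeff j) * ρ ^ (j + 1) = ρ * (v (P.coeff j) * ρ ^ j) := by rw [pow_succ]; ac_rfl
        _ ≤ ρ * M := mul_le_mul_right (ih1 j) ρ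
        _ ≤ max ρ (v (s a)) * M := mul_le_mul_left (le_max_left _ _) M
    have hup2 : ∀ j, v (s a * P.coeff j) * ρ ^ j ≤ max ρ (v (s a)) * M := by
      intro j
      calc v (s a * P.coeff j) * ρ ^ j = v (s a) * (v (P.coeff j) * ρ ^ j) := by
            rw [map_mul]; ac_rfl
        _ ≤ v (s a) * M := mul_le_mul_right (ih1 j) _
        _ ≤ max ρ (v (s a)) * M := mul_le_mul_left (le_max_right _ _) M
    refine ⟨?_, ?_⟩
    · intro j
      rcases j with _ | j
      · rw [hc0, Valuation.map_neg]
        exact hup2 0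
      · rw [hcs]
        have h1 := v.map_sub (P.coeff j) (s a * P.coeff (j + 1))
        rcases le_max_iff.mp h1 with h2 | h2
        · exact (mul_le_mul_left h2 _).trans (hup1 j)
        · exact (mul_le_mul_left h2 _).trans (hup2 (j + 1))
    · rcases lt_or_ge ρ (v (s a)) with hlt | hge
      · -- the root is large
        refine ⟨j1, ?_⟩
        rw [max_eq_right hlt.le]
        rcases j1 with _ | j
        · rw [hc0, Valuation.map_neg, map_mul, mul_assoc, ih2]
        · rw [hcs]
          have h1 : v (P.coeff j) < v (s a * P.coeff (j + 1)) := by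
            have h2 : v (P.coeff j) * ρ ^ (j + 1) < v (s a * P.coeff (j + 1)) * ρ ^ (j + 1) := by
              calc v (P.coeff j) * ρ ^ (j + 1) = ρ * (v (P.coeff j) * ρ ^ j) := by
                    rw [pow_succ]; ac_rfl
                _ ≤ ρ * M := mul_le_mul_right (ih1 j) ρ
                _ < v (s a) * M := by
                    exact mul_lt_mul_of_pos_right hlt hM0
                _ = v (s a * P.coeff (j + 1)) * ρ ^ (j + 1) := by
                    rw [map_mul, mul_assoc, ih2]
            exact lt_of_mul_lt_mul_right h2 zero_le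
          rw [Valuation.map_sub_eq_of_lt_right v h1, map_mul, mul_assoc, ih2]
      · -- the root is small: largest index
        rw [max_eq_left hge]
        have hfin : ∃ j0, v (P.coeff j0) * ρ ^ j0 = M ∧ ∀ j, j0 < j → v (P.coeff j) * ρ ^ j < M := by
          have hb : ∀ j, v (P.coeff j) * ρ ^ j = M → j ≤ P.natDegree := by
            intro j hj
            by_contra hcon
            push Not at hcon
            rw [coeff_eq_zero_of_natDegree_lt hcon, map_zero, zero_mul] at hj
            exact hM0.ne hj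
          refine ⟨Nat.findGreatest (fun j => v (P.coeff j) * ρ ^ j = M) P.natDegree, ?_, ?_⟩
          · exact Nat.findGreatest_spec (P := fun j => v (P.coeff j) * ρ ^ j = M) (hb j1 ih2) ih2
          · intro j hj
            refine lt_of_le_of_ne (ih1 j) ?_
            intro h
            exact absurd (Nat.le_findGreatest (hb j h) h) (not_le.mpr hj)
        obtain ⟨j0, h0, h1⟩ := hfin
        refine ⟨j0 + 1, ?_⟩
        rw [hcs]
        have h2 : v (s a * P.coeff (j0 + 1)) < v (P.coeff j0) := by
          have h3 : v (s a * P.coeff (j0 + 1)) * ρ ^ (j0 + 1) < v (P.coeff j0) * ρ ^ (j0 + 1) := by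
            calc v (s a * P.coeff (j0 + 1)) * ρ ^ (j0 + 1)
                = v (s a) * (v (P.coeff (j0 + 1)) * ρ ^ (j0 + 1)) := by rw [map_mul]; ac_rfl
              _ ≤ ρ * (v (P.coeff (j0 + 1)) * ρ ^ (j0 + 1)) := mul_le_mul_left hge _
              _ < ρ * M := mul_lt_mul_of_pos_left (h1 (j0 + 1) (by omega)) hρ0
              _ = v (P.coeff j0) * ρ ^ (j0 + 1) := by rw [← h0, pow_succ]; ac_rfl
          exact lt_of_mul_lt_mul_right h3 zero_le
        rw [Valuation.map_sub_eq_of_lt_left v h2, pow_succ]
        calc v (P.coeff j0) * (ρ ^ j0 * ρ) = ρ * (v (P.coeff j0) * ρ ^ j0) := by ac_rfl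
          _ = ρ * M := by rw [h0]

end Gauss

end Pool.Agent.Lib.MP_60829e_nt.ML
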