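import Mathlib
import Pool.Agent.Lib.MP_60829e_nt.MGauss

namespace Pool.Agent.Lib.MP_60829e_nt.ML

open Polynomial

section Place

variable {R F : Type} [CommRing R] [IsDomain R] [Field F] [Algebra R F]

/-- a valuation ring of `F` dominating a local ring -/
lemma exists_dom {A : Type} [CommRing A] [IsLocalRing A] (f : A →+* F) :
    ∃ O : ValuationSubring F, (∀ a : A, O.valuation (f a) ≤ 1) ∧
      (∀ a : A, ¬ IsUnit a → O.valuation (f a) < 1) ∧
      (∀ a : A, IsUnit a → O.valuation (f a) = 1) := by
  obtain ⟨O, hO, hloc⟩ := IsLocalRing.exists_factor_valuationRing f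
  refine ⟨O, ?_, ?_, ?_⟩
  · intro a
    rw [ValuationSubring.valuation_le_one_iff]
    exact hO _
  · intro a ha
    have h2 : ¬ IsUnit ((f.codRestrict O.toSubring hO) a) := fun h => ha (hloc.map_nonunit _ h)
    exact (ValuationSubring.valuation_lt_one_iff O ((f.codRestrict O.toSubring hO) a)).mp
      (by rw [IsLocalRing.mem_maximalIdeal]; exact h2)
  · intro a ha
    have h2 : IsUnit ((f.codRestrict O.toSubring hO) a) := ha.map _
    exact (ValuationSubring.valuation_eq_one_iff O ((f.codRestrict O.toSubring hO) a)).mp h2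

/-- a valuation ring of `F` centred at a prime of `R` -/
lemma exists_place (hinj : Function.Injective (algebraMap R F)) (P : Ideal R) [hP : P.IsPrime] :
    ∃ O : ValuationSubring F, (∀ a : R, O.valuation (algebraMap R F a) ≤ 1) ∧
      (∀ a ∈ P, O.valuation (algebraMap R F a) < 1) ∧
      (∀ a ∉ P, O.valuation (algebraMap R F a) = 1) := by
  classical
  have hunit : ∀ y : P.primeCompl, IsUnit (algebraMap R F y) := by
    intro y
    rw [isUnit_iff_ne_zero]
    intro h0
    have h1 : (y : R) = 0 := hinj (by rw [h0, map_zero])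
    exact y.2 (by rw [h1]; exact P.zero_mem)
  let f : Localization.AtPrime P →+* F := IsLocalization.lift (M := P.primeCompl) (g := algebraMap R F) hunit
  have hf : ∀ a : R, f (algebraMap R _ a) = algebraMap R F a := fun a =>
    IsLocalization.lift_eq hunit a
  obtain ⟨O, h1, h2, h3⟩ := exists_dom f
  refine ⟨O, ?_, ?_, ?_⟩
  · intro a
    rw [← hf]
    exact h1 _
  · intro a ha
    rw [← hf]
    apply h2
    rw [IsLocalization.AtPrime.isUnit_to_map_iff (Localization.AtPrime P) P]
    exact fun h => h ha
  · intro a ha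
    rw [← hf]
    apply h3
    rw [IsLocalization.AtPrime.isUnit_to_map_iff (Localization.AtPrime P) P]
    exact ha

end Place

section Inf

variable {k F ι : Type} [Field k] [Field F] [Algebra (MvPolynomial ι k) F]

/-- the local ring at infinity -/
def infRing (hinj : Function.Injective (algebraMap (MvPolynomial ι k) F)) : Subring F where
  carrier := {x | ∃ a b : MvPolynomial ι k, b ≠ 0 ∧ a.totalDegree ≤ b.totalDegree ∧
    x * algebraMap _ F b = algebraMap _ F a}
  mul_mem' := by
    rintro x y ⟨a, b, hb, hab, h⟩ ⟨a', b', hb', hab', h'⟩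
    refine ⟨a * a', b * b', mul_ne_zero hb hb', ?_, ?_⟩
    · rw [MvPolynomial.totalDegree_mul_of_isDomain hb hb']
      exact (MvPolynomial.totalDegree_mul _ _).trans (by omega)
    · rw [map_mul, map_mul, ← h, ← h']; ring
  one_mem' := ⟨1, 1, one_ne_zero, le_rfl, by rw [map_one, one_mul]⟩
  add_mem' := by
    rintro x y ⟨a, b, hb, hab, h⟩ ⟨a', b', hb', hab', h'⟩
    refine ⟨a * b' + a' * b, b * b', mul_ne_zero hb hb', ?_, ?_⟩
    · rw [MvPolynomial.totalDegree_mul_of_isDomain hb hb']
      refine (MvPolynomial.totalDegree_add _ _).trans (max_le ?_ ?_)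
      · exact (MvPolynomial.totalDegree_mul _ _).trans (by omega)
      · exact (MvPolynomial.totalDegree_mul _ _).trans (by omega)
    · rw [map_add, map_mul, map_mul, map_mul, ← h, ← h']; ring
  zero_mem' := ⟨0, 1, one_ne_zero, by simp, by rw [map_zero, zero_mul]⟩
  neg_mem' := by
    rintro x ⟨a, b, hb, hab, h⟩
    refine ⟨-a, b, hb, by rwa [MvPolynomial.totalDegree_neg], by rw [map_neg, ← h]; ring⟩

lemma infRing_nonunit (hinj : Function.Injective (algebraMap (MvPolynomial ι k) F))
    (x : infRing hinj) : ¬ IsUnit x ↔ ∃ a b : MvPolynomial ι k, b ≠ 0 ∧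
      (a = 0 ∨ a.totalDegree < b.totalDegree) ∧ (x : F) * algebraMap _ F b = algebraMap _ F a := by
  constructor
  · intro hx
    obtain ⟨a, b, hb, hab, h⟩ := x.2
    refine ⟨a, b, hb, ?_, h⟩
    by_contra hcon
    push Not at hcon
    apply hx
    have ha0 : algebraMap _ F a ≠ 0 := fun h0 => hcon.1 (hinj (by rw [h0, map_zero]))
    have hb0 : algebraMap _ F b ≠ 0 := fun h0 => hb (hinj (by rw [h0, map_zero]))
    have hx0 : (x : F) ≠ 0 := by
      intro h0; rw [h0, zero_mul] at h; exact ha0 h.symm
    rw [isUnit_iff_exists_inv]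
    refine ⟨⟨(x : F)⁻¹, b, a, hcon.1, hcon.2, ?_⟩, ?_⟩
    · rw [← h]; field_simp
    · apply Subtype.ext
      change (x : F) * (x : F)⁻¹ = 1
      exact mul_inv_cancel₀ hx0
  · rintro ⟨a, b, hb, hab, h⟩ hx
    rw [isUnit_iff_exists_inv] at hx
    obtain ⟨⟨y, c, d, hd, hcd, h'⟩, hxy⟩ := hx
    have hxy' : (x : F) * y = 1 := congrArg Subtype.val hxy
    have h1 : algebraMap _ F (a * c) = algebraMap _ F (b * d) := by
      rw [map_mul, map_mul, ← h, ← h']
      linear_combination (algebraMap (MvPolynomial ι k) F b) * (algebraMap (MvPolynomial ι k) F d) * hxy'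
    have h2 : a * c = b * d := hinj h1
    rcases hab with h3 | h3
    · rw [h3, zero_mul] at h2
      exact mul_ne_zero hb hd h2.symm
    · have h4 : (b * d).totalDegree = b.totalDegree + d.totalDegree :=
        MvPolynomial.totalDegree_mul_of_isDomain hb hd
      have h5 : (a * c).totalDegree ≤ a.totalDegree + c.totalDegree := MvPolynomial.totalDegree_mul _ _
      rw [h2] at h5
      omega

lemma infRing_local (hinj : Function.Injective (algebraMap (MvPolynomial ι k) F)) :
    IsLocalRing (infRing hinj) := by
  apply IsLocalRing.of_nonunits_add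
  intro x y hx hy
  rw [mem_nonunits_iff, infRing_nonunit] at hx hy ⊢
  obtain ⟨a, b, hb, hab, h⟩ := hx
  obtain ⟨a', b', hb', hab', h'⟩ := hy
  refine ⟨a * b' + a' * b, b * b', mul_ne_zero hb hb', ?_, ?_⟩
  · rw [MvPolynomial.totalDegree_mul_of_isDomain hb hb']
    by_cases ha : a = 0
    · subst ha
      rw [zero_mul, zero_add]
      rcases hab' with h1 | h1
      · left; rw [h1, zero_mul]
      · right
        exact lt_of_le_of_lt (MvPolynomial.totalDegree_mul _ _) (by omega)
    · have h1 : a.totalDegree < b.totalDegree := by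
        rcases hab with h1 | h1
        · exact absurd h1 ha
        · exact h1
      by_cases ha' : a' = 0
      · subst ha'
        right
        rw [zero_mul, add_zero]
        exact lt_of_le_of_lt (MvPolynomial.totalDegree_mul _ _) (by omega)
      · have h2 : a'.totalDegree < b'.totalDegree := by
          rcases hab' with h2 | h2
          · exact absurd h2 ha'
          · exact h2
        right
        refine lt_of_le_of_lt (MvPolynomial.totalDegree_add _ _) (max_lt ?_ ?_)
        · exact lt_of_le_of_lt (MvPolynomial.totalDegree_mul _ _) (by omega)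
        · exact lt_of_le_of_lt (MvPolynomial.totalDegree_mul _ _) (by omega)
  · rw [map_add, map_mul, map_mul, map_mul, ← h, ← h']
    change ((x : F) + (y : F)) * _ = _
    ring

/-- the place at infinity -/
lemma exists_inf (hinj : Function.Injective (algebraMap (MvPolynomial ι k) F)) :
    ∃ O : ValuationSubring F, (∀ a b : MvPolynomial ι k, b ≠ 0 → a.totalDegree ≤ b.totalDegree →
        O.valuation (algebraMap _ F a) ≤ O.valuation (algebraMap _ F b)) ∧
      (∀ a b : MvPolynomial ι k, b ≠ 0 → a.totalDegree < b.totalDegree →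
        O.valuation (algebraMap _ F a) < O.valuation (algebraMap _ F b)) := by
  have := infRing_local hinj
  obtain ⟨O, h1, h2, h3⟩ := exists_dom (infRing hinj).subtype
  refine ⟨O, ?_, ?_⟩
  · intro a b hb hab
    have hb0 : algebraMap _ F b ≠ 0 := fun h0 => hb (hinj (by rw [h0, map_zero]))
    have h4 := h1 ⟨algebraMap _ F a / algebraMap _ F b, a, b, hb, hab, by field_simp⟩
    have h5 : O.valuation (algebraMap _ F a / algebraMap _ F b) ≤ 1 := h4
    rw [map_div₀] at h5
    have h6 : 0 < O.valuation (algebraMap _ F b) := zero_lt_iff.mpr ((Valuation.ne_zero_iff _).mpr hb0)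
    exact (div_le_one₀ h6).mp h5
  · intro a b hb hab
    have hb0 : algebraMap _ F b ≠ 0 := fun h0 => hb (hinj (by rw [h0, map_zero]))
    have h4 := h2 ⟨algebraMap _ F a / algebraMap _ F b, a, b, hb, hab.le, by field_simp⟩ (by
      rw [infRing_nonunit]
      refine ⟨a, b, hb, Or.inr hab, ?_⟩
      change algebraMap _ F a / algebraMap _ F b * _ = _
      field_simp)
    have h5 : O.valuation (algebraMap _ F a / algebraMap _ F b) < 1 := h4
    rw [map_div₀] at h5
    have h6 : 0 < O.valuation (algebraMap _ F b) := zero_lt_iff.mpr ((Valuation.ne_zero_iff _).mpr hb0)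
    exact (div_lt_one₀ h6).mp h5

end Inf

end Pool.Agent.Lib.MP_60829e_nt.ML
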