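import Mathlib

namespace Pool.Agent.Lib.MP_60829e_nt.ML

open Polynomial

section Conj

variable {K L F : Type} [Field K] [Field L] [Field F] [Algebra K L] [Algebra K F] [IsAlgClosed F]
  [FiniteDimensional K L] [Algebra.IsSeparable K L] [Infinite K]

lemma conj_poly (e : L) : ∃ χ : K[X], χ.Monic ∧ χ.natDegree = Module.finrank K L ∧
    χ.map (algebraMap K F) = ∏ σ : L →ₐ[K] F, (X - C (σ e)) ∧ aeval e χ = 0 := by
  classical
  refine ⟨LinearMap.charpoly (Algebra.lmul K L e), LinearMap.charpoly_monic _,
    LinearMap.charpoly_natDegree _, ?_, Algebra.aeval_self_charpoly_lmul e⟩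
  apply Polynomial.eq_of_infinite_eval_eq
  have hinf : (Set.range (algebraMap K F)).Infinite :=
    Set.infinite_range_of_injective (algebraMap K F).injective
  apply hinf.mono
  rintro _ ⟨y, rfl⟩
  rw [Set.mem_setOf_eq, eval_map_algebraMap, aeval_algebraMap_apply, coe_aeval_eq_eval,
    LinearMap.eval_charpoly]
  have h1 : algebraMap K (Module.End K L) y - Algebra.lmul K L e = Algebra.lmul K L (algebraMap K L y - e) := by
    rw [map_sub, AlgHom.commutes]
  have h2 : LinearMap.det (Algebra.lmul K L (algebraMap K L y - e)) = Algebra.norm K (algebraMap K L y - e) := rfl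
  rw [h1, h2, Algebra.norm_eq_prod_embeddings, eval_prod]
  apply Finset.prod_congr rfl
  intro σ _
  rw [map_sub, AlgHom.commutes, eval_sub, eval_X, eval_C]

variable {R : Type} [CommRing R] [IsDomain R] [NormalizedGCDMonoid R] [Algebra R K] [IsFractionRing R K] [Algebra R F]
  [IsScalarTower R K F]

/-- the minimal relation of a generator -/
lemma gen_relation (w : L) (hw : IntermediateField.adjoin K {w} = ⊤) (g : R[X]) (hg : Irreducible g)
    (hdeg : g.natDegree ≠ 0) (hgw : aeval w (g.map (algebraMap R K)) = 0) :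
    g.map (algebraMap R F) = C (algebraMap R F g.leadingCoeff) * ∏ σ : L →ₐ[K] F, (X - C (σ w)) := by
  classical
  obtain ⟨χ, h1, h2, h3, h4⟩ := conj_poly (K := K) (F := F) w
  have hprim : g.IsPrimitive := hg.isPrimitive hdeg
  have hirr : Irreducible (g.map (algebraMap R K)) :=
    (hprim.irreducible_iff_irreducible_map_fraction_map).mp hg
  have hmin : g.map (algebraMap R K) * C (g.map (algebraMap R K)).leadingCoeff⁻¹ = minpoly K w :=
    minpoly.eq_of_irreducible hirr hgw
  have hint : IsIntegral K w := Algebra.IsIntegral.isIntegral w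
  have hχ : χ = minpoly K w := by
    have h5 : minpoly K w ∣ χ := minpoly.dvd K w h4
    apply (Polynomial.eq_of_monic_of_dvd_of_natDegree_le (minpoly.monic hint) h1 h5 ?_)
    rw [h2, ← IntermediateField.adjoin.finrank hint, hw, IntermediateField.finrank_top']
  have hlc : (g.map (algebraMap R K)).leadingCoeff = algebraMap R K g.leadingCoeff :=
    leadingCoeff_map_of_injective (IsFractionRing.injective R K) g
  have hlc0 : (g.map (algebraMap R K)).leadingCoeff ≠ 0 := leadingCoeff_ne_zero.mpr hirr.ne_zero
  have h6 : g.map (algebraMap R K) = C (algebraMap R K g.leadingCoeff) * χ := by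
    rw [hχ, ← hmin, hlc]
    rw [hlc] at hlc0
    calc g.map (algebraMap R K) = g.map (algebraMap R K) * C (1 : K) := by rw [C_1, mul_one]
      _ = g.map (algebraMap R K) * C ((algebraMap R K g.leadingCoeff)⁻¹ * algebraMap R K g.leadingCoeff) := by
        rw [inv_mul_cancel₀ hlc0]
      _ = _ := by rw [C_mul]; ring
  have h7 : g.map (algebraMap R F) = (g.map (algebraMap R K)).map (algebraMap K F) := by
    rw [Polynomial.map_map, ← IsScalarTower.algebraMap_eq]
  rw [h7, h6, Polynomial.map_mul, h3, Polynomial.map_C, ← IsScalarTower.algebraMap_apply]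

end Conj

end Pool.Agent.Lib.MP_60829e_nt.ML
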