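import Mathlib
import Pool.Agent.Lib.MP_60829e_nt.MGauss
import Pool.Agent.Lib.MP_60829e_nt.MConj

namespace Pool.Agent.Lib.MP_60829e_nt.ML

open Polynomial

section Transfer

variable {k ι K L F : Type} [Field k] [Field K] [Field L] [Field F] [Algebra K L] [Algebra K F]
  [IsAlgClosed F] [FiniteDimensional K L] [Algebra.IsSeparable K L] [Infinite K]
  [Algebra (MvPolynomial ι k) K] [IsFractionRing (MvPolynomial ι k) K] [Algebra (MvPolynomial ι k) F]
  [IsScalarTower (MvPolynomial ι k) K F]

/-- degree bound for a relation with coefficients in the polynomial ring -/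
def DegLE (D : ℕ) (g : (MvPolynomial ι k)[X]) : Prop :=
  ∀ j, g.coeff j ≠ 0 → (g.coeff j).totalDegree + j ≤ D

/-- `O` is centred at the prime `p` -/
def Centred (O : ValuationSubring F) (p : MvPolynomial ι k) : Prop :=
  (∀ r : MvPolynomial ι k, O.valuation (algebraMap _ F r) ≤ 1) ∧
    O.valuation (algebraMap _ F p) < 1 ∧
    ∀ r : MvPolynomial ι k, ¬ p ∣ r → O.valuation (algebraMap _ F r) = 1

/-- `O` lies at infinity -/
def AtInf (k ι : Type) [Field k] {F : Type} [Field F] [Algebra (MvPolynomial ι k) F]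
    (O : ValuationSubring F) : Prop :=
  (∀ a b : MvPolynomial ι k, b ≠ 0 → a.totalDegree ≤ b.totalDegree →
        O.valuation (algebraMap _ F a) ≤ O.valuation (algebraMap _ F b)) ∧
      (∀ a b : MvPolynomial ι k, b ≠ 0 → a.totalDegree < b.totalDegree →
        O.valuation (algebraMap _ F a) < O.valuation (algebraMap _ F b))

omit [IsAlgClosed F] [Infinite K] in
/-- an element of the fraction field which is integral at all primes is a polynomial -/
lemma mem_range_of_places (y : K)
    (h : ∀ p : MvPolynomial ι k, Prime p → ∃ O : ValuationSubring F, Centred O p ∧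
      O.valuation (algebraMap K F y) ≤ 1) :
    ∃ r : MvPolynomial ι k, algebraMap _ K r = y := by
  obtain ⟨a, b, hab, hy⟩ := IsFractionRing.exists_reduced_fraction (A := MvPolynomial ι k) y
  have hb0 : (b : MvPolynomial ι k) ≠ 0 := nonZeroDivisors.ne_zero b.2
  have hyb : y * algebraMap _ K (b : MvPolynomial ι k) = algebraMap _ K a := by
    rw [← hy]; exact IsLocalization.mk'_spec K a b
  by_cases hu : IsUnit (b : MvPolynomial ι k)
  · obtain ⟨c, hc⟩ := hu.exists_right_inv
    refine ⟨a * c, ?_⟩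
    rw [map_mul, ← hyb, mul_assoc, ← map_mul, hc, map_one, mul_one]
  · exfalso
    obtain ⟨p, hp, hpb⟩ := WfDvdMonoid.exists_irreducible_factor hu hb0
    have hpp : Prime p := hp.prime
    obtain ⟨O, ⟨hO1, hO2, hO3⟩, hO4⟩ := h p hpp
    have hpa : ¬ p ∣ a := fun h => hp.not_isUnit (hab h hpb)
    have h1 : O.valuation (algebraMap _ F (b : MvPolynomial ι k)) < 1 := by
      obtain ⟨c, hc⟩ := hpb
      rw [hc, map_mul, map_mul]
      calc _ ≤ O.valuation (algebraMap _ F p) * 1 := mul_le_mul_right (hO1 c) _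
        _ < 1 := by rw [mul_one]; exact hO2
    have h2 := congrArg (fun t => O.valuation (algebraMap K F t)) hyb
    simp only [map_mul, ← IsScalarTower.algebraMap_apply] at h2
    rw [hO3 a hpa] at h2
    have h3 : O.valuation (algebraMap K F y) * O.valuation (algebraMap _ F (b : MvPolynomial ι k)) < 1 :=
      calc _ ≤ 1 * O.valuation (algebraMap _ F (b : MvPolynomial ι k)) := mul_le_mul_left hO4 _
        _ < 1 := by rw [one_mul]; exact h1
    exact absurd h2 h3.ne

theorem transfer (w e : L) (g : (MvPolynomial ι k)[X]) (D : ℕ) (hgD : DegLE D g)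
    (a : MvPolynomial ι k)
    (hg : g.map (algebraMap _ F) = C (algebraMap _ F a) * ∏ σ : L →ₐ[K] F, (X - C (σ w)))
    (hfin : ∀ p : MvPolynomial ι k, Prime p → ∃ O : ValuationSubring F, Centred O p ∧
      ∀ σ : L →ₐ[K] F, O.valuation (σ e) ≤ max 1 (O.valuation (σ w)))
    (i0 : ι)
    (hinf : ∃ O : ValuationSubring F, AtInf k ι O ∧ ∀ σ : L →ₐ[K] F,
      O.valuation (σ e) ≤ max (O.valuation (algebraMap _ F (MvPolynomial.X i0 : MvPolynomial ι k)))
        (O.valuation (σ w))) :
    ∃ h : (MvPolynomial ι k)[X], h.map (algebraMap _ F) =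
      C (algebraMap _ F a) * ∏ σ : L →ₐ[K] F, (X - C (σ e)) ∧ DegLE D h := by
  classical
  obtain ⟨χ, h1, h2, h3, h4⟩ := conj_poly (K := K) (F := F) e
  have hinj : Function.Injective (algebraMap (MvPolynomial ι k) F) := by
    rw [IsScalarTower.algebraMap_eq (MvPolynomial ι k) K F]
    exact (algebraMap K F).injective.comp (IsFractionRing.injective _ K)
  -- coefficients
  have hcoef : ∀ j, ∃ r : MvPolynomial ι k, algebraMap _ K r = algebraMap _ K a * χ.coeff j := by
    intro j
    apply mem_range_of_places (F := F)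
    intro p hp
    obtain ⟨O, hO, hOe⟩ := hfin p hp
    refine ⟨O, hO, ?_⟩
    rw [map_mul, ← IsScalarTower.algebraMap_apply, map_mul]
    have h5 : algebraMap K F (χ.coeff j) = (∏ σ : L →ₐ[K] F, (X - C (σ e))).coeff j := by
      rw [← h3, coeff_map]
    rw [h5]
    have h6 := (gauss O.valuation Finset.univ (fun σ : L →ₐ[K] F => σ e) 1 one_ne_zero).1 j
    obtain ⟨j', h7⟩ := (gauss O.valuation Finset.univ (fun σ : L →ₐ[K] F => σ w) 1 one_ne_zero).2
    rw [one_pow, mul_one] at h6 h7
    have h8 : ∏ σ : L →ₐ[K] F, max 1 (O.valuation (σ e)) ≤ ∏ σ : L →ₐ[K] F, max 1 (O.valuation (σ w)) := by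
      apply Finset.prod_le_prod
      · intro σ _; exact zero_le
      · intro σ _; exact max_le (le_max_left _ _) (hOe σ)
    calc O.valuation (algebraMap _ F a) * O.valuation ((∏ σ : L →ₐ[K] F, (X - C (σ e))).coeff j)
        ≤ O.valuation (algebraMap _ F a) * ∏ σ : L →ₐ[K] F, max 1 (O.valuation (σ w)) :=
          mul_le_mul_right (h6.trans h8) _
      _ = O.valuation (algebraMap _ F (g.coeff j')) := by
          rw [← h7, ← map_mul, ← coeff_C_mul, ← hg, coeff_map]
      _ ≤ 1 := hO.1 _
  choose r hr using hcoef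
  have hlift : (C (algebraMap _ F a) * ∏ σ : L →ₐ[K] F, (X - C (σ e))) ∈
      Polynomial.lifts (algebraMap (MvPolynomial ι k) F) := by
    rw [Polynomial.lifts_iff_coeff_lifts]
    intro j
    refine ⟨r j, ?_⟩
    rw [coeff_C_mul, ← h3, coeff_map, IsScalarTower.algebraMap_apply (MvPolynomial ι k) K F, hr,
      map_mul, ← IsScalarTower.algebraMap_apply]
  obtain ⟨h, hh⟩ := (Polynomial.mem_lifts _).mp hlift
  refine ⟨h, hh, ?_⟩
  intro j hj
  obtain ⟨O, hO, hOe⟩ := hinf
  set x0 : MvPolynomial ι k := MvPolynomial.X i0 with hx0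
  have hx00 : x0 ≠ 0 := MvPolynomial.X_ne_zero i0
  have hdx : ∀ n, (x0 ^ n).totalDegree = n := by
    intro n
    exact MvPolynomial.totalDegree_X_pow i0 n
  set ρ := O.valuation (algebraMap _ F x0) with hρ
  have hρ0 : ρ ≠ 0 := by
    rw [hρ, Valuation.ne_zero_iff]
    exact fun h0 => hx00 (hinj (by rw [h0, map_zero]))
  have h6 := (gauss O.valuation Finset.univ (fun σ : L →ₐ[K] F => σ e) ρ hρ0).1 j
  obtain ⟨j', h7⟩ := (gauss O.valuation Finset.univ (fun σ : L →ₐ[K] F => σ w) ρ hρ0).2
  have h8 : ∏ σ : L →ₐ[K] F, max ρ (O.valuation (σ e)) ≤ ∏ σ : L →ₐ[K] F, max ρ (O.valuation (σ w)) := by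
    apply Finset.prod_le_prod
    · intro σ _; exact zero_le
    · intro σ _; exact max_le (le_max_left _ _) (hOe σ)
  have h9 : O.valuation (algebraMap _ F (h.coeff j * x0 ^ j)) ≤ O.valuation (algebraMap _ F (x0 ^ D)) := by
    calc O.valuation (algebraMap _ F (h.coeff j * x0 ^ j))
        = O.valuation (algebraMap _ F a) *
          (O.valuation ((∏ σ : L →ₐ[K] F, (X - C (σ e))).coeff j) * ρ ^ j) := by
          rw [map_mul, map_pow, map_mul, map_pow, ← coeff_map, hh, coeff_C_mul, map_mul, mul_assoc]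
      _ ≤ O.valuation (algebraMap _ F a) * ∏ σ : L →ₐ[K] F, max ρ (O.valuation (σ w)) :=
          mul_le_mul_right (h6.trans h8) _
      _ = O.valuation (algebraMap _ F (g.coeff j' * x0 ^ j')) := by
          rw [← h7, ← mul_assoc, ← map_mul, ← coeff_C_mul, ← hg, coeff_map, map_mul, map_pow, map_mul,
            map_pow]
      _ ≤ O.valuation (algebraMap _ F (x0 ^ D)) := by
          apply hO.1 _ _ (pow_ne_zero _ hx00)
          rw [hdx]
          by_cases h0 : g.coeff j' = 0
          · rw [h0, zero_mul, MvPolynomial.totalDegree_zero]; exact Nat.zero_le _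
          · refine (MvPolynomial.totalDegree_mul _ _).trans ?_
            rw [hdx]
            exact hgD j' h0
  by_contra hcon
  push Not at hcon
  have h10 : (x0 ^ D).totalDegree < (h.coeff j * x0 ^ j).totalDegree := by
    rw [MvPolynomial.totalDegree_mul_of_isDomain hj (pow_ne_zero _ hx00), hdx, hdx]
    exact hcon
  exact absurd h9 (not_le.mpr (hO.2 _ _ (mul_ne_zero hj (pow_ne_zero _ hx00)) h10))

end Transfer

end Pool.Agent.Lib.MP_60829e_nt.ML
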