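import Mathlib
import Pool.Agent.Lib.MP_60829e_nt.MTransfer

namespace Pool.Agent.Lib.MP_60829e_nt.ML

open Polynomial

section Rel

variable {k ι : Type} [Field k]

lemma degLE_of_totalDegree {D : ℕ} (f : MvPolynomial (Option ι) k) (hf : f.totalDegree ≤ D) :
    DegLE D (MvPolynomial.optionEquivLeft k ι f) := by
  intro j hj
  have h1 : j ≤ f.totalDegree := by
    have h2 : j ≤ (MvPolynomial.optionEquivLeft k ι f).natDegree := le_natDegree_of_ne_zero hj
    rw [MvPolynomial.natDegree_optionEquivLeft] at h2
    exact h2.trans (MvPolynomial.degreeOf_le_totalDegree f none)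
  exact (MvPolynomial.totalDegree_coeff_optionEquivLeft_add_le k ι f j h1).trans hf

lemma totalDegree_of_degLE {D : ℕ} (f : MvPolynomial (Option ι) k)
    (hf : DegLE D (MvPolynomial.optionEquivLeft k ι f)) : f.totalDegree ≤ D := by
  classical
  apply Finset.sup_le
  intro m hm
  have h1 : MvPolynomial.coeff m.some ((MvPolynomial.optionEquivLeft k ι f).coeff (m none)) ≠ 0 := by
    rw [MvPolynomial.optionEquivLeft_coeff_some_coeff_none]
    exact MvPolynomial.mem_support_iff.mp hm
  have h2 : (MvPolynomial.optionEquivLeft k ι f).coeff (m none) ≠ 0 := by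
    intro h0
    rw [h0, MvPolynomial.coeff_zero] at h1
    exact h1 rfl
  have h3 := hf (m none) h2
  have h4 : (m.some.sum fun _ e => e) ≤ ((MvPolynomial.optionEquivLeft k ι f).coeff (m none)).totalDegree :=
    MvPolynomial.le_totalDegree (MvPolynomial.mem_support_iff.mpr h1)
  have h5 : (m.sum fun _ e => e) = m none + m.some.sum fun _ e => e := by
    rw [Finsupp.sum_option_index]
    · intro o; rfl
    · intro o a b; rfl
  rw [h5]
  omega

/-- a divisor of a relation of bounded degree has bounded degree -/
lemma DegLE.of_dvd {D : ℕ} {g g' : (MvPolynomial ι k)[X]} (hg : DegLE D g) (hg0 : g ≠ 0) (h : g' ∣ g) :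
    DegLE D g' := by
  set f := (MvPolynomial.optionEquivLeft k ι).symm g with hf
  set f' := (MvPolynomial.optionEquivLeft k ι).symm g' with hf'
  have e1 : MvPolynomial.optionEquivLeft k ι f = g := by rw [hf]; simp
  have e2 : MvPolynomial.optionEquivLeft k ι f' = g' := by rw [hf']; simp
  have h1 : f.totalDegree ≤ D := totalDegree_of_degLE f (by rw [e1]; exact hg)
  have h2 : f' ∣ f := map_dvd _ h
  have h3 : f ≠ 0 := by
    intro h0; apply hg0; rw [← e1, h0, map_zero]
  rw [← e2]
  exact degLE_of_totalDegree f' ((MvPolynomial.totalDegree_le_of_dvd_of_isDomain h2 h3).trans h1)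

variable {F : Type} [Field F] [Algebra (MvPolynomial ι k) F]

/-- `w` satisfies a relation of total degree at most `D` -/
def Rel (k ι : Type) [Field k] {F : Type} [Field F] [Algebra (MvPolynomial ι k) F] (D : ℕ) (w : F) : Prop :=
  ∃ g : (MvPolynomial ι k)[X], g ≠ 0 ∧ DegLE D g ∧ aeval w g = 0

lemma Rel.irreducible (hinj : Function.Injective (algebraMap (MvPolynomial ι k) F)) {D : ℕ} {w : F}
    (h : Rel k ι D w) : ∃ g : (MvPolynomial ι k)[X], Irreducible g ∧ g.natDegree ≠ 0 ∧ DegLE D g ∧
      aeval w g = 0 := by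
  classical
  obtain ⟨g, hg0, hgD, hgw⟩ := h
  have h1 : ∃ g' : (MvPolynomial ι k)[X], Irreducible g' ∧ g' ∣ g ∧ aeval w g' = 0 := by
    have h2 := UniqueFactorizationMonoid.factors_prod hg0
    obtain ⟨u, hu⟩ := h2
    have h3 : aeval w (UniqueFactorizationMonoid.factors g).prod = 0 := by
      have h4 : aeval w (u : (MvPolynomial ι k)[X]) ≠ 0 := (u.isUnit.map (aeval w)).ne_zero
      have h5 := hgw
      rw [← hu, map_mul] at h5
      rcases mul_eq_zero.mp h5 with h6 | h6
      · exact h6
      · exact absurd h6 h4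
    rw [map_multiset_prod, Multiset.prod_eq_zero_iff, Multiset.mem_map] at h3
    obtain ⟨g', hg', h0⟩ := h3
    exact ⟨g', UniqueFactorizationMonoid.irreducible_of_factor g' hg',
      UniqueFactorizationMonoid.dvd_of_mem_factors hg', h0⟩
  obtain ⟨g', h2, h3, h4⟩ := h1
  refine ⟨g', h2, ?_, hgD.of_dvd hg0 h3, h4⟩
  intro h0
  rw [eq_C_of_natDegree_eq_zero h0, aeval_C] at h4
  have h5 : g'.coeff 0 = 0 := hinj (by rw [h4, map_zero])
  apply h2.ne_zero
  rw [eq_C_of_natDegree_eq_zero h0, h5, C_0]

end Rel

section Bad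

variable {k F : Type} [Field k] [Field F] [Algebra k F]

/-- the elements of a finite-dimensional space with submaximal value lie in a proper subspace -/
lemma bad_subspace (E : Submodule k F) [FiniteDimensional k E] (O : ValuationSubring F)
    (hO : ∀ c : k, O.valuation (algebraMap k F c) ≤ 1) (s : E →ₗ[k] F) (ρ : O.ValueGroup) :
    ∃ 𝓑 : Set (Submodule k F), 𝓑.Finite ∧ (∀ B ∈ 𝓑, B < E) ∧
      ∀ w : E, (∀ B ∈ 𝓑, (w : F) ∉ B) → ∀ e : E, O.valuation (s e) ≤ max ρ (O.valuation (s w)) := by
  classical
  let b := Module.finBasis k E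
  have hbound : ∀ μ : O.ValueGroup, (∀ j, O.valuation (s (b j)) ≤ μ) → ∀ e : E, O.valuation (s e) ≤ μ := by
    intro μ hμ e
    rw [← b.sum_repr e, map_sum]
    apply Valuation.map_sum_le
    intro j _
    rw [map_smul, Algebra.smul_def, map_mul]
    calc _ ≤ 1 * O.valuation (s (b j)) := mul_le_mul_left (hO _) _
      _ ≤ μ := by rw [one_mul]; exact hμ j
  by_cases hle : ∀ j, O.valuation (s (b j)) ≤ ρ
  · refine ⟨∅, Set.finite_empty, by simp, ?_⟩
    intro w _ e
    exact (hbound ρ hle e).trans (le_max_left _ _)
  · push Not at hle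
    obtain ⟨j1, hj1⟩ := hle
    obtain ⟨j0, -, hj0⟩ := Finset.exists_max_image Finset.univ (fun j => O.valuation (s (b j))) ⟨j1, Finset.mem_univ _⟩
    set μ := O.valuation (s (b j0)) with hμ
    have hμρ : ρ < μ := lt_of_lt_of_le hj1 (hj0 j1 (Finset.mem_univ _))
    have hμ0 : 0 < μ := lt_of_le_of_lt zero_le hμρ
    let B' : Submodule k E :=
      { carrier := {w | O.valuation (s w) < μ}
        add_mem' := by
          intro x y hx hy
          rw [Set.mem_setOf_eq, map_add]
          exact Valuation.map_add_lt _ hx hy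
        zero_mem' := by
          rw [Set.mem_setOf_eq, map_zero, map_zero]; exact hμ0
        smul_mem' := by
          intro c x hx
          rw [Set.mem_setOf_eq] at hx ⊢
          rw [map_smul, Algebra.smul_def, map_mul]
          calc _ ≤ 1 * O.valuation (s x) := mul_le_mul_left (hO _) _
            _ < μ := by rw [one_mul]; exact hx }
    refine ⟨{B'.map E.subtype}, Set.finite_singleton _, ?_, ?_⟩
    · intro B hB
      rw [Set.mem_singleton_iff] at hB
      subst hB
      refine lt_of_le_of_ne (Submodule.map_subtype_le E B') ?_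
      intro heq
      have h1 : ((b j0 : E) : F) ∈ B'.map E.subtype := by rw [heq]; exact (b j0).2
      rw [Submodule.mem_map] at h1
      obtain ⟨y, hy, hyb⟩ := h1
      have h2 : y = b j0 := Subtype.ext hyb
      rw [h2] at hy
      exact absurd (show O.valuation (s (b j0)) < μ from hy) (lt_irrefl _)
    · intro w hw e
      have h1 := hw _ (Set.mem_singleton _)
      have h2 : μ ≤ O.valuation (s w) := by
        by_contra hcon
        push Not at hcon
        exact h1 (Submodule.mem_map.mpr ⟨w, hcon, rfl⟩)
      exact (hbound μ (fun j => hj0 j (Finset.mem_univ _)) e).trans (h2.trans (le_max_right _ _))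

end Bad

section Integral

variable {R F : Type} [CommRing R] [Field F] [Algebra R F]

/-- a root of a polynomial with unit leading coefficient is integral -/
lemma integral_bound (O : ValuationSubring F) (hO : ∀ r : R, O.valuation (algebraMap R F r) ≤ 1)
    (P : R[X]) (hP : O.valuation (algebraMap R F P.leadingCoeff) = 1) (x : F) (hx : aeval x P = 0) :
    O.valuation x ≤ 1 := by
  classical
  by_contra hcon
  push Not at hcon
  rw [aeval_eq_sum_range, Finset.sum_range_succ, Algebra.smul_def] at hx
  have h1 : O.valuation (∑ i ∈ Finset.range P.natDegree, P.coeff i • x ^ i) < O.valuation (algebraMap R F (P.coeff P.natDegree) * x ^ P.natDegree) := by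
    rw [map_mul, coeff_natDegree, hP, one_mul, map_pow]
    apply Valuation.map_sum_lt
    · exact pow_ne_zero _ (ne_of_gt (lt_trans zero_lt_one hcon))
    · intro i hi
      rw [Finset.mem_range] at hi
      rw [Algebra.smul_def, map_mul, map_pow]
      calc _ ≤ 1 * O.valuation x ^ i := mul_le_mul_left (hO _) _
        _ < O.valuation x ^ P.natDegree := by rw [one_mul]; exact pow_lt_pow_right₀ hcon hi
  have h2 : ∑ i ∈ Finset.range P.natDegree, P.coeff i • x ^ i = -(algebraMap R F (P.coeff P.natDegree) * x ^ P.natDegree) := by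
    linear_combination hx
  rw [h2, Valuation.map_neg] at h1
  exact lt_irrefl _ h1

end Integral

end Pool.Agent.Lib.MP_60829e_nt.ML
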