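import Mathlib
import Pool.Agent.Lib.MP_60829e_nt.MPlace
import Pool.Agent.Lib.MP_60829e_nt.MRel

namespace Pool.Agent.Lib.MP_60829e_nt.ML

open Polynomial

section Main

variable {k ι F : Type} (K : Type) [Field k] [CharZero k] [Field K] [Field F] [IsAlgClosed F]
  [Algebra (MvPolynomial ι k) K] [IsFractionRing (MvPolynomial ι k) K] [Algebra (MvPolynomial ι k) F]
  [Algebra K F] [IsScalarTower (MvPolynomial ι k) K F] [Algebra k F]
  [IsScalarTower k (MvPolynomial ι k) F]

omit [CharZero k] [IsAlgClosed F] [IsFractionRing (MvPolynomial ι k) K] in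
lemma scalar_eq (c : k) : algebraMap k F c = algebraMap K F (algebraMap _ K (MvPolynomial.C c : MvPolynomial ι k)) := by
  rw [← IsScalarTower.algebraMap_apply, ← MvPolynomial.algebraMap_eq, ← IsScalarTower.algebraMap_apply]

omit [IsAlgClosed F] [CharZero k] in
theorem main_lemma_trans (E : Submodule k F) (D : ℕ) (hE : ¬ ∀ w ∈ E, IsAlgebraic K w) :
    ∃ ℬ : Set (Submodule k F), ℬ.Finite ∧ (∀ B ∈ ℬ, B < E) ∧
      ∀ w ∈ E, Rel k ι D w → ∃ B ∈ ℬ, w ∈ B := by
  classical
  let A : Submodule k F :=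
    { carrier := {w | IsAlgebraic K w}
      add_mem' := fun {x y} hx hy => IsAlgebraic.add hx hy
      zero_mem' := isAlgebraic_zero
      smul_mem' := by
        intro c x hx
        have h1 : c • x = algebraMap K F (algebraMap _ K (MvPolynomial.C c : MvPolynomial ι k)) * x := by
          rw [Algebra.smul_def, scalar_eq K (ι := ι)]
        change IsAlgebraic K (c • x)
        rw [h1]
        exact (isAlgebraic_algebraMap _).mul hx }
  refine ⟨{E ⊓ A}, Set.finite_singleton _, ?_, ?_⟩
  · intro B hB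
    rw [Set.mem_singleton_iff] at hB
    subst hB
    refine lt_of_le_of_ne inf_le_left ?_
    intro heq
    apply hE
    intro w hw
    rw [← heq] at hw
    exact hw.2
  · rintro w hw ⟨g, hg0, -, hgw⟩
    refine ⟨_, Set.mem_singleton _, hw, ?_⟩
    have h1 : IsAlgebraic (MvPolynomial ι k) w := ⟨g, hg0, hgw⟩
    exact (IsFractionRing.isAlgebraic_iff (MvPolynomial ι k) K F).mp h1

/-- the submodule of elements of `E` lying in an intermediate field -/
def subM {K F : Type} [Field K] [Field F] [Algebra K F] [Algebra k F] (L : IntermediateField K F)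
    (hk : ∀ c : k, ∃ c' : K, algebraMap k F c = algebraMap K F c') (E : Submodule k F)
    (hEL : ∀ w ∈ E, w ∈ L) (M : IntermediateField K L) : Submodule k F where
  carrier := {w | ∃ h : w ∈ E, (⟨w, hEL w h⟩ : L) ∈ M}
  add_mem' := by
    rintro x y ⟨hx, hx'⟩ ⟨hy, hy'⟩
    exact ⟨E.add_mem hx hy, M.add_mem hx' hy'⟩
  zero_mem' := ⟨E.zero_mem, M.zero_mem⟩
  smul_mem' := by
    rintro c x ⟨hx, hx'⟩
    refine ⟨E.smul_mem c hx, ?_⟩
    obtain ⟨c', hc'⟩ := hk c
    have h1 : (⟨c • x, hEL _ (E.smul_mem c hx)⟩ : L) = algebraMap K L c' * ⟨x, hEL x hx⟩ := by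
      apply Subtype.ext
      change c • x = algebraMap K F c' * x
      rw [Algebra.smul_def, hc']
    rw [h1]
    exact M.mul_mem (M.algebraMap_mem c') hx'

theorem main_lemma_alg (E : Submodule k F) [FiniteDimensional k E] (i0 : ι) (D : ℕ)
    (hE : ∀ w ∈ E, IsAlgebraic K w) (hnot : ∃ e ∈ E, ¬ Rel k ι D e) :
    ∃ ℬ : Set (Submodule k F), ℬ.Finite ∧ (∀ B ∈ ℬ, B < E) ∧
      ∀ w ∈ E, Rel k ι D w → ∃ B ∈ ℬ, w ∈ B := by
  classical
  have hinj : Function.Injective (algebraMap (MvPolynomial ι k) F) := by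
    rw [IsScalarTower.algebraMap_eq (MvPolynomial ι k) K F]
    exact (algebraMap K F).injective.comp (IsFractionRing.injective _ K)
  have hchar : CharZero K :=
    charZero_of_injective_ringHom (f := (algebraMap (MvPolynomial ι k) K).comp MvPolynomial.C)
      (RingHom.injective _)
  have hk : ∀ c : k, ∃ c' : K, algebraMap k F c = algebraMap K F c' := fun c =>
    ⟨_, scalar_eq K (ι := ι) c⟩
  let b := Module.finBasis k E
  let S : Set F := Set.range (fun j => (b j : F))
  let L := IntermediateField.adjoin K S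
  have hfd : FiniteDimensional K L := by
    apply IntermediateField.finiteDimensional_adjoin
    rintro _ ⟨j, rfl⟩
    exact (hE _ (b j).2).isIntegral
  have hbL : ∀ j, (b j : F) ∈ L := fun j => IntermediateField.subset_adjoin K S ⟨j, rfl⟩
  have hEL : ∀ w ∈ E, w ∈ L := by
    intro w hw
    have h1 : w = ∑ j, ((b.repr ⟨w, hw⟩ j) • (b j : F)) := by
      have h2 := congrArg (E.subtype) (b.sum_repr ⟨w, hw⟩)
      rw [map_sum] at h2
      exact h2.symm
    rw [h1]
    apply L.sum_mem
    intro j _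
    obtain ⟨c', hc'⟩ := hk (b.repr ⟨w, hw⟩ j)
    rw [Algebra.smul_def, hc']
    exact L.mul_mem (L.algebraMap_mem c') (hbL j)
  let s : (L →ₐ[K] F) → E →ₗ[k] F := fun σ =>
    { toFun := fun w => σ ⟨w, hEL w w.2⟩
      map_add' := by
        intro x y
        rw [← map_add]; rfl
      map_smul' := by
        intro c x
        obtain ⟨c', hc'⟩ := hk c
        have h1 : (⟨((c • x : E) : F), hEL _ (c • x : E).2⟩ : L) = algebraMap K L c' * ⟨x, hEL x x.2⟩ := by
          apply Subtype.ext
          change c • (x : F) = algebraMap K F c' * x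
          rw [Algebra.smul_def, hc']
        rw [h1, map_mul, AlgHom.commutes, RingHom.id_apply, Algebra.smul_def, hc'] }
  have hs : ∀ σ (w : E), s σ w = σ ⟨w, hEL w w.2⟩ := fun _ _ => rfl
  have place : ∀ q : MvPolynomial ι k, Prime q → ∃ O : ValuationSubring F, Centred O q := by
    intro q hq
    have hP : (Ideal.span {q}).IsPrime := (Ideal.span_singleton_prime hq.ne_zero).mpr hq
    obtain ⟨O, h1, h2, h3⟩ := exists_place hinj (Ideal.span {q})
    refine ⟨O, h1, h2 q (Ideal.mem_span_singleton_self q), ?_⟩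
    intro r hr
    exact h3 r (fun h => hr (Ideal.mem_span_singleton.mp h))
  have hrel : ∀ j, ∃ P : (MvPolynomial ι k)[X], P ≠ 0 ∧ aeval (b j : F) P = 0 := by
    intro j
    obtain ⟨P, hP, h⟩ := (IsFractionRing.isAlgebraic_iff (MvPolynomial ι k) K F).mpr (hE _ (b j).2)
    exact ⟨P, hP, h⟩
  choose P hP0 hP using hrel
  set bb : MvPolynomial ι k := ∏ j, (P j).leadingCoeff with hbb
  have hbb0 : bb ≠ 0 := Finset.prod_ne_zero_iff.mpr (fun j _ => leadingCoeff_ne_zero.mpr (hP0 j))
  let Q := {q : MvPolynomial ι k // q ∈ (UniqueFactorizationMonoid.factors bb).toFinset}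
  have hQ : ∀ q : Q, ∃ O : ValuationSubring F, Centred O (q : MvPolynomial ι k) := fun q =>
    place q (UniqueFactorizationMonoid.prime_of_factor _ (Multiset.mem_toFinset.mp q.2))
  choose OQ hOQ using hQ
  have hOk : ∀ (O : ValuationSubring F), (∀ r : MvPolynomial ι k, O.valuation (algebraMap _ F r) ≤ 1) →
      ∀ c : k, O.valuation (algebraMap k F c) ≤ 1 := by
    intro O hO c
    rw [IsScalarTower.algebraMap_apply k (MvPolynomial ι k) F]
    exact hO _
  have hbadQ : ∀ (x : Q × (L →ₐ[K] F)), ∃ 𝓑 : Set (Submodule k F), 𝓑.Finite ∧ (∀ B ∈ 𝓑, B < E) ∧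
      ∀ w : E, (∀ B ∈ 𝓑, (w : F) ∉ B) → ∀ e : E, (OQ x.1).valuation (s x.2 e) ≤
        max 1 ((OQ x.1).valuation (s x.2 w)) := fun x =>
    bad_subspace E (OQ x.1) (hOk _ (hOQ x.1).1) (s x.2) 1
  choose BQ hBQ1 hBQ2 hBQ3 using hbadQ
  obtain ⟨OI, hOI1, hOI2⟩ := exists_inf hinj
  have hOIk : ∀ c : k, OI.valuation (algebraMap k F c) ≤ 1 := by
    intro c
    have h1 := hOI1 (MvPolynomial.C c) 1 one_ne_zero (by simp)
    rw [map_one, map_one] at h1
    rw [IsScalarTower.algebraMap_apply k (MvPolynomial ι k) F]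
    exact h1
  set ρ := OI.valuation (algebraMap _ F (MvPolynomial.X i0 : MvPolynomial ι k)) with hρ
  have hbadI : ∀ (σ : L →ₐ[K] F), ∃ 𝓑 : Set (Submodule k F), 𝓑.Finite ∧ (∀ B ∈ 𝓑, B < E) ∧
      ∀ w : E, (∀ B ∈ 𝓑, (w : F) ∉ B) → ∀ e : E, OI.valuation (s σ e) ≤
        max ρ (OI.valuation (s σ w)) := fun σ => bad_subspace E OI hOIk (s σ) ρ
  choose BI hBI1 hBI2 hBI3 using hbadI
  have hfinM : Finite (IntermediateField K L) :=
    Field.finite_intermediateField_of_exists_primitive_element K L (Field.exists_primitive_element K L)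
  refine ⟨(subM L hk E hEL '' {M | M ≠ ⊤}) ∪ (⋃ x, BQ x) ∪ (⋃ σ, BI σ), ?_, ?_, ?_⟩
  · exact (((Set.toFinite _).image _).union (Set.finite_iUnion hBQ1)).union (Set.finite_iUnion hBI1)
  · rintro B ((⟨M, hM, rfl⟩ | hB) | hB)
    · refine lt_of_le_of_ne (fun w hw => hw.1) ?_
      intro heq
      apply hM
      have h1 : ∀ j, (⟨(b j : F), hbL j⟩ : L) ∈ M := by
        intro j
        have h2 : (b j : F) ∈ subM L hk E hEL M := by rw [heq]; exact (b j).2
        exact h2.2
      have h2 : L ≤ IntermediateField.lift M := by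
        apply IntermediateField.adjoin_le_iff.mpr
        rintro _ ⟨j, rfl⟩
        exact (IntermediateField.mem_lift (⟨(b j : F), hbL j⟩ : L)).mpr (h1 j)
      rw [eq_top_iff]
      intro x _
      exact (IntermediateField.mem_lift x).mp (h2 x.2)
    · obtain ⟨x, hx⟩ := Set.mem_iUnion.mp hB
      exact hBQ2 x B hx
    · obtain ⟨x, hx⟩ := Set.mem_iUnion.mp hB
      exact hBI2 x B hx
  · intro w hw hwrel
    by_contra hcon
    push Not at hcon
    obtain ⟨e, he, hne⟩ := hnot
    apply hne
    -- the minimal relation of `w`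
    obtain ⟨g, hg1, hg2, hg3, hg4⟩ := hwrel.irreducible hinj
    let wL : L := ⟨w, hEL w hw⟩
    let eL : L := ⟨e, hEL e he⟩
    have htop : IntermediateField.adjoin K {wL} = ⊤ := by
      by_contra hM
      apply hcon (subM L hk E hEL (IntermediateField.adjoin K {wL}))
        (Or.inl (Or.inl ⟨_, hM, rfl⟩))
      exact ⟨hw, IntermediateField.mem_adjoin_simple_self K wL⟩
    let _ : StrongNormalizationMonoid (MvPolynomial ι k) := UniqueFactorizationMonoid.strongNormalizationMonoid
    let _ : NormalizedGCDMonoid (MvPolynomial ι k) :=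
      UniqueFactorizationMonoid.toNormalizedGCDMonoid (MvPolynomial ι k)
    have hgw : aeval wL (g.map (algebraMap (MvPolynomial ι k) K)) = 0 := by
      apply (algebraMap L F).injective
      rw [map_zero, ← aeval_algebraMap_apply]
      change aeval w (g.map (algebraMap (MvPolynomial ι k) K)) = 0
      rw [aeval_map_algebraMap]
      exact hg4
    have hg5 := gen_relation (F := F) wL htop g hg1 hg2 hgw
    obtain ⟨h, hh1, hh2⟩ := transfer wL eL g D hg3 g.leadingCoeff hg5 (by
      intro p hp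
      by_cases hpb : p ∣ bb
      · obtain ⟨q, hq, hpq⟩ := UniqueFactorizationMonoid.exists_mem_factors_of_dvd hbb0 hp.irreducible hpb
        let q' : Q := ⟨q, Multiset.mem_toFinset.mpr hq⟩
        have hc := hOQ q'
        refine ⟨OQ q', ⟨hc.1, ?_, ?_⟩, ?_⟩
        · obtain ⟨u, hu⟩ := hpq
          have h1 : (OQ q').valuation (algebraMap _ F q) < 1 := hc.2.1
          have h2 : p = q * (↑u⁻¹ : MvPolynomial ι k) := by rw [← hu]; simp
          rw [h2, map_mul, map_mul]
          calc _ ≤ (OQ q').valuation (algebraMap _ F q) * 1 := mul_le_mul_right (hc.1 _) _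
            _ < 1 := by rw [mul_one]; exact h1
        · intro r hr
          exact hc.2.2 r (fun h => hr (hpq.dvd.trans h))
        · intro σ
          exact hBQ3 (q', σ) ⟨w, hw⟩ (fun B hB => hcon B (Or.inl (Or.inr (Set.mem_iUnion.mpr ⟨_, hB⟩)))) ⟨e, he⟩
      · obtain ⟨O, hO⟩ := place p hp
        refine ⟨O, hO, ?_⟩
        intro σ
        refine le_trans ?_ (le_max_left _ _)
        change O.valuation (s σ ⟨e, he⟩) ≤ 1
        rw [← b.sum_repr ⟨e, he⟩, map_sum]
        apply Valuation.map_sum_le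
        intro j _
        rw [map_smul, Algebra.smul_def, map_mul]
        have h1 : O.valuation (s σ (b j)) ≤ 1 := by
          apply integral_bound O hO.1 (P j)
          · apply hO.2.2
            intro h
            exact hpb (h.trans (Finset.dvd_prod_of_mem _ (Finset.mem_univ j)))
          · have h2 : aeval (⟨(b j : F), hbL j⟩ : L) ((P j).map (algebraMap (MvPolynomial ι k) K)) = 0 := by
              apply (algebraMap L F).injective
              rw [map_zero, ← aeval_algebraMap_apply]
              change aeval (b j : F) ((P j).map (algebraMap (MvPolynomial ι k) K)) = 0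
              rw [aeval_map_algebraMap]
              exact hP j
            have h3 := congrArg σ h2
            rw [map_zero, ← aeval_algHom_apply, aeval_map_algebraMap] at h3
            exact h3
        calc _ ≤ 1 * 1 := mul_le_mul' (hOk O hO.1 _) h1
          _ = 1 := one_mul 1) i0 ⟨OI, ⟨hOI1, hOI2⟩, by
      intro σ
      exact hBI3 σ ⟨w, hw⟩ (fun B hB => hcon B (Or.inr (Set.mem_iUnion.mpr ⟨_, hB⟩))) ⟨e, he⟩⟩
    have ha0 : algebraMap _ F g.leadingCoeff ≠ 0 := by
      intro h0
      exact leadingCoeff_ne_zero.mpr hg1.ne_zero (hinj (by rw [h0, map_zero]))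
    refine ⟨h, ?_, hh2, ?_⟩
    · intro h0
      rw [h0, Polynomial.map_zero] at hh1
      have h1 : (∏ σ : L →ₐ[K] F, (X - C (σ eL))).Monic := monic_prod_of_monic _ _ (fun σ _ => monic_X_sub_C _)
      rcases mul_eq_zero.mp hh1.symm with h2 | h2
      · exact ha0 (by rwa [C_eq_zero] at h2)
      · exact h1.ne_zero h2
    · have h1 : aeval e h = (h.map (algebraMap _ F)).eval e := by
        rw [eval_map_algebraMap]
      rw [h1, hh1, eval_mul, eval_prod, Finset.prod_eq_zero (Finset.mem_univ L.val) (by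
        rw [eval_sub, eval_X, eval_C]
        exact sub_self _), mul_zero]

end Main

theorem main_lemma {k ι F : Type} [Field k] [CharZero k] [Field F] [IsAlgClosed F]
    [Algebra (MvPolynomial ι k) F] [Algebra k F] [IsScalarTower k (MvPolynomial ι k) F]
    (hinj : Function.Injective (algebraMap (MvPolynomial ι k) F))
    (E : Submodule k F) [FiniteDimensional k E] (i0 : ι) (D : ℕ) :
    (∀ e ∈ E, Rel k ι D e) ∨
    ∃ ℬ : Set (Submodule k F), ℬ.Finite ∧ (∀ B ∈ ℬ, B < E) ∧
      ∀ w ∈ E, Rel k ι D w → ∃ B ∈ ℬ, w ∈ B := by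
  have hf : FaithfulSMul (MvPolynomial ι k) F :=
    (faithfulSMul_iff_algebraMap_injective (MvPolynomial ι k) F).mpr hinj
  let _ : Algebra (FractionRing (MvPolynomial ι k)) F := FractionRing.liftAlgebra (MvPolynomial ι k) F
  have : IsScalarTower (MvPolynomial ι k) (FractionRing (MvPolynomial ι k)) F :=
    FractionRing.isScalarTower_liftAlgebra _ _
  by_cases h1 : ∀ e ∈ E, Rel k ι D e
  · exact Or.inl h1
  · right
    push Not at h1
    by_cases h2 : ∀ w ∈ E, IsAlgebraic (FractionRing (MvPolynomial ι k)) w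
    · exact main_lemma_alg (FractionRing (MvPolynomial ι k)) E i0 D h2 h1
    · exact main_lemma_trans (FractionRing (MvPolynomial ι k)) E D h2

end Pool.Agent.Lib.MP_60829e_nt.ML
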