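import Mathlib
import Pool.Agent.Lib.MP_60829e_nt.MMain
import Pool.Agent.Lib.MP_60829e_nt.GRow

namespace Pool.Agent.Lib.MP_60829e_nt.ML

open Polynomial

section Union

variable {k ι F : Type} [Field k] [CharZero k] [Field F] [IsAlgClosed F]
    [Algebra (MvPolynomial ι k) F] [Algebra k F] [IsScalarTower k (MvPolynomial ι k) F]

/-- the elements with a bounded relation form a finite union of subspaces -/
theorem finite_union (hinj : Function.Injective (algebraMap (MvPolynomial ι k) F)) (i0 : ι) (D : ℕ) :
    ∀ n : ℕ, ∀ E : Submodule k F, FiniteDimensional k E → Module.finrank k E = n →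
      ∃ 𝒰 : Set (Submodule k F), 𝒰.Finite ∧ (∀ U ∈ 𝒰, U ≤ E ∧ ∀ u ∈ U, Rel k ι D u) ∧
        ∀ w ∈ E, Rel k ι D w → ∃ U ∈ 𝒰, w ∈ U := by
  classical
  intro n
  induction n using Nat.strong_induction_on with
  | _ n ih =>
    intro E hE hn
    rcases main_lemma hinj E i0 D with h | ⟨ℬ, hfin, hlt, hcov⟩
    · exact ⟨{E}, Set.finite_singleton _, by
        intro U hU
        rw [Set.mem_singleton_iff] at hU
        subst hU
        exact ⟨le_rfl, h⟩, fun w hw _ => ⟨E, Set.mem_singleton _, hw⟩⟩
    · have h1 : ∀ B : ℬ, ∃ 𝒰 : Set (Submodule k F), 𝒰.Finite ∧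
          (∀ U ∈ 𝒰, U ≤ (B : Submodule k F) ∧ ∀ u ∈ U, Rel k ι D u) ∧
          ∀ w ∈ (B : Submodule k F), Rel k ι D w → ∃ U ∈ 𝒰, w ∈ U := by
        intro B
        have hB := hlt B B.2
        have hfd : FiniteDimensional k (B : Submodule k F) := Submodule.finiteDimensional_of_le hB.le
        have h2 : Module.finrank k (B : Submodule k F) < n := by
          rw [← hn]
          exact Submodule.finrank_lt_finrank_of_lt hB
        exact ih _ h2 B hfd rfl
      choose 𝒰 h𝒰1 h𝒰2 h𝒰3 using h1
      have : Finite ℬ := hfin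
      refine ⟨⋃ B : ℬ, 𝒰 B, Set.finite_iUnion h𝒰1, ?_, ?_⟩
      · intro U hU
        obtain ⟨B, hB⟩ := Set.mem_iUnion.mp hU
        exact ⟨(h𝒰2 B U hB).1.trans (hlt B B.2).le, (h𝒰2 B U hB).2⟩
      · intro w hw hwr
        obtain ⟨B, hB, hwB⟩ := hcov w hw hwr
        obtain ⟨U, hU, hwU⟩ := h𝒰3 ⟨B, hB⟩ w hwB hwr
        exact ⟨U, Set.mem_iUnion.mpr ⟨⟨B, hB⟩, hU⟩, hwU⟩

omit [CharZero k] [IsAlgClosed F] in
/-- the two forms of a relation -/
lemma rel_iff (D : ℕ) (w : F) : Rel k ι D w ↔ ∃ f : MvPolynomial (Option ι) k, f ≠ 0 ∧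
    f.totalDegree ≤ D ∧ MvPolynomial.aeval (fun o : Option ι => o.elim w
      (fun i => algebraMap (MvPolynomial ι k) F (MvPolynomial.X i))) f = 0 := by
  have key : ∀ f : MvPolynomial (Option ι) k, MvPolynomial.aeval (fun o : Option ι => o.elim w
      (fun i => algebraMap (MvPolynomial ι k) F (MvPolynomial.X i))) f =
      aeval w (MvPolynomial.optionEquivLeft k ι f) := by
    intro f
    have h1 : (MvPolynomial.aeval (fun o : Option ι => o.elim w
      (fun i => algebraMap (MvPolynomial ι k) F (MvPolynomial.X i))) : MvPolynomial (Option ι) k →ₐ[k] F) =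
      ((aeval w : (MvPolynomial ι k)[X] →ₐ[MvPolynomial ι k] F).restrictScalars k).comp
        (MvPolynomial.optionEquivLeft k ι : MvPolynomial (Option ι) k →ₐ[k] (MvPolynomial ι k)[X]) := by
      apply MvPolynomial.algHom_ext
      intro o
      rw [MvPolynomial.aeval_X]
      change _ = aeval w (MvPolynomial.optionEquivLeft k ι (MvPolynomial.X o))
      rcases o with _ | i
      · rw [MvPolynomial.optionEquivLeft_X_none, aeval_X]; rfl
      · rw [MvPolynomial.optionEquivLeft_X_some, aeval_C]; rfl
    exact congrArg (fun φ => φ f) h1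
  constructor
  · rintro ⟨g, hg0, hgD, hgw⟩
    refine ⟨(MvPolynomial.optionEquivLeft k ι).symm g, ?_, ?_, ?_⟩
    · intro h0
      apply hg0
      have := congrArg (MvPolynomial.optionEquivLeft k ι) h0
      rwa [AlgEquiv.apply_symm_apply, map_zero] at this
    · apply totalDegree_of_degLE
      rw [AlgEquiv.apply_symm_apply]; exact hgD
    · rw [key, AlgEquiv.apply_symm_apply]; exact hgw
  · rintro ⟨f, hf0, hfD, hfw⟩
    refine ⟨MvPolynomial.optionEquivLeft k ι f, ?_, degLE_of_totalDegree f hfD, ?_⟩
    · intro h0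
      apply hf0
      exact (MvPolynomial.optionEquivLeft k ι).injective (by rw [h0, map_zero])
    · rw [← key]; exact hfw

end Union

section Dim

open Pool.Agent.Lib.MP_60829e_nt.Gen

variable {k ι F : Type} [Field k] [IsAlgClosed k] [Fintype ι] [Field F] [Algebra k F]

/-- a subspace all of whose elements are related to `v` has small dimension -/
theorem dim_bound (v : ι → F) (D : ℕ) (hv : DF k D v) (U : Submodule k F) [FiniteDimensional k U]
    (hU : ∀ u ∈ U, ∃ f : MvPolynomial (Option ι) k, f ≠ 0 ∧ f.totalDegree ≤ D ∧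
      MvPolynomial.aeval (fun o : Option ι => o.elim u v) f = 0) :
    Module.finrank k (U ⊔ Submodule.span k (insert 1 (Set.range v)) : Submodule k F) ≤
      (Fintype.card ι + D).choose D := by
  classical
  by_contra hcon
  push Not at hcon
  let b := Module.finBasis k U
  set A : Submodule k F := U ⊔ Submodule.span k (insert 1 (Set.range v)) with hA
  have hfin : (insert (1 : F) (Set.range v)).Finite := (Set.finite_range v).insert _
  have hfd2 : FiniteDimensional k (Submodule.span k (insert 1 (Set.range v)) : Submodule k F) :=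
    FiniteDimensional.span_of_finite k hfin
  have hfd : FiniteDimensional k A := by rw [hA]; exact Submodule.finiteDimensional_sup _ _
  let h0 := Module.finBasis k A
  have hAspan : A = Submodule.span k (({1} ∪ Set.range v) ∪ Set.range (fun j => (b j : F))) := by
    rw [Submodule.span_union, hA, sup_comm]
    congr 1
    have h1 : (fun j => (b j : F)) = U.subtype ∘ b := rfl
    rw [h1, Set.range_comp, Submodule.span_image, b.span_eq, Submodule.map_top, Submodule.range_subtype]
  let σ := ι ⊕ Fin (Module.finrank k U)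
  let θ : σ → F := Sum.elim v (fun j => (b j : F))
  let x' : ι → MvPolynomial σ k := fun i => MvPolynomial.X (Sum.inl i)
  let w : Fin (Module.finrank k U) → MvPolynomial σ k := fun j => MvPolynomial.X (Sum.inr j)
  have hx'θ : ∀ i, MvPolynomial.aeval θ (x' i) = v i := by intro i; simp [x', θ]
  have hwθ : ∀ j, MvPolynomial.aeval θ (w j) = (b j : F) := by intro j; simp [w, θ]
  have hex : ∀ t, ∃ h : MvPolynomial σ k, h ∈ Submodule.span k (({1} ∪ Set.range x') ∪ Set.range w) ∧
      MvPolynomial.aeval θ h = (h0 t : F) := by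
    intro t
    have h1 := hAspan.le (h0 t).2
    obtain ⟨c0, a, c, he⟩ := mem_span_three v (fun j => (b j : F)) _ h1
    refine ⟨c0 • 1 + ∑ i, a i • x' i + ∑ j, c j • w j, ?_, ?_⟩
    · apply Submodule.add_mem
      · apply Submodule.add_mem
        · exact Submodule.smul_mem _ _ (Submodule.subset_span (Or.inl (Or.inl rfl)))
        · exact Submodule.sum_mem _ (fun i _ => Submodule.smul_mem _ _ (Submodule.subset_span (Or.inl (Or.inr ⟨i, rfl⟩))))
      · exact Submodule.sum_mem _ (fun i _ => Submodule.smul_mem _ _ (Submodule.subset_span (Or.inr ⟨i, rfl⟩)))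
    · rw [he, map_add, map_add, map_smul, map_one, map_sum, map_sum]
      simp only [map_smul, hx'θ, hwθ]
  choose h hh1 hh2 using hex
  have hli : LinearIndependent k (fun t => MvPolynomial.aeval θ (h t)) := by
    have h1 : (fun t => MvPolynomial.aeval θ (h t)) = A.subtype ∘ h0 := by
      funext t; exact hh2 t
    rw [h1]
    exact h0.linearIndependent.map' A.subtype (Submodule.ker_subtype A)
  obtain ⟨c, hc⟩ := row θ x' (by
    have : (fun i => MvPolynomial.aeval θ (x' i)) = v := by funext i; exact hx'θ i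
    rw [this]; exact hv) 0 w h hli (by rw [Fintype.card_fin]; exact hcon) hh1
  -- the element of `U`
  set u : F := ∑ j, c j • (b j : F) with hu
  have huU : u ∈ U := Submodule.sum_mem _ (fun j _ => Submodule.smul_mem _ _ (b j).2)
  obtain ⟨f, hf0, hfD, hfu⟩ := hU u huU
  apply hf0
  have hc' : DF k D (Sum.elim v (fun _ : Unit => u) : ι ⊕ Unit → F) := by
    have e1 : (Sum.elim (fun i => MvPolynomial.aeval θ (x' i))
      (fun _ : Unit => MvPolynomial.aeval θ (0 + ∑ j, c j • w j)) : ι ⊕ Unit → F) =
      Sum.elim v (fun _ : Unit => u) := by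
      funext i
      rcases i with i | i
      · simp [hx'θ]
      · simp only [Sum.elim_inr, zero_add, map_sum, map_smul, hwθ, hu]
    rw [e1] at hc
    exact hc
  have h3 := hc'.reindex (Equiv.optionEquivSumPUnit ι)
  apply h3 f hfD
  have e2 : (fun i => (Sum.elim v (fun _ : Unit => u) : ι ⊕ Unit → F) ((Equiv.optionEquivSumPUnit ι) i)) =
      (fun o : Option ι => o.elim u v) := by
    funext o
    rcases o with _ | i
    · simp
    · simp
  rw [e2]
  exact hfu

end Dim

end Pool.Agent.Lib.MP_60829e_nt.ML
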