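import Mathlib
import Pool.Agent.Lib.MP_60829e_nt.GMain
import Pool.Agent.Lib.MP_60829e_nt.MUnion
import Pool.Agent.Lib.MP_60829e_nt.MCount

namespace Pool.Agent.Lib.MP_60829e_nt.ML

open Pool.Agent.Lib.MP_60829e_nt.Gen

section Logs

/-- the logarithms of algebraic numbers -/
def logs : Set ℂ := {l | IsAlgebraic ℚ (Complex.exp l)}

lemma exp_rat (q : ℚ) (x : ℂ) (hx : IsAlgebraic ℚ (Complex.exp x)) :
    IsAlgebraic ℚ (Complex.exp ((q : ℂ) * x)) := by
  have hd : (q.den : ℂ) ≠ 0 := by exact_mod_cast q.den_nz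
  have h1 : Complex.exp ((q : ℂ) * x) ^ q.den = Complex.exp x ^ q.num := by
    rw [← Complex.exp_nat_mul, ← Complex.exp_int_mul]
    congr 1
    have h2 : (q : ℂ) = (q.num : ℂ) / (q.den : ℂ) := by
      exact_mod_cast (Rat.num_div_den q).symm
    rw [h2]
    field_simp
  have h2 : IsAlgebraic ℚ (Complex.exp ((q : ℂ) * x) ^ q.den) := by
    rw [h1]
    rcases q.num with n | n
    · simpa using hx.pow n
    · rw [zpow_negSucc]
      exact (hx.pow (n + 1)).inv
  exact IsAlgebraic.of_pow q.den_pos h2

/-- logarithms form a rational vector space -/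
def logSub : Submodule ℚ ℂ where
  carrier := logs
  add_mem' := by
    intro x y hx hy
    change IsAlgebraic ℚ (Complex.exp (x + y))
    rw [Complex.exp_add]
    exact IsAlgebraic.mul hx hy
  zero_mem' := by
    change IsAlgebraic ℚ (Complex.exp 0)
    rw [Complex.exp_zero]
    exact isAlgebraic_one
  smul_mem' := by
    intro q x hx
    change IsAlgebraic ℚ (Complex.exp (q • x))
    rw [Rat.smul_def]
    exact exp_rat q x hx

/-- `1` is not an algebraic linear combination of logarithms -/
lemma one_notMem : (1 : ℂ) ∉ Submodule.span QA logs := by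
  intro h
  obtain ⟨T, hT, h1⟩ := Submodule.mem_span_finite_of_mem_span h
  let Λ : Submodule ℚ ℂ := Submodule.span ℚ (T : Set ℂ)
  have hfd : FiniteDimensional ℚ Λ := FiniteDimensional.span_of_finite ℚ T.finite_toSet
  have hΛ : Λ ≤ logSub := Submodule.span_le.mpr (fun x hx => hT hx)
  let b := Module.finBasis ℚ Λ
  have hli : LinearIndependent ℚ (fun j => (b j : ℂ)) :=
    b.linearIndependent.map' Λ.subtype (Submodule.ker_subtype Λ)
  have hbak := baker_li (fun j => (b j : ℂ)) (fun j => hΛ (b j).2) hli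
  have h2 : (1 : ℂ) ∈ Submodule.span QA (Set.range (fun j => (b j : ℂ))) := by
    have h3 : Submodule.span QA (T : Set ℂ) ≤ Submodule.span QA (Set.range (fun j => (b j : ℂ))) := by
      rw [Submodule.span_le]
      intro x hx
      have hxΛ : x ∈ Λ := Submodule.subset_span hx
      have h4 : x = ∑ j, (b.repr ⟨x, hxΛ⟩ j : ℂ) * (b j : ℂ) := by
        have h5 := congrArg (Λ.subtype) (b.sum_repr ⟨x, hxΛ⟩)
        rw [map_sum] at h5
        refine h5.symm.trans ?_
        apply Finset.sum_congr rfl
        intro j _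
        rw [map_smul, Rat.smul_def]; rfl
      rw [SetLike.mem_coe, h4]
      apply Submodule.sum_mem
      intro j _
      have h6 : (b.repr ⟨x, hxΛ⟩ j : ℂ) * (b j : ℂ) = (algebraMap ℚ QA (b.repr ⟨x, hxΛ⟩ j)) • (b j : ℂ) := by
        rw [Algebra.smul_def, ← IsScalarTower.algebraMap_apply]; rfl
      rw [h6]
      exact Submodule.smul_mem _ _ (Submodule.subset_span ⟨j, rfl⟩)
    exact h3 h1
  obtain ⟨c, hc⟩ := (Submodule.mem_span_range_iff_exists_fun QA).mp h2
  rw [Fintype.linearIndependent_iff] at hbak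
  have h3 := hbak (fun o => o.elim (-1) c) (by
    rw [Fintype.sum_option]
    simp only [Option.elim_none, Option.elim_some]
    rw [hc, neg_smul, one_smul]
    ring) none
  simp only [Option.elim_none] at h3
  exact (neg_ne_zero.mpr one_ne_zero) h3

end Logs

section Final

/-- relation predicate in the final form -/
def RelOpt {k F ι : Type} [Field k] [Field F] [Algebra k F] (v : ι → F) (D : ℕ) (w : F) : Prop :=
  ∃ f : MvPolynomial (Option ι) k, f ≠ 0 ∧ f.totalDegree ≤ D ∧
    MvPolynomial.aeval (fun o : Option ι => o.elim w v) f = 0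

theorem ml {k F : Type} [Field k] [CharZero k] [IsAlgClosed k] [Field F] [IsAlgClosed F] [Algebra k F]
    (m D : ℕ) (hm : 0 < m) (v : Fin m → F) (hv : AlgebraicIndependent k v) (E : Submodule k F)
    [FiniteDimensional k E] (h1E : (1 : F) ∉ E) :
    ∃ 𝒰 : Finset (Submodule k F),
      𝒰.card ≤ (m + D).choose D * (D * (m + 1 + D).choose D) ^ Module.finrank k E ∧
      (∀ U ∈ 𝒰, U ≤ E ∧ Module.finrank k U < (m + D).choose D ∧
        Module.finrank k (U ⊔ Submodule.span k (insert 1 (Set.range v)) : Submodule k F) ≤ (m + D).choose D) ∧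
      ∀ w ∈ E, (∃ f : MvPolynomial (Option (Fin m)) k, f ≠ 0 ∧ f.totalDegree ≤ D ∧
        MvPolynomial.aeval (fun o : Option (Fin m) => o.elim w v) f = 0) ↔ ∃ U ∈ 𝒰, w ∈ U := by
  classical
  let _ : Algebra (MvPolynomial (Fin m) k) F := (MvPolynomial.aeval v).toAlgebra
  have hX : ∀ i, algebraMap (MvPolynomial (Fin m) k) F (MvPolynomial.X i) = v i := fun i =>
    MvPolynomial.aeval_X v i
  have htower : IsScalarTower k (MvPolynomial (Fin m) k) F := by
    apply IsScalarTower.of_algebraMap_eq
    intro c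
    change _ = MvPolynomial.aeval v (algebraMap k (MvPolynomial (Fin m) k) c)
    rw [AlgHom.commutes]
  have hinj : Function.Injective (algebraMap (MvPolynomial (Fin m) k) F) := hv
  have hrel : ∀ w : F, Rel k (Fin m) D w ↔ RelOpt (k := k) v D w := by
    intro w
    rw [rel_iff]
    have : (fun i => algebraMap (MvPolynomial (Fin m) k) F (MvPolynomial.X i)) = v := funext hX
    rw [this]
    rfl
  change ∃ 𝒰 : Finset (Submodule k F), _ ∧ _ ∧ ∀ w ∈ E, RelOpt (k := k) v D w ↔ ∃ U ∈ 𝒰, w ∈ U
  have hvDF : DF k D v := by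
    intro f _ hf
    exact hinj (by rw [map_zero]; exact hf)
  rcases Nat.eq_zero_or_pos D with hD0 | hD
  · -- degree zero
    subst hD0
    refine ⟨∅, Nat.zero_le _, by simp, ?_⟩
    intro w _
    constructor
    · rintro ⟨f, hf0, hfD, hfw⟩
      exfalso
      have h1 : f.totalDegree = 0 := by omega
      rw [MvPolynomial.totalDegree_eq_zero_iff_eq_C] at h1
      rw [h1, MvPolynomial.aeval_C] at hfw
      apply hf0
      rw [h1]
      have h2 : MvPolynomial.coeff 0 f = 0 := (algebraMap k F).injective (by rw [hfw, map_zero])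
      rw [h2, MvPolynomial.C_0]
    · rintro ⟨U, hU, -⟩
      simp at hU
  · obtain ⟨𝒰0, hfin0, h𝒰1, h𝒰2⟩ := finite_union (F := F) hinj ⟨0, hm⟩ D _ E inferInstance rfl
    set r := Module.finrank k E with hr
    let b := Module.finBasis k E
    let φ : (Fin r → k) →ₗ[k] F := E.subtype ∘ₗ b.equivFun.symm.toLinearMap
    have hφinj : Function.Injective φ := by
      intro x y hxy
      exact b.equivFun.symm.injective (Subtype.ext hxy)
    have hφrange : ∀ w ∈ E, ∃ t, φ t = w := by
      intro w hw
      refine ⟨b.equivFun ⟨w, hw⟩, ?_⟩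
      change ((b.equivFun.symm (b.equivFun ⟨w, hw⟩) : E) : F) = w
      rw [LinearEquiv.symm_apply_apply]
    have hφE : ∀ t, φ t ∈ E := fun t => (b.equivFun.symm t).2
    have hφsum : ∀ t, φ t = ∑ j, t j • (b j : F) := by
      intro t
      change E.subtype (b.equivFun.symm t) = _
      rw [Module.Basis.equivFun_symm_apply, map_sum]
      rfl
    -- coordinates
    let 𝒰c : Finset (Submodule k (Fin r → k)) := hfin0.toFinset.image (fun U => U.comap φ)
    let 𝒱 : Finset (Submodule k (Fin r → k)) := 𝒰c.filter (fun U => ∀ U' ∈ 𝒰c, U ≤ U' → U = U')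
    have h𝒱sub : ∀ U ∈ 𝒱, ∃ U0 ∈ 𝒰0, U = U0.comap φ := by
      intro U hU
      obtain ⟨U0, hU0, rfl⟩ := Finset.mem_image.mp (Finset.mem_filter.mp hU).1
      exact ⟨U0, hfin0.mem_toFinset.mp hU0, rfl⟩
    have hcov : ∀ t : Fin r → k, RelOpt (k := k) v D (φ t) ↔ ∃ U ∈ 𝒱, t ∈ U := by
      intro t
      constructor
      · intro ht
        obtain ⟨U0, hU0, htU⟩ := h𝒰2 (φ t) (hφE t) ((hrel _).mpr ht)
        have h1 : (𝒰c.filter (fun U => U0.comap φ ≤ U)).Nonempty :=
          ⟨U0.comap φ, Finset.mem_filter.mpr ⟨Finset.mem_image_of_mem _ (hfin0.mem_toFinset.mpr hU0), le_rfl⟩⟩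
        obtain ⟨U, hU1, hU2⟩ := Finset.exists_maximal h1
        · rw [Finset.mem_filter] at hU1
          refine ⟨U, Finset.mem_filter.mpr ⟨hU1.1, ?_⟩, hU1.2 htU⟩
          intro U' hU' hle
          exact le_antisymm hle (hU2 (Finset.mem_filter.mpr ⟨hU', hU1.2.trans hle⟩) hle)
      · rintro ⟨U, hU, htU⟩
        obtain ⟨U0, hU0, rfl⟩ := h𝒱sub U hU
        exact (hrel _).mp ((h𝒰1 U0 hU0).2 _ htU)
    have hanti : ∀ U ∈ 𝒱, ∀ U' ∈ 𝒱, U ≤ U' → U = U' := fun U hU U' hU' hle =>
      (Finset.mem_filter.mp hU).2 U' (Finset.mem_filter.mp hU').1 hle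
    -- dimension of the members
    have hdim : ∀ U ∈ 𝒱, Module.finrank k (U.map φ) < (m + D).choose D ∧
        Module.finrank k (U.map φ ⊔ Submodule.span k (insert 1 (Set.range v)) : Submodule k F) ≤ (m + D).choose D := by
      intro U hU
      have h1 : ∀ u ∈ U.map φ, RelOpt (k := k) v D u := by
        intro u hu
        obtain ⟨t, ht, rfl⟩ := Submodule.mem_map.mp hu
        exact (hcov t).mpr ⟨U, hU, ht⟩
      have h2 := dim_bound v D hvDF (U.map φ) h1
      rw [Fintype.card_fin] at h2
      refine ⟨lt_of_lt_of_le ?_ h2, h2⟩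
      have hfin : (insert (1 : F) (Set.range v)).Finite := (Set.finite_range v).insert _
      have hfd2 : FiniteDimensional k (Submodule.span k (insert 1 (Set.range v)) : Submodule k F) :=
        FiniteDimensional.span_of_finite k hfin
      have hfd3 : FiniteDimensional k (U.map φ ⊔ Submodule.span k (insert 1 (Set.range v)) : Submodule k F) :=
        Submodule.finiteDimensional_sup _ _
      apply Submodule.finrank_lt_finrank_of_lt
      refine lt_of_le_of_ne le_sup_left ?_
      intro heq
      apply h1E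
      have h3 : (1 : F) ∈ U.map φ := by
        rw [heq]
        exact Submodule.mem_sup_right (Submodule.subset_span (Set.mem_insert _ _))
      obtain ⟨t, -, ht⟩ := Submodule.mem_map.mp h3
      rw [← ht]
      exact hφE t
    -- the equations
    set δ := D * (m + 1 + D).choose D with hδ
    have hδ1 : 1 ≤ δ := by
      rw [hδ]
      exact Nat.mul_pos hD (Nat.choose_pos (by omega))
    let Fs : Set (MvPolynomial (Fin r) k) := {Φ | Φ.totalDegree ≤ δ ∧
      ∀ t : Fin r → k, RelOpt (k := k) v D (φ t) → MvPolynomial.eval t Φ = 0}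
    have hZ : ∀ P : Fin r → k, (∀ p ∈ Fs, MvPolynomial.eval P p = 0) ↔ ∃ U ∈ 𝒱, P ∈ U := by
      intro P
      rw [← hcov P]
      constructor
      · intro hP
        by_contra hcon
        let σ := Fin m ⊕ Fin r
        let θ : σ → F := Sum.elim v (fun j => (b j : F))
        let a : Option (Fin m) → MvPolynomial σ k := fun o => o.elim 0 (fun i => MvPolynomial.X (Sum.inl i))
        let c : Option (Fin m) → Fin r → MvPolynomial σ k := fun o s => o.elim (MvPolynomial.X (Sum.inr s)) (fun _ => 0)
        have hfam : ∀ M : Fin r → k, (fun o => MvPolynomial.aeval θ (a o + ∑ s, M s • c o s)) =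
            (fun o : Option (Fin m) => o.elim (φ M) v) := by
          intro M
          funext o
          rcases o with _ | i
          · simp only [a, c, Option.elim_none, zero_add, map_sum, map_smul, MvPolynomial.aeval_X, θ,
              Sum.elim_inr, hφsum]
          · simp only [a, c, Option.elim_some, smul_zero, Finset.sum_const_zero, add_zero,
              MvPolynomial.aeval_X, θ, Sum.elim_inl]
        have hDF : DF k D (fun o => MvPolynomial.aeval θ (a o + ∑ s, P s • c o s)) := by
          rw [hfam]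
          intro f hfD hf0
          by_contra hne
          exact hcon ⟨f, hne, hfD, hf0⟩
        obtain ⟨Φ, -, h2, h3, h4⟩ := openness θ a c P hDF
        rw [Fintype.card_option, Fintype.card_fin] at h2
        apply h3
        apply hP
        refine ⟨h2, ?_⟩
        intro t ht
        by_contra hne
        have h5 := h4 t hne
        rw [hfam] at h5
        obtain ⟨f, hf0, hfD, hfw⟩ := ht
        exact hf0 (h5 f hfD hfw)
      · intro hP p hp
        exact hp.2 P hP
    have hfinrank : ∀ U ∈ 𝒱, Module.finrank k U < (m + D).choose D := by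
      intro U hU
      have h1 := (hdim U hU).1
      rwa [← (Submodule.equivMapOfInjective φ hφinj U).finrank_eq] at h1
    have hcount := count_all 𝒱 hanti δ hδ1 Fs (fun p hp => hp.1) hZ _ hfinrank
    refine ⟨𝒱.image (fun U => U.map φ), Finset.card_image_le.trans hcount, ?_, ?_⟩
    · intro U hU
      obtain ⟨U', hU', rfl⟩ := Finset.mem_image.mp hU
      refine ⟨?_, hdim U' hU'⟩
      intro u hu
      obtain ⟨t, -, rfl⟩ := Submodule.mem_map.mp hu
      exact hφE t
    · intro w hw
      obtain ⟨t, rfl⟩ := hφrange w hw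
      rw [hcov t]
      constructor
      · rintro ⟨U, hU, htU⟩
        exact ⟨U.map φ, Finset.mem_image_of_mem _ hU, Submodule.mem_map_of_mem htU⟩
      · rintro ⟨U, hU, htU⟩
        obtain ⟨U', hU', rfl⟩ := Finset.mem_image.mp hU
        obtain ⟨t', ht', heq⟩ := Submodule.mem_map.mp htU
        exact ⟨U', hU', by rw [← hφinj heq]; exact ht'⟩

end Final

end Pool.Agent.Lib.MP_60829e_nt.ML
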