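import Mathlib

/-! Elementary valuation theory used for the Siegel-type theorem. -/

open Polynomial

namespace Sieg

variable {L : Type*} [Field L] {Γ : Type*} [LinearOrderedCommGroupWithZero Γ]

/-- Residues of elements of `M` lie in `k₁`. -/
def Res (v : Valuation L Γ) (k₁ M : Subfield L) : Prop :=
  ∀ x ∈ M, v x ≤ 1 → ∃ c ∈ k₁, v (x - c) < 1

/-- `v` is trivial on `k₁`. -/
def Triv (v : Valuation L Γ) (k₁ : Subfield L) : Prop := ∀ c ∈ k₁, c ≠ 0 → v c = 1

theorem Triv.le_one {v : Valuation L Γ} {k₁ : Subfield L} (h : Triv v k₁) {c : L} (hc : c ∈ k₁) :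
    v c ≤ 1 := by
  by_cases h0 : c = 0
  · simp [h0]
  · exact (h c hc h0).le

theorem Triv.eq_zero_of_lt {v : Valuation L Γ} {k₁ : Subfield L} (h : Triv v k₁) {c : L}
    (hc : c ∈ k₁) (hlt : v c < 1) : c = 0 := by
  by_contra h0
  exact absurd (h c hc h0) hlt.ne

theorem Triv.mono {v : Valuation L Γ} {k₁ M : Subfield L} (h : Triv v M) (hle : k₁ ≤ M) :
    Triv v k₁ := fun c hc h0 => h c (hle hc) h0

theorem exists_lt_of_prod_lt (v : Valuation L Γ) (s : Multiset L) (hs : v s.prod < 1) :
    ∃ x ∈ s, v x < 1 := by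
  by_contra hcon
  push Not at hcon
  apply absurd hs
  rw [not_lt]
  induction s using Multiset.induction_on with
  | empty => simp
  | cons a s ih =>
    rw [Multiset.prod_cons, map_mul]
    have h1 : 1 ≤ v a := hcon a (Multiset.mem_cons_self a s)
    have h2 : 1 ≤ v s.prod := by
      by_contra h
      push Not at h
      exact absurd (ih h (fun x hx => hcon x (Multiset.mem_cons_of_mem hx))) (not_le.mpr h)
    exact one_le_mul_of_one_le_of_one_le h1 h2

/-- If `q(x)` has small value, `x` is close to a root of `q`. -/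
theorem near_of_poly {v : Valuation L Γ} {k₁ : Subfield L} [IsAlgClosed k₁] (hk : Triv v k₁)
    (q : k₁[X]) (hq : q ≠ 0) (x : L) (h : v (aeval x q) < 1) : ∃ c ∈ k₁, v (x - c) < 1 := by
  have hs : q.Splits := IsAlgClosed.splits q
  have h1 := hs.eq_prod_roots
  have h2 : aeval x q = (q.leadingCoeff : L) * ((q.roots.map (fun a : k₁ => x - (a : L))).prod) := by
    conv_lhs => rw [h1]
    rw [map_mul, aeval_C, map_multiset_prod, Multiset.map_map]
    congr 1
    congr 1
    apply Multiset.map_congr rfl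
    intro a _
    simp only [Function.comp, map_sub, aeval_X, aeval_C]
    rfl
  have h3 : v (q.leadingCoeff : L) = 1 := hk _ q.leadingCoeff.2 (by
    intro h0
    exact hq (leadingCoeff_eq_zero.mp (Subtype.ext h0)))
  rw [h2, map_mul, h3, one_mul] at h
  obtain ⟨y, hy, hy1⟩ := exists_lt_of_prod_lt v _ h
  rw [Multiset.mem_map] at hy
  obtain ⟨a, _, rfl⟩ := hy
  exact ⟨a, a.2, hy1⟩

/-- Residues of algebraic elements. -/
theorem res_of_algebraic {v : Valuation L Γ} {k₁ M : Subfield L} [IsAlgClosed k₁]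
    (hk : Triv v k₁) (hM : Res v k₁ M) (x : L) (hx : IsAlgebraic M x) (hx1 : v x ≤ 1) :
    ∃ c ∈ k₁, v (x - c) < 1 := by
  obtain ⟨p, hp0, hp⟩ := hx
  -- index with largest coefficient
  obtain ⟨i, hi, hmax⟩ := Finset.exists_max_image p.support (fun j => v (p.coeff j : L))
    (by rwa [Polynomial.support_nonempty])
  have ha : (p.coeff i : L) ≠ 0 := by
    intro h0
    exact (mem_support_iff.mp hi) (Subtype.ext h0)
  have hva : v (p.coeff i : L) ≠ 0 := (Valuation.ne_zero_iff v).mpr ha
  have hle : ∀ j, v ((p.coeff j : L) / (p.coeff i : L)) ≤ 1 := by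
    intro j
    rw [map_div₀]
    by_cases hj : j ∈ p.support
    · exact div_le_one_of_le₀ (hmax j hj) zero_le
    · rw [notMem_support_iff.mp hj]; simp
  have hex : ∀ j, ∃ c : k₁, v ((p.coeff j : L) / (p.coeff i : L) - c) < 1 := by
    intro j
    obtain ⟨c, hc, hc1⟩ := hM _ (M.div_mem (p.coeff j).2 (p.coeff i).2) (hle j)
    exact ⟨⟨c, hc⟩, hc1⟩
  choose c hc using hex
  set q : k₁[X] := ∑ j ∈ Finset.range (p.natDegree + 1), C (c j) * X ^ j with hq
  have hci : c i ≠ 0 := by
    intro h0
    have := hc i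
    rw [h0, div_self ha] at this
    simp at this
  have hq0 : q ≠ 0 := by
    intro h0
    have h1 : q.coeff i = c i := by
      rw [hq, finsetSum_coeff]
      rw [Finset.sum_eq_single i]
      · simp
      · intro j _ hj
        simp [coeff_X_pow, Ne.symm hj]
      · intro hni
        exfalso
        apply hni
        rw [Finset.mem_range]
        exact Nat.lt_succ_of_le (le_natDegree_of_mem_supp i hi)
    rw [h0, coeff_zero] at h1
    exact hci h1.symm
  apply near_of_poly hk q hq0 x
  have h3 : (∑ j ∈ Finset.range (p.natDegree + 1), ((p.coeff j : L) / (p.coeff i : L)) * x ^ j)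
      = 0 := by
    have : aeval x p = ∑ j ∈ Finset.range (p.natDegree + 1), (p.coeff j : L) * x ^ j := by
      rw [aeval_eq_sum_range]
      apply Finset.sum_congr rfl
      intro j _
      rw [Algebra.smul_def]
      rfl
    rw [this] at hp
    calc _ = (∑ j ∈ Finset.range (p.natDegree + 1), (p.coeff j : L) * x ^ j) / (p.coeff i : L) := by
          rw [Finset.sum_div]
          apply Finset.sum_congr rfl
          intro j _
          ring
      _ = 0 := by rw [hp, zero_div]
  have h4 : aeval x q = ∑ j ∈ Finset.range (p.natDegree + 1),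
      ((c j : L) - (p.coeff j : L) / (p.coeff i : L)) * x ^ j := by
    have : aeval x q = ∑ j ∈ Finset.range (p.natDegree + 1), (c j : L) * x ^ j := by
      rw [hq, map_sum]
      apply Finset.sum_congr rfl
      intro j _
      rw [map_mul, aeval_C, map_pow, aeval_X]
      rfl
    rw [this, ← sub_zero (∑ j ∈ Finset.range (p.natDegree + 1), (c j : L) * x ^ j), ← h3,
      ← Finset.sum_sub_distrib]
    apply Finset.sum_congr rfl
    intro j _
    ring
  rw [h4]
  apply Valuation.map_sum_lt v one_ne_zero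
  intro j _
  rw [map_mul, map_pow, Valuation.map_sub_swap]
  calc _ ≤ v ((p.coeff j : L) / (p.coeff i : L) - (c j : L)) * 1 := by
        gcongr
        exact pow_le_one₀ zero_le hx1
    _ < 1 := by rw [mul_one]; exact hc j

/-- Gauss lemma. -/
theorem gauss_le {v : Valuation L Γ} {k₁ M : Subfield L} (hM : Res v k₁ M)
    {ι : Type*} (s : Finset ι) (y : ι → L)
    (hy1 : ∀ i ∈ s, v (y i) ≤ 1)
    (hy : ∀ c : ι → L, (∀ i ∈ s, c i ∈ k₁) → (∃ i ∈ s, c i ≠ 0) → v (∑ i ∈ s, c i * y i) = 1)
    (w : ι → L) (hw : ∀ i ∈ s, w i ∈ M) (j : ι) (hj : j ∈ s) :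
    v (w j) ≤ v (∑ i ∈ s, w i * y i) := by
  classical
  obtain ⟨i, hi, hmax⟩ := Finset.exists_max_image s (fun j => v (w j)) ⟨j, hj⟩
  by_cases h0 : w i = 0
  · have := hmax j hj
    rw [h0, map_zero] at this
    exact this.trans zero_le
  refine (hmax j hj).trans ?_
  have hvi : v (w i) ≠ 0 := (Valuation.ne_zero_iff v).mpr h0
  have hle : ∀ j ∈ s, v (w j / w i) ≤ 1 := by
    intro j hj
    rw [map_div₀]
    exact div_le_one_of_le₀ (hmax j hj) zero_le
  have hex : ∀ j, ∃ c : L, (j ∈ s → c ∈ k₁ ∧ v (w j / w i - c) < 1) := by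
    intro j
    by_cases hj : j ∈ s
    · obtain ⟨c, hc, hc1⟩ := hM _ (M.div_mem (hw j hj) (hw i hi)) (hle j hj)
      exact ⟨c, fun _ => ⟨hc, hc1⟩⟩
    · exact ⟨0, fun h => absurd h hj⟩
  choose c hc using hex
  have hci : c i ≠ 0 := by
    intro h0'
    have := (hc i hi).2
    rw [h0', div_self h0] at this
    simp at this
  have h1 : v (∑ j ∈ s, c j * y j) = 1 := hy c (fun j hj => (hc j hj).1) ⟨i, hi, hci⟩
  have h2 : v (∑ j ∈ s, (w j / w i) * y j - ∑ j ∈ s, c j * y j) < 1 := by
    rw [← Finset.sum_sub_distrib]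
    apply Valuation.map_sum_lt v one_ne_zero
    intro j hj
    rw [← sub_mul, map_mul]
    calc _ ≤ v (w j / w i - c j) * 1 := by
          gcongr
          exact hy1 j hj
      _ < 1 := by rw [mul_one]; exact (hc j hj).2
  have h3 : v (∑ j ∈ s, (w j / w i) * y j) = 1 := by
    rw [← h1]
    apply Valuation.map_eq_of_sub_lt
    rw [h1]
    exact h2
  have h4 : ∑ j ∈ s, w j * y j = w i * ∑ j ∈ s, (w j / w i) * y j := by
    rw [Finset.mul_sum]
    apply Finset.sum_congr rfl
    intro j _
    field_simp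
  rw [h4, map_mul, h3, mul_one]

/-- Value of a polynomial in `s`, `v s > 1`. -/
theorem val_poly {v : Valuation L Γ} {F : Subfield L} (hF : Triv v F) {s : L} (hs : 1 < v s)
    (g : F[X]) (hg : g ≠ 0) : v (aeval s g) = v s ^ g.natDegree := by
  classical
  have hs0 : v s ≠ 0 := (zero_lt_one.trans hs).ne'
  have hlc : v (g.coeff g.natDegree : L) = 1 := hF _ (g.coeff g.natDegree).2 (by
    intro h0
    exact hg (leadingCoeff_eq_zero.mp (Subtype.ext h0)))
  have h1 : aeval s g = ∑ j ∈ Finset.range (g.natDegree + 1), (g.coeff j : L) * s ^ j := by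
    rw [aeval_eq_sum_range]
    apply Finset.sum_congr rfl
    intro j _
    rw [Algebra.smul_def]
    rfl
  have h2 : v ((g.coeff g.natDegree : L) * s ^ g.natDegree) = v s ^ g.natDegree := by
    rw [map_mul, map_pow, hlc, one_mul]
  rw [h1, Valuation.map_sum_eq_of_lt v (j := g.natDegree), h2]
  · simp
  · intro i hi
    rw [h2, map_mul, map_pow]
    have hi' : i < g.natDegree := by
      simp only [Finset.mem_sdiff, Finset.mem_range, Finset.mem_singleton] at hi
      omega
    calc _ ≤ 1 * v s ^ i := by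
          gcongr
          exact hF.le_one (g.coeff i).2
      _ = v s ^ i := one_mul _
      _ < v s ^ g.natDegree := pow_lt_pow_right₀ hs hi'

theorem aeval_ne_zero_of_val {v : Valuation L Γ} {F : Subfield L} (hF : Triv v F) {s : L}
    (hs : 1 < v s) (g : F[X]) (hg : g ≠ 0) : aeval s g ≠ 0 := by
  intro h0
  have := val_poly hF hs g hg
  rw [h0, map_zero] at this
  exact (pow_pos (zero_lt_one.trans hs) _).ne this

/-- Values on `F(s)`. -/
theorem val_adjoin {v : Valuation L Γ} {F : Subfield L} (hF : Triv v F) {s : L} (hs : 1 < v s)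
    (x : L) (hx : x ∈ (IntermediateField.adjoin F {s}).toSubfield) (hx0 : x ≠ 0) :
    ∃ l : ℤ, v x = v s ^ l := by
  have hs0 : v s ≠ 0 := (zero_lt_one.trans hs).ne'
  obtain ⟨g, h, rfl⟩ := (IntermediateField.mem_adjoin_simple_iff F x).mp hx
  have hg : g ≠ 0 := by
    rintro rfl
    simp at hx0
  have hh : h ≠ 0 := by
    rintro rfl
    simp at hx0
  refine ⟨(g.natDegree : ℤ) - h.natDegree, ?_⟩
  rw [map_div₀, val_poly hF hs g hg, val_poly hF hs h hh, zpow_sub₀ hs0, zpow_natCast,
    zpow_natCast]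

/-- The residue field of `F(s)` is `F`. -/
theorem res_adjoin {v : Valuation L Γ} {F : Subfield L} (hF : Triv v F) {s : L} (hs : 1 < v s) :
    Res v F (IntermediateField.adjoin F {s}).toSubfield := by
  intro x hx hx1
  have hs0 : v s ≠ 0 := (zero_lt_one.trans hs).ne'
  by_cases hx0 : x = 0
  · exact ⟨0, F.zero_mem, by simp [hx0]⟩
  obtain ⟨g, h, rfl⟩ := (IntermediateField.mem_adjoin_simple_iff F x).mp hx
  have hg : g ≠ 0 := by
    rintro rfl
    simp at hx0
  have hh : h ≠ 0 := by
    rintro rfl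
    simp at hx0
  have hvh := val_poly hF hs h hh
  have hvg := val_poly hF hs g hg
  have hhs := aeval_ne_zero_of_val hF hs h hh
  rw [map_div₀, hvh, hvg] at hx1
  have hpos : 0 < v s ^ h.natDegree := pow_pos (zero_lt_one.trans hs) _
  have hdeg : g.natDegree ≤ h.natDegree := by
    by_contra hcon
    push Not at hcon
    have := pow_lt_pow_right₀ hs hcon
    rw [div_le_one₀ hpos] at hx1
    exact absurd this (not_lt.mpr hx1)
  set c : F := if g.natDegree = h.natDegree then g.leadingCoeff / h.leadingCoeff else 0 with hc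
  refine ⟨c, c.2, ?_⟩
  have h1 : aeval s g / aeval s h - (c : L) = aeval s (g - C c * h) / aeval s h := by
    rw [map_sub, map_mul, aeval_C, sub_div, mul_div_cancel_right₀ _ hhs]
    rfl
  rw [h1, map_div₀, hvh]
  by_cases hz : g - C c * h = 0
  · rw [hz]; simp
  · rw [val_poly hF hs _ hz, div_lt_one₀ hpos]
    apply pow_lt_pow_right₀ hs
    by_cases hd : g.natDegree = h.natDegree
    · have hcc : c = g.leadingCoeff / h.leadingCoeff := by rw [hc, if_pos hd]
      have hlh : h.leadingCoeff ≠ 0 := leadingCoeff_ne_zero.mpr hh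
      have hlg : g.leadingCoeff ≠ 0 := leadingCoeff_ne_zero.mpr hg
      have hc0 : c ≠ 0 := by rw [hcc]; exact div_ne_zero hlg hlh
      have hle : (g - C c * h).natDegree ≤ h.natDegree := by
        refine (natDegree_sub_le _ _).trans ?_
        rw [natDegree_C_mul hc0]
        exact max_le hdeg le_rfl
      refine lt_of_le_of_ne hle ?_
      intro heq
      apply hz
      rw [← leadingCoeff_eq_zero, leadingCoeff, heq, coeff_sub, coeff_C_mul]
      have e1 : g.coeff h.natDegree = g.leadingCoeff := by rw [← hd]; rfl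
      have e2 : h.coeff h.natDegree = h.leadingCoeff := rfl
      rw [e1, e2, hcc, div_mul_cancel₀ _ hlh, sub_self]
    · have hcc : c = 0 := by rw [hc, if_neg hd]
      rw [hcc]
      simp only [map_zero, zero_mul, sub_zero]
      omega

/-- Commensurability of values of algebraic elements, with a bound on the exponent. -/
theorem val_algebraic {v : Valuation L Γ} {F : Subfield L} (hF : Triv v F) {s : L} (hs : 1 < v s)
    (x : L) (hx0 : x ≠ 0) (p : (IntermediateField.adjoin F {s}).toSubfield[X]) (hp : p ≠ 0)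
    (hpx : aeval x p = 0) :
    ∃ m : ℕ, 1 ≤ m ∧ m ≤ p.natDegree ∧ ∃ l : ℤ, v x ^ m = v s ^ l := by
  classical
  have hs0 : v s ≠ 0 := (zero_lt_one.trans hs).ne'
  have hvx : v x ≠ 0 := (Valuation.ne_zero_iff v).mpr hx0
  obtain ⟨i, hi, hmax⟩ := Finset.exists_max_image p.support
    (fun j => v ((p.coeff j : L) * x ^ j)) (by rwa [Polynomial.support_nonempty])
  have hi0 : (p.coeff i : L) ≠ 0 := by
    intro h0
    exact (mem_support_iff.mp hi) (Subtype.ext h0)
  have hvi : v ((p.coeff i : L) * x ^ i) ≠ 0 :=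
    (Valuation.ne_zero_iff v).mpr (mul_ne_zero hi0 (pow_ne_zero _ hx0))
  -- another index with equal value
  have hex : ∃ j ∈ p.support, j ≠ i ∧ v ((p.coeff j : L) * x ^ j) = v ((p.coeff i : L) * x ^ i) := by
    by_contra hcon
    push Not at hcon
    have h1 : aeval x p = ∑ j ∈ p.support, (p.coeff j : L) * x ^ j := by
      rw [aeval_def, eval₂_eq_sum, Polynomial.sum]
      rfl
    have h2 : v (∑ j ∈ p.support, (p.coeff j : L) * x ^ j) = v ((p.coeff i : L) * x ^ i) := by
      apply Valuation.map_sum_eq_of_lt v hi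
      intro j hj
      rw [Finset.mem_sdiff, Finset.mem_singleton] at hj
      exact lt_of_le_of_ne (hmax j hj.1) (hcon j hj.1 hj.2)
    rw [← h1, hpx, map_zero] at h2
    exact hvi h2.symm
  obtain ⟨j, hj, hji, heq⟩ := hex
  have hj0 : (p.coeff j : L) ≠ 0 := by
    intro h0
    exact (mem_support_iff.mp hj) (Subtype.ext h0)
  obtain ⟨a, ha⟩ := val_adjoin hF hs _ (p.coeff i).2 hi0
  obtain ⟨b, hb⟩ := val_adjoin hF hs _ (p.coeff j).2 hj0
  rw [map_mul, map_mul, map_pow, map_pow, ha, hb] at heq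
  have hle1 := le_natDegree_of_mem_supp i hi
  have hle2 := le_natDegree_of_mem_supp j hj
  rcases lt_or_gt_of_ne hji with hlt | hlt
  · refine ⟨i - j, by omega, by omega, b - a, ?_⟩
    rw [pow_sub₀ _ hvx hlt.le, zpow_sub₀ hs0]
    have : v x ^ j ≠ 0 := pow_ne_zero _ hvx
    have h3 : v s ^ a ≠ 0 := zpow_ne_zero _ hs0
    rw [← div_eq_mul_inv, div_eq_div_iff this h3, heq, mul_comm]
  · refine ⟨j - i, by omega, by omega, a - b, ?_⟩
    rw [pow_sub₀ _ hvx hlt.le, zpow_sub₀ hs0]
    have : v x ^ i ≠ 0 := pow_ne_zero _ hvx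
    have h3 : v s ^ b ≠ 0 := zpow_ne_zero _ hs0
    rw [← div_eq_mul_inv, div_eq_div_iff this h3, mul_comm, heq]

end Sieg
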