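import Mathlib
import Pool.Agent.Lib.MP_60829e_nt.SiegelVal

/-! Uniformizers and approximation. -/

open Polynomial

namespace Sieg

variable {L : Type*} [Field L] {Γ : Type*} [LinearOrderedCommGroupWithZero Γ]

/-- `t` is a uniformizer of `K`. -/
structure Unif (v : Valuation L Γ) (K : Subfield L) (t : L) : Prop where
  mem : t ∈ K
  ne_zero : t ≠ 0
  lt_one : v t < 1
  val : ∀ y ∈ K, y ≠ 0 → ∃ m : ℤ, v y = v t ^ m

/-- Existence of a uniformizer, if the exponents are bounded. -/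
theorem exists_unif {v : Valuation L Γ} {K : Subfield L} {x : L} (hxK : x ∈ K) (hx : 1 < v x)
    (N : ℕ) (hN : N ≠ 0) (h : ∀ y ∈ K, y ≠ 0 → ∃ l : ℤ, v y ^ N = v x ^ l) :
    ∃ t, Unif v K t := by
  have hx0 : v x ≠ 0 := (zero_lt_one.trans hx).ne'
  have hxne : x ≠ 0 := (Valuation.ne_zero_iff v).mp hx0
  let H : AddSubgroup ℤ :=
    { carrier := {l | ∃ y ∈ K, y ≠ 0 ∧ v y ^ N = v x ^ l}
      add_mem' := by
        rintro a b ⟨y, hy, hy0, hya⟩ ⟨z, hz, hz0, hzb⟩
        exact ⟨y * z, K.mul_mem hy hz, mul_ne_zero hy0 hz0, by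
          rw [map_mul, mul_pow, hya, hzb, zpow_add₀ hx0]⟩
      zero_mem' := ⟨1, K.one_mem, one_ne_zero, by simp⟩
      neg_mem' := by
        rintro a ⟨y, hy, hy0, hya⟩
        exact ⟨y⁻¹, K.inv_mem hy, inv_ne_zero hy0, by
          rw [map_inv₀, inv_pow, hya, zpow_neg]⟩ }
  obtain ⟨d, hd⟩ := Int.subgroup_cyclic H
  have hmem : ∀ l : ℤ, l ∈ H ↔ ∃ m : ℤ, m * d = l := by
    intro l
    rw [hd, AddSubgroup.mem_closure_singleton]
    simp
  have hNH : (N : ℤ) ∈ H := ⟨x, hxK, hxne, by rw [zpow_natCast]⟩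
  have hd0 : d ≠ 0 := by
    rintro rfl
    obtain ⟨m, hm⟩ := (hmem _).mp hNH
    simp only [mul_zero] at hm
    exact hN (by exact_mod_cast hm.symm)
  -- choose `t` with exponent `-|d|`
  have hdH : -|d| ∈ H := by
    rw [hmem]
    rcases abs_choice d with h1 | h1
    · exact ⟨-1, by rw [h1]; ring⟩
    · exact ⟨1, by rw [h1]; ring⟩
  obtain ⟨t, htK, ht0, ht⟩ := hdH
  have habs : 0 < |d| := abs_pos.mpr hd0
  have hvt : v t ≠ 0 := (Valuation.ne_zero_iff v).mpr ht0
  refine ⟨t, htK, ht0, ?_, ?_⟩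
  · by_contra hcon
    push Not at hcon
    have h1 : 1 ≤ v t ^ N := one_le_pow₀ hcon
    rw [ht] at h1
    have h2 : v x ^ (-|d|) < 1 := by
      have := zpow_lt_zpow_right₀ hx (neg_lt_zero.mpr habs)
      simpa using this
    exact absurd h2 (not_lt.mpr h1)
  · intro y hy hy0
    obtain ⟨l, hl⟩ := h y hy hy0
    obtain ⟨m, hm⟩ := (hmem l).mp ⟨y, hy, hy0, hl⟩
    have hvy : v y ≠ 0 := (Valuation.ne_zero_iff v).mpr hy0
    -- v y ^ N = (v t ^ m') ^ N
    have hkey : ∀ m' : ℤ, -|d| * m' = l → v y = v t ^ m' := by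
      intro m' hm'
      have h1 : v y ^ N = (v t ^ m') ^ N := by
        rw [hl, ← hm', zpow_mul, ← ht, ← zpow_natCast, ← zpow_natCast, ← zpow_mul, ← zpow_mul,
          mul_comm]
      exact (pow_left_inj₀ zero_le zero_le hN).mp h1
    rcases abs_choice d with h1 | h1
    · exact ⟨-m, hkey _ (by rw [h1, ← hm]; ring)⟩
    · exact ⟨m, hkey _ (by rw [h1, ← hm]; ring)⟩

/-- Approximation of elements of `K` by Laurent polynomials in the uniformizer `t`. -/
theorem approx_unif {v : Valuation L Γ} {k₁ K : Subfield L} (hkK : k₁ ≤ K) (hK : Res v k₁ K)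
    {t : L} (ht : Unif v K t) (R : Subring L) (hkR : (k₁ : Set L) ⊆ R) (htR : t ∈ R)
    (htR' : t⁻¹ ∈ R) (y : L) (hy : y ∈ K) (n : ℤ) :
    ∃ g ∈ R, v (y - g) ≤ v t ^ n := by
  have hvt : v t ≠ 0 := (Valuation.ne_zero_iff v).mpr ht.ne_zero
  have hvt0 : 0 < v t := zero_lt_iff.mpr hvt
  have hzp : ∀ m : ℤ, t ^ m ∈ R := by
    intro m
    rcases m.natAbs_eq with h | h
    · rw [h, zpow_natCast]; exact R.pow_mem htR _
    · rw [h, zpow_neg, zpow_natCast, ← inv_pow]; exact R.pow_mem htR' _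
  have key : ∀ (j : ℕ) (y : L), y ∈ K → v y ≤ v t ^ (n - j) → ∃ g ∈ R, v (y - g) ≤ v t ^ n := by
    intro j
    induction j with
    | zero =>
      intro y _ hvy
      exact ⟨0, R.zero_mem, by simpa using hvy⟩
    | succ j ih =>
      intro y hy hvy
      set m : ℤ := n - (j + 1 : ℕ) with hm
      have htm : t ^ m ∈ K := K.zpow_mem ht.mem m
      have htm0 : t ^ m ≠ 0 := zpow_ne_zero _ ht.ne_zero
      have h1 : v (y / t ^ m) ≤ 1 := by
        rw [map_div₀, map_zpow₀]
        exact div_le_one_of_le₀ hvy zero_le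
      obtain ⟨c, hc, hc1⟩ := hK _ (K.div_mem hy htm) h1
      set y' := y - c * t ^ m with hy'
      have hy'K : y' ∈ K := K.sub_mem hy (K.mul_mem (hkK hc) htm)
      have h2 : y' = (y / t ^ m - c) * t ^ m := by
        rw [hy', sub_mul, div_mul_cancel₀ _ htm0]
      have h3 : v (y / t ^ m - c) ≤ v t := by
        by_cases h0 : y / t ^ m - c = 0
        · rw [h0, map_zero]; exact zero_le
        · obtain ⟨l, hl⟩ := ht.val _ (K.sub_mem (K.div_mem hy htm) (hkK hc)) h0
          rw [hl] at hc1 ⊢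
          have hl0 : 1 ≤ l := by
            by_contra hcon
            push Not at hcon
            have hl1 : l ≤ 0 := by omega
            have : v t ^ (0 : ℤ) ≤ v t ^ l := zpow_le_zpow_right_of_le_one₀ hvt0 ht.lt_one.le hl1
            rw [zpow_zero] at this
            exact absurd hc1 (not_lt.mpr this)
          calc v t ^ l ≤ v t ^ (1 : ℤ) := zpow_le_zpow_right_of_le_one₀ hvt0 ht.lt_one.le hl0
            _ = v t := zpow_one _
      have h4 : v y' ≤ v t ^ (n - j) := by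
        rw [h2, map_mul, map_zpow₀]
        calc _ ≤ v t * v t ^ m := by gcongr
          _ = v t ^ (n - j) := by
            rw [← zpow_one_add₀ hvt]
            congr 1
            rw [hm]; push_cast; ring
      obtain ⟨g, hg, hg1⟩ := ih y' hy'K h4
      refine ⟨g + c * t ^ m, R.add_mem hg (R.mul_mem (hkR hc) (hzp m)), ?_⟩
      have : y - (g + c * t ^ m) = y' - g := by rw [hy']; ring
      rw [this]
      exact hg1
  by_cases hy0 : y = 0
  · exact ⟨0, R.zero_mem, by simp [hy0]⟩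
  obtain ⟨m, hm⟩ := ht.val y hy hy0
  apply key (n - m).toNat y hy
  rw [hm]
  apply zpow_le_zpow_right_of_le_one₀ hvt0 ht.lt_one.le
  have := Int.self_le_toNat (n - m)
  omega

end Sieg
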