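import Mathlib
import Pool.Agent.Lib.MP_60829e_nt.SiegelVal
import Pool.Agent.Lib.MP_60829e_nt.SiegelUnif

/-! The residue argument: an exceptional rational curve. -/

open Polynomial

namespace Sieg

variable {L : Type*} [Field L] {Γ : Type*} [LinearOrderedCommGroupWithZero Γ]

/-- Elements approximable by elements of `R` (in the `t`-adic sense). -/
def Cl (v : Valuation L Γ) (t : L) (ht0 : t ≠ 0) (ht1 : v t < 1) (R : Subring L) : Subring L where
  carrier := {x | (∃ m : ℕ, v x ≤ (v t)⁻¹ ^ m) ∧ ∀ n : ℕ, ∃ g ∈ R, v (x - g) ≤ v t ^ n}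
  mul_mem' := by
    rintro x y ⟨⟨a, ha⟩, hx⟩ ⟨⟨b, hb⟩, hy⟩
    have hvt : v t ≠ 0 := (Valuation.ne_zero_iff v).mpr ht0
    refine ⟨⟨a + b, ?_⟩, ?_⟩
    · rw [map_mul, pow_add]
      exact mul_le_mul' ha hb
    · intro n
      obtain ⟨h, hh, hh1⟩ := hy (n + a)
      obtain ⟨g, hg, hg1⟩ := hx (n + b)
      have hhb : v h ≤ (v t)⁻¹ ^ b := by
        have : h = y - (y - h) := by ring
        rw [this]
        refine Valuation.map_sub_le v hb (hh1.trans ?_)
        calc v t ^ (n + a) ≤ 1 := pow_le_one₀ zero_le ht1.le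
          _ ≤ (v t)⁻¹ ^ b := one_le_pow₀ ((one_le_inv₀ (zero_lt_iff.mpr hvt)).mpr ht1.le)
      refine ⟨g * h, R.mul_mem hg hh, ?_⟩
      have : x * y - g * h = x * (y - h) + (x - g) * h := by ring
      rw [this]
      apply Valuation.map_add_le
      · rw [map_mul]
        calc v x * v (y - h) ≤ (v t)⁻¹ ^ a * v t ^ (n + a) := mul_le_mul' ha hh1
          _ = v t ^ n := by
            rw [pow_add, inv_pow]
            field_simp
      · rw [map_mul]
        calc v (x - g) * v h ≤ v t ^ (n + b) * (v t)⁻¹ ^ b := mul_le_mul' hg1 hhb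
          _ = v t ^ n := by
            rw [pow_add, inv_pow]
            field_simp
  one_mem' := ⟨⟨0, by simp⟩, fun n => ⟨1, R.one_mem, by simp⟩⟩
  add_mem' := by
    rintro x y ⟨⟨a, ha⟩, hx⟩ ⟨⟨b, hb⟩, hy⟩
    have hvt : v t ≠ 0 := (Valuation.ne_zero_iff v).mpr ht0
    have h1 : 1 ≤ (v t)⁻¹ := (one_le_inv₀ (zero_lt_iff.mpr hvt)).mpr ht1.le
    refine ⟨⟨a + b, Valuation.map_add_le v (ha.trans ?_) (hb.trans ?_)⟩, ?_⟩
    · exact pow_le_pow_right₀ h1 (by omega)
    · exact pow_le_pow_right₀ h1 (by omega)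
    · intro n
      obtain ⟨g, hg, hg1⟩ := hx n
      obtain ⟨h, hh, hh1⟩ := hy n
      refine ⟨g + h, R.add_mem hg hh, ?_⟩
      have : x + y - (g + h) = (x - g) + (y - h) := by ring
      rw [this]
      exact Valuation.map_add_le v hg1 hh1
  zero_mem' := ⟨⟨0, by simp⟩, fun n => ⟨0, R.zero_mem, by simp⟩⟩
  neg_mem' := by
    rintro x ⟨⟨a, ha⟩, hx⟩
    refine ⟨⟨a, by rwa [Valuation.map_neg]⟩, fun n => ?_⟩
    obtain ⟨g, hg, hg1⟩ := hx n
    refine ⟨-g, R.neg_mem hg, ?_⟩
    have : -x - -g = -(x - g) := by ring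
    rw [this, Valuation.map_neg]
    exact hg1

theorem prod_close (v : Valuation L Γ) {ι : Type*} (s : Multiset ι) (f g : ι → L)
    (hg : ∀ b ∈ s, g b ≠ 0) (h : ∀ b ∈ s, v (f b / g b - 1) < 1) :
    (s.map g).prod ≠ 0 ∧ v ((s.map f).prod / (s.map g).prod - 1) < 1 := by
  induction s using Multiset.induction_on with
  | empty => simp
  | cons a s ih =>
    obtain ⟨h1, h2⟩ := ih (fun b hb => hg b (Multiset.mem_cons_of_mem hb))
      (fun b hb => h b (Multiset.mem_cons_of_mem hb))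
    have ha := hg a (Multiset.mem_cons_self a s)
    have ha1 := h a (Multiset.mem_cons_self a s)
    rw [Multiset.map_cons, Multiset.prod_cons, Multiset.map_cons, Multiset.prod_cons]
    refine ⟨mul_ne_zero ha h1, ?_⟩
    set x := f a / g a
    set y := (s.map f).prod / (s.map g).prod
    have e1 : f a * (s.map f).prod / (g a * (s.map g).prod) - 1 = (x - 1) * y + (y - 1) := by
      rw [mul_div_mul_comm]; ring
    have hy : v y ≤ 1 := by
      have : y = (y - 1) + 1 := by ring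
      rw [this]
      exact Valuation.map_add_le v h2.le (by simp)
    rw [e1]
    refine Valuation.map_add_lt v ?_ h2
    rw [map_mul]
    calc v (x - 1) * v y ≤ v (x - 1) * 1 := by gcongr
      _ < 1 := by rw [mul_one]; exact ha1

/-- `p(t)` is close to `p(a)` when `a` is closer to `t` than all roots of `p`. -/
theorem eval_close {v : Valuation L Γ} {W : Subfield L} [IsAlgClosed W] (t a : L)
    (p : W[X]) (hp : p ≠ 0) (h : ∀ b ∈ p.roots, v (t - a) < v (t - (b : L))) :
    aeval a p ≠ 0 ∧ v (aeval t p / aeval a p - 1) < 1 := by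
  have hs : p.Splits := IsAlgClosed.splits p
  have h1 := hs.eq_prod_roots
  have h2 : ∀ x : L, aeval x p = (p.leadingCoeff : L) *
      ((p.roots.map (fun b : W => x - (b : L))).prod) := by
    intro x
    conv_lhs => rw [h1]
    rw [map_mul, aeval_C, map_multiset_prod, Multiset.map_map]
    congr 1
    congr 1
    apply Multiset.map_congr rfl
    intro a _
    simp only [Function.comp, map_sub, aeval_X, aeval_C]
    rfl
  have hlc : (p.leadingCoeff : L) ≠ 0 := by
    intro h0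
    exact hp (leadingCoeff_eq_zero.mp (Subtype.ext h0))
  have h3 : ∀ b ∈ p.roots, v (a - (b : L)) = v (t - (b : L)) := by
    intro b hb
    have : a - (b : L) = (t - (b : L)) - (t - a) := by ring
    rw [this]
    exact Valuation.map_sub_eq_of_lt_left v (h b hb)
  have h4 : ∀ b ∈ p.roots, a - (b : L) ≠ 0 := by
    intro b hb h0
    have e := h3 b hb
    rw [h0, map_zero] at e
    have := h b hb
    rw [← e] at this
    exact absurd this not_lt_zero
  have h5 := prod_close v p.roots (fun b : W => t - (b : L)) (fun b : W => a - (b : L)) h4 (by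
    intro b hb
    have e1 : (t - (b : L)) / (a - (b : L)) - 1 = (t - a) / (a - (b : L)) := by
      have := h4 b hb
      field_simp
      ring
    rw [e1, map_div₀, h3 b hb, div_lt_one₀]
    · exact h b hb
    · exact zero_lt_iff.mpr (by
        intro h0
        have := h b hb
        rw [h0] at this
        exact absurd this not_lt_zero))
  rw [h2 t, h2 a]
  refine ⟨mul_ne_zero hlc h5.1, ?_⟩
  rw [mul_div_mul_left _ _ hlc]
  exact h5.2

/-- Best approximation. -/
theorem exists_best {v : Valuation L Γ} {k₁ W : Subfield L} [IsAlgClosed W] (hkW : k₁ ≤ W)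
    (hW : Res v k₁ W) (t : L)
    (hval : ∀ a ∈ W, t ≠ a → ∃ ρ ∈ W, ρ ≠ 0 ∧ v (t - a) = v ρ)
    (p q : W[X]) (hr : v (aeval t p / aeval t q) ≤ 1)
    (hr' : ∀ c ∈ k₁, ¬ v (aeval t p / aeval t q - c) < 1) :
    ∃ a ∈ W, ∃ ρ ∈ W, ρ ≠ 0 ∧ v ((t - a) / ρ) = 1 ∧ ∀ c ∈ k₁, ¬ v ((t - a) / ρ - c) < 1 := by
  classical
  have hp : p ≠ 0 := by
    rintro rfl
    exact hr' 0 k₁.zero_mem (by simp)
  have hq : q ≠ 0 := by
    rintro rfl
    exact hr' 0 k₁.zero_mem (by simp)
  have haev : ∀ (g : W[X]) (a : L), a ∈ W → aeval a g ∈ W := by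
    intro g a ha
    have : aeval a g = ((aeval (⟨a, ha⟩ : W) g : W) : L) := by
      rw [aeval_def, aeval_def, ← Subfield.coe_subtype, hom_eval₂]
      rfl
    rw [this]
    exact Subtype.mem _
  have htW : t ∉ W := by
    intro ht
    obtain ⟨c, hc, hc1⟩ := hW _ (W.div_mem (haev p t ht) (haev q t ht)) hr
    exact hr' c hc hc1
  by_contra hcon
  push Not at hcon
  -- closest root
  obtain ⟨b₀, hb₀, hmin⟩ : ∃ b₀ ∈ W, ∀ b ∈ p.roots + q.roots, v (t - b₀) ≤ v (t - (b : L)) := by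
    by_cases hS : (p.roots + q.roots).toFinset.Nonempty
    · obtain ⟨b₀, _, hmin⟩ := Finset.exists_min_image _ (fun b : W => v (t - (b : L))) hS
      exact ⟨b₀, b₀.2, fun b hb => hmin b (Multiset.mem_toFinset.mpr hb)⟩
    · refine ⟨0, W.zero_mem, fun b hb => ?_⟩
      exact absurd ⟨b, Multiset.mem_toFinset.mpr hb⟩ hS
  obtain ⟨ρ, hρ, hρ0, hρv⟩ := hval b₀ hb₀ (fun h => htW (h ▸ hb₀))
  have hvρ : v ρ ≠ 0 := (Valuation.ne_zero_iff v).mpr hρ0
  obtain ⟨c, hc, hc1⟩ := hcon b₀ hb₀ ρ hρ hρ0 (by rw [map_div₀, hρv, div_self hvρ])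
  set a := b₀ + c * ρ with ha
  have haW : a ∈ W := W.add_mem hb₀ (W.mul_mem (hkW hc) hρ)
  have hta : v (t - a) < v ρ := by
    have : t - a = ((t - b₀) / ρ - c) * ρ := by
      rw [ha]
      field_simp
      ring
    rw [this, map_mul]
    calc _ < 1 * v ρ := by
          gcongr
          exact zero_lt_iff.mpr hvρ
      _ = v ρ := one_mul _
  have hlt : ∀ b ∈ p.roots + q.roots, v (t - a) < v (t - (b : L)) := by
    intro b hb
    calc v (t - a) < v ρ := hta
      _ = v (t - b₀) := hρv.symm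
      _ ≤ _ := hmin b hb
  obtain ⟨hpa, hpa1⟩ := eval_close t a p hp (fun b hb => hlt b (Multiset.mem_add.mpr (Or.inl hb)))
  obtain ⟨hqa, hqa1⟩ := eval_close t a q hq (fun b hb => hlt b (Multiset.mem_add.mpr (Or.inr hb)))
  set x := aeval t p / aeval a p with hx
  set y := aeval t q / aeval a q with hy
  have hvy : v y = 1 := by
    have : y = 1 + (y - 1) := by ring
    rw [this]
    exact Valuation.map_one_add_of_lt v hqa1
  have hy0 : y ≠ 0 := by
    intro h0
    rw [h0, map_zero] at hvy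
    exact zero_ne_one hvy
  have hvx : v x = 1 := by
    have : x = 1 + (x - 1) := by ring
    rw [this]
    exact Valuation.map_one_add_of_lt v hpa1
  set r₁ := aeval a p / aeval a q with hr₁
  have hr₁W : r₁ ∈ W := W.div_mem (haev p a haW) (haev q a haW)
  have hr₁0 : r₁ ≠ 0 := div_ne_zero hpa hqa
  have hxy : v (x / y - 1) < 1 := by
    have : x / y - 1 = (x - 1) / y - (y - 1) / y := by
      field_simp
      ring
    rw [this]
    apply Valuation.map_sub_lt
    · rw [map_div₀, hvy, div_one]; exact hpa1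
    · rw [map_div₀, hvy, div_one]; exact hqa1
  have hrr : aeval t p / aeval t q = r₁ * (x / y) := by
    rw [hr₁, hx, hy]
    have h1 : aeval t q ≠ 0 := by
      intro h0
      apply hy0
      rw [hy, h0, zero_div]
    field_simp
  have hvr : v r₁ ≤ 1 := by
    rw [hrr, map_mul v r₁ (x / y), map_div₀ v x y, hvx, hvy, div_one, mul_one] at hr
    exact hr
  obtain ⟨c', hc', hc1'⟩ := hW r₁ hr₁W hvr
  apply hr' c' hc'
  have : aeval t p / aeval t q - c' = r₁ * (x / y - 1) + (r₁ - c') := by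
    rw [hrr]; ring
  rw [this]
  apply Valuation.map_add_lt _ _ hc1'
  rw [map_mul]
  calc v r₁ * v (x / y - 1) ≤ 1 * v (x / y - 1) := by gcongr
    _ < 1 := by rw [one_mul]; exact hxy

/-- The coordinate on the exceptional curve. -/
theorem exists_coord {v : Valuation L Γ} {k₁ W : Subfield L} [IsAlgClosed W] (hkW : k₁ ≤ W)
    (hW : Res v k₁ W) (t : L) (ht0 : t ≠ 0) (ht1 : v t < 1)
    (hval : ∀ a ∈ W, t ≠ a → ∃ ρ ∈ W, ρ ≠ 0 ∧ v (t - a) = v ρ)
    (harch : ∀ ρ ∈ W, ∃ m : ℕ, v ρ ≤ (v t)⁻¹ ^ m)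
    (harch' : ∀ ρ ∈ W, v ρ < 1 → ∃ m : ℕ, v ρ ^ m ≤ v t)
    (p q : W[X]) (hr : v (aeval t p / aeval t q) ≤ 1)
    (hr' : ∀ c ∈ k₁, ¬ v (aeval t p / aeval t q - c) < 1) :
    ∃ ξ : L, v ξ = 1 ∧ (∀ c ∈ k₁, ¬ v (ξ - c) < 1) ∧
      t ∈ Cl v t ht0 ht1 (Subring.closure ((W : Set L) ∪ {ξ, ξ⁻¹})) ∧
      t⁻¹ ∈ Cl v t ht0 ht1 (Subring.closure ((W : Set L) ∪ {ξ, ξ⁻¹})) := by
  obtain ⟨a, ha, ρ, hρ, hρ0, hξ1, hξc⟩ := exists_best hkW hW t hval p q hr hr'
  have hvt : v t ≠ 0 := (Valuation.ne_zero_iff v).mpr ht0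
  have hvt0 : 0 < v t := zero_lt_iff.mpr hvt
  have hvρ : v ρ ≠ 0 := (Valuation.ne_zero_iff v).mpr hρ0
  have hle1 : v t ≤ (v t)⁻¹ ^ 0 := by simpa using ht1.le
  -- membership in `Cl`
  have hCl : ∀ (R : Subring L) (x : L) (m : ℕ), v x ≤ (v t)⁻¹ ^ m → x ∈ R →
      x ∈ Cl v t ht0 ht1 R := fun R x m h1 h2 => ⟨⟨m, h1⟩, fun n => ⟨x, h2, by simp⟩⟩
  by_cases hcase : v a ≤ v ρ
  · set ξ := t / ρ with hξ
    have haρ : v (a / ρ) ≤ 1 := by
      rw [map_div₀]
      exact div_le_one_of_le₀ hcase zero_le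
    obtain ⟨c₀, hc₀, hc₀1⟩ := hW _ (W.div_mem ha hρ) haρ
    have hξne : ∀ c ∈ k₁, ¬ v (ξ - c) < 1 := by
      intro c hc h
      apply hξc (c - c₀) (k₁.sub_mem hc hc₀)
      have : (t - a) / ρ - (c - c₀) = (ξ - c) - (a / ρ - c₀) := by rw [hξ]; ring
      rw [this]
      exact Valuation.map_sub_lt v h hc₀1
    have hξ0 : ξ ≠ 0 := div_ne_zero ht0 hρ0
    refine ⟨ξ, ?_, hξne, ?_, ?_⟩
    · apply le_antisymm
      · have : ξ = (t - a) / ρ + a / ρ := by rw [hξ]; ring
        rw [this]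
        exact Valuation.map_add_le v hξ1.le haρ
      · have := hξne 0 k₁.zero_mem
        rw [sub_zero, not_lt] at this
        exact this
    · apply hCl _ _ 0 hle1
      have : t = ρ * ξ := by rw [hξ]; field_simp
      rw [this]
      exact Subring.mul_mem _ (Subring.subset_closure (Or.inl hρ))
        (Subring.subset_closure (Or.inr (by simp)))
    · apply hCl _ _ 1 (by simp)
      have : t⁻¹ = ρ⁻¹ * ξ⁻¹ := by rw [hξ]; field_simp
      rw [this]
      exact Subring.mul_mem _ (Subring.subset_closure (Or.inl (W.inv_mem hρ)))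
        (Subring.subset_closure (Or.inr (by simp)))
  · push Not at hcase
    set ξ := (t - a) / ρ with hξ
    have ha0 : a ≠ 0 := by
      rintro rfl
      rw [map_zero] at hcase
      exact not_lt_zero hcase
    have hva : v a ≠ 0 := (Valuation.ne_zero_iff v).mpr ha0
    set R := Subring.closure ((W : Set L) ∪ {ξ, ξ⁻¹}) with hR
    have hWR : ∀ x ∈ W, x ∈ R := fun x hx => Subring.subset_closure (Or.inl hx)
    have hξR : ξ ∈ R := Subring.subset_closure (Or.inr (by simp))
    have htξ : t = a + ρ * ξ := by rw [hξ]; field_simp; ring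
    refine ⟨ξ, hξ1, hξc, hCl _ _ 0 hle1 ?_, ⟨1, by simp⟩, ?_⟩
    · rw [htξ]
      exact R.add_mem (hWR a ha) (R.mul_mem (hWR ρ hρ) hξR)
    · intro n
      set η := ρ / a with hη
      have hηW : η ∈ W := W.div_mem hρ ha
      have hη1 : v η < 1 := by
        rw [hη, map_div₀]
        exact (div_lt_one₀ (zero_lt_iff.mpr hva)).mpr hcase
      obtain ⟨m, hm⟩ := harch' η hηW hη1
      obtain ⟨b, hb⟩ := harch a⁻¹ (W.inv_mem ha)
      set M := m * (n + b) with hM
      have hone : v (1 + η * ξ) = 1 := by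
        apply Valuation.map_one_add_of_lt
        rw [map_mul, hξ1, mul_one]
        exact hη1
      have hone0 : 1 + η * ξ ≠ 0 := by
        intro h0
        rw [h0, map_zero] at hone
        exact zero_ne_one hone
      have hgeom : (1 + η * ξ) * ∑ j ∈ Finset.range M, (-(η * ξ)) ^ j = 1 - (-(η * ξ)) ^ M := by
        have := mul_neg_geom_sum (-(η * ξ)) M
        rw [← this]; ring
      refine ⟨a⁻¹ * ∑ j ∈ Finset.range M, (-(η * ξ)) ^ j, ?_, ?_⟩
      · refine R.mul_mem (hWR _ (W.inv_mem ha)) (R.sum_mem fun j _ => R.pow_mem (R.neg_mem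
          (R.mul_mem (hWR _ hηW) hξR)) _)
      · have htt : t = a * (1 + η * ξ) := by
          rw [htξ, hη]; field_simp
        have e1 : t⁻¹ - a⁻¹ * ∑ j ∈ Finset.range M, (-(η * ξ)) ^ j
            = a⁻¹ * ((-(η * ξ)) ^ M / (1 + η * ξ)) := by
          have e2 : ∑ j ∈ Finset.range M, (-(η * ξ)) ^ j = (1 - (-(η * ξ)) ^ M) / (1 + η * ξ) := by
            rw [← hgeom, mul_div_cancel_left₀ _ hone0]
          rw [e2, htt]
          field_simp
          ring
        rw [e1, map_mul, map_div₀, hone, div_one, map_pow, Valuation.map_neg, map_mul, hξ1, mul_one]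
        calc v a⁻¹ * v η ^ M ≤ (v t)⁻¹ ^ b * (v t) ^ (n + b) := by
              apply mul_le_mul' hb
              rw [hM, pow_mul]
              exact pow_le_pow_left₀ zero_le hm _
          _ = v t ^ n := by
            rw [pow_add, inv_pow]
            field_simp

/-- Values of polynomials in a residually transcendental element. -/
theorem val_poly_trans {v : Valuation L Γ} {k₁ : Subfield L} [IsAlgClosed k₁] (hk : Triv v k₁)
    {ξ : L} (hξ1 : v ξ = 1) (hξ : ∀ c ∈ k₁, ¬ v (ξ - c) < 1) (p : k₁[X]) (hp : p ≠ 0) :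
    v (aeval ξ p) = 1 := by
  apply le_antisymm
  · rw [aeval_eq_sum_range]
    apply Valuation.map_sum_le
    intro i _
    rw [Algebra.smul_def, map_mul, map_pow, hξ1, one_pow, mul_one]
    exact hk.le_one (p.coeff i).2
  · by_contra hcon
    push Not at hcon
    obtain ⟨c, hc, hc1⟩ := near_of_poly hk p hp ξ hcon
    exact hξ c hc hc1

/-- Elements of `W[ξ, ξ⁻¹]`. -/
theorem mem_closure_form {W : Subfield L} {ξ : L} (hξ0 : ξ ≠ 0) (x : L)
    (hx : x ∈ Subring.closure ((W : Set L) ∪ {ξ, ξ⁻¹})) :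
    ∃ (G : W[X]) (N : ℕ), x = aeval ξ G / ξ ^ N := by
  induction hx using Subring.closure_induction with
  | mem x hx =>
    rcases hx with hx | hx
    · exact ⟨C ⟨x, hx⟩, 0, by simp [aeval_C]; rfl⟩
    · simp only [Set.mem_insert_iff, Set.mem_singleton_iff] at hx
      rcases hx with rfl | rfl
      · exact ⟨X, 0, by simp⟩
      · exact ⟨1, 1, by simp⟩
  | zero => exact ⟨0, 0, by simp⟩
  | one => exact ⟨1, 0, by simp⟩
  | add x y _ _ hx hy =>
    obtain ⟨G, N, rfl⟩ := hx
    obtain ⟨H, M, rfl⟩ := hy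
    refine ⟨G * X ^ M + H * X ^ N, N + M, ?_⟩
    simp only [map_add, map_mul, map_pow, aeval_X]
    field_simp
    ring
  | neg x _ hx =>
    obtain ⟨G, N, rfl⟩ := hx
    exact ⟨-G, N, by simp [neg_div]⟩
  | mul x y _ _ hx hy =>
    obtain ⟨G, N, rfl⟩ := hx
    obtain ⟨H, M, rfl⟩ := hy
    refine ⟨G * H, N + M, ?_⟩
    simp only [map_mul]
    field_simp
    ring

/-- Reduction of integral elements of `W[ξ, ξ⁻¹]`. -/
theorem reduce {v : Valuation L Γ} {k₁ W : Subfield L} [IsAlgClosed k₁] (hk : Triv v k₁)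
    (hW : Res v k₁ W) {ξ : L} (hξ1 : v ξ = 1)
    (hξ : ∀ c ∈ k₁, ¬ v (ξ - c) < 1) (x : L) (hx1 : v x ≤ 1)
    (hx : x ∈ Subring.closure ((W : Set L) ∪ {ξ, ξ⁻¹})) :
    ∃ (P : k₁[X]) (N : ℕ), v (x - aeval ξ P / ξ ^ N) < 1 := by
  have hξ0 : ξ ≠ 0 := by
    rintro rfl
    rw [map_zero] at hξ1
    exact zero_ne_one hξ1
  obtain ⟨G, N, rfl⟩ := mem_closure_form hξ0 x hx
  rw [map_div₀, map_pow, hξ1, one_pow, div_one] at hx1
  have hG : aeval ξ G = ∑ i ∈ Finset.range (G.natDegree + 1), (G.coeff i : L) * ξ ^ i := by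
    rw [aeval_eq_sum_range]
    apply Finset.sum_congr rfl
    intro i _
    rw [Algebra.smul_def]
    rfl
  have hcoef : ∀ j ∈ Finset.range (G.natDegree + 1), v (G.coeff j : L) ≤ 1 := by
    intro j hj
    refine (gauss_le hW (Finset.range (G.natDegree + 1)) (fun i => ξ ^ i) ?_ ?_
      (fun i => (G.coeff i : L)) (fun i _ => (G.coeff i).2) j hj).trans ?_
    · intro i _
      rw [map_pow, hξ1, one_pow]
    · intro c hc ⟨i, hi, hi0⟩
      set P : k₁[X] := ∑ j ∈ (Finset.range (G.natDegree + 1)).attach,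
        C ⟨c j.1, hc j.1 j.2⟩ * X ^ j.1 with hP
      have h1 : aeval ξ P = ∑ i ∈ Finset.range (G.natDegree + 1), c i * ξ ^ i := by
        rw [hP, map_sum, ← Finset.sum_attach (Finset.range (G.natDegree + 1))]
        apply Finset.sum_congr rfl
        intro j _
        rw [map_mul, aeval_C, map_pow, aeval_X]
        rfl
      have h2 : P ≠ 0 := by
        intro h0
        have h3 : P.coeff i = ⟨c i, hc i hi⟩ := by
          rw [hP, finsetSum_coeff, Finset.sum_eq_single ⟨i, hi⟩]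
          · simp
          · intro j _ hj
            have : j.1 ≠ i := fun h => hj (Subtype.ext h)
            simp [coeff_X_pow, this.symm]
          · intro h
            exact absurd (Finset.mem_attach _ _) h
        rw [h0, coeff_zero] at h3
        apply hi0
        have := congrArg Subtype.val h3
        simpa using this.symm
      rw [← h1]
      exact val_poly_trans hk hξ1 hξ P h2
    · rw [← hG]; exact hx1
  have hex : ∀ j, ∃ c : k₁, (j ∈ Finset.range (G.natDegree + 1) → v ((G.coeff j : L) - c) < 1) := by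
    intro j
    by_cases hj : j ∈ Finset.range (G.natDegree + 1)
    · obtain ⟨c, hc, hc1⟩ := hW _ (G.coeff j).2 (hcoef j hj)
      exact ⟨⟨c, hc⟩, fun _ => hc1⟩
    · exact ⟨0, fun h => absurd h hj⟩
  choose c hc using hex
  refine ⟨∑ j ∈ Finset.range (G.natDegree + 1), C (c j) * X ^ j, N, ?_⟩
  rw [← sub_div, map_div₀, map_pow, hξ1, one_pow, div_one, hG, map_sum, ← Finset.sum_sub_distrib]
  apply Valuation.map_sum_lt v one_ne_zero
  intro j hj
  have : aeval ξ (C (c j) * X ^ j) = (c j : L) * ξ ^ j := by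
    rw [map_mul, aeval_C, map_pow, aeval_X]
    rfl
  rw [this, ← sub_mul, map_mul, map_pow, hξ1, one_pow, mul_one]
  exact hc j hj

theorem poly_close {v : Valuation L Γ} {k₁ : Subfield L} (hk : Triv v k₁) {σ : Type*}
    (a b : σ → L) (ha : ∀ i, v (a i) ≤ 1) (hb : ∀ i, v (b i) ≤ 1) (hab : ∀ i, v (a i - b i) < 1)
    (g : MvPolynomial σ k₁) :
    v (MvPolynomial.aeval a g) ≤ 1 ∧ v (MvPolynomial.aeval b g) ≤ 1 ∧
      v (MvPolynomial.aeval a g - MvPolynomial.aeval b g) < 1 := by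
  induction g using MvPolynomial.induction_on with
  | C c =>
    rw [MvPolynomial.algHom_C, MvPolynomial.algHom_C]
    refine ⟨hk.le_one c.2, hk.le_one c.2, by simp⟩
  | add p q hp hq =>
    obtain ⟨h1, h2, h3⟩ := hp
    obtain ⟨h4, h5, h6⟩ := hq
    rw [map_add (MvPolynomial.aeval a), map_add (MvPolynomial.aeval b)]
    refine ⟨Valuation.map_add_le v h1 h4, Valuation.map_add_le v h2 h5, ?_⟩
    rw [add_sub_add_comm]
    exact Valuation.map_add_lt v h3 h6
  | mul_X p i hp =>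
    obtain ⟨h1, h2, h3⟩ := hp
    rw [map_mul (MvPolynomial.aeval a), map_mul (MvPolynomial.aeval b), MvPolynomial.aeval_X,
      MvPolynomial.aeval_X, map_mul, map_mul]
    refine ⟨mul_le_one' h1 (ha i), mul_le_one' h2 (hb i), ?_⟩
    have : MvPolynomial.aeval a p * a i - MvPolynomial.aeval b p * b i =
        MvPolynomial.aeval a p * (a i - b i) +
          (MvPolynomial.aeval a p - MvPolynomial.aeval b p) * b i := by ring
    rw [this]
    apply Valuation.map_add_lt
    · rw [map_mul]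
      calc _ ≤ 1 * v (a i - b i) := by gcongr
        _ < 1 := by rw [one_mul]; exact hab i
    · rw [map_mul]
      calc _ ≤ v (MvPolynomial.aeval a p - MvPolynomial.aeval b p) * 1 := by
            gcongr
            exact hb i
        _ < 1 := by rw [mul_one]; exact h3

/-- The exceptional curve gives a Laurent parametrisation. -/
theorem laurent_param {v : Valuation L Γ} {k₁ W K : Subfield L} [IsAlgClosed k₁] [IsAlgClosed W]
    (hk : Triv v k₁) (hkW : k₁ ≤ W) (hkK : k₁ ≤ K) (hW : Res v k₁ W) (hK : Res v k₁ K)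
    {t : L} (ht : Unif v K t)
    (hval : ∀ a ∈ W, t ≠ a → ∃ ρ ∈ W, ρ ≠ 0 ∧ v (t - a) = v ρ)
    (harch : ∀ ρ ∈ W, ∃ m : ℕ, v ρ ≤ (v t)⁻¹ ^ m)
    (harch' : ∀ ρ ∈ W, v ρ < 1 → ∃ m : ℕ, v ρ ^ m ≤ v t)
    (p q : W[X]) (hr : v (aeval t p / aeval t q) ≤ 1)
    (hr' : ∀ c ∈ k₁, ¬ v (aeval t p / aeval t q - c) < 1)
    {σ : Type*} (u : σ → L) (hu : ∀ i, u i ∈ Subring.closure ((W : Set L) ∪ K))
    (hu1 : ∀ i, v (u i) ≤ 1) (f : MvPolynomial σ k₁) (hf : MvPolynomial.aeval u f = 0) :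
    ∃ P : σ → LaurentPolynomial k₁, MvPolynomial.aeval P f = 0 ∧
      ∀ i, ∀ c : k₁, P i = LaurentPolynomial.C c → v (u i - (c : L)) < 1 := by
  have hvt : v t ≠ 0 := (Valuation.ne_zero_iff v).mpr ht.ne_zero
  have hvt0 : 0 < v t := zero_lt_iff.mpr hvt
  obtain ⟨ξ, hξ1, hξ, htC, htC'⟩ := exists_coord hkW hW t ht.ne_zero ht.lt_one hval harch harch' p q
    hr hr'
  have hξ0 : ξ ≠ 0 := by
    rintro rfl
    rw [map_zero] at hξ1
    exact zero_ne_one hξ1
  set R := Subring.closure ((W : Set L) ∪ {ξ, ξ⁻¹}) with hR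
  set D := Cl v t ht.ne_zero ht.lt_one R with hD
  have hWD : (W : Set L) ⊆ D := by
    intro x hx
    obtain ⟨m, hm⟩ := harch x hx
    exact ⟨⟨m, hm⟩, fun n => ⟨x, Subring.subset_closure (Or.inl hx), by simp⟩⟩
  have hKD : (K : Set L) ⊆ D := by
    intro y hy
    have hyK : y ∈ K := hy
    refine ⟨?_, ?_⟩
    · by_cases hy0 : y = 0
      · exact ⟨0, by simp [hy0]⟩
      · obtain ⟨m, hm⟩ := ht.val y hyK hy0
        refine ⟨m.natAbs, ?_⟩
        rw [hm, inv_pow, ← zpow_natCast, ← zpow_neg]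
        apply zpow_le_zpow_right_of_le_one₀ hvt0 ht.lt_one.le
        omega
    · intro n
      obtain ⟨g, hg, hg1⟩ := approx_unif hkK hK ht D
        (fun c hc => hWD (hkW hc)) htC htC' y hyK n
      obtain ⟨h, hh, hh1⟩ := hg.2 n
      refine ⟨h, hh, ?_⟩
      have : y - h = (y - g) + (g - h) := by ring
      rw [this]
      apply Valuation.map_add_le _ _ hh1
      rw [zpow_natCast] at hg1
      exact hg1
  have hcl : Subring.closure ((W : Set L) ∪ K) ≤ D := by
    rw [Subring.closure_le]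
    exact Set.union_subset hWD hKD
  -- approximate each `u i`
  have hex : ∀ i, ∃ (P : k₁[X]) (N : ℕ), v (u i - aeval ξ P / ξ ^ N) < 1 := by
    intro i
    obtain ⟨g, hg, hg1⟩ := (hcl (hu i)).2 1
    rw [pow_one] at hg1
    have hg2 : v (u i - g) < 1 := hg1.trans_lt ht.lt_one
    have hg3 : v g ≤ 1 := by
      have : g = u i - (u i - g) := by ring
      rw [this]
      exact Valuation.map_sub_le v (hu1 i) hg2.le
    obtain ⟨P, N, hP⟩ := reduce hk hW hξ1 hξ g hg3 hg
    refine ⟨P, N, ?_⟩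
    have : u i - aeval ξ P / ξ ^ N = (u i - g) + (g - aeval ξ P / ξ ^ N) := by ring
    rw [this]
    exact Valuation.map_add_lt v hg2 hP
  choose P₀ N hP₀ using hex
  set ev : LaurentPolynomial k₁ →+* L :=
    LaurentPolynomial.eval₂ (algebraMap k₁ L) (Units.mk0 ξ hξ0) with hev
  have hevT : ∀ (p : k₁[X]), ev (toLaurent p) = aeval ξ p := by
    intro p
    rw [hev, LaurentPolynomial.eval₂_toLaurent]
    rfl
  have hevC : ∀ c : k₁, ev (LaurentPolynomial.C c) = (c : L) := by
    intro c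
    rw [hev, LaurentPolynomial.eval₂_C]
    rfl
  have hvev : ∀ g : LaurentPolynomial k₁, g ≠ 0 → v (ev g) = 1 := by
    intro g hg
    obtain ⟨n, g', hg'⟩ := LaurentPolynomial.exists_T_pow g
    have hg'0 : g' ≠ 0 := by
      rintro rfl
      rw [map_zero] at hg'
      have hT : IsUnit (LaurentPolynomial.T (n : ℤ) : LaurentPolynomial k₁) :=
        LaurentPolynomial.isUnit_T _
      exact hg (hT.mul_left_eq_zero.mp hg'.symm)
    have h1 := congrArg ev hg'
    rw [hevT, map_mul, hev, LaurentPolynomial.eval₂_T_n, ← hev] at h1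
    have h2 := val_poly_trans hk hξ1 hξ g' hg'0
    rw [h1, map_mul, map_pow] at h2
    rw [Units.val_mk0, hξ1, one_pow, mul_one] at h2
    exact h2
  refine ⟨fun i => toLaurent (P₀ i) * LaurentPolynomial.T (-(N i : ℤ)), ?_, ?_⟩
  · by_contra hcon
    have h1 := hvev _ hcon
    have h2 : ∀ i, ev (toLaurent (P₀ i) * LaurentPolynomial.T (-(N i : ℤ)))
        = aeval ξ (P₀ i) / ξ ^ (N i) := by
      intro i
      rw [map_mul, hevT, hev, LaurentPolynomial.eval₂_T_neg_n]
      simp [div_eq_mul_inv]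
    have h3 : ev (MvPolynomial.aeval (fun i => toLaurent (P₀ i) *
        LaurentPolynomial.T (-(N i : ℤ))) f)
        = MvPolynomial.aeval (fun i => aeval ξ (P₀ i) / ξ ^ (N i)) f := by
      rw [MvPolynomial.aeval_def, MvPolynomial.hom_eval₂, MvPolynomial.aeval_def]
      have e1 : ev.comp (algebraMap k₁ (LaurentPolynomial k₁)) = algebraMap k₁ L := by
        ext c
        exact hevC c
      rw [e1]
      congr 1
      funext i
      exact h2 i
    have hclose := poly_close hk u (fun i => aeval ξ (P₀ i) / ξ ^ (N i)) hu1 (by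
      intro i
      have : aeval ξ (P₀ i) / ξ ^ (N i) = u i - (u i - aeval ξ (P₀ i) / ξ ^ (N i)) := by ring
      rw [this]
      exact Valuation.map_sub_le v (hu1 i) (hP₀ i).le) (fun i => hP₀ i) f
    rw [← h3, hf, zero_sub, Valuation.map_neg, h1] at hclose
    exact lt_irrefl _ hclose.2.2
  · intro i c hc
    have h1 := congrArg ev hc
    simp only at h1
    rw [hevC, map_mul, hevT, hev, LaurentPolynomial.eval₂_T_neg_n] at h1
    rw [← h1]
    have := hP₀ i
    simpa [div_eq_mul_inv] using this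

end Sieg
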