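import Mathlib
import Pool.Agent.Lib.MP_60829e_nt.SiegelVal
import Pool.Agent.Lib.MP_60829e_nt.SiegelUnif
import Pool.Agent.Lib.MP_60829e_nt.SiegelRuled

/-! Relative algebraic closures and the transcendence bookkeeping. -/

open Polynomial

namespace Sieg

section Closure

variable (k : Type*) {L : Type*} [Field k] [Field L] [Algebra k L]

/-- The algebraic closure of `k(A)` in `L`. -/
def cl (A : Set L) : Subfield L := (algebraicClosure (IntermediateField.adjoin k A) L).toSubfield

theorem mem_cl_iff {A : Set L} {x : L} :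
    x ∈ cl k A ↔ IsAlgebraic (IntermediateField.adjoin k A) x :=
  mem_algebraicClosure_iff

theorem mem_cl_iff' {A : Set L} {x : L} :
    x ∈ cl k A ↔ x ∈ (AlgebraicIndependent.matroid k L).closure A := by
  rw [mem_cl_iff, IntermediateField.isAlgebraic_adjoin_iff, AlgebraicIndependent.matroid_closure_eq]
  rfl

instance [IsAlgClosed L] (A : Set L) : IsAlgClosed (cl k A) := by
  have : IsAlgClosure (IntermediateField.adjoin k A)
      (algebraicClosure (IntermediateField.adjoin k A) L) := inferInstance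
  exact this.isAlgClosed

theorem cl_mono {A B : Set L} (h : A ⊆ B) : cl k A ≤ cl k B := by
  intro x hx
  rw [mem_cl_iff'] at hx ⊢
  exact Matroid.closure_subset_closure _ h hx

theorem subset_cl (A : Set L) : A ⊆ cl k A := by
  intro x hx
  have : x ∈ (AlgebraicIndependent.matroid k L).closure A :=
    Matroid.subset_closure _ _ (by simp) hx
  exact (mem_cl_iff' k).mpr this

theorem cl_le {A B : Set L} (h : A ⊆ cl k B) : cl k A ≤ cl k B := by
  intro x hx
  rw [mem_cl_iff'] at hx ⊢
  refine Matroid.closure_subset_closure_of_subset_closure ?_ hx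
  intro y hy
  exact (mem_cl_iff' k).mp (h hy)

theorem algebraMap_mem_cl (A : Set L) (c : k) : algebraMap k L c ∈ cl k A := by
  rw [mem_cl_iff]
  have : algebraMap k L c = algebraMap (IntermediateField.adjoin k A) L
      (algebraMap k _ c) := rfl
  rw [this]
  exact isAlgebraic_algebraMap _

theorem cl_exchange {A : Set L} {x y : L} (h : y ∉ cl k A) (h' : y ∈ cl k (insert x A)) :
    x ∈ cl k (insert y A) := by
  rw [mem_cl_iff'] at *
  exact Matroid.mem_closure_insert h h'

theorem alg_mono {M₁ M₂ : Subfield L} (h : M₁ ≤ M₂) {x : L} (hx : IsAlgebraic M₁ x) :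
    IsAlgebraic M₂ x := by
  obtain ⟨p, hp, hpx⟩ := hx
  refine ⟨p.map (Subfield.inclusion h), ?_, ?_⟩
  · rwa [Ne, Polynomial.map_eq_zero]
  · rw [aeval_def, eval₂_map]
    exact hpx

theorem cl_insert_alg {A : Set L} {s x : L} (hx : x ∈ cl k (insert s A)) :
    IsAlgebraic (IntermediateField.adjoin (cl k A) {s}).toSubfield x := by
  rw [mem_cl_iff] at hx
  have h : (IntermediateField.adjoin k (insert s A)).toSubfield ≤
      (IntermediateField.adjoin (cl k A) {s}).toSubfield := by
    intro y hy
    have h1 : IntermediateField.adjoin k (insert s A) ≤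
        { toSubalgebra :=
            { toSubsemiring := (IntermediateField.adjoin (cl k A) {s}).toSubfield.toSubring.toSubsemiring
              algebraMap_mem' := by
                intro r
                exact (IntermediateField.adjoin (cl k A) {s}).algebraMap_mem
                  ⟨algebraMap k L r, algebraMap_mem_cl k A r⟩ }
          inv_mem' := fun y hy => (IntermediateField.adjoin (cl k A) {s}).inv_mem hy } := by
      rw [IntermediateField.adjoin_le_iff]
      rintro y (rfl | hy)
      · exact IntermediateField.subset_adjoin (cl k A) {y} (Set.mem_singleton y)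
      · exact (IntermediateField.adjoin (cl k A) {s}).algebraMap_mem ⟨y, subset_cl k A hy⟩
    exact h1 hy
  exact alg_mono h hx

/-- Elements integral over `cl k A` are in `cl k A`. -/
theorem mem_cl_of_algebraic {A : Set L} {x : L} (hx : IsAlgebraic (cl k A) x) : x ∈ cl k A := by
  have h1 : IsAlgebraic (algebraicClosure (IntermediateField.adjoin k A) L) x := hx
  have h2 : IsAlgebraic (IntermediateField.adjoin k A) x := h1.restrictScalars _
  exact (mem_cl_iff k).mpr h2

/-- Existence of valuations. -/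
theorem exists_val {A : Set L} {s : L} (hs : s ∉ cl k A) :
    ∃ V : ValuationSubring L, Triv V.valuation (cl k A) ∧ 1 < V.valuation s := by
  have hR : IsIntegrallyClosedIn (cl k A).toSubring L := by
    rw [Subring.isIntegrallyClosedIn_iff]
    intro x hx
    apply mem_cl_of_algebraic
    have h1 : IsIntegral (cl k A) x := hx
    exact h1.isAlgebraic
  obtain ⟨V, hV, hsV⟩ := Subring.exists_le_valuationSubring_of_isIntegrallyClosedIn
    (R := (cl k A).toSubring) (x := s) hs
  refine ⟨V, ?_, ?_⟩
  · intro c hc hc0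
    have h1 : V.valuation c ≤ 1 := (V.valuation_le_one_iff c).mpr (hV hc)
    have h2 : V.valuation c⁻¹ ≤ 1 := (V.valuation_le_one_iff _).mpr (hV ((cl k A).inv_mem hc))
    rw [map_inv₀, inv_le_one₀ (zero_lt_iff.mpr ((Valuation.ne_zero_iff _).mpr hc0))] at h2
    exact le_antisymm h1 h2
  · rw [← not_le, V.valuation_le_one_iff]
    exact hsV

end Closure

section Comm

variable {L : Type*} [Field L] {Γ : Type*} [LinearOrderedCommGroupWithZero Γ]

/-- `x` is commensurable with `s`. -/
def Comm (v : Valuation L Γ) (s x : L) : Prop := ∃ m : ℕ, m ≠ 0 ∧ ∃ l : ℤ, v x ^ m = v s ^ l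

theorem comm_arch {v : Valuation L Γ} {s : L} (hs : 1 < v s) {x y : L} (hx : Comm v s x)
    (hy : Comm v s y) (hx1 : v x < 1) : ∃ m : ℕ, v x ^ m ≤ v y := by
  obtain ⟨a, ha, l, hl⟩ := hx
  obtain ⟨b, hb, l', hl'⟩ := hy
  have hs0 : v s ≠ 0 := (zero_lt_one.trans hs).ne'
  have hlneg : l < 0 := by
    by_contra hcon
    push Not at hcon
    have h1 : 1 ≤ v s ^ l := one_le_zpow₀ hs.le hcon
    rw [← hl] at h1
    have h2 : v x ^ a < 1 := pow_lt_one₀ zero_le hx1 ha
    exact absurd h2 (not_lt.mpr h1)
  refine ⟨a * (l'.natAbs), ?_⟩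
  -- compare `b`-th powers
  refine le_of_pow_le_pow_left₀ hb zero_le ?_
  rw [hl', ← pow_mul, mul_assoc, pow_mul, hl, ← zpow_natCast, ← zpow_mul]
  apply zpow_le_zpow_right₀ hs.le
  push_cast
  have h1 : |l'| * (b : ℤ) * l ≤ l' := by
    have h2 : |l'| * (b : ℤ) * l ≤ -|l'| := by
      have hb1 : (1 : ℤ) ≤ b := by exact_mod_cast Nat.one_le_iff_ne_zero.mpr hb
      have hl1 : l ≤ -1 := by omega
      have h3 : (b : ℤ) * l ≤ -1 := by nlinarith
      have h4 := abs_nonneg l'
      nlinarith
    exact h2.trans (neg_abs_le l')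
  calc l * (|l'| * (b : ℤ)) = |l'| * (b : ℤ) * l := by ring
    _ ≤ l' := h1

theorem comm_exists {v : Valuation L Γ} {W : Subfield L} [IsAlgClosed W] {s : L}
    (hs0 : s ≠ 0) (hsW : s ∈ W) {x : L} (hx : Comm v s x) : ∃ ρ ∈ W, ρ ≠ 0 ∧ v x = v ρ := by
  obtain ⟨a, ha, l, hl⟩ := hx
  obtain ⟨ρ, hρ⟩ := IsAlgClosed.exists_pow_nat_eq (⟨s, hsW⟩ ^ l : W) (Nat.pos_of_ne_zero ha)
  have hρ' : (ρ : L) ^ a = s ^ l := by
    have h1 := congrArg W.subtype hρ
    rw [map_pow, map_zpow₀] at h1
    exact h1
  refine ⟨ρ, ρ.2, ?_, ?_⟩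
  · intro h0
    rw [h0, zero_pow ha] at hρ'
    exact zpow_ne_zero l hs0 hρ'.symm
  · apply (pow_left_inj₀ zero_le zero_le ha).mp
    rw [hl, ← map_pow, hρ', map_zpow₀]

end Comm

end Sieg
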