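import Mathlib
import Pool.Agent.Lib.MP_60829e_nt.SiegelVal
import Pool.Agent.Lib.MP_60829e_nt.SiegelUnif
import Pool.Agent.Lib.MP_60829e_nt.SiegelRuled
import Pool.Agent.Lib.MP_60829e_nt.SiegelCl

/-! From a nonconstant generic point to a Laurent parametrisation. -/

open Polynomial

namespace Sieg

variable {k L : Type*} [Field k] [Field L] [Algebra k L]

theorem mem_cl_empty [IsAlgClosed k] (x : L) (hx : x ∈ cl k (∅ : Set L)) :
    ∃ c : k, algebraMap k L c = x := by
  rw [mem_cl_iff] at hx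
  have : Algebra.IsAlgebraic k (IntermediateField.adjoin k (∅ : Set L)) :=
    IntermediateField.isAlgebraic_adjoin (by simp)
  have h2 : IsAlgebraic k x := hx.restrictScalars k
  have h3 := IsAlgClosed.degree_eq_one_of_irreducible k (minpoly.irreducible h2.isIntegral)
  exact minpoly.mem_range_of_degree_eq_one k x h3

theorem other_mem (f : MvPolynomial (Fin 2) k) (hf0 : f ≠ 0) (u : Fin 2 → L)
    (hf : MvPolynomial.aeval u f = 0) (i₀ : Fin 2) (hi₀ : u i₀ ∉ cl k (∅ : Set L)) (i : Fin 2) :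
    u i ∈ cl k {u i₀} := by
  by_contra hcon
  have hne : u i ≠ u i₀ := by
    intro h
    exact hcon (h ▸ subset_cl k _ (Set.mem_singleton _))
  have hi : i ≠ i₀ := fun h => hne (by rw [h])
  set M := AlgebraicIndependent.matroid k L with hM
  have h1 : M.Indep {u i₀} := by
    rw [Matroid.indep_singleton, ← Matroid.not_isLoop_iff, Matroid.isLoop_iff]
    rw [mem_cl_iff'] at hi₀
    exact hi₀
  have h2 : M.Indep (insert (u i) {u i₀}) := by
    rw [← h1.notMem_closure_iff_of_notMem]
    · rw [mem_cl_iff'] at hcon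
      exact hcon
    · simpa using hne
  rw [hM, AlgebraicIndependent.matroid_indep_iff] at h2
  have hinj : Function.Injective u := by
    intro a b hab
    by_contra hne'
    fin_cases i₀ <;> fin_cases i <;> fin_cases a <;> fin_cases b <;> simp_all
  have hr : Set.range u = insert (u i) {u i₀} := by
    ext x
    simp only [Set.mem_range, Set.mem_insert_iff, Set.mem_singleton_iff]
    constructor
    · rintro ⟨j, rfl⟩
      fin_cases i₀ <;> fin_cases i <;> fin_cases j <;> simp_all
    · rintro (rfl | rfl)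
      · exact ⟨i, rfl⟩
      · exact ⟨i₀, rfl⟩
  have h3 : AlgebraicIndependent k (Subtype.val : Set.range u → L) := by
    rw [hr]
    exact h2
  rw [algebraicIndependent_subtype_range hinj] at h3
  apply hf0
  have := (algebraicIndependent_iff.mp h3) f hf
  exact this

/-- Commensurability of elements of `cl k (insert s A)` with `s`. -/
theorem comm_of_mem {Γ : Type*} [LinearOrderedCommGroupWithZero Γ] {v : Valuation L Γ} {A : Set L}
    {s : L} (hF : Triv v (cl k A)) (hs : 1 < v s) {x : L} (hx : x ∈ cl k (insert s A))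
    (hx0 : x ≠ 0) : Comm v s x := by
  obtain ⟨p, hp, hpx⟩ := cl_insert_alg k hx
  obtain ⟨m, hm1, -, l, hl⟩ := val_algebraic hF hs x hx0 p hp hpx
  exact ⟨m, by omega, l, hl⟩

/-- Residues of `cl k (insert s A)` are in `cl k A`. -/
theorem res_cl [IsAlgClosed L] {Γ : Type*} [LinearOrderedCommGroupWithZero Γ] {v : Valuation L Γ}
    {A : Set L} {s : L} (hF : Triv v (cl k A)) (hs : 1 < v s) :
    Res v (cl k A) (cl k (insert s A)) := by
  intro x hx hx1
  exact res_of_algebraic hF (res_adjoin hF hs) x (cl_insert_alg k hx) hx1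

theorem assembly [IsAlgClosed k] [IsAlgClosed L] {ι : Type*} [Fintype ι]
    (e : ι → L) (he : LinearIndependent k e) (s : L) (hs : s ∉ cl k (Set.range e))
    (z : Fin 2 → ι → L) (hz : ∀ i j, z i j ∈ cl k {s}) (hsz : ∃ i j, z i j = s)
    (u : Fin 2 → L) (hu : ∀ i, u i = ∑ j, z i j * e j) (i₀ : Fin 2) (hi₀ : u i₀ ∉ cl k {s})
    (f : MvPolynomial (Fin 2) k) (hf0 : f ≠ 0) (hf : MvPolynomial.aeval u f = 0) :
    ∃ (k₁ : Subfield L) (hk₁ : ∀ c : k, algebraMap k L c ∈ k₁) (P : Fin 2 → LaurentPolynomial k₁),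
      MvPolynomial.aeval P (MvPolynomial.map ((algebraMap k L).codRestrict k₁ hk₁) f) = 0 ∧
        ∀ c : k₁, P i₀ ≠ LaurentPolynomial.C c := by
  classical
  set g := u i₀ with hg
  have hcl0s : cl k (∅ : Set L) ≤ cl k {s} := cl_mono k (Set.empty_subset _)
  have hus : ∀ i, u i ∈ cl k (insert s (Set.range e)) := by
    intro i
    rw [hu i]
    refine Subfield.sum_mem _ fun j _ => Subfield.mul_mem _ ?_ ?_
    · exact cl_mono k (by simp) (hz i j)
    · exact subset_cl k _ (Set.mem_insert_of_mem _ (Set.mem_range_self j))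
  -- choice of `T`
  obtain ⟨T, hT, hTmax⟩ : ∃ T : Finset ι, g ∉ cl k (insert s (e '' T)) ∧
      ∀ j, j ∉ T → g ∈ cl k (insert (e j) (insert s (e '' T))) := by
    set S : Finset (Finset ι) := Finset.univ.filter (fun T => g ∉ cl k (insert s (e '' T))) with hS
    have hSne : S.Nonempty := ⟨∅, by simpa [hS] using hi₀⟩
    obtain ⟨T, hTS, hTm⟩ := S.exists_max_image Finset.card hSne
    refine ⟨T, (Finset.mem_filter.mp hTS).2, ?_⟩
    intro j hj
    by_contra hcon
    have h1 : insert j T ∈ S := by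
      rw [hS, Finset.mem_filter]
      refine ⟨Finset.mem_univ _, ?_⟩
      rw [Finset.coe_insert, Set.image_insert_eq, Set.insert_comm]
      exact hcon
    have h2 := hTm _ h1
    rw [Finset.card_insert_of_notMem hj] at h2
    omega
  set A := e '' (T : Set ι) with hA
  have hAr : A ⊆ Set.range e := Set.image_subset_range _ _
  have hsA : s ∉ cl k A := fun h => hs (cl_mono k hAr h)
  have hgA : g ∉ cl k A := fun h => hT (cl_mono k (Set.subset_insert _ _) h)
  have hg0 : g ∉ cl k (∅ : Set L) := fun h => hi₀ (hcl0s h)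
  -- the field `F`
  have hsF : s ∉ cl k (insert g A) := fun h => hT (cl_exchange k hsA h)
  have huF : ∀ i, u i ∈ cl k (insert g A) := by
    intro i
    exact cl_mono k (Set.singleton_subset_iff.mpr (Set.mem_insert _ _))
      (other_mem f hf0 u hf i₀ hg0 i)
  obtain ⟨V, hVF, hVs⟩ := exists_val k hsF
  set v := V.valuation with hv
  have hs0 : s ≠ 0 := by
    rintro rfl
    rw [map_zero] at hVs
    exact absurd hVs (not_lt.mpr zero_le)
  set k₁ := cl k A with hk₁
  set W := cl k (insert s A) with hW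
  set F := cl k (insert g A) with hFdef
  have hk₁F : k₁ ≤ F := cl_mono k (Set.subset_insert _ _)
  have hk₁W : k₁ ≤ W := cl_mono k (Set.subset_insert _ _)
  have hk₁v : Triv v k₁ := hVF.mono hk₁F
  have hResW : Res v k₁ W := res_cl hk₁v hVs
  have h0F : cl k (∅ : Set L) ≤ F := cl_mono k (Set.empty_subset _)
  have hRes0 : Res v (cl k (∅ : Set L)) (cl k {s}) := by
    have := res_cl (hVF.mono h0F) hVs
    simpa using this
  have hsW : s ∈ W := subset_cl k _ (Set.mem_insert _ _)
  -- the field `K`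
  set K : Subfield L := Subfield.closure ((k₁ : Set L) ∪ Set.range e) with hK
  have hk₁K : k₁ ≤ K := fun x hx => Subfield.subset_closure (Or.inl hx)
  have heK : ∀ j, e j ∈ K := fun j => Subfield.subset_closure (Or.inr (Set.mem_range_self j))
  have hKr : K ≤ cl k (Set.range e) := by
    rw [hK, Subfield.closure_le]
    exact Set.union_subset (cl_mono k hAr) (subset_cl k _)
  have heg : ∀ j, e j ∈ cl k (insert g (insert s A)) := by
    intro j
    by_cases hj : j ∈ T
    · exact subset_cl k _ (Set.mem_insert_of_mem _ (Set.mem_insert_of_mem _ ⟨j, hj, rfl⟩))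
    · exact cl_exchange k hT (hTmax j hj)
  have hKg : K ≤ cl k (insert g (insert s A)) := by
    rw [hK, Subfield.closure_le]
    refine Set.union_subset ?_ ?_
    · exact cl_mono k ((Set.subset_insert _ _).trans (Set.subset_insert _ _))
    · rintro _ ⟨j, rfl⟩
      exact heg j
  -- elements of `K` outside `k₁`
  have hout : ∀ x ∈ K, x ∉ k₁ → x ∉ W ∧ K ≤ cl k (insert x A) ∧
      g ∈ cl k (insert x (insert s A)) := by
    intro x hx hxk
    have h1 : x ∉ W := by
      intro hxW
      exact hs (cl_le k (B := Set.range e) (A := insert x A) (by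
        rintro y (rfl | hy)
        · exact hKr hx
        · exact subset_cl k _ (hAr hy)) (cl_exchange k hxk hxW))
    have h2 : g ∈ cl k (insert x (insert s A)) := cl_exchange k h1 (hKg hx)
    refine ⟨h1, ?_, h2⟩
    intro y hy
    by_contra hyn
    have h3 : y ∈ cl k (insert s (insert x A)) := by
      rw [Set.insert_comm]
      refine cl_le k ?_ (hKg hy)
      rintro w (rfl | hw)
      · exact h2
      · exact subset_cl k _ (Set.mem_insert_of_mem _ hw)
    exact hs (cl_le k (B := Set.range e) (A := insert y (insert x A)) (by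
        rintro w (rfl | rfl | hw)
        · exact hKr hy
        · exact hKr hx
        · exact subset_cl k _ (hAr hw)) (cl_exchange k hyn h3))
  -- `v` is nontrivial on `K`
  obtain ⟨x, hxK, hx1⟩ : ∃ x ∈ K, 1 < v x := by
    by_contra hcon
    push Not at hcon
    have hKv : Triv v K := by
      intro c hc hc0
      have h1 := hcon c hc
      have h2 := hcon c⁻¹ (K.inv_mem hc)
      rw [map_inv₀, inv_le_one₀ (zero_lt_iff.mpr ((Valuation.ne_zero_iff _).mpr hc0))] at h2
      exact le_antisymm h1 h2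
    obtain ⟨i, j, hij⟩ := hsz
    have h1 := gauss_le hRes0 Finset.univ e (fun j _ => hcon _ (heK j)) (by
      intro c hc ⟨j, _, hj⟩
      have hex : ∀ j, ∃ a : k, algebraMap k L a = c j :=
        fun j => mem_cl_empty _ (hc j (Finset.mem_univ j))
      choose a ha using hex
      have h2 : ∑ j, c j * e j = ∑ j, a j • e j := by
        apply Finset.sum_congr rfl
        intro j _
        rw [Algebra.smul_def, ha]
      rw [h2]
      apply hKv
      · refine Subfield.sum_mem _ fun j _ => ?_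
        rw [Algebra.smul_def]
        exact K.mul_mem (hk₁K (algebraMap_mem_cl k _ _)) (heK j)
      · intro h0
        have h3 := (Fintype.linearIndependent_iff.mp he) a h0 j
        rw [← ha, h3, map_zero] at hj
        exact hj rfl) (z i) (fun j _ => hz i j) j (Finset.mem_univ j)
    rw [hij, ← hu i] at h1
    have h2 : v (u i) ≤ 1 := hVF.le_one (huF i)
    exact absurd hVs (not_lt.mpr (h1.trans h2))
  have hxk₁ : x ∉ k₁ := fun h => absurd hx1 (not_lt.mpr (hk₁v.le_one h))
  obtain ⟨-, hKx, -⟩ := hout x hxK hxk₁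
  have hx0 : x ≠ 0 := by
    rintro rfl
    exact hxk₁ k₁.zero_mem
  -- bounded exponents
  obtain ⟨n, hn⟩ : ∃ n : ℕ, ∀ y ∈ K, y ≠ 0 → ∃ m : ℕ, 1 ≤ m ∧ m ≤ n ∧ ∃ l : ℤ, v y ^ m = v x ^ l := by
    set M := IntermediateField.adjoin k₁ {x} with hM
    have halg : ∀ y ∈ K, IsIntegral M y := by
      intro y hy
      exact (cl_insert_alg k (hKx hy) : IsAlgebraic M y).isIntegral
    set K₂ := IntermediateField.adjoin M (Set.range e) with hK₂
    have hfd : FiniteDimensional M K₂ := by
      apply IntermediateField.finiteDimensional_adjoin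
      rintro _ ⟨j, rfl⟩
      exact halg _ (heK j)
    have hKK₂ : K ≤ K₂.toSubfield := by
      rw [hK, Subfield.closure_le]
      refine Set.union_subset ?_ ?_
      · intro c hc
        have h1 : c ∈ M := M.algebraMap_mem ⟨c, hc⟩
        exact K₂.algebraMap_mem ⟨c, h1⟩
      · exact IntermediateField.subset_adjoin _ _
    refine ⟨Module.finrank M K₂, ?_⟩
    intro y hy hy0
    have hyK₂ : y ∈ K₂ := hKK₂ hy
    have hint := halg y hy
    obtain ⟨m, hm1, hm2, l, hl⟩ := val_algebraic hk₁v hx1 y hy0 (minpoly M y)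
      (minpoly.ne_zero hint) (minpoly.aeval M y)
    refine ⟨m, hm1, hm2.trans ?_, l, hl⟩
    have h2 : minpoly M y = minpoly M (⟨y, hyK₂⟩ : K₂) :=
      (minpoly.algebraMap_eq (B' := L) (algebraMap K₂ L).injective (⟨y, hyK₂⟩ : K₂))
    rw [h2]
    exact minpoly.natDegree_le _
  obtain ⟨t, ht⟩ : ∃ t, Unif v K t := by
    refine exists_unif hxK hx1 n.factorial (Nat.factorial_ne_zero n) ?_
    intro y hy hy0
    obtain ⟨m, hm1, hm2, l, hl⟩ := hn y hy hy0
    obtain ⟨d, hd⟩ := Nat.dvd_factorial hm1 hm2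
    refine ⟨l * d, ?_⟩
    rw [hd, pow_mul, hl, zpow_mul, zpow_natCast]
  have hResK : Res v k₁ K := by
    intro y hy hy1
    exact res_of_algebraic hk₁v (res_adjoin hk₁v hx1) y (cl_insert_alg k (hKx hy)) hy1
  have htk₁ : t ∉ k₁ := by
    intro h
    exact absurd (hk₁v t h ht.ne_zero) ht.lt_one.ne
  obtain ⟨htW, -, hgt⟩ := hout t ht.mem htk₁
  -- commensurability
  have hcomm : ∀ y ∈ cl k (insert g (insert s A)), y ≠ 0 → Comm v s y := by
    intro y hy hy0
    rw [Set.insert_comm] at hy
    exact comm_of_mem hVF hVs hy hy0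
  have hWg : W ≤ cl k (insert g (insert s A)) := cl_mono k (Set.subset_insert _ _)
  have htcomm : Comm v s t := hcomm t (hKg ht.mem) ht.ne_zero
  have hval : ∀ a ∈ W, t ≠ a → ∃ ρ ∈ W, ρ ≠ 0 ∧ v (t - a) = v ρ := by
    intro a ha hta
    exact comm_exists hs0 hsW (hcomm _ (Subfield.sub_mem _ (hKg ht.mem) (hWg ha))
      (sub_ne_zero.mpr hta))
  have hvt0 : v t ≠ 0 := (Valuation.ne_zero_iff v).mpr ht.ne_zero
  have harch : ∀ ρ ∈ W, ∃ m : ℕ, v ρ ≤ (v t)⁻¹ ^ m := by
    intro ρ hρ
    by_cases hρ0 : ρ = 0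
    · exact ⟨0, by simp [hρ0]⟩
    · obtain ⟨m, hm⟩ := comm_arch hVs htcomm (hcomm ρ⁻¹ (hWg (W.inv_mem hρ)) (inv_ne_zero hρ0))
        ht.lt_one
      refine ⟨m, ?_⟩
      rw [map_inv₀] at hm
      rw [inv_pow]
      exact (le_inv_comm₀ (zero_lt_iff.mpr (pow_ne_zero _ hvt0))
        (zero_lt_iff.mpr ((Valuation.ne_zero_iff v).mpr hρ0))).mp hm
  have harch' : ∀ ρ ∈ W, v ρ < 1 → ∃ m : ℕ, v ρ ^ m ≤ v t := by
    intro ρ hρ hρ1
    by_cases hρ0 : ρ = 0
    · exact ⟨1, by simp [hρ0]⟩
    · exact comm_arch hVs (hcomm ρ (hWg hρ) hρ0) htcomm hρ1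
  -- a residually transcendental element of `W(t)`
  have hgF : g ∈ F := subset_cl k _ (Set.mem_insert _ _)
  obtain ⟨r, hr, hr1, hrc⟩ : ∃ r ∈ IntermediateField.adjoin W {t}, v r ≤ 1 ∧
      ∀ c ∈ k₁, ¬ v (r - c) < 1 := by
    by_contra hcon
    push Not at hcon
    have hRes : Res v k₁ (IntermediateField.adjoin W {t}).toSubfield := fun y hy hy1 =>
      hcon y hy hy1
    obtain ⟨c, hc, hc1⟩ := res_of_algebraic hk₁v hRes g (cl_insert_alg k hgt) (hVF.le_one hgF)
    have : g - c = 0 := hVF.eq_zero_of_lt (F.sub_mem hgF (hk₁F hc)) hc1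
    rw [sub_eq_zero] at this
    exact hgA (this ▸ hc)
  obtain ⟨p, q, rfl⟩ := (IntermediateField.mem_adjoin_simple_iff W r).mp hr
  have hk₁' : ∀ c : k, algebraMap k L c ∈ k₁ := algebraMap_mem_cl k A
  obtain ⟨P, hP, hPc⟩ := laurent_param hk₁v hk₁W hk₁K hResW hResK ht hval harch harch' p q hr1 hrc
    u (by
      intro i
      rw [hu i]
      refine Subring.sum_mem _ fun j _ => Subring.mul_mem _ ?_ ?_
      · exact Subring.subset_closure (Or.inl (cl_mono k (by simp) (hz i j)))
      · exact Subring.subset_closure (Or.inr (heK j)))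
    (fun i => hVF.le_one (huF i)) (MvPolynomial.map ((algebraMap k L).codRestrict k₁ hk₁') f) (by
      rw [MvPolynomial.aeval_def, MvPolynomial.eval₂_map]
      rw [MvPolynomial.aeval_def] at hf
      exact hf)
  refine ⟨k₁, hk₁', P, hP, ?_⟩
  intro c hc
  have h1 := hPc i₀ c hc
  have h2 : u i₀ - (c : L) = 0 := hVF.eq_zero_of_lt (F.sub_mem hgF (hk₁F c.2)) h1
  rw [sub_eq_zero] at h2
  exact hgA (by rw [hg, h2]; exact c.2)

end Sieg
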