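import Mathlib

/-! Descent of Laurent parametrisations to an algebraically closed subfield. -/

namespace Sieg

theorem exists_algHom (k R : Type*) [Field k] [IsAlgClosed k] [CommRing R] [Nontrivial R]
    [Algebra k R] [Algebra.FiniteType k R] : Nonempty (R →ₐ[k] k) := by
  obtain ⟨m, hm⟩ := Ideal.exists_maximal R
  let := Ideal.Quotient.field m
  have h1 : Algebra.FiniteType k (R ⧸ m) := inferInstance
  have h2 := finite_of_finite_type_of_isJacobsonRing k (R ⧸ m)
  have h3 : Algebra.IsIntegral k (R ⧸ m) := inferInstance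
  have h4 := IsAlgClosed.algebraMap_bijective_of_isIntegral (k := k) (K := R ⧸ m)
  exact ⟨((AlgEquiv.ofBijective (Algebra.ofId k (R ⧸ m)) h4).symm : (R ⧸ m) →ₐ[k] k).comp
    (Ideal.Quotient.mkₐ k m)⟩

/-- The map on Laurent polynomials induced by an algebra homomorphism. -/
noncomputable def lmap {k A B : Type*} [CommSemiring k] [CommSemiring A] [CommSemiring B]
    [Algebra k A] [Algebra k B] (φ : A →ₐ[k] B) : LaurentPolynomial A →ₐ[k] LaurentPolynomial B :=
  { AddMonoidAlgebra.mapRingHom ℤ (φ : A →+* B) with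
    commutes' := by
      intro r
      ext n
      simp only [RingHom.toMonoidHom_eq_coe, OneHom.toFun_eq_coe, MonoidHom.toOneHom_coe,
        MonoidHom.coe_coe, AddMonoidAlgebra.coeff_mapRingHom, LaurentPolynomial.algebraMap_apply,
        LaurentPolynomial.C_apply]
      split_ifs
      · exact φ.commutes r
      · exact map_zero _ }

theorem coeff_lmap {k A B : Type*} [CommSemiring k] [CommSemiring A] [CommSemiring B]
    [Algebra k A] [Algebra k B] (φ : A →ₐ[k] B) (x : LaurentPolynomial A) (n : ℤ) :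
    (lmap φ x).coeff n = φ (x.coeff n) :=
  AddMonoidAlgebra.coeff_mapRingHom (φ : A →+* B) x n

theorem descent {k : Type*} [Field k] [IsAlgClosed k] {k₁ : Type*} [Field k₁] [Algebra k k₁]
    {σ : Type*} [Finite σ]
    (f : MvPolynomial σ k) (P : σ → LaurentPolynomial k₁) (hP : MvPolynomial.aeval P f = 0)
    (i₀ : σ) (hc : ∀ c, P i₀ ≠ LaurentPolynomial.C c) :
    ∃ Q : σ → LaurentPolynomial k, MvPolynomial.aeval Q f = 0 ∧
      ∀ c, Q i₀ ≠ LaurentPolynomial.C c := by
  classical
  -- a nonzero coefficient with nonzero exponent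
  obtain ⟨n₀, hn₀, hcoef⟩ : ∃ n₀ : ℤ, n₀ ≠ 0 ∧ (P i₀).coeff n₀ ≠ 0 := by
    by_contra hcon
    push Not at hcon
    apply hc ((P i₀).coeff 0)
    ext n
    rw [LaurentPolynomial.C_apply]
    split_ifs with h
    · rw [h]
    · exact hcon n h
  set S : Set k₁ := (⋃ i, ((P i).coeff.support.image (P i).coeff : Set k₁)) ∪
    {((P i₀).coeff n₀)⁻¹} with hS
  have hSfin : S.Finite := by
    refine Set.Finite.union (Set.finite_iUnion fun i => Finset.finite_toSet _) (Set.finite_singleton _)
  set R := Algebra.adjoin k S with hR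
  have hft : Algebra.FiniteType k R := by
    rw [← Subalgebra.fg_iff_finiteType]
    exact ⟨hSfin.toFinset, by rw [hR]; congr 1; simp⟩
  obtain ⟨χ⟩ := exists_algHom k R
  -- lift the coefficients
  have hmem : ∀ i n, (P i).coeff n ∈ R := by
    intro i n
    by_cases h0 : (P i).coeff n = 0
    · rw [h0]; exact R.zero_mem
    · apply Algebra.subset_adjoin
      left
      rw [Set.mem_iUnion]
      refine ⟨i, ?_⟩
      rw [Finset.mem_coe, Finset.mem_image]
      exact ⟨n, Finsupp.mem_support_iff.mpr h0, rfl⟩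
  have hex : ∀ i, ∃ P₂ : LaurentPolynomial R, lmap R.val P₂ = P i := by
    intro i
    have h1 : P i ∈ Set.range (AddMonoidAlgebra.map (M := ℤ) ((R.val : R →+* k₁) : R →+ k₁)) := by
      rw [AddMonoidAlgebra.range_map]
      intro n
      exact ⟨⟨(P i).coeff n, hmem i n⟩, rfl⟩
    obtain ⟨P₂, h2⟩ := h1
    exact ⟨P₂, h2⟩
  choose P₂ hP₂ using hex
  have hinj : Function.Injective (lmap R.val) := by
    have : Function.Injective (AddMonoidAlgebra.map (M := ℤ) ((R.val : R →+* k₁) : R →+ k₁)) :=
      AddMonoidAlgebra.map_injective _ Subtype.val_injective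
    exact this
  have h1 : MvPolynomial.aeval P₂ f = 0 := by
    apply hinj
    rw [map_zero, MvPolynomial.comp_aeval_apply, ← hP]
    congr 2
    funext i
    exact hP₂ i
  refine ⟨fun i => lmap χ (P₂ i), ?_, ?_⟩
  · have := congrArg (lmap χ) h1
    rw [map_zero, MvPolynomial.comp_aeval_apply] at this
    exact this
  · intro c hcc
    have h2 := congrArg (fun x : LaurentPolynomial k => x.coeff n₀) hcc
    simp only at h2
    rw [coeff_lmap, LaurentPolynomial.C_apply, if_neg hn₀] at h2
    -- the coefficient is a unit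
    have hinv : ((P i₀).coeff n₀)⁻¹ ∈ R := Algebra.subset_adjoin (Or.inr rfl)
    have h3 : (P₂ i₀).coeff n₀ * ⟨_, hinv⟩ = (1 : R) := by
      apply Subtype.ext
      have h4 : (((P₂ i₀).coeff n₀ : R) : k₁) = (P i₀).coeff n₀ := by
        rw [← hP₂ i₀, coeff_lmap]
        rfl
      simp only [MulMemClass.coe_mul, OneMemClass.coe_one]
      rw [h4, mul_inv_cancel₀ hcoef]
    have h4 := congrArg χ h3
    rw [map_mul, h2, zero_mul, map_one] at h4
    exact zero_ne_one h4

end Sieg
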