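import Mathlib
import Pool.Agent.Lib.MP_60829e_nt.SiegelCl

/-! Generic points of infinite algebraic sets. -/

open Polynomial

namespace Sieg

theorem exists_algHom_to (k R L : Type*) [Field k] [CommRing R] [Nontrivial R]
    [Algebra k R] [Algebra.FiniteType k R] [Field L] [IsAlgClosed L] [Algebra k L] :
    ∃ φ : R →ₐ[k] L, ∀ r, IsAlgebraic k (φ r) := by
  obtain ⟨m, hm⟩ := Ideal.exists_maximal R
  let := Ideal.Quotient.field m
  have h1 : Algebra.FiniteType k (R ⧸ m) := inferInstance
  have h2 := finite_of_finite_type_of_isJacobsonRing k (R ⧸ m)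
  have h3 : Algebra.IsAlgebraic k (R ⧸ m) := inferInstance
  refine ⟨(IsAlgClosed.lift : (R ⧸ m) →ₐ[k] L).comp (Ideal.Quotient.mkₐ k m), fun r => ?_⟩
  have h4 : IsAlgebraic k (Ideal.Quotient.mkₐ k m r) := h3.isAlgebraic _
  exact h4.algHom (IsAlgClosed.lift : (R ⧸ m) →ₐ[k] L)

theorem alg_of_hom {F M L : Type*} [Field F] [Field M] [Field L] [Algebra F L] [Algebra M L]
    (θ : F →+* M) (h : (algebraMap M L).comp θ = algebraMap F L) {x : L} (hx : IsAlgebraic F x) :
    IsAlgebraic M x := by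
  obtain ⟨p, hp, hpx⟩ := hx
  refine ⟨p.map θ, ?_, ?_⟩
  · rwa [Ne, Polynomial.map_eq_zero]
  · rw [aeval_def, eval₂_map, h]
    exact hpx

theorem exists_point_fraction {k : Type*} [Field k] {τ : Type*} [Finite τ]
    (I₁ : Ideal (MvPolynomial τ k[X])) (h : ∀ g : k[X], MvPolynomial.C g ∈ I₁ → g = 0)
    {L : Type*} [Field L] [IsAlgClosed L] [Algebra k L] (s : L) (hs : Transcendental k s) :
    ∃ z : τ → L, (∀ x, z x ∈ cl k {s}) ∧
      ∀ p ∈ I₁, MvPolynomial.eval₂ (aeval s : k[X] →ₐ[k] L).toRingHom z p = 0 := by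
  classical
  set θ := RatFunc.algEquivOfTranscendental s hs with hθ
  let : Algebra (RatFunc k) L :=
    ((IntermediateField.adjoin k {s}).val.comp θ.toAlgHom).toRingHom.toAlgebra
  have hcomp : (algebraMap (RatFunc k) L).comp (algebraMap k[X] (RatFunc k)) =
      (aeval s : k[X] →ₐ[k] L).toRingHom := by
    apply RingHom.ext
    intro g
    change ((θ (algebraMap k[X] (RatFunc k) g) : IntermediateField.adjoin k {s}) : L) = aeval s g
    rw [RatFunc.algEquivOfTranscendental_algebraMap]
    have := Polynomial.aeval_algebraMap_apply L (IntermediateField.AdjoinSimple.gen k s) g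
    rw [IntermediateField.AdjoinSimple.algebraMap_gen] at this
    exact this.symm
  let := MvPolynomial.algebraMvPolynomial (R := k[X]) (S := RatFunc k) (σ := τ)
  set I : Ideal (MvPolynomial τ (RatFunc k)) := I₁.map (algebraMap _ _) with hI
  have hIne : I ≠ ⊤ := by
    intro htop
    have h1 : (1 : MvPolynomial τ (RatFunc k)) ∈ I := by rw [htop]; trivial
    rw [hI, IsLocalization.mem_map_algebraMap_iff
      (M := (nonZeroDivisors k[X]).map (MvPolynomial.C (σ := τ)))] at h1
    obtain ⟨⟨⟨a, ha⟩, ⟨b, hb⟩⟩, h2⟩ := h1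
    obtain ⟨g, hg, rfl⟩ := hb
    simp only [one_mul] at h2
    have h3 : MvPolynomial.C g = a := by
      have hinj : Function.Injective (algebraMap (MvPolynomial τ k[X]) (MvPolynomial τ (RatFunc k))) :=
        MvPolynomial.map_injective _ (IsFractionRing.injective k[X] (RatFunc k))
      exact hinj h2
    have h4 := h g (h3 ▸ ha)
    exact nonZeroDivisors.ne_zero hg h4
  have : Nontrivial (MvPolynomial τ (RatFunc k) ⧸ I) := Ideal.Quotient.nontrivial_iff.mpr hIne
  obtain ⟨ψ₀, hψ₀⟩ := exists_algHom_to (RatFunc k) (MvPolynomial τ (RatFunc k) ⧸ I) L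
  set ψ : MvPolynomial τ (RatFunc k) →ₐ[RatFunc k] L := ψ₀.comp (Ideal.Quotient.mkₐ _ I) with hψ
  refine ⟨fun x => ψ (MvPolynomial.X x), ?_, ?_⟩
  · intro x
    rw [mem_cl_iff]
    exact alg_of_hom (F := RatFunc k) (M := IntermediateField.adjoin k {s}) θ.toAlgHom.toRingHom
      rfl (hψ₀ _)
  · intro p hp
    have h1 : ψ (algebraMap _ _ p) = 0 := by
      rw [hψ, AlgHom.comp_apply]
      have : (Ideal.Quotient.mkₐ (RatFunc k) I) (algebraMap _ _ p) = 0 :=
        Ideal.Quotient.eq_zero_iff_mem.mpr (Ideal.mem_map_of_mem _ hp)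
      rw [this, map_zero]
    have h2 : ψ = MvPolynomial.aeval (fun x => ψ (MvPolynomial.X x)) := by
      ext x
      simp
    rw [h2] at h1
    have h3 : (algebraMap (MvPolynomial τ k[X]) (MvPolynomial τ (RatFunc k))) p
        = MvPolynomial.map (algebraMap k[X] (RatFunc k)) p := rfl
    rw [h3, MvPolynomial.aeval_def, MvPolynomial.eval₂_map, hcomp] at h1
    exact h1

/-- Coefficientwise application of a linear functional. -/
noncomputable def lin {k K₀ : Type*} [Field k] [Field K₀] [Algebra k K₀] {τ : Type*}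
    (μ : K₀ →ₗ[k] k) (G : MvPolynomial τ K₀) : MvPolynomial τ k :=
  ∑ m ∈ G.support, MvPolynomial.monomial m (μ (G.coeff m))

theorem eval_lin {k K₀ : Type*} [Field k] [Field K₀] [Algebra k K₀] {τ : Type*}
    (μ : K₀ →ₗ[k] k) (G : MvPolynomial τ K₀) (a : τ → k) :
    MvPolynomial.eval a (lin μ G) = μ (MvPolynomial.eval (fun x => algebraMap k K₀ (a x)) G) := by
  rw [lin, map_sum, MvPolynomial.eval_eq, map_sum]
  apply Finset.sum_congr rfl
  intro m _
  rw [MvPolynomial.eval_monomial, Finsupp.prod]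
  have : (G.coeff m * ∏ i ∈ m.support, (algebraMap k K₀ (a i)) ^ m i)
      = (∏ i ∈ m.support, (a i) ^ m i) • G.coeff m := by
    rw [Algebra.smul_def, map_prod, mul_comm]
    simp
  rw [this, map_smul, smul_eq_mul, mul_comm]

theorem eval_of_lin {k K₀ L : Type*} [Field k] [Field K₀] [Algebra k K₀] [Field L] [Algebra k L]
    [Algebra K₀ L] [IsScalarTower k K₀ L] {τ : Type*} (G : MvPolynomial τ K₀) (z : τ → L)
    (h : ∀ μ : K₀ →ₗ[k] k, MvPolynomial.aeval z (lin μ G) = 0) : MvPolynomial.aeval z G = 0 := by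
  classical
  set β := Module.Basis.ofVectorSpace k K₀ with hβ
  set J := G.support.biUnion (fun m => (β.repr (G.coeff m)).support) with hJ
  have h1 : ∀ m ∈ G.support, algebraMap K₀ L (G.coeff m) =
      ∑ j ∈ J, algebraMap k L (β.coord j (G.coeff m)) * algebraMap K₀ L (β j) := by
    intro m hm
    have h2 : G.coeff m = ∑ j ∈ J, β.coord j (G.coeff m) • β j := by
      conv_lhs => rw [← β.linearCombination_repr (G.coeff m), Finsupp.linearCombination_apply,
        Finsupp.sum]
      apply Finset.sum_subset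
      · intro j hj
        rw [hJ, Finset.mem_biUnion]
        exact ⟨m, hm, hj⟩
      · intro j _ hj
        rw [Finsupp.notMem_support_iff] at hj
        rw [hj, zero_smul]
    conv_lhs => rw [h2]
    rw [map_sum]
    apply Finset.sum_congr rfl
    intro j _
    rw [Algebra.smul_def, map_mul, ← IsScalarTower.algebraMap_apply]
  have h3 : MvPolynomial.aeval z G = ∑ j ∈ J, algebraMap K₀ L (β j) *
      MvPolynomial.aeval z (lin (β.coord j) G) := by
    rw [MvPolynomial.aeval_def, MvPolynomial.eval₂_eq]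
    calc _ = ∑ m ∈ G.support, ∑ j ∈ J, algebraMap K₀ L (β j) *
          (algebraMap k L (β.coord j (G.coeff m)) * ∏ i ∈ m.support, z i ^ m i) := by
          apply Finset.sum_congr rfl
          intro m hm
          rw [h1 m hm, Finset.sum_mul]
          apply Finset.sum_congr rfl
          intro j _
          ring
      _ = _ := by
          rw [Finset.sum_comm]
          apply Finset.sum_congr rfl
          intro j _
          rw [lin, map_sum, Finset.mul_sum]
          apply Finset.sum_congr rfl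
          intro m _
          rw [MvPolynomial.aeval_monomial, Finsupp.prod]
  rw [h3]
  apply Finset.sum_eq_zero
  intro j _
  rw [h, mul_zero]

theorem generic_point {k K₀ L : Type*} [Field k] [Field K₀] [Algebra k K₀] [Field L]
    [IsAlgClosed L] [Algebra k L] [Algebra K₀ L] [IsScalarTower k K₀ L] {τ : Type*} [Finite τ]
    (G : MvPolynomial τ K₀) (S : Set (τ → k)) (hS : S.Infinite)
    (hSG : ∀ a ∈ S, MvPolynomial.eval (fun x => algebraMap k K₀ (a x)) G = 0)
    (B : Set τ) (hB : ∀ a ∈ S, ∃ x ∈ B, a x ≠ 0) (s : L) (hs : Transcendental k s) :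
    ∃ z : τ → L, (∀ x, z x ∈ cl k {s}) ∧ (∃ x, z x = s) ∧ (∃ x ∈ B, z x ≠ 0) ∧
      MvPolynomial.aeval z G = 0 := by
  classical
  have := Fintype.ofFinite τ
  -- pigeonhole
  obtain ⟨x₀, hx₀, hinf⟩ : ∃ x₀ ∈ B, {a ∈ S | a x₀ ≠ 0}.Infinite := by
    by_contra hcon
    push Not at hcon
    apply hS
    have h1 : S ⊆ ⋃ x ∈ B, {a ∈ S | a x ≠ 0} := by
      intro a ha
      obtain ⟨x, hx, hax⟩ := hB a ha
      exact Set.mem_biUnion hx ⟨ha, hax⟩
    refine Set.Finite.subset (Set.Finite.biUnion (Set.toFinite B) ?_) h1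
    intro x hx
    exact hcon x hx
  set S' := {a ∈ S | a x₀ ≠ 0} with hS'
  obtain ⟨x₁, hx₁⟩ : ∃ x₁, ((fun a : τ → k => a x₁) '' S').Infinite := by
    by_contra hcon
    push Not at hcon
    apply hinf
    have h1 : S' ⊆ Set.univ.pi (fun x => (fun a : τ → k => a x) '' S') := by
      intro a ha x _
      exact ⟨a, ha, rfl⟩
    exact Set.Finite.subset (Set.Finite.pi fun x => hcon x) h1
  -- the ideal
  set I₁ : Ideal (MvPolynomial (Option τ) k[X]) := Ideal.span
    (Set.range (fun μ : K₀ →ₗ[k] k => MvPolynomial.map C (MvPolynomial.rename some (lin μ G))) ∪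
      {MvPolynomial.X (some x₁) - MvPolynomial.C X,
        MvPolynomial.X none * MvPolynomial.X (some x₀) - 1}) with hI₁
  have hkey : ∀ g : k[X], MvPolynomial.C g ∈ I₁ → g = 0 := by
    intro g hg
    apply eq_zero_of_infinite_isRoot
    refine hx₁.mono ?_
    rintro _ ⟨a, ha, rfl⟩
    set ev : MvPolynomial (Option τ) k[X] →+* k :=
      MvPolynomial.eval₂Hom (evalRingHom (a x₁)) (fun o => o.elim (a x₀)⁻¹ a) with hev
    have hle : I₁ ≤ RingHom.ker ev := by
      rw [hI₁, Ideal.span_le]
      rintro p (⟨μ, rfl⟩ | hp)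
      · simp only [SetLike.mem_coe, RingHom.mem_ker]
        rw [hev, MvPolynomial.coe_eval₂Hom, MvPolynomial.eval₂_map, MvPolynomial.eval₂_rename]
        have e1 : (evalRingHom (a x₁)).comp (C : k →+* k[X]) = RingHom.id k := by
          ext; simp
        have e2 : (fun o : Option τ => o.elim (a x₀)⁻¹ a) ∘ some = a := by
          funext x; rfl
        rw [e1, e2]
        have e3 := eval_lin μ G a
        rw [hSG a ha.1, map_zero] at e3
        exact e3
      · simp only [Set.mem_insert_iff, Set.mem_singleton_iff] at hp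
        rcases hp with rfl | rfl
        · simp [hev]
        · simp [hev, inv_mul_cancel₀ ha.2]
    have h1 : ev (MvPolynomial.C g) = 0 := hle hg
    rw [hev, MvPolynomial.coe_eval₂Hom, MvPolynomial.eval₂_C] at h1
    exact h1
  obtain ⟨z, hz, hz0⟩ := exists_point_fraction I₁ hkey s hs
  refine ⟨fun x => z (some x), fun x => hz _, ⟨x₁, ?_⟩, ⟨x₀, hx₀, ?_⟩, ?_⟩
  · have h1 := hz0 _ (Ideal.subset_span (Or.inr (Set.mem_insert _ _)) : MvPolynomial.X (some x₁) - MvPolynomial.C X ∈ I₁)
    rw [MvPolynomial.eval₂_sub, MvPolynomial.eval₂_X, MvPolynomial.eval₂_C] at h1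
    have h2 : (aeval s : k[X] →ₐ[k] L).toRingHom X = s := by
      simp
    rw [h2] at h1
    exact sub_eq_zero.mp h1
  · intro h0
    replace h0 : z (some x₀) = 0 := h0
    have h1 := hz0 _ (Ideal.subset_span (Or.inr (Set.mem_insert_of_mem _ rfl)) :
      MvPolynomial.X none * MvPolynomial.X (some x₀) - 1 ∈ I₁)
    rw [MvPolynomial.eval₂_sub, MvPolynomial.eval₂_mul, MvPolynomial.eval₂_X,
      MvPolynomial.eval₂_X, MvPolynomial.eval₂_one, h0, mul_zero, zero_sub, neg_eq_zero] at h1
    exact one_ne_zero h1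
  · apply eval_of_lin (k := k)
    intro μ
    have h1 := hz0 _ (Ideal.subset_span (Or.inl ⟨μ, rfl⟩) :
      MvPolynomial.map C (MvPolynomial.rename some (lin μ G)) ∈ I₁)
    rw [MvPolynomial.eval₂_map, MvPolynomial.eval₂_rename] at h1
    have e1 : ((aeval s : k[X] →ₐ[k] L).toRingHom).comp (C : k →+* k[X]) = algebraMap k L := by
      ext; simp
    rw [e1] at h1
    exact h1

end Sieg
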