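import Mathlib
import Pool.Agent.Lib.MP_60829e_nt.SiegelVal
import Pool.Agent.Lib.MP_60829e_nt.SiegelCl
import Pool.Agent.Lib.MP_60829e_nt.SiegelAsm
import Pool.Agent.Lib.MP_60829e_nt.SiegelDescent
import Pool.Agent.Lib.MP_60829e_nt.SiegelPoint

/-! The function-field Siegel theorem. -/

open Polynomial

namespace Sieg

universe u

/-- Linear disjointness via a valuation. -/
theorem not_mem_cl {k K₀ L : Type*} [Field k] [IsAlgClosed k] [Field K₀] [Algebra k K₀] [Field L]
    [IsAlgClosed L] [Algebra k L] [Algebra K₀ L] [IsScalarTower k K₀ L] {ι : Type*} [Fintype ι]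
    (e : ι → K₀) (he : LinearIndependent k e) (b : ι) (hb : e b = 1) (s : L)
    (hs : s ∉ cl k (Set.range (algebraMap K₀ L))) (z : ι → L) (hz : ∀ j, z j ∈ cl k {s})
    (j₀ : ι) (hj₀ : j₀ ≠ b) (hz0 : z j₀ ≠ 0) : ∑ j, z j * algebraMap K₀ L (e j) ∉ cl k {s} := by
  classical
  intro hmem
  set ω := ∑ j, z j * algebraMap K₀ L (e j) with hω
  obtain ⟨V, hV, hVs⟩ := exists_val k hs
  set v := V.valuation with hv
  have h0F : cl k (∅ : Set L) ≤ cl k (Set.range (algebraMap K₀ L)) := cl_mono k (Set.empty_subset _)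
  have hRes0 : Res v (cl k (∅ : Set L)) (cl k {s}) := by
    have := res_cl (hV.mono h0F) hVs
    simpa using this
  set M := (algebraMap K₀ L).fieldRange with hM
  have hMle : M ≤ cl k (Set.range (algebraMap K₀ L)) := by
    intro x hx
    obtain ⟨y, rfl⟩ := hx
    exact subset_cl k _ ⟨y, rfl⟩
  have hMv : Triv v M := hV.mono hMle
  have h1 := gauss_le hRes0 Finset.univ (fun j => algebraMap K₀ L (e j))
    (fun j _ => hMv.le_one ⟨e j, rfl⟩) (by
      intro c hc ⟨j, _, hj⟩
      have hex : ∀ j, ∃ a : k, algebraMap k L a = c j :=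
        fun j => mem_cl_empty _ (hc j (Finset.mem_univ j))
      choose a ha using hex
      have h2 : ∑ j, c j * algebraMap K₀ L (e j) = algebraMap K₀ L (∑ j, a j • e j) := by
        rw [map_sum]
        apply Finset.sum_congr rfl
        intro j _
        rw [Algebra.smul_def, map_mul, ← IsScalarTower.algebraMap_apply, ha]
      rw [h2]
      apply hMv _ ⟨_, rfl⟩
      intro h0
      rw [map_eq_zero] at h0
      have h3 := (Fintype.linearIndependent_iff.mp he) a h0 j
      rw [← ha, h3, map_zero] at hj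
      exact hj rfl)
    (fun j => z j - if j = b then ω else 0) (by
      intro j _
      split_ifs
      · exact Subfield.sub_mem _ (hz j) hmem
      · rw [sub_zero]; exact hz j) j₀ (Finset.mem_univ _)
  have h2 : ∑ j, (z j - if j = b then ω else 0) * algebraMap K₀ L (e j) = 0 := by
    simp only [sub_mul, Finset.sum_sub_distrib]
    rw [← hω]
    simp [hb]
  rw [h2, map_zero, if_neg hj₀, sub_zero] at h1
  have h3 : v (z j₀) = 0 := le_antisymm h1 zero_le
  exact hz0 ((Valuation.zero_iff v).mp h3)

theorem transc_not_mem {k K₀ L : Type*} [Field k] [Field K₀] [Algebra k K₀] [Field L]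
    [Algebra k L] [Algebra K₀ L] [IsScalarTower k K₀ L] (s : L) (hs : Transcendental K₀ s) :
    s ∉ cl k (Set.range (algebraMap K₀ L)) := by
  intro h
  rw [mem_cl_iff] at h
  apply hs
  set M := (algebraMap K₀ L).fieldRange with hM
  have h1 : (IntermediateField.adjoin k (Set.range (algebraMap K₀ L))).toSubfield ≤ M := by
    intro y hy
    have h2 : IntermediateField.adjoin k (Set.range (algebraMap K₀ L)) ≤
        { toSubalgebra :=
            { toSubsemiring := M.toSubring.toSubsemiring
              algebraMap_mem' := by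
                intro r
                exact ⟨algebraMap k K₀ r, (IsScalarTower.algebraMap_apply k K₀ L r).symm⟩ }
          inv_mem' := fun y hy => M.inv_mem hy } := by
      rw [IntermediateField.adjoin_le_iff]
      rintro y ⟨x, rfl⟩
      exact ⟨x, rfl⟩
    exact h2 hy
  have h3 : IsAlgebraic M s := alg_mono h1 h
  refine alg_of_hom (F := M) (M := K₀) ((algebraMap K₀ L).rangeRestrictFieldEquiv.symm : M →+* K₀)
    ?_ h3
  ext x
  exact RingHom.rangeRestrictFieldEquiv_apply_symm_apply _ x

theorem exists_big (K₀ : Type u) [Field K₀] : ∃ (L : Type u) (_ : Field L) (_ : IsAlgClosed L)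
    (_ : Algebra K₀ L) (s : L), Transcendental K₀ s := by
  refine ⟨AlgebraicClosure (RatFunc K₀), inferInstance, inferInstance, inferInstance,
    algebraMap (RatFunc K₀) _ RatFunc.X, ?_⟩
  rw [transcendental_algebraMap_iff (algebraMap (RatFunc K₀) _).injective]
  exact RatFunc.transcendental_X

/-- If a plane curve over an algebraically closed field `k` has infinitely many nonconstant points
in a finite-dimensional `k`-subspace of an extension field, then it has a nonconstant Laurent
polynomial parametrisation. -/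
theorem function_field {k K₀ : Type*} [Field k] [IsAlgClosed k] [Field K₀] [Algebra k K₀]
    (f : MvPolynomial (Fin 2) k) (E : Submodule k K₀) [FiniteDimensional k E]
    (hS : {x : Fin 2 → K₀ | (∀ i, x i ∈ E) ∧ MvPolynomial.aeval x f = 0 ∧
      ∃ i, x i ∉ Set.range (algebraMap k K₀)}.Infinite) :
    ∃ Q : Fin 2 → LaurentPolynomial k, MvPolynomial.aeval Q f = 0 ∧
      ∃ i, ∀ c, Q i ≠ LaurentPolynomial.C c := by
  classical
  by_cases hf0 : f = 0
  · refine ⟨fun _ => LaurentPolynomial.T 1, by rw [hf0, map_zero], 0, ?_⟩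
    intro c hc
    have := congrArg (fun x : LaurentPolynomial k => x.coeff 1) hc
    simp at this
  set S := {x : Fin 2 → K₀ | (∀ i, x i ∈ E) ∧ MvPolynomial.aeval x f = 0 ∧
      ∃ i, x i ∉ Set.range (algebraMap k K₀)} with hSdef
  -- a basis containing `1`
  set E' := E ⊔ Submodule.span k {(1 : K₀)} with hE'
  obtain ⟨B, hBE, h1B, hEB, hBli⟩ := exists_linearIndepOn_extension (K := k) (v := (id : K₀ → K₀))
    (s := {(1 : K₀)}) (t := (E' : Set K₀)) (LinearIndepOn.singleton (by simp)) (by
      rw [Set.singleton_subset_iff]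
      exact Submodule.mem_sup_right (Submodule.mem_span_singleton_self _))
  simp only [id_eq, Set.image_id'] at hEB
  have hBli' : LinearIndependent k (Subtype.val : B → K₀) := hBli
  have hfd : FiniteDimensional k E' := Submodule.finiteDimensional_sup _ _
  have hBfin : Finite B := by
    have h1 : LinearIndependent k (fun b : B => (⟨b, hBE b.2⟩ : E')) := by
      apply LinearIndependent.of_comp E'.subtype
      exact hBli'
    exact h1.finite
  have := Fintype.ofFinite B
  set e : B → K₀ := Subtype.val with he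
  set b : B := ⟨1, h1B rfl⟩ with hb
  -- coordinates
  set X : (Fin 2 × B → k) → (Fin 2 → K₀) := fun a i => ∑ j, a (i, j) • e j with hX
  set T : Set (Fin 2 × B → k) := {a | X a ∈ S} with hT
  have hTinf : T.Infinite := by
    have himg : S ⊆ X '' T := by
      intro x hx
      have hex : ∀ i, ∃ c : B → k, ∑ j, c j • e j = x i := by
        intro i
        have h1 : x i ∈ Submodule.span k (Set.range e) := by
          rw [he, Subtype.range_coe]
          exact hEB (Submodule.mem_sup_left (hx.1 i))
        rwa [Submodule.mem_span_range_iff_exists_fun] at h1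
      choose c hc using hex
      refine ⟨fun p => c p.1 p.2, ?_, ?_⟩
      · have : X (fun p => c p.1 p.2) = x := by
          funext i
          exact hc i
        rw [hT, Set.mem_ofPred_eq, this]
        exact hx
      · funext i
        exact hc i
    intro hfin
    exact hS (Set.Finite.subset (hfin.image X) himg)
  -- the polynomial `G`
  set G : MvPolynomial (Fin 2 × B) K₀ := MvPolynomial.aeval
    (fun i => ∑ j, MvPolynomial.C (e j) * MvPolynomial.X (i, j)) f with hG
  have hTG : ∀ a ∈ T, MvPolynomial.eval (fun x => algebraMap k K₀ (a x)) G = 0 := by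
    intro a ha
    have h1 : MvPolynomial.eval (fun x => algebraMap k K₀ (a x)) G =
        (MvPolynomial.aeval (R := K₀) (fun x => algebraMap k K₀ (a x))).restrictScalars k G := by
      rw [AlgHom.restrictScalars_apply, MvPolynomial.aeval_eq_eval]
    rw [h1, hG, MvPolynomial.comp_aeval_apply]
    have h2 : (fun i => ((MvPolynomial.aeval (R := K₀)
        (fun x : Fin 2 × B => algebraMap k K₀ (a x))).restrictScalars k)
        (∑ j, MvPolynomial.C (e j) * MvPolynomial.X (i, j))) = X a := by
      funext i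
      rw [AlgHom.restrictScalars_apply, map_sum, hX]
      apply Finset.sum_congr rfl
      intro j _
      rw [map_mul, MvPolynomial.aeval_X, MvPolynomial.algHom_C, Algebra.smul_def, mul_comm]
      rfl
    rw [h2]
    exact ha.2.1
  set Bad : Set (Fin 2 × B) := {p | p.2 ≠ b} with hBad
  have hTB : ∀ a ∈ T, ∃ p ∈ Bad, a p ≠ 0 := by
    intro a ha
    obtain ⟨i, hi⟩ := ha.2.2
    by_contra hcon
    push Not at hcon
    apply hi
    refine ⟨a (i, b), ?_⟩
    rw [hX]
    simp only
    rw [Finset.sum_eq_single b]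
    · rw [Algebra.smul_def, hb, he, mul_one]
    · intro j _ hj
      rw [hcon (i, j) hj, zero_smul]
    · intro h
      exact absurd (Finset.mem_univ _) h
  -- the big field
  obtain ⟨L, _, _, _, s, hsK⟩ := exists_big K₀
  let : Algebra k L := ((algebraMap K₀ L).comp (algebraMap k K₀)).toAlgebra
  have : IsScalarTower k K₀ L := IsScalarTower.of_algebraMap_eq (fun _ => rfl)
  have hscl : s ∉ cl k (Set.range (algebraMap K₀ L)) := transc_not_mem s hsK
  have hsk : Transcendental k s := by
    intro h
    exact hsK (h.extendScalars (algebraMap k K₀).injective)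
  obtain ⟨z, hz, ⟨x₁, hx₁⟩, ⟨x₀, hx₀, hzx₀⟩, hzG⟩ := generic_point G T hTinf hTG Bad hTB s hsk
  -- the generic point
  set u : Fin 2 → L := fun i => ∑ j, z (i, j) * algebraMap K₀ L (e j) with hu
  have huf : MvPolynomial.aeval u f = 0 := by
    have h1 : MvPolynomial.aeval z G = (MvPolynomial.aeval (R := K₀) z).restrictScalars k G := rfl
    rw [h1, hG, MvPolynomial.comp_aeval_apply] at hzG
    rw [← hzG]
    congr 2
    funext i
    rw [AlgHom.restrictScalars_apply, map_sum, hu]
    apply Finset.sum_congr rfl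
    intro j _
    rw [map_mul, MvPolynomial.aeval_X, MvPolynomial.algHom_C, mul_comm]
  have hi₀ : u x₀.1 ∉ cl k {s} := by
    apply not_mem_cl e hBli' b rfl s hscl (fun j => z (x₀.1, j)) (fun j => hz _) x₀.2 hx₀
    exact hzx₀
  have heL : LinearIndependent k (fun j => algebraMap K₀ L (e j)) := by
    have h1 := hBli'.map' (IsScalarTower.toAlgHom k K₀ L).toLinearMap (by
      rw [LinearMap.ker_eq_bot]
      exact (algebraMap K₀ L).injective)
    exact h1
  obtain ⟨k₁, hk₁, P, hP, hPc⟩ := assembly (fun j => algebraMap K₀ L (e j)) heL s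
    (fun h => hscl (cl_mono k (by rintro _ ⟨j, rfl⟩; exact ⟨_, rfl⟩) h))
    (fun i j => z (i, j)) (fun i j => hz _) ⟨x₁.1, x₁.2, hx₁⟩ u (fun i => rfl) x₀.1 hi₀ f hf0 huf
  let : Algebra k k₁ := ((algebraMap k L).codRestrict k₁ hk₁).toAlgebra
  have hP' : MvPolynomial.aeval P f = 0 := by
    rw [← hP]
    exact (MvPolynomial.aeval_map_algebraMap k₁ P f).symm
  obtain ⟨Q, hQ, hQc⟩ := descent f P hP' x₀.1 hPc
  exact ⟨Q, hQ, x₀.1, hQc⟩

/-- Finiteness for curves without Laurent parametrisation. -/
theorem finite_of_no_param {k K₀ : Type*} [Field k] [IsAlgClosed k] [Field K₀] [Algebra k K₀]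
    (f : MvPolynomial (Fin 2) k)
    (hf : ∀ P : Fin 2 → LaurentPolynomial k, MvPolynomial.aeval P f = 0 →
      ∀ i, ∃ c, P i = LaurentPolynomial.C c)
    (W : Set K₀) (s : Finset K₀) (hWs : ∀ w ∈ W, w ∈ Submodule.span k (s : Set K₀))
    (hnc : ∀ w ∈ W, w ≠ 0 → w ∉ Set.range (algebraMap k K₀)) :
    {x : Fin 2 → K₀ | (∀ i, x i ∈ W) ∧ MvPolynomial.aeval x f = 0}.Finite := by
  classical
  by_contra hcon
  have hinf : ({x : Fin 2 → K₀ | (∀ i, x i ∈ W) ∧ MvPolynomial.aeval x f = 0} \ {0}).Infinite :=
    Set.Infinite.sdiff hcon (Set.finite_singleton 0)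
  set E : Submodule k K₀ := Submodule.span k (s : Set K₀) with hE
  have hEfd : FiniteDimensional k E := FiniteDimensional.span_finset k s
  have hsub : ({x : Fin 2 → K₀ | (∀ i, x i ∈ W) ∧ MvPolynomial.aeval x f = 0} \ {0}) ⊆
      {x : Fin 2 → K₀ | (∀ i, x i ∈ E) ∧ MvPolynomial.aeval x f = 0 ∧
        ∃ i, x i ∉ Set.range (algebraMap k K₀)} := by
    rintro x ⟨⟨hxW, hxf⟩, hx0⟩
    refine ⟨fun i => hWs _ (hxW i), hxf, ?_⟩
    by_contra hcon'
    push Not at hcon'
    apply hx0
    rw [Set.mem_singleton_iff]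
    funext i
    by_contra h0
    exact hnc _ (hxW i) h0 (hcon' i)
  obtain ⟨Q, hQ, i, hi⟩ := function_field f E (hinf.mono hsub)
  obtain ⟨c, hc⟩ := hf Q hQ i
  exact hi c hc

/-- The general statement, with irreducible factors. -/
theorem finite_outside {k K₀ : Type*} [Field k] [IsAlgClosed k] [Field K₀] [Algebra k K₀]
    (f : MvPolynomial (Fin 2) k) (hf0 : f ≠ 0)
    (W : Set K₀) (s : Finset K₀) (hWs : ∀ w ∈ W, w ∈ Submodule.span k (s : Set K₀))
    (hnc : ∀ w ∈ W, w ≠ 0 → w ∉ Set.range (algebraMap k K₀)) :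
    {x : Fin 2 → K₀ | (∀ i, x i ∈ W) ∧ MvPolynomial.aeval x f = 0 ∧
      ¬ ∃ g : MvPolynomial (Fin 2) k, Irreducible g ∧ g ∣ f ∧ MvPolynomial.aeval x g = 0 ∧
          ∃ P : Fin 2 → LaurentPolynomial k, MvPolynomial.aeval P g = 0 ∧
            ∃ i, ∀ c, P i ≠ LaurentPolynomial.C c}.Finite := by
  classical
  set F := (UniqueFactorizationMonoid.factors f).toFinset.filter (fun g =>
    ∀ P : Fin 2 → LaurentPolynomial k, MvPolynomial.aeval P g = 0 →
      ∀ i, ∃ c, P i = LaurentPolynomial.C c) with hF
  refine Set.Finite.subset (Set.Finite.biUnion F.finite_toSet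
    (t := fun g => {x : Fin 2 → K₀ | (∀ i, x i ∈ W) ∧ MvPolynomial.aeval x g = 0}) ?_) ?_
  · intro g hg
    exact finite_of_no_param g (Finset.mem_filter.mp hg).2 W s hWs hnc
  · rintro x ⟨hxW, hxf, hx⟩
    obtain ⟨u, hu⟩ := UniqueFactorizationMonoid.factors_prod hf0
    have h1 : MvPolynomial.aeval x (UniqueFactorizationMonoid.factors f).prod = 0 := by
      rw [← hu, map_mul] at hxf
      rcases mul_eq_zero.mp hxf with h | h
      · exact h
      · exact absurd h (IsUnit.ne_zero (u.isUnit.map (MvPolynomial.aeval x)))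
    rw [map_multiset_prod, Multiset.prod_eq_zero_iff, Multiset.mem_map] at h1
    obtain ⟨g, hg, hgx⟩ := h1
    have hirr := UniqueFactorizationMonoid.irreducible_of_factor g hg
    have hdvd := UniqueFactorizationMonoid.dvd_of_mem_factors hg
    rw [Set.mem_iUnion₂]
    refine ⟨g, ?_, hxW, hgx⟩
    rw [Finset.mem_coe, hF, Finset.mem_filter, Multiset.mem_toFinset]
    refine ⟨hg, ?_⟩
    intro P hP i
    by_contra hcon
    push Not at hcon
    exact hx ⟨g, hirr, hdvd, hgx, P, hP, i, hcon⟩

end Sieg
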