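import Mathlib
import Pool.Agent.Lib.MP_60829e_nt.SiegelMain
import Pool.Agent.Lib.MP_60829e_nt.BezIsol

/-! Explicit bound for the number of points. -/

open MvPolynomial

namespace Sieg

theorem totalDegree_subst {k K₀ : Type*} [Field k] [Field K₀] [Algebra k K₀] {τ υ : Type*}
    (f : MvPolynomial υ k) (L : υ → MvPolynomial τ K₀) (hL : ∀ i, (L i).totalDegree ≤ 1) :
    (MvPolynomial.aeval L f).totalDegree ≤ f.totalDegree := by
  rw [aeval_def, eval₂_eq]
  refine (totalDegree_finsetSum_le (d := f.totalDegree) ?_)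
  intro m hm
  refine (totalDegree_mul _ _).trans ?_
  have h1 : (algebraMap k (MvPolynomial τ K₀) (f.coeff m)).totalDegree = 0 := by
    rw [IsScalarTower.algebraMap_apply k K₀ (MvPolynomial τ K₀), algebraMap_eq, totalDegree_C]
  rw [h1, zero_add]
  refine (totalDegree_finset_prod _ _).trans ?_
  calc ∑ i ∈ m.support, (L i ^ m i).totalDegree ≤ ∑ i ∈ m.support, m i := by
        apply Finset.sum_le_sum
        intro i _
        refine (totalDegree_pow _ _).trans ?_
        calc m i * (L i).totalDegree ≤ m i * 1 := Nat.mul_le_mul_left _ (hL i)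
          _ = m i := mul_one _
    _ ≤ f.totalDegree := le_totalDegree hm

theorem totalDegree_lin {k K₀ : Type*} [Field k] [Field K₀] [Algebra k K₀] {τ : Type*}
    (μ : K₀ →ₗ[k] k) (G : MvPolynomial τ K₀) : (lin μ G).totalDegree ≤ G.totalDegree := by
  rw [lin]
  refine totalDegree_finsetSum_le ?_
  intro m hm
  refine (totalDegree_monomial_le _ _).trans ?_
  exact le_totalDegree hm

theorem point_count {k K₀ : Type*} [Field k] [IsAlgClosed k] [Field K₀] [Algebra k K₀]
    (f : MvPolynomial (Fin 2) k) {ι : Type*} [Fintype ι] (e : ι → K₀) (he : LinearIndependent k e)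
    (hfin : {x : Fin 2 → K₀ | (∀ i, x i ∈ Submodule.span k (Set.range e)) ∧
      MvPolynomial.aeval x f = 0 ∧ ∃ i, x i ∉ Set.range (algebraMap k K₀)}.Finite) :
    {x : Fin 2 → K₀ | (∀ i, x i ∈ Submodule.span k (Set.range e)) ∧
      MvPolynomial.aeval x f = 0 ∧ ∃ i, x i ∉ Set.range (algebraMap k K₀)}.encard ≤
        ((f.totalDegree ^ (2 * Fintype.card ι) : ℕ) : ℕ∞) := by
  classical
  set S := {x : Fin 2 → K₀ | (∀ i, x i ∈ Submodule.span k (Set.range e)) ∧
      MvPolynomial.aeval x f = 0 ∧ ∃ i, x i ∉ Set.range (algebraMap k K₀)} with hS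
  set X' : (Fin 2 × ι → k) → (Fin 2 → K₀) := fun a i => ∑ j, a (i, j) • e j with hX
  have hXinj : Function.Injective X' := by
    intro a b hab
    funext p
    have h1 := congrFun hab p.1
    have h2 : ∑ j, (a (p.1, j) - b (p.1, j)) • e j = 0 := by
      simp only [sub_smul, Finset.sum_sub_distrib]
      exact sub_eq_zero.mpr h1
    have h3 := (Fintype.linearIndependent_iff.mp he) _ h2 p.2
    exact sub_eq_zero.mp h3
  set G : MvPolynomial (Fin 2 × ι) K₀ := MvPolynomial.aeval
    (fun i => ∑ j, MvPolynomial.C (e j) * MvPolynomial.X (i, j)) f with hG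
  have hGeval : ∀ a : Fin 2 × ι → k, MvPolynomial.eval (fun x => algebraMap k K₀ (a x)) G =
      MvPolynomial.aeval (X' a) f := by
    intro a
    have h1 : MvPolynomial.eval (fun x => algebraMap k K₀ (a x)) G =
        (MvPolynomial.aeval (R := K₀) (fun x => algebraMap k K₀ (a x))).restrictScalars k G := by
      rw [AlgHom.restrictScalars_apply, MvPolynomial.aeval_eq_eval]
    rw [h1, hG, MvPolynomial.comp_aeval_apply]
    congr 2
    funext i
    rw [AlgHom.restrictScalars_apply, map_sum, hX]
    apply Finset.sum_congr rfl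
    intro j _
    rw [map_mul, MvPolynomial.aeval_X, MvPolynomial.algHom_C, Algebra.smul_def, mul_comm]
    rfl
  have hGdeg : G.totalDegree ≤ f.totalDegree := by
    apply totalDegree_subst
    intro i
    refine totalDegree_finsetSum_le ?_
    intro j _
    refine (totalDegree_mul _ _).trans ?_
    rw [totalDegree_C, totalDegree_X, zero_add]
  set F : Set (MvPolynomial (Fin 2 × ι) k) := Set.range (fun μ : K₀ →ₗ[k] k => lin μ G) with hF
  set B : Set (MvPolynomial (Fin 2 × ι) k) := {l | ∃ (i : Fin 2) (ν : K₀ →ₗ[k] k), ν 1 = 0 ∧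
    l = ∑ j, MvPolynomial.C (ν (e j)) * MvPolynomial.X (i, j)} with hB
  have hBeval : ∀ (a : Fin 2 × ι → k) (i : Fin 2) (ν : K₀ →ₗ[k] k),
      MvPolynomial.eval a (∑ j, MvPolynomial.C (ν (e j)) * MvPolynomial.X (i, j)) = ν (X' a i) := by
    intro a i ν
    rw [map_sum, hX]
    simp only [map_sum, map_smul, smul_eq_mul]
    apply Finset.sum_congr rfl
    intro j _
    rw [map_mul, eval_C, eval_X, mul_comm]
  have hT : {a : Fin 2 × ι → k | (∀ p ∈ F, eval a p = 0) ∧ ∃ l ∈ B, eval a l ≠ 0} = X' ⁻¹' S := by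
    ext a
    simp only [Set.mem_ofPred_eq, Set.mem_preimage]
    constructor
    · rintro ⟨h1, l, ⟨i, ν, hν, rfl⟩, hl⟩
      refine ⟨?_, ?_, i, ?_⟩
      · intro i
        exact Submodule.sum_mem _ fun j _ => Submodule.smul_mem _ _ (Submodule.subset_span ⟨j, rfl⟩)
      · rw [← hGeval, ← Module.forall_dual_apply_eq_zero_iff k]
        intro μ
        have := h1 _ ⟨μ, rfl⟩
        rwa [eval_lin] at this
      · rintro ⟨c, hc⟩
        apply hl
        rw [hBeval, ← hc, Algebra.algebraMap_eq_smul_one, map_smul, hν, smul_zero]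
    · rintro ⟨-, h2, i, hi⟩
      refine ⟨?_, ?_⟩
      · rintro _ ⟨μ, rfl⟩
        rw [eval_lin, hGeval, h2, map_zero]
      · have hni : X' a i ∉ Submodule.span k {(1 : K₀)} := by
          intro h
          rw [Submodule.mem_span_singleton] at h
          obtain ⟨c, hc⟩ := h
          exact hi ⟨c, by rw [Algebra.algebraMap_eq_smul_one, hc]⟩
        obtain ⟨ν, hν1, hν2⟩ := Submodule.exists_le_ker_of_notMem hni
        refine ⟨_, ⟨i, ν, ?_, rfl⟩, ?_⟩
        · exact hν2 (Submodule.mem_span_singleton_self _)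
        · rw [hBeval]
          exact hν1
  have hTfin : (X' ⁻¹' S).Finite := hfin.preimage hXinj.injOn
  have hd : ∀ p ∈ F, p.totalDegree ≤ f.totalDegree := by
    rintro _ ⟨μ, rfl⟩
    exact (totalDegree_lin μ G).trans hGdeg
  have hbound := Bez.finite_open_bound F B f.totalDegree hd (by rw [hT]; exact hTfin)
  have hcard : Nat.card (Fin 2 × ι) = 2 * Fintype.card ι := by
    rw [Nat.card_prod, Nat.card_eq_fintype_card, Fintype.card_fin, Nat.card_eq_fintype_card]
  rw [hcard] at hbound
  have himg : S ⊆ X' '' (X' ⁻¹' S) := by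
    intro x hx
    have hex : ∀ i, ∃ c : ι → k, ∑ j, c j • e j = x i := by
      intro i
      exact (Submodule.mem_span_range_iff_exists_fun k).mp (hx.1 i)
    choose c hc using hex
    have : X' (fun p => c p.1 p.2) = x := by
      funext i
      exact hc i
    exact ⟨fun p => c p.1 p.2, by rw [Set.mem_preimage, this]; exact hx, this⟩
  calc S.encard ≤ (X' '' (X' ⁻¹' S)).encard := Set.encard_le_encard himg
    _ ≤ (X' ⁻¹' S).encard := Set.encard_image_le _ _
    _ = hTfin.toFinset.card := by rw [hTfin.encard_eq_coe_toFinset_card]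
    _ ≤ ((f.totalDegree ^ (2 * Fintype.card ι) : ℕ) : ℕ∞) := by
        have h1 : hTfin.toFinset.card ≤ f.totalDegree ^ (2 * Fintype.card ι) := by
          refine le_trans (le_of_eq ?_) hbound
          congr 1
          ext a
          simp only [Set.Finite.mem_toFinset, hT]
        exact_mod_cast h1

end Sieg
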