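import Mathlib
import Pool.Agent.Lib.MP_60829e_nt.SiegelMain
import Pool.Agent.Lib.MP_60829e_nt.SiegelCount

/-! Explicit bound, with factors. -/

open MvPolynomial

namespace Sieg

theorem bound_no_param {k K₀ : Type*} [Field k] [IsAlgClosed k] [Field K₀] [Algebra k K₀]
    (f : MvPolynomial (Fin 2) k)
    (hf : ∀ P : Fin 2 → LaurentPolynomial k, MvPolynomial.aeval P f = 0 →
      ∀ i, ∃ c, P i = LaurentPolynomial.C c)
    (W : Set K₀) (s : Finset K₀) (hWs : ∀ w ∈ W, w ∈ Submodule.span k (s : Set K₀))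
    (hnc : ∀ w ∈ W, w ≠ 0 → w ∉ Set.range (algebraMap k K₀)) :
    {x : Fin 2 → K₀ | (∀ i, x i ∈ W) ∧ x ≠ 0 ∧ MvPolynomial.aeval x f = 0}.encard ≤
      ((f.totalDegree ^ (2 * s.card) : ℕ) : ℕ∞) := by
  classical
  by_cases hdeg : f.totalDegree = 0
  · -- constants
    obtain ⟨c, rfl⟩ : ∃ c, f = MvPolynomial.C c := ⟨_, totalDegree_eq_zero_iff_eq_C.mp hdeg⟩
    have hc : c ≠ 0 := by
      rintro rfl
      obtain ⟨c, hc⟩ := hf (fun _ => LaurentPolynomial.T 1) (by simp) 0
      have := congrArg (fun x : LaurentPolynomial k => x.coeff 1) hc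
      simp at this
    have : {x : Fin 2 → K₀ | (∀ i, x i ∈ W) ∧ x ≠ 0 ∧
        MvPolynomial.aeval x (MvPolynomial.C c : MvPolynomial (Fin 2) k) = 0} = ∅ := by
      ext x
      simp only [Set.mem_ofPred_eq, Set.mem_empty_iff_false, iff_false]
      rintro ⟨-, -, h⟩
      rw [algHom_C, map_eq_zero] at h
      exact hc h
    rw [this]
    simp
  -- a basis of the span
  obtain ⟨B, hBs, hBspan, hBli⟩ := exists_linearIndependent k (s : Set K₀)
  have hBfin : B.Finite := s.finite_toSet.subset hBs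
  have := hBfin.fintype
  have hcard : Fintype.card B ≤ s.card := by
    rw [← Set.toFinset_card]
    apply Finset.card_le_card
    intro x hx
    exact hBs (Set.mem_toFinset.mp hx)
  have hspan : Submodule.span k (Set.range (Subtype.val : B → K₀)) = Submodule.span k (s : Set K₀) := by
    rw [Subtype.range_coe, hBspan]
  have hfd : FiniteDimensional k (Submodule.span k (s : Set K₀)) :=
    FiniteDimensional.span_finset k s
  have hfin : {x : Fin 2 → K₀ | (∀ i, x i ∈ Submodule.span k (Set.range (Subtype.val : B → K₀))) ∧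
      MvPolynomial.aeval x f = 0 ∧ ∃ i, x i ∉ Set.range (algebraMap k K₀)}.Finite := by
    rw [hspan]
    by_contra hcon
    obtain ⟨Q, hQ, i, hi⟩ := function_field f _ hcon
    obtain ⟨c, hc⟩ := hf Q hQ i
    exact hi c hc
  have hbound := point_count f (Subtype.val : B → K₀) hBli hfin
  refine le_trans (Set.encard_le_encard ?_) (hbound.trans ?_)
  · rintro x ⟨hxW, hx0, hxf⟩
    refine ⟨fun i => ?_, hxf, ?_⟩
    · rw [hspan]
      exact hWs _ (hxW i)
    · by_contra hcon
      push Not at hcon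
      apply hx0
      funext i
      by_contra h0
      exact hnc _ (hxW i) h0 (hcon i)
  · have : f.totalDegree ^ (2 * Fintype.card B) ≤ f.totalDegree ^ (2 * s.card) :=
      Nat.pow_le_pow_right (Nat.pos_of_ne_zero hdeg) (by omega)
    exact_mod_cast this

theorem pow_add_pow_le (a b m : ℕ) (hm : m ≠ 0) : a ^ m + b ^ m ≤ (a + b) ^ m := by
  obtain ⟨m, rfl⟩ := Nat.exists_eq_succ_of_ne_zero hm
  calc a ^ (m + 1) + b ^ (m + 1) = a ^ m * a + b ^ m * b := by rw [pow_succ, pow_succ]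
    _ ≤ (a + b) ^ m * a + (a + b) ^ m * b := by
        gcongr <;> omega
    _ = (a + b) ^ (m + 1) := by rw [pow_succ]; ring

/-- The exceptional zeros: those not on a component with a Laurent parametrisation. -/
theorem bound_outside {k K₀ : Type*} [Field k] [IsAlgClosed k] [Field K₀] [Algebra k K₀]
    (W : Set K₀) (s : Finset K₀) (hs : s.card ≠ 0)
    (hWs : ∀ w ∈ W, w ∈ Submodule.span k (s : Set K₀))
    (hnc : ∀ w ∈ W, w ≠ 0 → w ∉ Set.range (algebraMap k K₀))
    (f : MvPolynomial (Fin 2) k) (hf0 : f ≠ 0) :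
    {x : Fin 2 → K₀ | (∀ i, x i ∈ W) ∧ x ≠ 0 ∧ MvPolynomial.aeval x f = 0 ∧
      ¬ ∃ g : MvPolynomial (Fin 2) k, Irreducible g ∧ g ∣ f ∧ MvPolynomial.aeval x g = 0 ∧
          ∃ P : Fin 2 → LaurentPolynomial k, MvPolynomial.aeval P g = 0 ∧
            ∃ i, ∀ c, P i ≠ LaurentPolynomial.C c}.encard ≤
      ((f.totalDegree ^ (2 * s.card) : ℕ) : ℕ∞) := by
  classical
  induction f using WfDvdMonoid.induction_on_irreducible with
  | zero => exact absurd rfl hf0
  | unit u hu =>
    have : {x : Fin 2 → K₀ | (∀ i, x i ∈ W) ∧ x ≠ 0 ∧ MvPolynomial.aeval x u = 0 ∧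
      ¬ ∃ g : MvPolynomial (Fin 2) k, Irreducible g ∧ g ∣ u ∧ MvPolynomial.aeval x g = 0 ∧
          ∃ P : Fin 2 → LaurentPolynomial k, MvPolynomial.aeval P g = 0 ∧
            ∃ i, ∀ c, P i ≠ LaurentPolynomial.C c} = ∅ := by
      ext x
      simp only [Set.mem_ofPred_eq, Set.mem_empty_iff_false, iff_false]
      rintro ⟨-, -, h, -⟩
      exact absurd h (IsUnit.ne_zero (hu.map (MvPolynomial.aeval x)))
    rw [this]
    simp
  | mul a p ha hp ih =>
    have hd : (p * a).totalDegree = p.totalDegree + a.totalDegree :=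
      totalDegree_mul_of_isDomain hp.ne_zero ha
    have hpb : {x : Fin 2 → K₀ | (∀ i, x i ∈ W) ∧ x ≠ 0 ∧ MvPolynomial.aeval x p = 0 ∧
      ¬ ∃ g : MvPolynomial (Fin 2) k, Irreducible g ∧ g ∣ p ∧ MvPolynomial.aeval x g = 0 ∧
          ∃ P : Fin 2 → LaurentPolynomial k, MvPolynomial.aeval P g = 0 ∧
            ∃ i, ∀ c, P i ≠ LaurentPolynomial.C c}.encard ≤
      ((p.totalDegree ^ (2 * s.card) : ℕ) : ℕ∞) := by
      by_cases hpar : ∃ P : Fin 2 → LaurentPolynomial k, MvPolynomial.aeval P p = 0 ∧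
            ∃ i, ∀ c, P i ≠ LaurentPolynomial.C c
      · have : {x : Fin 2 → K₀ | (∀ i, x i ∈ W) ∧ x ≠ 0 ∧ MvPolynomial.aeval x p = 0 ∧
          ¬ ∃ g : MvPolynomial (Fin 2) k, Irreducible g ∧ g ∣ p ∧ MvPolynomial.aeval x g = 0 ∧
          ∃ P : Fin 2 → LaurentPolynomial k, MvPolynomial.aeval P g = 0 ∧
            ∃ i, ∀ c, P i ≠ LaurentPolynomial.C c} = ∅ := by
          ext x
          simp only [Set.mem_ofPred_eq, Set.mem_empty_iff_false, iff_false]
          rintro ⟨-, -, h, h'⟩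
          exact h' ⟨p, hp, dvd_rfl, h, hpar⟩
        rw [this]
        simp
      · push Not at hpar
        refine le_trans (Set.encard_le_encard ?_) (bound_no_param p hpar W s hWs hnc)
        rintro x ⟨h1, h2, h3, -⟩
        exact ⟨h1, h2, h3⟩
    refine le_trans (Set.encard_le_encard ?_) ((Set.encard_union_le _ _).trans
      ((add_le_add hpb (ih ha)).trans ?_))
    · rintro x ⟨h1, h2, h3, h4⟩
      rw [map_mul] at h3
      rcases mul_eq_zero.mp h3 with h5 | h5
      · left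
        refine ⟨h1, h2, h5, ?_⟩
        rintro ⟨g, hg, hgp, hgx, hgP⟩
        exact h4 ⟨g, hg, hgp.mul_right a, hgx, hgP⟩
      · right
        refine ⟨h1, h2, h5, ?_⟩
        rintro ⟨g, hg, hgp, hgx, hgP⟩
        exact h4 ⟨g, hg, hgp.mul_left p, hgx, hgP⟩
    · rw [hd]
      have := pow_add_pow_le p.totalDegree a.totalDegree (2 * s.card) (by omega)
      exact_mod_cast this

end Sieg
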