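import Mathlib
import Pool.Agent.Lib.MP_60829e_nt.HL
import Pool.Agent.Lib.MP_60829e_nt.SiegelBound

namespace Sieg

open MvPolynomial

/-- General form: `W` any `ℚ`-subspace of `ℂ` whose nonzero elements are transcendental and which
lies in the `ℚ̄`-span of the finite set `s`. -/
theorem finite_bound_gen :
    ∀ f : MvPolynomial (Fin 2) (algebraicClosure ℚ ℂ), f ≠ 0 →
    ∀ (W : Set ℂ) (s : Finset ℂ), (∀ w ∈ W, w ∈ Submodule.span (algebraicClosure ℚ ℂ) (s : Set ℂ)) →
      (∀ w ∈ W, w ≠ 0 → Transcendental ℚ w) →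
      {x : Fin 2 → ℂ | (∀ i, x i ∈ W) ∧ x ≠ 0 ∧ aeval x f = 0 ∧
        ¬ ∃ g : MvPolynomial (Fin 2) (algebraicClosure ℚ ℂ), Irreducible g ∧ g ∣ f ∧
          aeval x g = 0 ∧
          ∃ P : Fin 2 → LaurentPolynomial (algebraicClosure ℚ ℂ), aeval P g = 0 ∧
            ∃ i, ∀ c, P i ≠ LaurentPolynomial.C c}.encard ≤
      ((f.totalDegree ^ (2 * s.card) : ℕ) : ℕ∞) := by
  classical
  intro f hf W s hWs htr
  have hclosed : IsAlgClosed (algebraicClosure ℚ ℂ) :=
    (algebraicClosure.isAlgClosure ℚ ℂ).isAlgClosed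
  by_cases hd : s.card = 0
  · have : {x : Fin 2 → ℂ | (∀ i, x i ∈ W) ∧ x ≠ 0 ∧ aeval x f = 0 ∧
        ¬ ∃ g : MvPolynomial (Fin 2) (algebraicClosure ℚ ℂ), Irreducible g ∧ g ∣ f ∧
          aeval x g = 0 ∧
          ∃ P : Fin 2 → LaurentPolynomial (algebraicClosure ℚ ℂ), aeval P g = 0 ∧
            ∃ i, ∀ c, P i ≠ LaurentPolynomial.C c} = ∅ := by
      ext x
      simp only [Set.mem_ofPred_eq, Set.mem_empty_iff_false, iff_false]
      rintro ⟨h1, h2, -⟩
      apply h2
      funext i
      have := hWs _ (h1 i)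
      rw [Finset.card_eq_zero] at hd
      rw [hd] at this
      simpa using this
    rw [this]
    simp
  refine Sieg.bound_outside W s hd hWs ?_ f hf
  rintro w hw hw0 ⟨c, rfl⟩
  have h1 : IsAlgebraic ℚ (algebraMap (algebraicClosure ℚ ℂ) ℂ c) :=
    mem_algebraicClosure_iff.mp c.2
  exact htr _ hw hw0 h1

/-- For every nonzero polynomial `f` in two variables with algebraic coefficients and every
finite-dimensional `ℚ`-vector space `W` of logarithms of algebraic numbers, all but at most
`(deg f) ^ (2 dim W)` of the nonzero zeros of `f` in `W²` are zeros of an irreducible factor `g`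
of `f` which has a nonconstant zero in Laurent polynomials over the algebraic numbers. -/
theorem finite_bound :
    ∀ f : MvPolynomial (Fin 2) (algebraicClosure ℚ ℂ), f ≠ 0 →
    ∀ W : Submodule ℚ ℂ, FiniteDimensional ℚ W → (∀ w ∈ W, IsAlgebraic ℚ (Complex.exp w)) →
      {x : Fin 2 → ℂ | (∀ i, x i ∈ W) ∧ x ≠ 0 ∧ aeval x f = 0 ∧
        ¬ ∃ g : MvPolynomial (Fin 2) (algebraicClosure ℚ ℂ), Irreducible g ∧ g ∣ f ∧
          aeval x g = 0 ∧
          ∃ P : Fin 2 → LaurentPolynomial (algebraicClosure ℚ ℂ), aeval P g = 0 ∧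
            ∃ i, ∀ c, P i ≠ LaurentPolynomial.C c}.encard ≤
      ((f.totalDegree ^ (2 * Module.finrank ℚ W) : ℕ) : ℕ∞) := by
  classical
  intro f hf W hW hlog
  let b := Module.finBasis ℚ W
  let s : Finset ℂ := Finset.univ.image (fun i => ((b i : W) : ℂ))
  have hcard : s.card = Module.finrank ℚ W := by
    rw [Finset.card_image_of_injective]
    · simp
    · intro i j hij
      exact b.injective (Subtype.ext hij)
  have hspan : ∀ w ∈ W, w ∈ Submodule.span ℚ (s : Set ℂ) := by
    intro w hw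
    have h1 : (⟨w, hw⟩ : W) ∈ Submodule.span ℚ (Set.range b) := by
      rw [b.span_eq]; trivial
    have h2 := Submodule.mem_map_of_mem (f := W.subtype) h1
    rw [Submodule.map_span] at h2
    have h3 : W.subtype '' Set.range b = (s : Set ℂ) := by
      ext y
      simp [s]
    rw [h3] at h2
    exact h2
  rw [← hcard]
  refine finite_bound_gen f hf (W : Set ℂ) s ?_ ?_
  · intro w hw
    have h2 : w ∈ Submodule.span ℚ (s : Set ℂ) := hspan w hw
    refine Submodule.span_induction (p := fun w _ => w ∈ Submodule.span (algebraicClosure ℚ ℂ)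
      (s : Set ℂ)) ?_ ?_ ?_ ?_ h2
    · intro x hx
      exact Submodule.subset_span hx
    · exact Submodule.zero_mem _
    · intro x y _ _ hx hy
      exact Submodule.add_mem _ hx hy
    · intro q x _ hx
      have h3 : q • x = (algebraMap ℚ (algebraicClosure ℚ ℂ) q) • x := by
        rw [Algebra.smul_def, Algebra.smul_def]
        congr 1
      rw [h3]
      exact Submodule.smul_mem _ _ hx
  · intro w hw hw0 halg
    exact MP60829e.hermite_lindemann hw0 halg (hlog _ hw)

end Sieg
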